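import Pool.Agent.Lib.MP_a260de_nt.Spec

set_option autoImplicit false

namespace Pool.Agent.Lib.MP_a260de_nt

namespace Avgaux

open Finset

/-- Residues of small order. -/
theorem card_small (p : ℕ) [Fact p.Prime] (T : ℝ) (hT : 0 ≤ T) :
    (((Finset.univ : Finset (ZMod p)).filter
      (fun u => 0 < orderOf u ∧ (orderOf u : ℝ) ≤ T)).card : ℝ) ≤ T * (p - 1).divisors.card := by
  classical
  have hp : p.Prime := Fact.out
  have hsub : (Finset.univ : Finset (ZMod p)).filter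
      (fun u => 0 < orderOf u ∧ (orderOf u : ℝ) ≤ T) ⊆
      ((p - 1).divisors.filter (fun d : ℕ => (d : ℝ) ≤ T)).biUnion
        (fun d => (Polynomial.nthRoots d (1 : ZMod p)).toFinset) := by
    intro u hu
    rw [Finset.mem_filter] at hu
    obtain ⟨-, h0, hle⟩ := hu
    rw [Finset.mem_biUnion]
    refine ⟨orderOf u, ?_, ?_⟩
    · rw [Finset.mem_filter, Nat.mem_divisors]
      refine ⟨⟨?_, ?_⟩, hle⟩
      · have hu0 : u ≠ 0 := by
          rintro rfl
          have h1 : (0 : ZMod p) ^ (orderOf (0 : ZMod p)) = 1 := pow_orderOf_eq_one _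
          rw [zero_pow h0.ne'] at h1
          exact zero_ne_one h1
        exact orderOf_dvd_of_pow_eq_one (ZMod.pow_card_sub_one_eq_one hu0)
      · have := hp.two_le
        omega
    · rw [Multiset.mem_toFinset, Polynomial.mem_nthRoots h0]
      exact pow_orderOf_eq_one u
  have h1 := Finset.card_le_card hsub
  have h2 : (((p - 1).divisors.filter (fun d : ℕ => (d : ℝ) ≤ T)).biUnion
        (fun d => (Polynomial.nthRoots d (1 : ZMod p)).toFinset)).card ≤
      ∑ d ∈ (p - 1).divisors.filter (fun d : ℕ => (d : ℝ) ≤ T), d := by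
    refine Finset.card_biUnion_le.trans (Finset.sum_le_sum fun d _ => ?_)
    exact (Multiset.toFinset_card_le _).trans (Polynomial.card_nthRoots d 1)
  have h3 : ((∑ d ∈ (p - 1).divisors.filter (fun d : ℕ => (d : ℝ) ≤ T), d : ℕ) : ℝ) ≤
      T * (p - 1).divisors.card := by
    rw [Nat.cast_sum]
    calc ∑ d ∈ (p - 1).divisors.filter (fun d : ℕ => (d : ℝ) ≤ T), (d : ℝ)
        ≤ ∑ d ∈ (p - 1).divisors.filter (fun d : ℕ => (d : ℝ) ≤ T), T :=
          Finset.sum_le_sum fun d hd => (Finset.mem_filter.mp hd).2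
      _ = T * ((p - 1).divisors.filter (fun d : ℕ => (d : ℝ) ≤ T)).card := by
          rw [Finset.sum_const, nsmul_eq_mul, mul_comm]
      _ ≤ T * (p - 1).divisors.card :=
          mul_le_mul_of_nonneg_left (by exact_mod_cast Finset.card_filter_le _ _) hT
  calc (((Finset.univ : Finset (ZMod p)).filter
      (fun u => 0 < orderOf u ∧ (orderOf u : ℝ) ≤ T)).card : ℝ)
      ≤ ((∑ d ∈ (p - 1).divisors.filter (fun d : ℕ => (d : ℝ) ≤ T), d : ℕ) : ℝ) := by
        exact_mod_cast h1.trans h2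
    _ ≤ _ := h3

/-- Representatives of a residue in `[-A, A]`. -/
theorem card_reps (p A : ℕ) (hp : 0 < p) (hpA : p ≤ A) (u : ZMod p) :
    (((Finset.Icc (-(A : ℤ)) A).filter (fun a : ℤ => (a : ZMod p) = u)).card : ℝ) ≤
      4 * A / p := by
  classical
  have : NeZero p := ⟨hp.ne'⟩
  have hpr : (0 : ℝ) < p := by exact_mod_cast hp
  have heq : (Finset.Icc (-(A : ℤ)) A).filter (fun a : ℤ => (a : ZMod p) = u) =
      (Finset.Ioc (-(A : ℤ) - 1) A).filter (fun a : ℤ => a ≡ (u.val : ℤ) [ZMOD (p : ℤ)]) := by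
    ext a
    simp only [Finset.mem_filter, Finset.mem_Icc, Finset.mem_Ioc]
    have h1 : (a : ZMod p) = u ↔ a ≡ (u.val : ℤ) [ZMOD (p : ℤ)] := by
      rw [← ZMod.intCast_eq_intCast_iff]
      simp
    rw [h1]
    constructor
    · rintro ⟨⟨h2, h3⟩, h4⟩
      exact ⟨⟨by omega, h3⟩, h4⟩
    · rintro ⟨⟨h2, h3⟩, h4⟩
      exact ⟨⟨by omega, h3⟩, h4⟩
  rw [heq]
  have hcard := Int.Ioc_filter_modEq_card (-(A : ℤ) - 1) A (r := (p : ℤ)) (by exact_mod_cast hp)
    (u.val : ℤ)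
  have hreal : (((Finset.Ioc (-(A : ℤ) - 1) A).filter
      (fun a : ℤ => a ≡ (u.val : ℤ) [ZMOD (p : ℤ)])).card : ℚ) ≤ (2 * A + 1) / p + 1 := by
    have h5 : (((Finset.Ioc (-(A : ℤ) - 1) A).filter
      (fun a : ℤ => a ≡ (u.val : ℤ) [ZMOD (p : ℤ)])).card : ℚ) =
      (((((Finset.Ioc (-(A : ℤ) - 1) A).filter
      (fun a : ℤ => a ≡ (u.val : ℤ) [ZMOD (p : ℤ)])).card : ℤ)) : ℚ) := by push_cast; rfl
    rw [h5, hcard]
    push_cast
    have hpq : (0 : ℚ) < p := by exact_mod_cast hp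
    refine max_le ?_ (by positivity)
    have h6 := Int.floor_le (((A : ℚ) - (u.val : ℚ)) / (p : ℚ))
    have h7 := Int.lt_floor_add_one ((-(A : ℚ) - 1 - (u.val : ℚ)) / (p : ℚ))
    have h8 : ((A : ℚ) - (u.val : ℚ)) / (p : ℚ) - (-(A : ℚ) - 1 - (u.val : ℚ)) / (p : ℚ) =
        (2 * A + 1) / p := by
      rw [← sub_div]; congr 1; ring
    linarith
  have h9 : (((Finset.Ioc (-(A : ℤ) - 1) A).filter
      (fun a : ℤ => a ≡ (u.val : ℤ) [ZMOD (p : ℤ)])).card : ℝ) ≤ (2 * A + 1) / p + 1 := by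
    have h12 := (Rat.cast_le (K := ℝ)).mpr hreal
    push_cast at h12
    exact h12
  refine h9.trans ?_
  rw [div_add_one hpr.ne', div_le_div_iff_of_pos_right hpr]
  have h10 : (p : ℝ) ≤ A := by exact_mod_cast hpA
  have h11 : (1 : ℝ) ≤ p := by exact_mod_cast hp
  linarith

/-- The number of bases with a small order modulo `p`. -/
theorem card_bases (p A : ℕ) [Fact p.Prime] (hpA : p ≤ A) (T : ℝ) (hT : 0 ≤ T) :
    (((Finset.Icc (-(A : ℤ)) A).filter
      (fun a : ℤ => 0 < od a p ∧ (od a p : ℝ) ≤ T)).card : ℝ) ≤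
      T * (p - 1).divisors.card * (4 * A / p) := by
  classical
  have hp : p.Prime := Fact.out
  have hsub : (Finset.Icc (-(A : ℤ)) A).filter (fun a : ℤ => 0 < od a p ∧ (od a p : ℝ) ≤ T) ⊆
      ((Finset.univ : Finset (ZMod p)).filter
      (fun u => 0 < orderOf u ∧ (orderOf u : ℝ) ≤ T)).biUnion
        (fun u => (Finset.Icc (-(A : ℤ)) A).filter (fun a : ℤ => (a : ZMod p) = u)) := by
    intro a ha
    rw [Finset.mem_filter] at ha
    rw [Finset.mem_biUnion]
    refine ⟨(a : ZMod p), ?_, ?_⟩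
    · rw [Finset.mem_filter]
      exact ⟨Finset.mem_univ _, ha.2⟩
    · rw [Finset.mem_filter]
      exact ⟨ha.1, rfl⟩
  have h1 : (((Finset.Icc (-(A : ℤ)) A).filter
      (fun a : ℤ => 0 < od a p ∧ (od a p : ℝ) ≤ T)).card : ℝ) ≤
      ((∑ u ∈ (Finset.univ : Finset (ZMod p)).filter
      (fun u => 0 < orderOf u ∧ (orderOf u : ℝ) ≤ T),
        ((Finset.Icc (-(A : ℤ)) A).filter (fun a : ℤ => (a : ZMod p) = u)).card : ℕ) : ℝ) := by
    exact_mod_cast (Finset.card_le_card hsub).trans Finset.card_biUnion_le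
  refine h1.trans ?_
  rw [Nat.cast_sum]
  refine (Finset.sum_le_sum fun u _ => card_reps p A hp.pos hpA u).trans ?_
  rw [Finset.sum_const, nsmul_eq_mul]
  exact mul_le_mul_of_nonneg_right (card_small p T hT) (by positivity)

/-- The divisor sum. -/
theorem tau_sum (c : ℝ) (A : ℕ) :
    ∑ n ∈ Finset.Icc 1 A, (n : ℝ) ^ c * (n.divisors.card : ℝ) ≤
      (∑ k ∈ Finset.Icc 1 A, (k : ℝ) ^ c) ^ 2 := by
  classical
  have h1 : ∀ n ∈ Finset.Icc 1 A, (n : ℝ) ^ c * (n.divisors.card : ℝ) =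
      ∑ q ∈ n.divisorsAntidiagonal, (q.1 : ℝ) ^ c * (q.2 : ℝ) ^ c := by
    intro n _
    have h0 : (n.divisors.card : ℝ) = ((n.divisorsAntidiagonal).card : ℝ) := by
      rw [← Nat.map_div_right_divisors, Finset.card_map]
    rw [h0]
    calc (n : ℝ) ^ c * ((n.divisorsAntidiagonal).card : ℝ)
        = ∑ q ∈ n.divisorsAntidiagonal, (n : ℝ) ^ c := by
          rw [Finset.sum_const, nsmul_eq_mul, mul_comm]
      _ = _ := by
          refine Finset.sum_congr rfl fun q hq => ?_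
          rw [Nat.mem_divisorsAntidiagonal] at hq
          rw [← hq.1, Nat.cast_mul, Real.mul_rpow (Nat.cast_nonneg _) (Nat.cast_nonneg _)]
  rw [Finset.sum_congr rfl h1, Finset.sum_sigma', sq, Finset.sum_mul_sum, ← Finset.sum_product']
  have hinj : Set.InjOn (fun x : (Sigma (fun _ : ℕ => ℕ × ℕ)) => x.2)
      (((Finset.Icc 1 A).sigma fun n => n.divisorsAntidiagonal : Finset (Sigma (fun _ : ℕ => ℕ × ℕ))) :
        Set (Sigma (fun _ : ℕ => ℕ × ℕ))) := by
    rintro ⟨n, q⟩ hx ⟨m, r⟩ hy hxy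
    simp only [Finset.coe_sigma, Set.mem_sigma_iff, Finset.mem_coe,
      Nat.mem_divisorsAntidiagonal] at hx hy
    simp only at hxy
    subst hxy
    have : n = m := hx.2.1.symm.trans hy.2.1
    subst this
    rfl
  rw [← Finset.sum_image (s := ((Finset.Icc 1 A).sigma fun n => n.divisorsAntidiagonal))
    (g := fun x : (Sigma (fun _ : ℕ => ℕ × ℕ)) => x.2)
    (f := fun q : ℕ × ℕ => (q.1 : ℝ) ^ c * (q.2 : ℝ) ^ c) hinj]
  refine Finset.sum_le_sum_of_subset_of_nonneg ?_ (fun q _ _ => by positivity)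
  intro q hq
  rw [Finset.mem_image] at hq
  obtain ⟨⟨n, r⟩, hx, rfl⟩ := hq
  rw [Finset.mem_sigma, Nat.mem_divisorsAntidiagonal, Finset.mem_Icc] at hx
  obtain ⟨⟨h2, h3⟩, h4, h5⟩ := hx
  simp only at h2 h3 h4 h5
  show r ∈ _
  rw [Finset.mem_product, Finset.mem_Icc, Finset.mem_Icc]
  have h6 : r.1 ≠ 0 := by rintro h; rw [h, zero_mul] at h4; exact h5 h4.symm
  have h7 : r.2 ≠ 0 := by rintro h; rw [h, mul_zero] at h4; exact h5 h4.symm
  have h8 : r.1 ≤ n := Nat.le_of_dvd (by omega) ⟨r.2, h4.symm⟩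
  have h9 : r.2 ≤ n := Nat.le_of_dvd (by omega) ⟨r.1, by rw [mul_comm]; exact h4.symm⟩
  exact ⟨⟨by omega, by omega⟩, ⟨by omega, by omega⟩⟩

/-- Shift from `p` to `p - 1`. -/
theorem shift_sum (c : ℝ) (hc : c ≤ 0) (A : ℕ) :
    ∑ p ∈ (Finset.Icc 1 A).filter Nat.Prime, (p : ℝ) ^ c * ((p - 1).divisors.card : ℝ) ≤
      ∑ n ∈ Finset.Icc 1 A, (n : ℝ) ^ c * (n.divisors.card : ℝ) := by
  classical
  calc ∑ p ∈ (Finset.Icc 1 A).filter Nat.Prime, (p : ℝ) ^ c * ((p - 1).divisors.card : ℝ)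
      ≤ ∑ p ∈ (Finset.Icc 1 A).filter Nat.Prime,
          ((p - 1 : ℕ) : ℝ) ^ c * ((p - 1).divisors.card : ℝ) := by
        refine Finset.sum_le_sum fun p hp => ?_
        rw [Finset.mem_filter] at hp
        have h2 := hp.2.two_le
        refine mul_le_mul_of_nonneg_right ?_ (Nat.cast_nonneg _)
        refine Real.rpow_le_rpow_of_nonpos ?_ ?_ hc
        · exact_mod_cast (by omega : 0 < p - 1)
        · exact_mod_cast Nat.sub_le p 1
    _ ≤ _ := by
        have hinj : Set.InjOn (fun p : ℕ => p - 1)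
            (((Finset.Icc 1 A).filter Nat.Prime : Finset ℕ) : Set ℕ) := by
          intro p hp q hq hpq
          rw [Finset.mem_coe, Finset.mem_filter] at hp hq
          have h2 := hp.2.two_le
          have h3 := hq.2.two_le
          simp only at hpq
          omega
        rw [← Finset.sum_image (s := (Finset.Icc 1 A).filter Nat.Prime)
          (g := fun p : ℕ => p - 1)
          (f := fun n : ℕ => (n : ℝ) ^ c * (n.divisors.card : ℝ)) hinj]
        refine Finset.sum_le_sum_of_subset_of_nonneg ?_ (fun q _ _ => by positivity)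
        intro n hn
        rw [Finset.mem_image] at hn
        obtain ⟨p, hp, rfl⟩ := hn
        rw [Finset.mem_filter, Finset.mem_Icc] at hp
        have h2 := hp.2.two_le
        rw [Finset.mem_Icc]
        omega

end Avgaux

open Avgaux in
/-- **Avg.** -/
theorem avg : StmtAvg := by
  classical
  intro θ hθ0 hθ1
  set s : ℝ := (1 - θ) / 2 with hs
  have hs0 : 0 < s := by rw [hs]; linarith
  have hsum : Summable (fun n : ℕ => (n : ℝ) ^ (-1 - s)) :=
    Real.summable_nat_rpow.mpr (by linarith)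
  set Z : ℝ := ∑' n : ℕ, (n : ℝ) ^ (-1 - s) with hZ
  have hZ0 : 0 ≤ Z := tsum_nonneg fun n => by positivity
  refine ⟨4 * Z ^ 2 + 1, by positivity, fun A => ?_⟩
  have hA0 : (0 : ℝ) ≤ A := Nat.cast_nonneg _
  -- exchange
  have hex : ∑ a ∈ Finset.Icc (-(A : ℤ)) A, W θ a A =
      ∑ p ∈ (Finset.Icc 1 A).filter Nat.Prime, (p : ℝ) ^ (-1 + s) *
        (((Finset.Icc (-(A : ℤ)) A).filter
          (fun a : ℤ => 0 < od a p ∧ (od a p : ℝ) ≤ (p : ℝ) ^ θ)).card : ℝ) := by
    have h1 : ∀ a ∈ Finset.Icc (-(A : ℤ)) A, W θ a A =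
        ∑ p ∈ (Finset.Icc 1 A).filter Nat.Prime,
          if 0 < od a p ∧ (od a p : ℝ) ≤ (p : ℝ) ^ θ then (p : ℝ) ^ (-1 + s) else 0 := by
      intro a _
      rw [W, smallP, ← Finset.sum_filter, Finset.filter_filter]
    rw [Finset.sum_congr rfl h1, Finset.sum_comm]
    refine Finset.sum_congr rfl fun p _ => ?_
    rw [← Finset.sum_filter, Finset.sum_const, nsmul_eq_mul, mul_comm]
  rw [hex]
  calc _ ≤ ∑ p ∈ (Finset.Icc 1 A).filter Nat.Prime,
        (4 * (A : ℝ)) * ((p : ℝ) ^ (-1 - s) * ((p - 1).divisors.card : ℝ)) := by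
        refine Finset.sum_le_sum fun p hp => ?_
        rw [Finset.mem_filter, Finset.mem_Icc] at hp
        obtain ⟨⟨_, hpA⟩, hpp⟩ := hp
        have : Fact p.Prime := ⟨hpp⟩
        have hpos : (0 : ℝ) < p := by exact_mod_cast hpp.pos
        have h2 := card_bases p A hpA ((p : ℝ) ^ θ) (by positivity)
        calc (p : ℝ) ^ (-1 + s) * (((Finset.Icc (-(A : ℤ)) A).filter
          (fun a : ℤ => 0 < od a p ∧ (od a p : ℝ) ≤ (p : ℝ) ^ θ)).card : ℝ)
            ≤ (p : ℝ) ^ (-1 + s) * ((p : ℝ) ^ θ * (p - 1).divisors.card * (4 * A / p)) :=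
              mul_le_mul_of_nonneg_left h2 (by positivity)
          _ = (4 * (A : ℝ)) * (((p : ℝ) ^ (-1 + s) * (p : ℝ) ^ θ / p) *
                ((p - 1).divisors.card : ℝ)) := by
              field_simp
          _ = (4 * (A : ℝ)) * ((p : ℝ) ^ (-1 - s) * ((p - 1).divisors.card : ℝ)) := by
              have h3 : (p : ℝ) ^ (-1 + s) * (p : ℝ) ^ θ / p = (p : ℝ) ^ (-1 - s) := by
                rw [← Real.rpow_add hpos, ← Real.rpow_sub_one hpos.ne']
                congr 1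
                rw [hs]; ring
              rw [h3]
    _ = (4 * (A : ℝ)) * ∑ p ∈ (Finset.Icc 1 A).filter Nat.Prime,
          (p : ℝ) ^ (-1 - s) * ((p - 1).divisors.card : ℝ) := by
        rw [Finset.mul_sum]
    _ ≤ (4 * (A : ℝ)) * Z ^ 2 := by
        refine mul_le_mul_of_nonneg_left ?_ (by positivity)
        refine (shift_sum (-1 - s) (by linarith) A).trans ((tau_sum (-1 - s) A).trans ?_)
        refine pow_le_pow_left₀ (Finset.sum_nonneg fun k _ => by positivity) ?_ 2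
        exact hsum.sum_le_tsum _ (fun n _ => by positivity)
    _ ≤ (4 * Z ^ 2 + 1) * A := by nlinarith

end Pool.Agent.Lib.MP_a260de_nt
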