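import Pool.Agent.Lib.MP_a260de_nt.Spec

set_option autoImplicit false

namespace Pool.Agent.Lib.MP_a260de_nt

namespace Countaux

open Finset

/-- Order of `a` modulo a divisor of a pseudoprime. -/
theorem od_dvd {a : ℤ} {n d : ℕ} (hd : d ∣ n) (h : (a : ZMod n) ^ (n - 1) = 1) :
    od a d ∣ n - 1 := by
  have h1 := congrArg (ZMod.castHom hd (ZMod d)) h
  rw [map_pow, map_one, map_intCast] at h1
  exact orderOf_dvd_of_pow_eq_one h1

theorem od_pos {a : ℤ} {n d : ℕ} (hn : 1 < n) (hd : d ∣ n) (h : (a : ZMod n) ^ (n - 1) = 1) :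
    0 < od a d := by
  refine Nat.pos_of_ne_zero fun h0 => ?_
  have h1 := od_dvd hd h
  rw [h0, zero_dvd_iff] at h1
  omega

theorem od_dvd_sub {a : ℤ} {n p : ℕ} (hn : 1 < n) (hp : p.Prime) (hd : p ∣ n)
    (h : (a : ZMod n) ^ (n - 1) = 1) : od a p ∣ p - 1 := by
  have := Fact.mk hp
  have h1 := congrArg (ZMod.castHom hd (ZMod p)) h
  rw [map_pow, map_one, map_intCast] at h1
  have h2 : (a : ZMod p) ≠ 0 := by
    intro h0
    rw [h0, zero_pow (by omega)] at h1
    exact zero_ne_one h1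
  exact orderOf_dvd_of_pow_eq_one (ZMod.pow_card_sub_one_eq_one h2)

theorem exists_divisor (y T : ℝ) (hy : 1 ≤ y) (hT : 1 ≤ T) (n : ℕ) :
    (∀ p : ℕ, p.Prime → p ∣ n → (p : ℝ) ≤ T) → y < n → ∃ d : ℕ, d ∣ n ∧ y / T < d ∧ (d : ℝ) ≤ y := by
  induction n using Nat.strong_induction_on with
  | _ n ih =>
    intro hp hn
    have h1 : (1 : ℝ) < n := lt_of_le_of_lt hy hn
    have h2 : 1 < n := by exact_mod_cast h1
    have hpr := Nat.minFac_prime (n := n) (by omega)
    obtain ⟨k, hk⟩ := Nat.minFac_dvd n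
    have hp0 : 0 < n.minFac := hpr.pos
    have hk0 : 0 < k := by
      rcases Nat.eq_zero_or_pos k with h | h
      · rw [h] at hk; omega
      · exact h
    have hkn : k < n := by
      have := hpr.two_le
      nlinarith
    have hkd : k ∣ n := ⟨n.minFac, by rw [Nat.mul_comm]; exact hk⟩
    have hpT := hp _ hpr (Nat.minFac_dvd n)
    have hT0 : 0 < T := by linarith
    by_cases hky : (k : ℝ) ≤ y
    · refine ⟨k, hkd, ?_, hky⟩
      rw [div_lt_iff₀ hT0]
      calc y < n := hn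
        _ = (n.minFac : ℝ) * k := by exact_mod_cast hk
        _ ≤ T * k := by
          exact mul_le_mul_of_nonneg_right hpT (Nat.cast_nonneg _)
        _ = k * T := mul_comm _ _
    · push Not at hky
      obtain ⟨d, hd, hd1, hd2⟩ := ih k hkn
        (fun p hpp hpk => hp p hpp (dvd_trans hpk hkd)) hky
      exact ⟨d, dvd_trans hd hkd, hd1, hd2⟩

/-- Number of multiples of `p`. -/
theorem card_mult (x : ℝ) (hx : 0 ≤ x) (p : ℕ) (hp : 0 < p) :
    (((Icc 1 ⌊x⌋₊).filter fun n : ℕ => p ∣ n).card : ℝ) ≤ x / p := by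
  have h : ((Icc 1 ⌊x⌋₊).filter fun n : ℕ => p ∣ n).card ≤ (Icc 1 ⌊x / p⌋₊).card := by
    refine Finset.card_le_card_of_injOn (fun n => n / p) ?_ ?_
    · intro n hn
      simp only [coe_filter, mem_Icc, Set.mem_ofPred_eq] at hn
      simp only [coe_Icc, Set.mem_Icc]
      obtain ⟨⟨h1, h2⟩, k, rfl⟩ := hn
      have hk : p * k / p = k := Nat.mul_div_cancel_left k hp
      rw [hk]
      refine ⟨?_, ?_⟩
      · rcases Nat.eq_zero_or_pos k with h | h
        · rw [h] at h1; omega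
        · exact h
      · refine Nat.le_floor ?_
        rw [le_div_iff₀ (by exact_mod_cast hp)]
        have := (Nat.le_floor_iff hx).mp h2
        push_cast at this
        linarith
    · intro n hn n' hn' h
      simp only [coe_filter, mem_Icc, Set.mem_ofPred_eq] at hn hn'
      obtain ⟨_, k, rfl⟩ := hn
      obtain ⟨_, k', rfl⟩ := hn'
      simp only [Nat.mul_div_cancel_left _ hp] at h
      rw [h]
  rw [Nat.card_Icc, Nat.add_sub_cancel] at h
  exact le_trans (by exact_mod_cast h) (Nat.floor_le (by positivity))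

/-- Second class. -/
theorem card_two (x : ℝ) (hx : 0 ≤ x) (p o : ℕ) (hp : 0 < p) (ho : 0 < o) :
    (((Icc 1 ⌊x⌋₊).filter fun n : ℕ => p ∣ n ∧ 1 < n / p ∧ o ∣ n / p - 1).card : ℝ) ≤
      x / (p * o) := by
  have h : ((Icc 1 ⌊x⌋₊).filter fun n : ℕ => p ∣ n ∧ 1 < n / p ∧ o ∣ n / p - 1).card ≤
      (Icc 1 ⌊x / (p * o)⌋₊).card := by
    refine Finset.card_le_card_of_injOn (fun n => (n / p - 1) / o) ?_ ?_
    · intro n hn
      simp only [coe_filter, mem_Icc, Set.mem_ofPred_eq] at hn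
      simp only [coe_Icc, Set.mem_Icc]
      obtain ⟨⟨h1, h2⟩, ⟨k, rfl⟩, h3, j, hj⟩ := hn
      rw [Nat.mul_div_cancel_left k hp] at h3 hj ⊢
      rw [hj, Nat.mul_div_cancel_left j ho]
      refine ⟨?_, ?_⟩
      · rcases Nat.eq_zero_or_pos j with h | h
        · rw [h] at hj; omega
        · exact h
      · refine Nat.le_floor ?_
        rw [le_div_iff₀ (by positivity)]
        have h4 := (Nat.le_floor_iff hx).mp h2
        have h5 : k = o * j + 1 := by omega
        rw [h5] at h4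
        push_cast at h4
        have hp' : (0 : ℝ) < p := by exact_mod_cast hp
        nlinarith
    · intro n hn n' hn' h
      simp only [coe_filter, mem_Icc, Set.mem_ofPred_eq] at hn hn'
      obtain ⟨_, ⟨k, rfl⟩, h3, j, hj⟩ := hn
      obtain ⟨_, ⟨k', rfl⟩, h3', j', hj'⟩ := hn'
      simp only [Nat.mul_div_cancel_left _ hp] at h hj hj' h3 h3'
      rw [hj, hj', Nat.mul_div_cancel_left _ ho, Nat.mul_div_cancel_left _ ho] at h
      subst h
      have : k = k' := by omega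
      rw [this]
  rw [Nat.card_Icc, Nat.add_sub_cancel] at h
  exact le_trans (by exact_mod_cast h) (Nat.floor_le (by positivity))

/-- Fourth class. -/
theorem card_four (x : ℝ) (hx : 0 ≤ x) (d m : ℕ) (hd : 0 < d) (hm : 0 < m) :
    (((Icc 1 ⌊x⌋₊).filter fun n : ℕ => d ∣ n ∧ m ∣ n - 1).card : ℝ) ≤ 1 + x / (m * d) := by
  have h : ((Icc 1 ⌊x⌋₊).filter fun n : ℕ => d ∣ n ∧ m ∣ n - 1).card ≤
      (range (⌊x / (m * d)⌋₊ + 1)).card := by
    refine Finset.card_le_card_of_injOn (fun n => n / d / m) ?_ ?_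
    · intro n hn
      simp only [coe_filter, mem_Icc, Set.mem_ofPred_eq] at hn
      simp only [coe_range, Set.mem_Iio]
      obtain ⟨⟨h1, h2⟩, ⟨k, rfl⟩, h3⟩ := hn
      rw [Nat.mul_div_cancel_left k hd, Nat.lt_succ_iff]
      refine Nat.le_floor ?_
      rw [le_div_iff₀ (by positivity)]
      have h4 := (Nat.le_floor_iff hx).mp h2
      have h5 : ((k / m * m : ℕ) : ℝ) ≤ k := by exact_mod_cast Nat.div_mul_le_self k m
      push_cast at h4 h5
      have hd' : (0 : ℝ) < d := by exact_mod_cast hd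
      nlinarith
    · intro n hn n' hn' h
      simp only [coe_filter, mem_Icc, Set.mem_ofPred_eq] at hn hn'
      obtain ⟨⟨h1, _⟩, ⟨k, rfl⟩, h3⟩ := hn
      obtain ⟨⟨h1', _⟩, ⟨k', rfl⟩, h3'⟩ := hn'
      simp only [Nat.mul_div_cancel_left _ hd] at h
      have hcop : Nat.Coprime m d := by
        have h4 : Nat.gcd m d ∣ d * k := dvd_trans (Nat.gcd_dvd_right m d) (Dvd.intro _ rfl)
        have h5 : Nat.gcd m d ∣ d * k - 1 := dvd_trans (Nat.gcd_dvd_left m d) h3
        have h6 : Nat.gcd m d ∣ d * k - (d * k - 1) := Nat.dvd_sub h4 h5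
        have h7 : d * k - (d * k - 1) = 1 := by omega
        rw [h7] at h6
        exact Nat.eq_one_of_dvd_one h6
      have hmod : d * k ≡ d * k' [MOD m] := by
        have e1 : 1 ≡ d * k [MOD m] := (Nat.modEq_iff_dvd' h1).mpr h3
        have e2 : 1 ≡ d * k' [MOD m] := (Nat.modEq_iff_dvd' h1').mpr h3'
        exact e1.symm.trans e2
      have hmod' : k ≡ k' [MOD m] := Nat.ModEq.cancel_left_of_coprime hcop hmod
      have : k = k' := by
        rw [← Nat.div_add_mod k m, ← Nat.div_add_mod k' m, h, hmod']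
      rw [this]
  rw [card_range] at h
  have h8 := Nat.floor_le (a := x / (m * d)) (by positivity)
  have h9 : (((Icc 1 ⌊x⌋₊).filter fun n : ℕ => d ∣ n ∧ m ∣ n - 1).card : ℝ) ≤
      (⌊x / (m * d)⌋₊ : ℝ) + 1 := by exact_mod_cast h
  linarith

theorem sum_inv_le (x : ℝ) (hx : 1 ≤ x) :
    ∑ n ∈ Icc 1 ⌊x⌋₊, 1 / (n : ℝ) ≤ 1 + Real.log x := by
  have h := harmonic_floor_le_one_add_log x hx
  rw [harmonic_eq_sum_Icc] at h
  push_cast at h
  simpa [one_div] using h

end Countaux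

open Finset Countaux in
/-- **Count.** -/
theorem count : StmtCount := by
  intro a x L B ha hL hLx hB
  classical
  have hx1 : 1 ≤ x := le_trans hL hLx
  have hx0 : 0 ≤ x := by linarith
  have hL0 : 0 < L := by linarith
  have hy1 : 1 ≤ x / L := by rw [le_div_iff₀ hL0]; linarith
  have hLB : 1 ≤ L ^ B := Real.one_le_rpow hL (by linarith)
  have hLB1 : L ^ (B + 1) = L ^ B * L := Real.rpow_add_one hL0.ne' B
  have hdiv : x / L ^ (B + 1) = x / L / L ^ B := by
    rw [hLB1, div_div, mul_comm (L ^ B) L]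
  -- index sets
  set F2 : Finset ℕ := (Icc 1 ⌊x⌋₊).filter (fun p : ℕ => p.Prime ∧ L < (od a p : ℝ)) with hF2
  set F3 : Finset ℕ := (Icc 1 ⌊x⌋₊).filter (fun p : ℕ => p.Prime ∧ 0 < od a p ∧
    (od a p : ℝ) ≤ L ∧ L ^ B < (p : ℝ)) with hF3
  set D4 : Finset ℕ := (Icc 1 ⌊x / L⌋₊).filter (fun d : ℕ => x / L ^ (B + 1) < (d : ℝ) ∧
    od a d ∈ Icc 1 ⌊x⌋₊) with hD4
  set P1 : Finset ℕ := Icc 1 ⌊x / L⌋₊ with hP1
  set P2 : Finset ℕ := F2.biUnion (fun p => (Icc 1 ⌊x⌋₊).filter
    fun n : ℕ => p ∣ n ∧ 1 < n / p ∧ od a p ∣ n / p - 1) with hP2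
  set P3 : Finset ℕ := F3.biUnion (fun p => (Icc 1 ⌊x⌋₊).filter fun n : ℕ => p ∣ n) with hP3
  set P4 : Finset ℕ := D4.biUnion (fun d => (Icc 1 ⌊x⌋₊).filter
    fun n : ℕ => d ∣ n ∧ od a d ∣ n - 1) with hP4
  have hsub : psp a x ⊆ ((P1 ∪ P2 ∪ (P3 ∪ P4) : Finset ℕ) : Set ℕ) := by
    rintro n ⟨hnx, hn1, hnp, hpow⟩
    have hnN : n ∈ Icc 1 ⌊x⌋₊ := mem_Icc.mpr ⟨by omega, Nat.le_floor hnx⟩
    have hn0 : 0 < n := by omega
    rw [Finset.mem_coe]
    by_cases h1 : (n : ℝ) ≤ x / L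
    · refine mem_union_left _ (mem_union_left _ ?_)
      exact mem_Icc.mpr ⟨by omega, Nat.le_floor h1⟩
    by_cases h2 : ∃ p : ℕ, p.Prime ∧ p ∣ n ∧ L < (od a p : ℝ)
    · obtain ⟨p, hp, hpn, hpL⟩ := h2
      refine mem_union_left _ (mem_union_right _ ?_)
      have hple : p ≤ n := Nat.le_of_dvd hn0 hpn
      refine mem_biUnion.mpr ⟨p, mem_filter.mpr ⟨mem_Icc.mpr ⟨hp.pos, le_trans hple
        (mem_Icc.mp hnN).2⟩, hp, hpL⟩, mem_filter.mpr ⟨hnN, hpn, ?_, ?_⟩⟩
      · obtain ⟨k, rfl⟩ := hpn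
        rw [Nat.mul_div_cancel_left k hp.pos]
        by_contra hk
        push Not at hk
        interval_cases k
        · omega
        · rw [mul_one] at hnp
          exact hnp hp
      · have e1 := od_dvd hpn hpow
        have e2 := od_dvd_sub hn1 hp hpn hpow
        obtain ⟨k, rfl⟩ := hpn
        rw [Nat.mul_div_cancel_left k hp.pos]
        have e3 : od a p ∣ (p * k - 1) - (p - 1) * k :=
          Nat.dvd_sub e1 (dvd_mul_of_dvd_left e2 k)
        have e4 : (p * k - 1) - (p - 1) * k = k - 1 := by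
          have e5 : (p - 1) * k = p * k - k := by rw [Nat.sub_mul, one_mul]
          have e6 : k ≤ p * k := Nat.le_mul_of_pos_left k hp.pos
          omega
        rw [e4] at e3
        exact e3
    push Not at h2
    by_cases h3 : ∃ p : ℕ, p.Prime ∧ p ∣ n ∧ L ^ B < (p : ℝ)
    · obtain ⟨p, hp, hpn, hpL⟩ := h3
      refine mem_union_right _ (mem_union_left _ ?_)
      have hple : p ≤ n := Nat.le_of_dvd hn0 hpn
      exact mem_biUnion.mpr ⟨p, mem_filter.mpr ⟨mem_Icc.mpr ⟨hp.pos, le_trans hple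
        (mem_Icc.mp hnN).2⟩, hp, od_pos hn1 hpn hpow, h2 p hp hpn, hpL⟩,
        mem_filter.mpr ⟨hnN, hpn⟩⟩
    push Not at h3
    push Not at h1
    obtain ⟨d, hdn, hd1, hd2⟩ := exists_divisor (x / L) (L ^ B) hy1 hLB n h3 h1
    refine mem_union_right _ (mem_union_right _ ?_)
    have hd0 : 0 < d := Nat.pos_of_dvd_of_pos hdn hn0
    refine mem_biUnion.mpr ⟨d, mem_filter.mpr ⟨mem_Icc.mpr ⟨hd0, Nat.le_floor hd2⟩, ?_, ?_⟩,
      mem_filter.mpr ⟨hnN, hdn, od_dvd hdn hpow⟩⟩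
    · rw [hdiv]; exact hd1
    · refine mem_Icc.mpr ⟨od_pos hn1 hdn hpow, ?_⟩
      have e1 := Nat.le_of_dvd (by omega) (od_dvd hdn hpow)
      have e2 := (mem_Icc.mp hnN).2
      omega
  have hcard : (psp a x).ncard ≤ (P1 ∪ P2 ∪ (P3 ∪ P4)).card := by
    rw [← Set.ncard_coe_finset]
    exact Set.ncard_le_ncard hsub (Finset.finite_toSet _)
  have hcard2 : ((psp a x).ncard : ℝ) ≤ P1.card + P2.card + (P3.card + P4.card) := by
    have e1 := card_union_le (P1 ∪ P2) (P3 ∪ P4)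
    have e2 := card_union_le P1 P2
    have e3 := card_union_le P3 P4
    have e4 : (psp a x).ncard ≤ P1.card + P2.card + (P3.card + P4.card) := by omega
    exact_mod_cast e4
  have b1 : (P1.card : ℝ) ≤ x / L := by
    rw [hP1, Nat.card_Icc, Nat.add_sub_cancel]
    exact Nat.floor_le (by positivity)
  have b2 : (P2.card : ℝ) ≤ x / L * (1 + Real.log x) := by
    have e1 : (P2.card : ℝ) ≤ ∑ p ∈ F2, x / L * (1 / (p : ℝ)) := by
      refine le_trans (Nat.cast_le.mpr card_biUnion_le) ?_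
      rw [Nat.cast_sum]
      refine Finset.sum_le_sum fun p hp => ?_
      obtain ⟨hp1, hp2, hp3⟩ := mem_filter.mp hp
      have hop : (0 : ℝ) < od a p := lt_trans hL0 hp3
      have hop' : 0 < od a p := by exact_mod_cast hop
      have hpp : (0 : ℝ) < p := by exact_mod_cast hp2.pos
      refine le_trans (card_two x hx0 p (od a p) hp2.pos hop') ?_
      rw [div_mul_div_comm, mul_one, mul_comm (p : ℝ)]
      exact div_le_div_of_nonneg_left hx0 (by positivity)
        (mul_le_mul_of_nonneg_right hp3.le hpp.le)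
    refine le_trans e1 ?_
    rw [← Finset.mul_sum]
    refine mul_le_mul_of_nonneg_left ?_ (by positivity)
    refine le_trans (Finset.sum_le_sum_of_subset_of_nonneg (filter_subset _ _) ?_)
      (sum_inv_le x hx1)
    intro i _ _
    positivity
  have b3 : (P3.card : ℝ) ≤ x * ∑ p ∈ F3, 1 / (p : ℝ) := by
    refine le_trans (Nat.cast_le.mpr card_biUnion_le) ?_
    rw [Nat.cast_sum, Finset.mul_sum]
    refine Finset.sum_le_sum fun p hp => ?_
    obtain ⟨hp1, hp2, hp3⟩ := mem_filter.mp hp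
    refine le_trans (card_mult x hx0 p hp2.pos) (le_of_eq ?_)
    rw [mul_one_div]
  have b4 : (P4.card : ℝ) ≤ x / L + x * ∑ m ∈ Icc 1 ⌊x⌋₊, 1 / (m : ℝ) *
      ∑ d ∈ (Icc 1 ⌊x⌋₊).filter (fun d : ℕ => x / L ^ (B + 1) < (d : ℝ) ∧ od a d = m),
        1 / (d : ℝ) := by
    have e1 : (P4.card : ℝ) ≤ ∑ d ∈ D4, (1 + x * (1 / (od a d : ℝ) * (1 / (d : ℝ)))) := by
      refine le_trans (Nat.cast_le.mpr card_biUnion_le) ?_
      rw [Nat.cast_sum]
      refine Finset.sum_le_sum fun d hd => ?_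
      obtain ⟨hd1, hd2, hd3⟩ := mem_filter.mp hd
      refine le_trans (card_four x hx0 d (od a d) (mem_Icc.mp hd1).1 (mem_Icc.mp hd3).1)
        (le_of_eq ?_)
      rw [one_div_mul_one_div, mul_one_div]
    refine le_trans e1 ?_
    rw [Finset.sum_add_distrib, ← Finset.mul_sum]
    refine add_le_add ?_ (mul_le_mul_of_nonneg_left ?_ hx0)
    · rw [Finset.sum_const, nsmul_eq_mul, mul_one]
      refine le_trans ?_ b1
      exact_mod_cast card_le_card (filter_subset _ _)
    · have e2 := Finset.sum_fiberwise_of_maps_to (s := D4) (t := Icc 1 ⌊x⌋₊)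
        (g := fun d => od a d) (fun d hd => (mem_filter.mp hd).2.2)
        (fun d => 1 / (od a d : ℝ) * (1 / (d : ℝ)))
      rw [← e2]
      refine Finset.sum_le_sum fun m hm => ?_
      rw [Finset.mul_sum]
      have e3 : ∑ d ∈ D4.filter (fun d => od a d = m), 1 / (od a d : ℝ) * (1 / (d : ℝ)) =
          ∑ d ∈ D4.filter (fun d => od a d = m), 1 / (m : ℝ) * (1 / (d : ℝ)) := by
        refine Finset.sum_congr rfl fun d hd => ?_
        rw [(mem_filter.mp hd).2]
      rw [e3]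
      refine Finset.sum_le_sum_of_subset_of_nonneg ?_ ?_
      · intro d hd
        obtain ⟨hd1, hd2⟩ := mem_filter.mp hd
        obtain ⟨hd3, hd4, hd5⟩ := mem_filter.mp hd1
        refine mem_filter.mpr ⟨mem_Icc.mpr ⟨(mem_Icc.mp hd3).1, le_trans (mem_Icc.mp hd3).2 ?_⟩,
          hd4, hd2⟩
        exact Nat.floor_le_floor (div_le_self hx0 hL)
      · intro i _ _
        positivity
  have hfin := hcard2
  linarith

end Pool.Agent.Lib.MP_a260de_nt
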