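import Pool.Agent.Lib.MP_a260de_nt.Count

/-!
# MP_a260de_nt: the four classes, for pseudoprimes with restricted prime factors
(adapted from Count.lean of helper54)
-/

set_option autoImplicit false

namespace Pool.Agent.Lib.MP_a260de_nt

open Finset Countaux Classical in
/-- **CountQ.** The same for the pseudoprimes all of whose prime factors have the property `Q`. -/
theorem countQ (a : ℤ) (Q : ℕ → Prop) (x L B : ℝ) (hL : 1 ≤ L) (hLx : L ≤ x)
    (hB : 1 ≤ B) :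
    (({n : ℕ | n ∈ psp a x ∧ ∀ p : ℕ, p.Prime → p ∣ n → Q p}.ncard : ℕ) : ℝ) ≤
      2 * (x / L) + x / L * (1 + Real.log x) +
      x * ∑ p ∈ (Finset.Icc 1 ⌊x⌋₊).filter (fun p : ℕ => p.Prime ∧ 0 < od a p ∧
        (od a p : ℝ) ≤ L ∧ L ^ B < (p : ℝ) ∧ Q p), 1 / (p : ℝ) +
      x * ∑ m ∈ Finset.Icc 1 ⌊x⌋₊, 1 / (m : ℝ) *
        ∑ d ∈ (Finset.Icc 1 ⌊x⌋₊).filter (fun d : ℕ => x / L ^ (B + 1) < (d : ℝ) ∧ od a d = m ∧
          ∀ p : ℕ, p.Prime → p ∣ d → Q p), 1 / (d : ℝ) := by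
  have hx1 : 1 ≤ x := le_trans hL hLx
  have hx0 : 0 ≤ x := by linarith
  have hL0 : 0 < L := by linarith
  have hy1 : 1 ≤ x / L := by rw [le_div_iff₀ hL0]; linarith
  have hLB : 1 ≤ L ^ B := Real.one_le_rpow hL (by linarith)
  have hLB1 : L ^ (B + 1) = L ^ B * L := Real.rpow_add_one hL0.ne' B
  have hdiv : x / L ^ (B + 1) = x / L / L ^ B := by
    rw [hLB1, div_div, mul_comm (L ^ B) L]
  -- index sets
  set F2 : Finset ℕ := (Icc 1 ⌊x⌋₊).filter (fun p : ℕ => p.Prime ∧ L < (od a p : ℝ)) with hF2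
  set F3 : Finset ℕ := (Icc 1 ⌊x⌋₊).filter (fun p : ℕ => p.Prime ∧ 0 < od a p ∧
    (od a p : ℝ) ≤ L ∧ L ^ B < (p : ℝ) ∧ Q p) with hF3
  set D4 : Finset ℕ := (Icc 1 ⌊x / L⌋₊).filter (fun d : ℕ => x / L ^ (B + 1) < (d : ℝ) ∧
    od a d ∈ Icc 1 ⌊x⌋₊ ∧ ∀ p : ℕ, p.Prime → p ∣ d → Q p) with hD4
  set P1 : Finset ℕ := Icc 1 ⌊x / L⌋₊ with hP1
  set P2 : Finset ℕ := F2.biUnion (fun p => (Icc 1 ⌊x⌋₊).filter
    fun n : ℕ => p ∣ n ∧ 1 < n / p ∧ od a p ∣ n / p - 1) with hP2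
  set P3 : Finset ℕ := F3.biUnion (fun p => (Icc 1 ⌊x⌋₊).filter fun n : ℕ => p ∣ n) with hP3
  set P4 : Finset ℕ := D4.biUnion (fun d => (Icc 1 ⌊x⌋₊).filter
    fun n : ℕ => d ∣ n ∧ od a d ∣ n - 1) with hP4
  have hsub : {n : ℕ | n ∈ psp a x ∧ ∀ p : ℕ, p.Prime → p ∣ n → Q p} ⊆
      ((P1 ∪ P2 ∪ (P3 ∪ P4) : Finset ℕ) : Set ℕ) := by
    rintro n ⟨⟨hnx, hn1, hnp, hpow⟩, hnQ⟩
    have hnN : n ∈ Icc 1 ⌊x⌋₊ := mem_Icc.mpr ⟨by omega, Nat.le_floor hnx⟩
    have hn0 : 0 < n := by omega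
    rw [Finset.mem_coe]
    by_cases h1 : (n : ℝ) ≤ x / L
    · refine mem_union_left _ (mem_union_left _ ?_)
      exact mem_Icc.mpr ⟨by omega, Nat.le_floor h1⟩
    by_cases h2 : ∃ p : ℕ, p.Prime ∧ p ∣ n ∧ L < (od a p : ℝ)
    · obtain ⟨p, hp, hpn, hpL⟩ := h2
      refine mem_union_left _ (mem_union_right _ ?_)
      have hple : p ≤ n := Nat.le_of_dvd hn0 hpn
      refine mem_biUnion.mpr ⟨p, mem_filter.mpr ⟨mem_Icc.mpr ⟨hp.pos, le_trans hple
        (mem_Icc.mp hnN).2⟩, hp, hpL⟩, mem_filter.mpr ⟨hnN, hpn, ?_, ?_⟩⟩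
      · obtain ⟨k, rfl⟩ := hpn
        rw [Nat.mul_div_cancel_left k hp.pos]
        by_contra hk
        push Not at hk
        interval_cases k
        · omega
        · rw [mul_one] at hnp
          exact hnp hp
      · have e1 := od_dvd hpn hpow
        have e2 := od_dvd_sub hn1 hp hpn hpow
        obtain ⟨k, rfl⟩ := hpn
        rw [Nat.mul_div_cancel_left k hp.pos]
        have e3 : od a p ∣ (p * k - 1) - (p - 1) * k :=
          Nat.dvd_sub e1 (dvd_mul_of_dvd_left e2 k)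
        have e4 : (p * k - 1) - (p - 1) * k = k - 1 := by
          have e5 : (p - 1) * k = p * k - k := by rw [Nat.sub_mul, one_mul]
          have e6 : k ≤ p * k := Nat.le_mul_of_pos_left k hp.pos
          omega
        rw [e4] at e3
        exact e3
    push Not at h2
    by_cases h3 : ∃ p : ℕ, p.Prime ∧ p ∣ n ∧ L ^ B < (p : ℝ)
    · obtain ⟨p, hp, hpn, hpL⟩ := h3
      refine mem_union_right _ (mem_union_left _ ?_)
      have hple : p ≤ n := Nat.le_of_dvd hn0 hpn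
      exact mem_biUnion.mpr ⟨p, mem_filter.mpr ⟨mem_Icc.mpr ⟨hp.pos, le_trans hple
        (mem_Icc.mp hnN).2⟩, hp, od_pos hn1 hpn hpow, h2 p hp hpn, hpL, hnQ p hp hpn⟩,
        mem_filter.mpr ⟨hnN, hpn⟩⟩
    push Not at h3
    push Not at h1
    obtain ⟨d, hdn, hd1, hd2⟩ := exists_divisor (x / L) (L ^ B) hy1 hLB n h3 h1
    refine mem_union_right _ (mem_union_right _ ?_)
    have hd0 : 0 < d := Nat.pos_of_dvd_of_pos hdn hn0
    refine mem_biUnion.mpr ⟨d, mem_filter.mpr ⟨mem_Icc.mpr ⟨hd0, Nat.le_floor hd2⟩, ?_, ?_,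
      fun p hp hpd => hnQ p hp (dvd_trans hpd hdn)⟩,
      mem_filter.mpr ⟨hnN, hdn, od_dvd hdn hpow⟩⟩
    · rw [hdiv]; exact hd1
    · refine mem_Icc.mpr ⟨od_pos hn1 hdn hpow, ?_⟩
      have e1 := Nat.le_of_dvd (by omega) (od_dvd hdn hpow)
      have e2 := (mem_Icc.mp hnN).2
      omega
  have hcard : {n : ℕ | n ∈ psp a x ∧ ∀ p : ℕ, p.Prime → p ∣ n → Q p}.ncard ≤ (P1 ∪ P2 ∪ (P3 ∪ P4)).card := by
    rw [← Set.ncard_coe_finset]
    exact Set.ncard_le_ncard hsub (Finset.finite_toSet _)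
  have hcard2 : (({n : ℕ | n ∈ psp a x ∧ ∀ p : ℕ, p.Prime → p ∣ n → Q p}.ncard : ℕ) : ℝ) ≤ P1.card + P2.card + (P3.card + P4.card) := by
    have e1 := card_union_le (P1 ∪ P2) (P3 ∪ P4)
    have e2 := card_union_le P1 P2
    have e3 := card_union_le P3 P4
    have e4 : {n : ℕ | n ∈ psp a x ∧ ∀ p : ℕ, p.Prime → p ∣ n → Q p}.ncard ≤ P1.card + P2.card + (P3.card + P4.card) := by omega
    exact_mod_cast e4
  have b1 : (P1.card : ℝ) ≤ x / L := by
    rw [hP1, Nat.card_Icc, Nat.add_sub_cancel]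
    exact Nat.floor_le (by positivity)
  have b2 : (P2.card : ℝ) ≤ x / L * (1 + Real.log x) := by
    have e1 : (P2.card : ℝ) ≤ ∑ p ∈ F2, x / L * (1 / (p : ℝ)) := by
      refine le_trans (Nat.cast_le.mpr card_biUnion_le) ?_
      rw [Nat.cast_sum]
      refine Finset.sum_le_sum fun p hp => ?_
      obtain ⟨hp1, hp2, hp3⟩ := mem_filter.mp hp
      have hop : (0 : ℝ) < od a p := lt_trans hL0 hp3
      have hop' : 0 < od a p := by exact_mod_cast hop
      have hpp : (0 : ℝ) < p := by exact_mod_cast hp2.pos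
      refine le_trans (card_two x hx0 p (od a p) hp2.pos hop') ?_
      rw [div_mul_div_comm, mul_one, mul_comm (p : ℝ)]
      exact div_le_div_of_nonneg_left hx0 (by positivity)
        (mul_le_mul_of_nonneg_right hp3.le hpp.le)
    refine le_trans e1 ?_
    rw [← Finset.mul_sum]
    refine mul_le_mul_of_nonneg_left ?_ (by positivity)
    refine le_trans (Finset.sum_le_sum_of_subset_of_nonneg (filter_subset _ _) ?_)
      (sum_inv_le x hx1)
    intro i _ _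
    positivity
  have b3 : (P3.card : ℝ) ≤ x * ∑ p ∈ F3, 1 / (p : ℝ) := by
    refine le_trans (Nat.cast_le.mpr card_biUnion_le) ?_
    rw [Nat.cast_sum, Finset.mul_sum]
    refine Finset.sum_le_sum fun p hp => ?_
    obtain ⟨hp1, hp2, hp3⟩ := mem_filter.mp hp
    refine le_trans (card_mult x hx0 p hp2.pos) (le_of_eq ?_)
    rw [mul_one_div]
  have b4 : (P4.card : ℝ) ≤ x / L + x * ∑ m ∈ Icc 1 ⌊x⌋₊, 1 / (m : ℝ) *
      ∑ d ∈ (Icc 1 ⌊x⌋₊).filter (fun d : ℕ => x / L ^ (B + 1) < (d : ℝ) ∧ od a d = m ∧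
        ∀ p : ℕ, p.Prime → p ∣ d → Q p), 1 / (d : ℝ) := by
    have e1 : (P4.card : ℝ) ≤ ∑ d ∈ D4, (1 + x * (1 / (od a d : ℝ) * (1 / (d : ℝ)))) := by
      refine le_trans (Nat.cast_le.mpr card_biUnion_le) ?_
      rw [Nat.cast_sum]
      refine Finset.sum_le_sum fun d hd => ?_
      obtain ⟨hd1, hd2, hd3⟩ := mem_filter.mp hd
      refine le_trans (card_four x hx0 d (od a d) (mem_Icc.mp hd1).1 (mem_Icc.mp hd3.1).1)
        (le_of_eq ?_)
      rw [one_div_mul_one_div, mul_one_div]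
    refine le_trans e1 ?_
    rw [Finset.sum_add_distrib, ← Finset.mul_sum]
    refine add_le_add ?_ (mul_le_mul_of_nonneg_left ?_ hx0)
    · rw [Finset.sum_const, nsmul_eq_mul, mul_one]
      refine le_trans ?_ b1
      exact_mod_cast card_le_card (filter_subset _ _)
    · have e2 := Finset.sum_fiberwise_of_maps_to (s := D4) (t := Icc 1 ⌊x⌋₊)
        (g := fun d => od a d) (fun d hd => (mem_filter.mp hd).2.2.1)
        (fun d => 1 / (od a d : ℝ) * (1 / (d : ℝ)))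
      rw [← e2]
      refine Finset.sum_le_sum fun m hm => ?_
      rw [Finset.mul_sum]
      have e3 : ∑ d ∈ D4.filter (fun d => od a d = m), 1 / (od a d : ℝ) * (1 / (d : ℝ)) =
          ∑ d ∈ D4.filter (fun d => od a d = m), 1 / (m : ℝ) * (1 / (d : ℝ)) := by
        refine Finset.sum_congr rfl fun d hd => ?_
        rw [(mem_filter.mp hd).2]
      rw [e3]
      refine Finset.sum_le_sum_of_subset_of_nonneg ?_ ?_
      · intro d hd
        obtain ⟨hd1, hd2⟩ := mem_filter.mp hd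
        obtain ⟨hd3, hd4, hd5⟩ := mem_filter.mp hd1
        refine mem_filter.mpr ⟨mem_Icc.mpr ⟨(mem_Icc.mp hd3).1, le_trans (mem_Icc.mp hd3).2 ?_⟩,
          hd4, hd2, hd5.2⟩
        exact Nat.floor_le_floor (div_le_self hx0 hL)
      · intro i _ _
        positivity
  have hfin := hcard2
  linarith

end Pool.Agent.Lib.MP_a260de_nt
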