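import Pool.Agent.Lib.MP_a260de_nt.SpecM

/-!
# MP_a260de_nt: bases with small order modulo every prime of a set
-/

set_option autoImplicit false

namespace Pool.Agent.Lib.MP_a260de_nt

namespace Crtaux

/-- The residues with small order. -/
noncomputable def res (θ : ℝ) (p : ℕ) : Finset ℕ :=
  (Finset.range p).filter fun r : ℕ => 0 < od (r : ℤ) p ∧ (od (r : ℤ) p : ℝ) ≤ (p : ℝ) ^ θ

lemma card_res (θ : ℝ) (p : ℕ) : (res θ p).card = R θ p := rfl

lemma mem_res (θ : ℝ) (a : ℤ) (A q : ℕ) (h : q ∈ smallP θ a A) : (a % q).toNat ∈ res θ q := by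
  rw [smallP, Finset.mem_filter, Finset.mem_Icc] at h
  obtain ⟨⟨h1, -⟩, hp, h2, h3⟩ := h
  have hq : (0 : ℤ) < q := by exact_mod_cast h1
  have h4 : (((a % q).toNat : ℕ) : ℤ) = a % q := Int.toNat_of_nonneg (Int.emod_nonneg _ hq.ne')
  have h5 : od (((a % q).toNat : ℕ) : ℤ) q = od a q := by
    rw [h4, od, od, ZMod.intCast_mod]
  rw [res, Finset.mem_filter, Finset.mem_range, h5]
  refine ⟨?_, h2, h3⟩
  have h6 : a % q < q := Int.emod_lt_of_pos _ hq
  zify
  rw [h4]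
  exact h6

lemma card_le (θ : ℝ) (A : ℕ) (Q : Finset ℕ) (hQ : ∀ q ∈ Q, q.Prime) :
    ((Finset.Icc (-(A : ℤ)) A).filter fun a : ℤ => Q ⊆ smallP θ a A).card ≤
      (2 * (A / ∏ q ∈ Q, q) + 2) * ∏ q ∈ Q, R θ q := by
  classical
  set P := ∏ q ∈ Q, q with hP
  have hP0 : 0 < P := Finset.prod_pos fun q hq => (hQ q hq).pos
  have hPz : (0 : ℤ) < P := by exact_mod_cast hP0
  have hle : ((Finset.Icc (-(A : ℤ)) A).filter fun a : ℤ => Q ⊆ smallP θ a A).card ≤
      ((Finset.Icc (-((A / P : ℕ) : ℤ) - 1) ((A / P : ℕ) : ℤ)) ×ˢ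
        (Q.pi fun q => res θ q)).card := by
    apply Finset.card_le_card_of_injOn (fun a : ℤ => (a / P, fun q (_ : q ∈ Q) => (a % q).toNat))
    · intro a ha
      rw [Finset.mem_coe, Finset.mem_filter, Finset.mem_Icc] at ha
      obtain ⟨⟨h1, h2⟩, h3⟩ := ha
      rw [Finset.mem_coe, Finset.mem_product, Finset.mem_Icc, Finset.mem_pi]
      refine ⟨⟨?_, ?_⟩, fun q hq => mem_res θ a A q (h3 hq)⟩
      · have h4 : -((A / P : ℕ) : ℤ) - 1 ≤ -(A : ℤ) / P := by
          rw [Int.le_ediv_iff_mul_le hPz]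
          have h5 : A < P * (A / P + 1) := by
            rw [mul_add, mul_one]
            exact Nat.lt_mul_div_succ A hP0 |>.trans_eq (by ring)
          have h6 : (A : ℤ) < P * (((A / P : ℕ) : ℤ) + 1) := by exact_mod_cast h5
          nlinarith
        exact h4.trans (Int.ediv_le_ediv hPz h1)
      · have h4 : ((A / P : ℕ) : ℤ) = (A : ℤ) / P := by simp
        rw [h4]
        exact Int.ediv_le_ediv hPz h2
    · intro a _ b _ hab
      simp only [Prod.mk.injEq] at hab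
      obtain ⟨h1, h2⟩ := hab
      have h3 : ∀ q ∈ Q, q ∣ (a - b).natAbs := by
        intro q hq
        have hqz : (0 : ℤ) < q := by exact_mod_cast (hQ q hq).pos
        have h4 := congrFun (congrFun h2 q) hq
        have h5 : a % q = b % q := by
          have ha := Int.emod_nonneg a hqz.ne'
          have hb := Int.emod_nonneg b hqz.ne'
          omega
        rw [← Int.natCast_dvd]
        exact Int.ModEq.dvd (show b ≡ a [ZMOD q] from h5.symm)
      have h6 : P ∣ (a - b).natAbs :=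
        Finset.prod_primes_dvd _ (fun q hq => (hQ q hq).prime) h3
      have h7 : (P : ℤ) ∣ a - b := Int.natCast_dvd.2 h6
      have h8 : a % P = b % P := (Int.modEq_iff_dvd.2 h7).symm
      rw [← Int.mul_ediv_add_emod a P, ← Int.mul_ediv_add_emod b P, h1, h8]
  refine hle.trans ?_
  rw [Finset.card_product, Finset.card_pi, Int.card_Icc]
  apply le_of_eq
  congr 1
  omega

end Crtaux

open Crtaux in
theorem crt : StmtCrt := by
  intro θ A Q hQ hA
  have h1 := card_le θ A Q hQ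
  set P := ∏ q ∈ Q, q with hP
  have hP0 : 0 < P := Finset.prod_pos fun q hq => (hQ q hq).pos
  have hPr : (0 : ℝ) < P := by exact_mod_cast hP0
  have h2 : ((2 * (A / P) + 2 : ℕ) : ℝ) ≤ 4 * A / P := by
    have h3 : ((A / P : ℕ) : ℝ) ≤ (A : ℝ) / P := Nat.cast_div_le
    have h4 : (1 : ℝ) ≤ (A : ℝ) / P := by
      rw [le_div_iff₀ hPr, one_mul]
      exact_mod_cast hA
    push_cast
    have e : 4 * (A : ℝ) / P = 4 * ((A : ℝ) / P) := by ring
    rw [e]
    linarith
  have h5 : (0 : ℝ) ≤ ∏ q ∈ Q, (R θ q : ℝ) := Finset.prod_nonneg fun _ _ => Nat.cast_nonneg _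
  calc ((((Finset.Icc (-(A : ℤ)) A).filter fun a : ℤ => Q ⊆ smallP θ a A).card : ℕ) : ℝ)
      ≤ (((2 * (A / P) + 2) * ∏ q ∈ Q, R θ q : ℕ) : ℝ) := by exact_mod_cast h1
    _ = ((2 * (A / P) + 2 : ℕ) : ℝ) * ∏ q ∈ Q, (R θ q : ℝ) := by push_cast; ring
    _ ≤ 4 * A / P * ∏ q ∈ Q, (R θ q : ℝ) := mul_le_mul_of_nonneg_right h2 h5
    _ = 4 * A * ∏ q ∈ Q, ((R θ q : ℝ) / q) := by
      rw [Finset.prod_div_distrib, hP]
      push_cast
      ring

end Pool.Agent.Lib.MP_a260de_nt
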