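import Pool.Agent.Lib.MP_a260de_nt.Spec

/-!
# MP_a260de_nt: the bound for a good base
-/

set_option autoImplicit false

namespace Pool.Agent.Lib.MP_a260de_nt

open Filter Topology

namespace Finalaux

theorem od_dvd_of_dvd {a : ℤ} {p d : ℕ} (h : p ∣ d) : od a p ∣ od a d := by
  unfold od
  have h1 := orderOf_map_dvd (ZMod.castHom h (ZMod p)).toMonoidHom (a : ZMod d)
  have h2 : (ZMod.castHom h (ZMod p)).toMonoidHom (a : ZMod d) = (a : ZMod p) := by
    simp
  rwa [h2] at h1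

theorem sum_inv_le {x : ℝ} (hx : 1 ≤ x) :
    ∑ m ∈ Finset.Icc 1 ⌊x⌋₊, 1 / (m : ℝ) ≤ 1 + Real.log x := by
  have h := harmonic_floor_le_one_add_log x hx
  rw [harmonic_eq_sum_Icc] at h
  push_cast at h
  simpa [one_div] using h

/-- `log log x → ∞` etc. -/
theorem tendsto_l2 : Tendsto (fun y : ℝ => Real.log y) atTop atTop := Real.tendsto_log_atTop

theorem tendsto_ep_zero : Tendsto ep atTop (𝓝 0) := by
  have h1 : Tendsto (fun z : ℝ => Real.log z / z) atTop (𝓝 0) := by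
    simpa using Real.isLittleO_log_id_atTop.tendsto_div_nhds_zero
  exact h1.comp (Real.tendsto_log_atTop.comp Real.tendsto_log_atTop)

theorem ep_mul_ge : ∀ᶠ x : ℝ in atTop, Real.log x ^ (3 / 4 : ℝ) ≤ ep x * Real.log x := by
  have h1 : ∀ᶠ y : ℝ in atTop, Real.log y ≤ y ^ (1 / 4 : ℝ) := by
    have := (isLittleO_log_rpow_atTop (show (0 : ℝ) < 1 / 4 by norm_num)).bound
      (show (0 : ℝ) < 1 by norm_num)
    filter_upwards [this, eventually_ge_atTop 1] with y hy hy1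
    rw [one_mul, Real.norm_eq_abs, Real.norm_eq_abs, abs_of_nonneg (Real.log_nonneg hy1),
      abs_of_nonneg (by positivity)] at hy
    exact hy
  have h2 : ∀ᶠ y : ℝ in atTop, 1 ≤ Real.log (Real.log y) :=
    (Real.tendsto_log_atTop.comp Real.tendsto_log_atTop).eventually_ge_atTop 1
  have h3 : ∀ᶠ y : ℝ in atTop, y ^ (3 / 4 : ℝ) ≤
      Real.log (Real.log y) / Real.log y * y := by
    filter_upwards [h1, h2, eventually_gt_atTop 1] with y hy hy2 hy1
    have hl : 0 < Real.log y := Real.log_pos hy1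
    have hy0 : 0 < y := by linarith
    rw [div_mul_eq_mul_div, le_div_iff₀ hl]
    calc y ^ (3 / 4 : ℝ) * Real.log y ≤ y ^ (3 / 4 : ℝ) * y ^ (1 / 4 : ℝ) := by gcongr
      _ = y := by
          rw [← Real.rpow_add hy0]; norm_num
      _ = 1 * y := (one_mul y).symm
      _ ≤ Real.log (Real.log y) * y := by gcongr
  exact Real.tendsto_log_atTop.eventually h3

theorem log_le_eventually {κ a b : ℝ} (hκ : 0 < κ) (ha : 0 < a) (hb : 0 < b) :
    ∀ᶠ y : ℝ in atTop, Real.log (a + b * y) ≤ κ * y ^ (3 / 4 : ℝ) := by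
  have h1 : ∀ᶠ y : ℝ in atTop, Real.log y ≤ (κ / 2) * y ^ (3 / 4 : ℝ) := by
    have := (isLittleO_log_rpow_atTop (show (0 : ℝ) < 3 / 4 by norm_num)).bound
      (show (0 : ℝ) < κ / 2 by positivity)
    filter_upwards [this, eventually_ge_atTop 1] with y hy hy1
    rw [Real.norm_eq_abs, Real.norm_eq_abs, abs_of_nonneg (Real.log_nonneg hy1),
      abs_of_nonneg (by positivity)] at hy
    exact hy
  have h2 : ∀ᶠ y : ℝ in atTop, Real.log (a + b) ≤ (κ / 2) * y ^ (3 / 4 : ℝ) :=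
    ((tendsto_rpow_atTop (show (0 : ℝ) < 3 / 4 by norm_num)).const_mul_atTop
      (show (0 : ℝ) < κ / 2 by positivity)).eventually_ge_atTop _
  filter_upwards [h1, h2, eventually_ge_atTop 1] with y hy1 hy2 hy3
  have h3 : a + b * y ≤ (a + b) * y := by nlinarith
  calc Real.log (a + b * y) ≤ Real.log ((a + b) * y) :=
        Real.log_le_log (by positivity) h3
    _ = Real.log (a + b) + Real.log y := Real.log_mul (by positivity) (by positivity)
    _ ≤ _ := by linarith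

theorem half_le_eventually {κ : ℝ} (hκ : 0 < κ) :
    ∀ᶠ y : ℝ in atTop, 4 * y ^ (1 / 2 : ℝ) ≤ κ * y ^ (3 / 4 : ℝ) := by
  have h2 : ∀ᶠ y : ℝ in atTop, 4 / κ ≤ y ^ (1 / 4 : ℝ) :=
    (tendsto_rpow_atTop (show (0 : ℝ) < 1 / 4 by norm_num)).eventually_ge_atTop _
  filter_upwards [h2, eventually_ge_atTop 1] with y hy hy1
  have hy0 : 0 < y := by linarith
  have h3 : y ^ (3 / 4 : ℝ) = y ^ (1 / 2 : ℝ) * y ^ (1 / 4 : ℝ) := by
    rw [← Real.rpow_add hy0]; norm_num
  rw [div_le_iff₀ hκ] at hy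
  rw [h3]
  have h4 : 0 ≤ y ^ (1 / 2 : ℝ) := by positivity
  nlinarith

end Finalaux

open Finalaux

theorem final (h4 : StmtRankin) (h6 : StmtCount) : StmtFinal := by
  intro τ' τ B hτ' hττ hτ1 hB
  set κ : ℝ := (τ - τ') / 4 with hκ
  have hκ0 : 0 < κ := by rw [hκ]; linarith
  have hτ0 : 0 < τ := hτ'.trans hττ
  have e1 : ∀ᶠ x : ℝ in atTop, ep x < min (1 / 2) (κ / ((B + 1) * τ)) :=
    tendsto_ep_zero.eventually (gt_mem_nhds (by
      rw [lt_min_iff]; exact ⟨by norm_num, by positivity⟩))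
  have e2 := ep_mul_ge
  have e3 : ∀ᶠ x : ℝ in atTop, Real.log (2 + 2 * Real.log x) ≤ κ * Real.log x ^ (3 / 4 : ℝ) :=
    Real.tendsto_log_atTop.eventually (log_le_eventually hκ0 two_pos two_pos)
  have e4 : ∀ᶠ x : ℝ in atTop,
      Real.log (6 + 4 * Real.log x) ≤ (1 - τ') * Real.log x ^ (3 / 4 : ℝ) :=
    Real.tendsto_log_atTop.eventually (log_le_eventually (by linarith) (by norm_num)
      (by norm_num))
  have e5 : ∀ᶠ x : ℝ in atTop,
      4 * Real.log x ^ (1 / 2 : ℝ) ≤ κ * Real.log x ^ (3 / 4 : ℝ) :=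
    Real.tendsto_log_atTop.eventually (half_le_eventually hκ0)
  have e6 : ∀ᶠ x : ℝ in atTop, 1 ≤ Real.log x := Real.tendsto_log_atTop.eventually_ge_atTop 1
  obtain ⟨x₀, hx₀⟩ := eventually_atTop.1 (e1.and (e2.and (e3.and (e4.and (e5.and (e6.and
    (eventually_ge_atTop 1)))))))
  refine ⟨x₀, fun x hx a ha hN3 hT => ?_⟩
  obtain ⟨f1, f2, f3, f4, f5, f6, f7⟩ := hx₀ x hx
  set y : ℝ := Real.log x with hy
  set e : ℝ := ep x with he
  have hx0 : 0 < x := by linarith
  have hy0 : 0 < y := by linarith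
  have hxy : x = Real.exp y := (Real.exp_log hx0).symm
  have hy34 : 0 < y ^ (3 / 4 : ℝ) := by positivity
  have he0 : 0 < e := by
    by_contra hcon
    push Not at hcon
    nlinarith
  have he12 : e < 1 / 2 := f1.trans_le (min_le_left _ _)
  have heB : (B + 1) * τ * e ≤ κ := by
    have := f1.trans_le (min_le_right _ _)
    rw [lt_div_iff₀ (by positivity)] at this
    linarith
  set η : ℝ := τ * e with hη
  have hη0 : 0 < η := by positivity
  have hη12 : η ≤ 1 / 2 := by nlinarith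
  set L : ℝ := Real.exp (y * e) with hL
  have hL1 : 1 ≤ L := Real.one_le_exp (by positivity)
  have hL0 : 0 < L := by linarith
  have hLx : L ≤ x := by
    rw [hxy, hL]; exact Real.exp_le_exp.2 (by nlinarith)
  have hcount := h6 a x L B ha hL1 hLx hB
  -- the inner sums
  set R : ℝ := (x / L ^ (B + 1)) ^ (-η) * Real.exp (4 * y ^ (1 / 2 : ℝ)) with hR
  have hLB : 0 < L ^ (B + 1) := by positivity
  have hbase : 0 < x / L ^ (B + 1) := by positivity
  have hinner : ∀ m ∈ Finset.Icc 1 ⌊x⌋₊,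
      ∑ d ∈ (Finset.Icc 1 ⌊x⌋₊).filter (fun d : ℕ => x / L ^ (B + 1) < (d : ℝ) ∧ od a d = m),
        1 / (d : ℝ) ≤ R := by
    intro m hm
    rw [Finset.mem_Icc] at hm
    have hmx : (m : ℝ) ≤ x := (Nat.le_floor_iff hx0.le).1 hm.2
    set D := (Finset.Icc 1 ⌊x⌋₊).filter
      (fun d : ℕ => x / L ^ (B + 1) < (d : ℝ) ∧ od a d = m) with hD
    set S := (Finset.Icc 1 ⌊x⌋₊).filter
      (fun p : ℕ => p.Prime ∧ 0 < od a p ∧ od a p ∣ m) with hS
    have hS1 : ∀ p ∈ S, p.Prime ∧ 0 < od a p ∧ od a p ∣ m := fun p hp =>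
      (Finset.mem_filter.1 hp).2
    have hD1 : ∀ d ∈ D, d ≠ 0 ∧ d.primeFactors ⊆ S := by
      intro d hd
      rw [hD, Finset.mem_filter, Finset.mem_Icc] at hd
      refine ⟨by omega, fun p hp => ?_⟩
      rw [Nat.mem_primeFactors] at hp
      have hdvd := od_dvd_of_dvd (a := a) hp.2.1
      rw [hd.2.2] at hdvd
      rw [hS, Finset.mem_filter, Finset.mem_Icc]
      refine ⟨⟨hp.1.one_le, (Nat.le_of_dvd (by omega) hp.2.1).trans hd.1.2⟩, hp.1, ?_, hdvd⟩
      exact Nat.pos_of_dvd_of_pos hdvd hm.1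
    have hrank := h4 (1 - η) (by linarith) S D (fun p hp => (hS1 p hp).1) hD1
    have hTm := hT m hm.1 hmx S hS1
    have h1 : ∑ d ∈ D, 1 / (d : ℝ) ≤
        ∑ d ∈ D, (x / L ^ (B + 1)) ^ (-η) * (d : ℝ) ^ (-(1 - η)) := by
      refine Finset.sum_le_sum fun d hd => ?_
      rw [hD, Finset.mem_filter, Finset.mem_Icc] at hd
      have hd0 : (0 : ℝ) < d := by exact_mod_cast hd.1.1
      have h2 : 1 / (d : ℝ) = (d : ℝ) ^ (-η) * (d : ℝ) ^ (-(1 - η)) := by
        rw [← Real.rpow_add hd0]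
        have : -η + -(1 - η) = -1 := by ring
        rw [this, Real.rpow_neg_one, one_div]
      rw [h2]
      refine mul_le_mul_of_nonneg_right ?_ (by positivity)
      exact Real.rpow_le_rpow_of_nonpos hbase hd.2.1.le (by linarith)
    refine h1.trans ?_
    rw [← Finset.mul_sum, hR]
    refine mul_le_mul_of_nonneg_left (hrank.trans ?_) (by positivity)
    exact Real.exp_le_exp.2 (by linarith)
  have hR0 : 0 < R := by positivity
  have hsum : ∑ m ∈ Finset.Icc 1 ⌊x⌋₊, 1 / (m : ℝ) *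
      ∑ d ∈ (Finset.Icc 1 ⌊x⌋₊).filter (fun d : ℕ => x / L ^ (B + 1) < (d : ℝ) ∧ od a d = m),
        1 / (d : ℝ) ≤ (1 + y) * R := by
    calc _ ≤ ∑ m ∈ Finset.Icc 1 ⌊x⌋₊, 1 / (m : ℝ) * R := by
          refine Finset.sum_le_sum fun m hm => ?_
          exact mul_le_mul_of_nonneg_left (hinner m hm) (by positivity)
      _ = (∑ m ∈ Finset.Icc 1 ⌊x⌋₊, 1 / (m : ℝ)) * R := by rw [Finset.sum_mul]
      _ ≤ _ := mul_le_mul_of_nonneg_right (sum_inv_le f7) hR0.le
  -- numerical part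
  have hRe : R = Real.exp (-η * (y - (B + 1) * (y * e)) + 4 * y ^ (1 / 2 : ℝ)) := by
    rw [hR, Real.exp_add]
    congr 1
    have h1 : x / L ^ (B + 1) = Real.exp (y - (B + 1) * (y * e)) := by
      rw [hxy, hL, ← Real.exp_mul, ← Real.exp_sub]
      congr 1; ring
    rw [h1, ← Real.exp_mul]
    congr 1; ring
  have htarget : x ^ (1 - τ' * e) = x * Real.exp (-(τ' * (e * y))) := by
    rw [Real.rpow_sub hx0, Real.rpow_one, Real.exp_neg, hxy, ← Real.exp_mul]
    rw [div_eq_mul_inv]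
    congr 3; ring
  have g1 : (3 + 2 * y) / L ≤ 1 / 2 * Real.exp (-(τ' * (e * y))) := by
    have h1 : 6 + 4 * y ≤ Real.exp ((1 - τ') * (e * y)) := by
      have h2 : Real.log (6 + 4 * y) ≤ (1 - τ') * (e * y) :=
        f4.trans (mul_le_mul_of_nonneg_left f2 (by linarith))
      have h3 := Real.exp_le_exp.2 h2
      rwa [Real.exp_log (by positivity)] at h3
    rw [div_le_iff₀ hL0]
    have h2 : 1 / 2 * Real.exp (-(τ' * (e * y))) * L =
        1 / 2 * Real.exp ((1 - τ') * (e * y)) := by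
      rw [hL, mul_assoc, ← Real.exp_add]
      congr 2; ring
    rw [h2]
    linarith
  have g2 : (1 + y) * R ≤ 1 / 2 * Real.exp (-(τ' * (e * y))) := by
    have h1 : 2 + 2 * y ≤ Real.exp (κ * y ^ (3 / 4 : ℝ)) := by
      have h3 := Real.exp_le_exp.2 f3
      rwa [Real.exp_log (by positivity)] at h3
    have hey : 0 < e * y := by positivity
    have h2 : -η * (y - (B + 1) * (y * e)) + 4 * y ^ (1 / 2 : ℝ) ≤
        -(τ' * (e * y)) - κ * y ^ (3 / 4 : ℝ) := by
      have i1 : (B + 1) * τ * e * (e * y) ≤ κ * (e * y) :=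
        mul_le_mul_of_nonneg_right heB hey.le
      have i2 : κ * y ^ (3 / 4 : ℝ) ≤ κ * (e * y) := mul_le_mul_of_nonneg_left f2 hκ0.le
      have i3 : τ * (e * y) = τ' * (e * y) + 4 * κ * (e * y) := by rw [hκ]; ring
      have i4 : -η * (y - (B + 1) * (y * e)) = -(τ * (e * y)) + (B + 1) * τ * e * (e * y) := by
        rw [hη]; ring
      have i5 : 0 ≤ κ * (e * y) := by positivity
      rw [i4]
      linarith
    have h3 : R ≤ Real.exp (-(τ' * (e * y)) - κ * y ^ (3 / 4 : ℝ)) := by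
      rw [hRe]; exact Real.exp_le_exp.2 h2
    calc (1 + y) * R ≤ (1 / 2 * Real.exp (κ * y ^ (3 / 4 : ℝ))) *
          Real.exp (-(τ' * (e * y)) - κ * y ^ (3 / 4 : ℝ)) := by
          apply mul_le_mul _ h3 hR0.le (by positivity)
          linarith
      _ = 1 / 2 * Real.exp (-(τ' * (e * y))) := by
          rw [mul_assoc, ← Real.exp_add]; congr 2; ring
  rw [htarget]
  have hfin : ((psp a x).ncard : ℝ) ≤ x * ((3 + 2 * y) / L + (1 + y) * R) := by
    have j1 := mul_le_mul_of_nonneg_left hN3 hx0.le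
    have j2 := mul_le_mul_of_nonneg_left hsum hx0.le
    have j3 : x * ((3 + 2 * y) / L + (1 + y) * R) = 2 * (x / L) + x / L * (1 + y) +
        x * (y / L) + x * ((1 + y) * R) := by ring
    rw [j3]
    linarith
  refine hfin.trans (mul_le_mul_of_nonneg_left ?_ hx0.le)
  linarith

end Pool.Agent.Lib.MP_a260de_nt
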