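import Pool.Agent.Lib.MP_a260de_nt.Spec

set_option autoImplicit false

namespace Pool.Agent.Lib.MP_a260de_nt

namespace T2aux

open Real Filter Topology

lemma sum_rpow_le (η : ℝ) (h0 : 0 < η) (h1 : η ≤ 1) (n : ℕ) :
    ∑ k ∈ Finset.Icc 1 n, (k : ℝ) ^ (-(1 - η)) ≤ (n : ℝ) ^ η / η := by
  induction n with
  | zero => simp [Real.zero_rpow h0.ne']
  | succ n ih =>
    rw [Finset.sum_Icc_succ_top (by omega)]
    have hn : (0:ℝ) < (n:ℝ) + 1 := by positivity
    have hs : (-1:ℝ) ≤ -(1 / ((n:ℝ) + 1)) := by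
      have : 1 / ((n:ℝ) + 1) ≤ 1 := by
        rw [div_le_one hn]; linarith [Nat.cast_nonneg (α := ℝ) n]
      linarith
    have hb := _root_.rpow_one_add_le_one_add_mul_self (s := -(1/((n:ℝ)+1))) (p := η) hs h0.le h1
    have e1 : (n:ℝ) = ((n:ℝ)+1) * (1 + -(1/((n:ℝ)+1))) := by field_simp; ring
    have h2 : (0:ℝ) ≤ 1 + -(1/((n:ℝ)+1)) := by linarith
    have e2 : (n:ℝ) ^ η = ((n:ℝ)+1) ^ η * (1 + -(1/((n:ℝ)+1))) ^ η := by
      conv_lhs => rw [e1]
      rw [Real.mul_rpow hn.le h2]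
    have h3 : (n:ℝ) ^ η ≤ ((n:ℝ)+1) ^ η * (1 + η * -(1/((n:ℝ)+1))) := by
      rw [e2]
      exact mul_le_mul_of_nonneg_left hb (Real.rpow_nonneg hn.le _)
    have e3 : ((n:ℝ)+1) ^ (-(1 - η)) = ((n:ℝ)+1) ^ η / ((n:ℝ)+1) := by
      rw [show -(1 - η) = η - 1 by ring, Real.rpow_sub hn, Real.rpow_one]
    have h4 : (n:ℝ) ^ η / η + ((n:ℝ)+1) ^ (-(1 - η)) ≤ ((n:ℝ)+1) ^ η / η := by
      rw [e3]
      have : (n:ℝ) ^ η / η ≤ (((n:ℝ)+1) ^ η * (1 + η * -(1/((n:ℝ)+1)))) / η :=
        div_le_div_of_nonneg_right h3 h0.le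
      have e4 : (((n:ℝ)+1) ^ η * (1 + η * -(1/((n:ℝ)+1)))) / η =
          ((n:ℝ)+1) ^ η / η - ((n:ℝ)+1) ^ η / ((n:ℝ)+1) := by
        field_simp
        ring
      linarith
    push_cast
    linarith

lemma od_dvd {a : ℤ} {p : ℕ} (hp : p.Prime) (h : 0 < od a p) : od a p ∣ p - 1 := by
  have := Fact.mk hp
  have hne : (a : ZMod p) ≠ 0 := by
    intro h0
    unfold od at h
    rw [h0, orderOf_pos_iff, isOfFinOrder_iff_pow_eq_one] at h
    obtain ⟨n, hn, h1⟩ := h
    rw [zero_pow hn.ne'] at h1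
    exact zero_ne_one h1
  exact ZMod.orderOf_dvd_card_sub_one hne

/-- one fibre -/
lemma fibre (η θ : ℝ) (h0 : 0 < η) (h1 : η ≤ 1) (hθ0 : 0 < θ) (a : ℤ) (d : ℕ)
    (hd : 0 < d)
    (T : Finset ℕ) (hT : ∀ p ∈ T, p.Prime ∧ od a p = d ∧ (p : ℝ) ^ θ < d) :
    ∑ p ∈ T, (p : ℝ) ^ (-(1 - η)) ≤ (d : ℝ) ^ (-(1 - η / θ)) / η := by
  have hdR : (0:ℝ) < d := by exact_mod_cast hd
  set M : ℝ := (d:ℝ) ^ (1/θ - 1) with hM
  have hM0 : 0 < M := Real.rpow_pos_of_pos hdR _
  let g : ℕ → ℕ := fun p => (p - 1) / d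
  have hg : ∀ p ∈ T, p = g p * d + 1 := by
    intro p hp
    obtain ⟨hpp, hod, -⟩ := hT p hp
    have := od_dvd hpp (by rw [hod]; exact hd)
    rw [hod] at this
    have h2 := Nat.div_mul_cancel this
    have := hpp.one_lt
    simp only [g]
    omega
  have hgpos : ∀ p ∈ T, 1 ≤ g p := by
    intro p hp
    rcases Nat.eq_zero_or_pos (g p) with h | h
    · exfalso
      have := hg p hp
      rw [h] at this
      exact (hT p hp).1.one_lt.ne' (by omega)
    · exact h
  have hinj : Set.InjOn g T := by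
    intro p hp q hq h
    rw [hg p hp, hg q hq, h]
  have hgM : ∀ p ∈ T, g p ≤ ⌊M⌋₊ := by
    intro p hp
    rw [Nat.le_floor_iff hM0.le]
    have h3 := (hT p hp).2.2
    have hp0 : (0:ℝ) < p := by exact_mod_cast (hT p hp).1.pos
    have h4 : (p:ℝ) < (d:ℝ) ^ (1/θ) := by
      have := Real.rpow_lt_rpow (Real.rpow_nonneg hp0.le _) h3 (z := 1/θ) (by positivity)
      rwa [← Real.rpow_mul hp0.le, mul_one_div_cancel hθ0.ne', Real.rpow_one] at this
    have h5 : (g p : ℝ) * d ≤ p := by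
      have := hg p hp
      have h6 : g p * d ≤ p := by omega
      exact_mod_cast h6
    have h7 : M * d = (d:ℝ) ^ (1/θ) := by
      rw [hM, Real.rpow_sub hdR, Real.rpow_one]
      field_simp
    have h8 : (g p : ℝ) * d ≤ M * d := by rw [h7]; linarith
    exact le_of_mul_le_mul_right h8 hdR
  calc ∑ p ∈ T, (p : ℝ) ^ (-(1 - η)) ≤ ∑ p ∈ T, ((g p : ℝ) * d) ^ (-(1 - η)) := by
        apply Finset.sum_le_sum
        intro p hp
        have h9 : (0:ℝ) < (g p : ℝ) * d := by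
          have := hgpos p hp
          positivity
        apply Real.rpow_le_rpow_of_nonpos h9 _ (by linarith)
        have := hg p hp
        have h6 : g p * d ≤ p := by omega
        exact_mod_cast h6
    _ = ∑ k ∈ T.image g, ((k : ℝ) * d) ^ (-(1 - η)) := by
        rw [Finset.sum_image hinj]
    _ ≤ ∑ k ∈ Finset.Icc 1 ⌊M⌋₊, ((k : ℝ) * d) ^ (-(1 - η)) := by
        apply Finset.sum_le_sum_of_subset_of_nonneg
        · intro k hk
          rw [Finset.mem_image] at hk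
          obtain ⟨p, hp, rfl⟩ := hk
          exact Finset.mem_Icc.2 ⟨hgpos p hp, hgM p hp⟩
        · intro k _ _
          positivity
    _ = (∑ k ∈ Finset.Icc 1 ⌊M⌋₊, (k : ℝ) ^ (-(1 - η))) * (d : ℝ) ^ (-(1 - η)) := by
        rw [Finset.sum_mul]
        apply Finset.sum_congr rfl
        intro k _
        rw [Real.mul_rpow (by positivity) hdR.le]
    _ ≤ (M ^ η / η) * (d : ℝ) ^ (-(1 - η)) := by
        apply mul_le_mul_of_nonneg_right _ (by positivity)
        refine (sum_rpow_le η h0 h1 _).trans ?_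
        apply div_le_div_of_nonneg_right _ h0.le
        exact Real.rpow_le_rpow (by positivity) (Nat.floor_le hM0.le) h0.le
    _ = (d : ℝ) ^ (-(1 - η / θ)) / η := by
        rw [hM, ← Real.rpow_mul hdR.le, div_mul_eq_mul_div, ← Real.rpow_add hdR]
        congr 2
        field_simp
        ring

lemma analytic (τ ρ C : ℝ) (hτ : 0 < τ) (hρ : ρ < 1) :
    ∀ᶠ t : ℝ in atTop, 1 / (τ * (Real.log t / t)) *
      Real.exp (4 * (t ^ ρ * (Real.log t + C))) ≤ Real.exp (t * (1/4)) := by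
  -- `log t = o(t ^ ((1-ρ)/2))`
  set s : ℝ := (1 - ρ) / 2 with hs
  have hs0 : 0 < s := by rw [hs]; linarith
  have h1 : ∀ᶠ t : ℝ in atTop, Real.log t ≤ t ^ s := by
    have := (isLittleO_log_rpow_atTop hs0).bound (c := 1) one_pos
    filter_upwards [this, eventually_ge_atTop (1:ℝ)] with t ht ht1
    rw [Real.norm_of_nonneg (Real.log_nonneg ht1), Real.norm_of_nonneg (by positivity), one_mul]
      at ht
    exact ht
  have h2 : ∀ᶠ t : ℝ in atTop, 1 ≤ t := eventually_ge_atTop 1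
  have h3 : ∀ᶠ t : ℝ in atTop, 1 ≤ Real.log t := by
    exact Real.tendsto_log_atTop.eventually_ge_atTop 1
  have h4 : ∀ᶠ t : ℝ in atTop, C ≤ t ^ s :=
    (tendsto_rpow_atTop hs0).eventually_ge_atTop C
  have h5 : ∀ᶠ t : ℝ in atTop, 64 ≤ t ^ s :=
    (tendsto_rpow_atTop hs0).eventually_ge_atTop 64
  have h6 : ∀ᶠ t : ℝ in atTop, 1 / τ * t ≤ Real.exp (t * (1/8)) := by
    have h := (isLittleO_pow_exp_pos_mul_atTop 1 (b := 1/8) (by norm_num)).bound (c := τ) hτ
    filter_upwards [h, eventually_ge_atTop (0:ℝ)] with t ht ht0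
    rw [pow_one, Real.norm_of_nonneg ht0, Real.norm_of_nonneg (Real.exp_pos _).le] at ht
    rw [one_div_mul_eq_div, div_le_iff₀ hτ, mul_comm t, mul_comm _ τ]
    exact ht
  filter_upwards [h1, h2, h3, h4, h5, h6] with t a1 a2 a3 a4 a5 a6
  have ht0 : 0 < t := by linarith
  have b1 : 1 / (τ * (Real.log t / t)) ≤ 1 / τ * t := by
    have : 1 / (τ * (Real.log t / t)) = (1 / τ * t) / Real.log t := by
      field_simp
    rw [this]
    exact div_le_self (by positivity) a3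
  have b2 : t ^ ρ * (Real.log t + C) ≤ t * (1/32) := by
    have c1 : t ^ ρ * (Real.log t + C) ≤ t ^ ρ * (2 * t ^ s) := by
      apply mul_le_mul_of_nonneg_left _ (by positivity)
      linarith
    have c2 : t ^ ρ * (2 * t ^ s) * t ^ s = 2 * t := by
      have : t ^ ρ * t ^ s * t ^ s = t := by
        rw [← Real.rpow_add ht0, ← Real.rpow_add ht0, show ρ + s + s = 1 by rw [hs]; ring,
          Real.rpow_one]
      linarith [this]
    have c3 : t ^ ρ * (2 * t ^ s) * 64 ≤ t ^ ρ * (2 * t ^ s) * t ^ s :=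
      mul_le_mul_of_nonneg_left a5 (by positivity)
    linarith
  calc 1 / (τ * (Real.log t / t)) * Real.exp (4 * (t ^ ρ * (Real.log t + C)))
      ≤ Real.exp (t * (1/8)) * Real.exp (t * (1/8)) := by
        apply mul_le_mul (b1.trans a6) _ (Real.exp_pos _).le (Real.exp_pos _).le
        apply Real.exp_le_exp.2
        linarith
    _ = Real.exp (t * (1/4)) := by
        rw [← Real.exp_add]; congr 1; ring

end T2aux

open T2aux Filter in
theorem t2 (hP : StmtPrimeSum) (hR : StmtRankin) : StmtT2 := by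
  intro τ θ hτ hτθ hθ1
  obtain ⟨C, hC, hP⟩ := hP
  have hθ0 : 0 < θ := hτ.trans hτθ
  have hρ : τ / θ < 1 := (div_lt_one hθ0).2 hτθ
  have hρ0 : 0 < τ / θ := div_pos hτ hθ0
  have hl2 : Tendsto (fun x : ℝ => Real.log (Real.log x)) atTop atTop :=
    Real.tendsto_log_atTop.comp Real.tendsto_log_atTop
  have hlt : Tendsto (fun t : ℝ => Real.log t / t) atTop (nhds 0) := by
    have := Real.isLittleO_log_id_atTop
    exact this.tendsto_div_nhds_zero
  have e1 := hl2.eventually (analytic τ (τ / θ) C hτ hρ)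
  have e2 : ∀ᶠ x : ℝ in atTop, 3 ≤ Real.log x := Real.tendsto_log_atTop.eventually_ge_atTop 3
  have e3 : ∀ᶠ x : ℝ in atTop, 1 < Real.log (Real.log x) := hl2.eventually_gt_atTop 1
  have e4 : ∀ᶠ x : ℝ in atTop, (1 / θ) * (Real.log (Real.log (Real.log x)) / Real.log (Real.log x))
      ≤ 1 / 2 := by
    have h := (hlt.comp hl2).const_mul (1 / θ)
    rw [mul_zero] at h
    exact h.eventually (eventually_le_nhds (by norm_num))
  obtain ⟨x₀, hx₀⟩ := eventually_atTop.1 (e1.and (e2.and (e3.and (e4.and (eventually_ge_atTop 1)))))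
  refine ⟨x₀, ?_⟩
  intro x hx a m hm hmx S hS
  obtain ⟨a1, a2, a3, a4, a5⟩ := hx₀ x hx
  set y := Real.log x with hy
  set t := Real.log y with ht
  have hy0 : 0 < y := by linarith
  have hl3 : 0 < Real.log t := Real.log_pos a3
  have hepe : ep x = Real.log t / t := rfl
  have hep0 : 0 < ep x := by rw [hepe]; positivity
  set η := τ * ep x with hη
  have hη0 : 0 < η := by positivity
  have hηθ : η / θ ≤ 1 / 2 := by
    have : η / θ = τ * ((1 / θ) * (Real.log t / t)) := by rw [hη, hepe]; field_simp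
    rw [this]
    have : τ ≤ 1 := by linarith
    have h0 : 0 ≤ (1 / θ) * (Real.log t / t) := by positivity
    nlinarith
  have hηη : η ≤ η / θ := by
    rw [le_div_iff₀ hθ0]
    nlinarith
  have hη1 : η ≤ 1 := by linarith
  have hm0 : m ≠ 0 := by omega
  -- group by order
  have hmaps : ∀ p ∈ S, od a p ∈ m.divisors := fun p hp =>
    Nat.mem_divisors.2 ⟨(hS p hp).2.2.1, hm0⟩
  have step1 : ∑ p ∈ S, (p : ℝ) ^ (-(1 - η)) ≤
      ∑ d ∈ m.divisors, (d : ℝ) ^ (-(1 - η / θ)) / η := by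
    rw [← Finset.sum_fiberwise_of_maps_to hmaps]
    apply Finset.sum_le_sum
    intro d hd
    have hd0 : 0 < d := Nat.pos_of_mem_divisors hd
    apply fibre η θ hη0 hη1 hθ0 a d hd0
    intro p hp
    rw [Finset.mem_filter] at hp
    obtain ⟨hp, hpd⟩ := hp
    obtain ⟨q1, q2, q3, q4⟩ := hS p hp
    exact ⟨q1, hpd, hpd ▸ q4⟩
  have step2 : ∑ d ∈ m.divisors, (d : ℝ) ^ (-(1 - η / θ)) ≤
      Real.exp (4 * ∑ p ∈ m.primeFactors, (p : ℝ) ^ (-(1 - η / θ))) := by
    apply hR (1 - η / θ) (by linarith) m.primeFactors m.divisors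
    · intro p hp; exact Nat.prime_of_mem_primeFactors hp
    · intro d hd
      have hdd := Nat.mem_divisors.1 hd
      exact ⟨(Nat.pos_of_mem_divisors hd).ne', Nat.primeFactors_mono hdd.1 hdd.2⟩
  have hlogm : Real.log m ≤ y := by
    rw [hy]
    exact Real.log_le_log (by exact_mod_cast hm) hmx
  have step3 := hP y a2 m hm hlogm (1 - η / θ) (by linarith) (by
    have : 0 < η / θ := by positivity
    linarith)
  have hyp : y ^ (1 - (1 - η / θ)) = t ^ (τ / θ) := by
    have ht0 : 0 < t := by linarith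
    rw [Real.rpow_def_of_pos hy0, Real.rpow_def_of_pos ht0]
    congr 1
    rw [hη, hepe, ← ht]
    field_simp
    ring
  rw [hyp] at step3
  have step4 : ∑ p ∈ S, (p : ℝ) ^ (-(1 - η)) ≤ 1 / η *
      Real.exp (4 * (t ^ (τ / θ) * (Real.log t + C))) := by
    refine step1.trans ?_
    rw [← Finset.sum_div, div_eq_mul_one_div, mul_comm]
    apply mul_le_mul_of_nonneg_left _ (by positivity)
    refine step2.trans ?_
    apply Real.exp_le_exp.2
    linarith
  refine step4.trans ?_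
  rw [hη, hepe]
  refine a1.trans ?_
  rw [Real.rpow_def_of_pos hy0]

end Pool.Agent.Lib.MP_a260de_nt
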