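import Pool.Agent.Lib.MP_a260de_nt.Spec

/-!
# Primes above `A`
-/

set_option autoImplicit false

namespace Pool.Agent.Lib.MP_a260de_nt

namespace T3aux

/-- partial sums of `k ^ (-(1 - η))` -/
theorem sum_rpow_le (η : ℝ) (h0 : 0 < η) (h1 : η ≤ 1) (n : ℕ) :
    ∑ k ∈ Finset.Icc 1 n, (k : ℝ) ^ (-(1 - η)) ≤ (n : ℝ) ^ η / η := by
  induction n with
  | zero => simp [Real.zero_rpow h0.ne']
  | succ n ih =>
    rw [Finset.sum_Icc_succ_top (by omega)]
    have hn : (0 : ℝ) < ((n + 1 : ℕ) : ℝ) := by positivity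
    have hb : (n : ℝ) ^ η ≤ ((n + 1 : ℕ) : ℝ) ^ η * (1 + η * (-1 / ((n + 1 : ℕ) : ℝ))) := by
      have e1 : (n : ℝ) = ((n + 1 : ℕ) : ℝ) * (1 + -1 / ((n + 1 : ℕ) : ℝ)) := by
        field_simp
        push_cast
        ring
      have e2 : -1 ≤ -1 / ((n + 1 : ℕ) : ℝ) := by
        rw [le_div_iff₀ hn]
        have : (1 : ℝ) ≤ ((n + 1 : ℕ) : ℝ) := by
          exact_mod_cast Nat.succ_le_succ (Nat.zero_le n)
        linarith
      have e3 : (0 : ℝ) ≤ 1 + -1 / ((n + 1 : ℕ) : ℝ) := by linarith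
      calc (n : ℝ) ^ η = (((n + 1 : ℕ) : ℝ) * (1 + -1 / ((n + 1 : ℕ) : ℝ))) ^ η := by rw [← e1]
        _ = ((n + 1 : ℕ) : ℝ) ^ η * (1 + -1 / ((n + 1 : ℕ) : ℝ)) ^ η :=
          Real.mul_rpow hn.le e3
        _ ≤ _ := by
          refine mul_le_mul_of_nonneg_left ?_ (Real.rpow_nonneg hn.le _)
          exact rpow_one_add_le_one_add_mul_self e2 h0.le h1
    have hc : ((n + 1 : ℕ) : ℝ) ^ (-(1 - η)) = ((n + 1 : ℕ) : ℝ) ^ η / ((n + 1 : ℕ) : ℝ) := by
      rw [show -(1 - η) = η - 1 by ring, Real.rpow_sub_one hn.ne']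
    rw [hc]
    rw [le_div_iff₀ h0] at ih ⊢
    have e4 : ((n + 1 : ℕ) : ℝ) ^ η * (1 + η * (-1 / ((n + 1 : ℕ) : ℝ))) =
        ((n + 1 : ℕ) : ℝ) ^ η - ((n + 1 : ℕ) : ℝ) ^ η / ((n + 1 : ℕ) : ℝ) * η := by
      ring
    rw [e4] at hb
    rw [add_mul]
    linarith

theorem sum_K_le (η : ℝ) (h0 : 0 < η) (h1 : η ≤ 1) (d : ℕ) (hd : 1 ≤ d) (K : Finset ℕ)
    (hK : ∀ k ∈ K, 1 ≤ k) (hc : K.card ≤ d) :
    ∑ k ∈ K, (k : ℝ) ^ (-(1 - η)) ≤ 2 / η * (d : ℝ) ^ η := by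
  have hd' : (0 : ℝ) < d := by exact_mod_cast hd
  rw [← Finset.sum_filter_add_sum_filter_not K (fun k => k ≤ d)]
  have e1 : ∑ k ∈ K.filter (fun k => k ≤ d), (k : ℝ) ^ (-(1 - η)) ≤ (d : ℝ) ^ η / η := by
    refine (Finset.sum_le_sum_of_subset_of_nonneg ?_ ?_).trans (sum_rpow_le η h0 h1 d)
    · intro k hk
      rw [Finset.mem_filter] at hk
      rw [Finset.mem_Icc]
      exact ⟨hK k hk.1, hk.2⟩
    · intro k _ _
      exact Real.rpow_nonneg (Nat.cast_nonneg k) _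
  have e2 : ∑ k ∈ K.filter (fun k => ¬ k ≤ d), (k : ℝ) ^ (-(1 - η)) ≤ (d : ℝ) ^ η := by
    calc ∑ k ∈ K.filter (fun k => ¬ k ≤ d), (k : ℝ) ^ (-(1 - η))
        ≤ ∑ _k ∈ K.filter (fun k => ¬ k ≤ d), (d : ℝ) ^ (-(1 - η)) := by
          refine Finset.sum_le_sum fun k hk => ?_
          rw [Finset.mem_filter] at hk
          refine Real.rpow_le_rpow_of_nonpos hd' ?_ (by linarith)
          exact_mod_cast (not_le.1 hk.2).le
      _ = ((K.filter (fun k => ¬ k ≤ d)).card : ℝ) * (d : ℝ) ^ (-(1 - η)) := by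
          rw [Finset.sum_const, nsmul_eq_mul]
      _ ≤ (d : ℝ) * (d : ℝ) ^ (-(1 - η)) := by
          refine mul_le_mul_of_nonneg_right ?_ (Real.rpow_nonneg hd'.le _)
          exact_mod_cast (Finset.card_filter_le _ _).trans hc
      _ = (d : ℝ) ^ η := by
          rw [show -(1 - η) = η - 1 by ring, Real.rpow_sub_one hd'.ne']
          field_simp
  have e3 : (d : ℝ) ^ η ≤ (d : ℝ) ^ η / η := by
    rw [le_div_iff₀ h0]
    have := Real.rpow_nonneg hd'.le η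
    nlinarith
  have e4 : 2 / η * (d : ℝ) ^ η = (d : ℝ) ^ η / η + (d : ℝ) ^ η / η := by ring
  rw [e4]
  linarith

/-- the primes with a given order -/
theorem fibre_small (a : ℤ) (A d : ℕ) (c : ℝ) (hc : 0 ≤ c) (hA : 1 ≤ A) (T : Finset ℕ)
    (hT : ∀ p ∈ T, p.Prime ∧ A < p ∧ od a p = d) (hcard : T.card ≤ d) :
    ∑ p ∈ T, (p : ℝ) ^ (-c) ≤ (d : ℝ) * (A : ℝ) ^ (-c) := by
  have hA' : (0 : ℝ) < A := by exact_mod_cast hA
  calc ∑ p ∈ T, (p : ℝ) ^ (-c) ≤ ∑ _p ∈ T, (A : ℝ) ^ (-c) := by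
        refine Finset.sum_le_sum fun p hp => ?_
        refine Real.rpow_le_rpow_of_nonpos hA' ?_ (by linarith)
        exact_mod_cast (hT p hp).2.1.le
    _ = (T.card : ℝ) * (A : ℝ) ^ (-c) := by rw [Finset.sum_const, nsmul_eq_mul]
    _ ≤ _ := by
        refine mul_le_mul_of_nonneg_right ?_ (Real.rpow_nonneg hA'.le _)
        exact_mod_cast hcard

theorem dvd_sub_one (a : ℤ) (p d : ℕ) (hp : p.Prime) (hd : 1 ≤ d) (h : od a p = d) :
    d ∣ p - 1 := by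
  haveI : Fact p.Prime := ⟨hp⟩
  have ha : (a : ZMod p) ≠ 0 := by
    intro h0
    unfold od at h
    rw [h0, orderOf_zero] at h
    omega
  rw [← h]
  exact ZMod.orderOf_dvd_card_sub_one ha

theorem fibre_large (a : ℤ) (d : ℕ) (η : ℝ) (h0 : 0 < η) (h1 : η ≤ 1) (hd : 1 ≤ d)
    (T : Finset ℕ) (hT : ∀ p ∈ T, p.Prime ∧ od a p = d) (hcard : T.card ≤ d) :
    ∑ p ∈ T, (p : ℝ) ^ (-(1 - η)) ≤ 2 / η * (d : ℝ) ^ (-(1 - 2 * η)) := by
  have hd' : (0 : ℝ) < d := by exact_mod_cast hd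
  have key : ∀ p ∈ T, 1 ≤ (p - 1) / d ∧ p = (p - 1) / d * d + 1 := by
    intro p hp
    have h2 := dvd_sub_one a p d (hT p hp).1 hd (hT p hp).2
    have h3 := (hT p hp).1.two_le
    have h4 : (p - 1) / d * d = p - 1 := Nat.div_mul_cancel h2
    refine ⟨?_, by omega⟩
    rcases Nat.eq_zero_or_pos ((p - 1) / d) with h5 | h5
    · rw [h5] at h4
      omega
    · exact h5
  have hinj : Set.InjOn (fun p : ℕ => (p - 1) / d) (T : Set ℕ) := by
    intro p hp q hq hpq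
    have e1 := (key p hp).2
    have e2 := (key q hq).2
    beta_reduce at hpq
    rw [e1, e2, hpq]
  have e1 : ∑ p ∈ T, (p : ℝ) ^ (-(1 - η)) ≤
      ∑ p ∈ T, (d : ℝ) ^ (-(1 - η)) * (((p - 1) / d : ℕ) : ℝ) ^ (-(1 - η)) := by
    refine Finset.sum_le_sum fun p hp => ?_
    obtain ⟨k1, k2⟩ := key p hp
    have hk : (0 : ℝ) < (((p - 1) / d : ℕ) : ℝ) := by exact_mod_cast k1
    rw [← Real.mul_rpow hd'.le hk.le]
    refine Real.rpow_le_rpow_of_nonpos (mul_pos hd' hk) ?_ (by linarith)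
    have : ((p : ℕ) : ℝ) = (((p - 1) / d : ℕ) : ℝ) * d + 1 := by exact_mod_cast k2
    rw [this]
    linarith [mul_comm (d : ℝ) (((p - 1) / d : ℕ) : ℝ)]
  refine e1.trans ?_
  rw [← Finset.mul_sum]
  have e2 : ∑ p ∈ T, (((p - 1) / d : ℕ) : ℝ) ^ (-(1 - η)) =
      ∑ k ∈ T.image (fun p : ℕ => (p - 1) / d), (k : ℝ) ^ (-(1 - η)) := by
    rw [Finset.sum_image hinj]
  rw [e2]
  have e3 := sum_K_le η h0 h1 d hd (T.image (fun p : ℕ => (p - 1) / d))
    (by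
      intro k hk
      rw [Finset.mem_image] at hk
      obtain ⟨p, hp, rfl⟩ := hk
      exact (key p hp).1)
    (Finset.card_image_le.trans hcard)
  calc (d : ℝ) ^ (-(1 - η)) * ∑ k ∈ T.image (fun p : ℕ => (p - 1) / d), (k : ℝ) ^ (-(1 - η))
      ≤ (d : ℝ) ^ (-(1 - η)) * (2 / η * (d : ℝ) ^ η) :=
        mul_le_mul_of_nonneg_left e3 (Real.rpow_nonneg hd'.le _)
    _ = 2 / η * ((d : ℝ) ^ (-(1 - η)) * (d : ℝ) ^ η) := by ring
    _ = _ := by
        rw [← Real.rpow_add hd']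
        congr 2
        ring

/-- the sum, with all parameters explicit -/
theorem main_sum (hL : StmtLarge) (hR : StmtRankin) (η κ E : ℝ) (h0 : 0 < η) (h1 : η ≤ 1 / 2)
    (hκ : 0 ≤ κ) (hc : 2 * η + κ ≤ 1 / 2) (A : ℕ) (a : ℤ) (m : ℕ) (ha : 2 ≤ |a|)
    (haA : |a| ≤ A) (hm : 1 ≤ m) (S : Finset ℕ)
    (hS : ∀ p ∈ S, p.Prime ∧ A < p ∧ 0 < od a p ∧ od a p ∣ m)
    (hE : ∑ q ∈ m.primeFactors, (q : ℝ) ^ (-(1 - 2 * η - κ)) ≤ E) :
    ∑ p ∈ S, (p : ℝ) ^ (-(1 - η)) ≤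
      1 + 2 / η * ((A : ℝ) ^ (-(κ / 4)) * Real.exp (4 * E)) := by
  classical
  have hA2 : 2 ≤ A := by
    have : (2 : ℤ) ≤ A := ha.trans haA
    exact_mod_cast this
  have hA : (1 : ℝ) ≤ A := by exact_mod_cast (by omega : 1 ≤ A)
  have hA0 : (0 : ℝ) < A := by linarith
  have hm0 : m ≠ 0 := by omega
  have hfib := Finset.sum_fiberwise_of_maps_to (s := S) (t := m.divisors) (g := fun p => od a p)
    (fun p hp => Nat.mem_divisors.2 ⟨(hS p hp).2.2.2, hm0⟩)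
    (fun p : ℕ => (p : ℝ) ^ (-(1 - η)))
  rw [← hfib]
  set Q : ℝ := (A : ℝ) ^ (1 / 4 : ℝ) with hQ
  have hQ1 : 1 ≤ Q := Real.one_le_rpow hA (by norm_num)
  have hbound : ∀ d ∈ m.divisors, ∑ p ∈ S with od a p = d, (p : ℝ) ^ (-(1 - η)) ≤
      (if (d : ℝ) ≤ Q then Q * (A : ℝ) ^ (-(1 - η)) else 0) +
        2 / η * ((A : ℝ) ^ (-(κ / 4)) * (d : ℝ) ^ (-(1 - 2 * η - κ))) := by
    intro d hd
    have hd1 : 1 ≤ d := Nat.pos_of_mem_divisors hd
    have hd' : (0 : ℝ) < d := by exact_mod_cast hd1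
    have hmem : ∀ p ∈ S.filter (fun p => od a p = d), p.Prime ∧ A < p ∧ od a p = d := by
      intro p hp
      rw [Finset.mem_filter] at hp
      exact ⟨(hS p hp.1).1, (hS p hp.1).2.1, hp.2⟩
    have hcard := hL a A d ha haA hd1 (S.filter (fun p => od a p = d)) hmem
    have hnn : 0 ≤ 2 / η * ((A : ℝ) ^ (-(κ / 4)) * (d : ℝ) ^ (-(1 - 2 * η - κ))) := by
      positivity
    by_cases hdQ : (d : ℝ) ≤ Q
    · rw [if_pos hdQ]
      have e1 := fibre_small a A d (1 - η) (by linarith) (by omega)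
        (S.filter (fun p => od a p = d)) hmem hcard
      have e2 : (d : ℝ) * (A : ℝ) ^ (-(1 - η)) ≤ Q * (A : ℝ) ^ (-(1 - η)) :=
        mul_le_mul_of_nonneg_right hdQ (Real.rpow_nonneg hA0.le _)
      linarith
    · rw [if_neg hdQ, zero_add]
      have e1 := fibre_large a d η h0 (by linarith) hd1 (S.filter (fun p => od a p = d))
        (fun p hp => ⟨(hmem p hp).1, (hmem p hp).2.2⟩) hcard
      refine e1.trans (mul_le_mul_of_nonneg_left ?_ (by positivity))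
      have e2 : (d : ℝ) ^ (-(1 - 2 * η)) =
          (d : ℝ) ^ (-κ) * (d : ℝ) ^ (-(1 - 2 * η - κ)) := by
        rw [← Real.rpow_add hd']
        congr 1
        ring
      rw [e2]
      refine mul_le_mul_of_nonneg_right ?_ (Real.rpow_nonneg hd'.le _)
      have e3 : (A : ℝ) ^ (-(κ / 4)) = Q ^ (-κ) := by
        rw [hQ, ← Real.rpow_mul hA0.le]
        congr 1
        ring
      rw [e3]
      exact Real.rpow_le_rpow_of_nonpos (by linarith) (not_le.1 hdQ).le (by linarith)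
  refine (Finset.sum_le_sum hbound).trans ?_
  rw [Finset.sum_add_distrib, ← Finset.mul_sum, ← Finset.mul_sum]
  refine add_le_add ?_ ?_
  · rw [← Finset.sum_filter, Finset.sum_const, nsmul_eq_mul]
    have hcard : (((m.divisors.filter (fun d : ℕ => (d : ℝ) ≤ Q)).card : ℕ) : ℝ) ≤ Q := by
      have h2 : m.divisors.filter (fun d : ℕ => (d : ℝ) ≤ Q) ⊆ Finset.Icc 1 ⌊Q⌋₊ := by
        intro d hd
        rw [Finset.mem_filter] at hd
        rw [Finset.mem_Icc]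
        exact ⟨Nat.pos_of_mem_divisors hd.1, Nat.le_floor hd.2⟩
      have h3 := Finset.card_le_card h2
      rw [Nat.card_Icc] at h3
      calc (((m.divisors.filter (fun d : ℕ => (d : ℝ) ≤ Q)).card : ℕ) : ℝ)
          ≤ ((⌊Q⌋₊ : ℕ) : ℝ) := by exact_mod_cast (by omega)
        _ ≤ Q := Nat.floor_le (by linarith)
    calc (((m.divisors.filter (fun d : ℕ => (d : ℝ) ≤ Q)).card : ℕ) : ℝ) *
          (Q * (A : ℝ) ^ (-(1 - η)))
        ≤ Q * (Q * (A : ℝ) ^ (-(1 - η))) :=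
          mul_le_mul_of_nonneg_right hcard (by positivity)
      _ = (A : ℝ) ^ (1 / 4 + (1 / 4 + -(1 - η)) : ℝ) := by
          rw [Real.rpow_add hA0, Real.rpow_add hA0]
      _ ≤ 1 := Real.rpow_le_one_of_one_le_of_nonpos hA (by linarith)
  · refine mul_le_mul_of_nonneg_left ?_ (by positivity)
    refine mul_le_mul_of_nonneg_left ?_ (Real.rpow_nonneg hA0.le _)
    have e1 := hR (1 - 2 * η - κ) (by linarith) m.primeFactors m.divisors
      (fun p hp => Nat.prime_of_mem_primeFactors hp)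
      (fun d hd => ⟨(Nat.pos_of_mem_divisors hd).ne',
        Nat.primeFactors_mono (Nat.dvd_of_mem_divisors hd) hm0⟩)
    refine e1.trans (Real.exp_le_exp.2 ?_)
    linarith

/-- the numbers -/
theorem numbers (τ C u l3 LA E : ℝ) (hτ : 0 < τ) (hτ1 : τ ≤ 1) (hC : 0 < C)
    (hu : 100 ≤ u) (hu2 : 2 / τ ≤ u) (hu3 : (8 * (4 * (1 + C) + 1)) ^ 2 ≤ u)
    (hl3 : l3 = Real.log u) (hLA : u ^ 4 ≤ LA) (hE : E ≤ u ^ 2 * √u * (l3 + C)) :
    2 / (τ * (l3 / u)) * (Real.exp (-(l3 / u / 2 / 4) * LA) * Real.exp (4 * E)) ≤ 1 := by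
  have hu0 : 0 < u := by linarith
  have hl1 : 1 ≤ l3 := by
    rw [hl3, Real.le_log_iff_exp_le hu0]
    have := Real.exp_one_lt_d9
    linarith
  have hs0 : 0 < √u := Real.sqrt_pos.2 hu0
  have hsq : √u * √u = u := Real.mul_self_sqrt hu0.le
  have hs : 8 * (4 * (1 + C) + 1) ≤ √u := Real.le_sqrt_of_sq_le hu3
  have hs1 : 1 ≤ √u := by nlinarith
  have hCl : l3 + C ≤ (1 + C) * l3 := by nlinarith
  have hA : (l3 / u / 2 / 4) * u ^ 4 = u ^ 3 * l3 / 8 := by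
    field_simp
    ring
  have hA2 : u ^ 3 * l3 / 8 ≤ (l3 / u / 2 / 4) * LA := by
    rw [← hA]
    exact mul_le_mul_of_nonneg_left hLA (by positivity)
  have hE2 : 4 * E ≤ 4 * (u ^ 2 * √u * ((1 + C) * l3)) := by
    have : u ^ 2 * √u * (l3 + C) ≤ u ^ 2 * √u * ((1 + C) * l3) :=
      mul_le_mul_of_nonneg_left hCl (by positivity)
    linarith
  have hX : u ^ 3 * l3 / 8 - 4 * (u ^ 2 * √u * ((1 + C) * l3)) ≥ u ^ 2 * √u * l3 := by
    have e1 : u ^ 3 * l3 / 8 = u ^ 2 * √u * l3 * (√u / 8) := by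
      rw [show u ^ 3 = u ^ 2 * (√u * √u) by rw [hsq]; ring]
      ring
    have e2 : u ^ 2 * √u * l3 * (4 * (1 + C) + 1) ≤ u ^ 2 * √u * l3 * (√u / 8) :=
      mul_le_mul_of_nonneg_left (by linarith) (by positivity)
    nlinarith
  have hY : u ^ 2 ≤ u ^ 2 * √u * l3 := by
    have : u ^ 2 * 1 ≤ u ^ 2 * (√u * l3) :=
      mul_le_mul_of_nonneg_left (by nlinarith) (by positivity)
    linarith
  rw [← Real.exp_add]
  have hexp : Real.exp (-(l3 / u / 2 / 4) * LA + 4 * E) ≤ Real.exp (-(u ^ 2)) := by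
    apply Real.exp_le_exp.2
    nlinarith
  have h2 : 2 / (τ * (l3 / u)) ≤ u ^ 2 := by
    rw [div_le_iff₀ (by positivity)]
    have e1 : 2 ≤ u * τ := by
      rwa [div_le_iff₀ hτ] at hu2
    calc (2 : ℝ) ≤ u * τ := e1
      _ ≤ u * τ * l3 := le_mul_of_one_le_right (by positivity) hl1
      _ = u ^ 2 * (τ * (l3 / u)) := by field_simp
  have h3 : u ^ 2 * Real.exp (-(u ^ 2)) ≤ 1 := by
    rw [Real.exp_neg, ← div_eq_mul_inv, div_le_one (Real.exp_pos _)]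
    linarith [Real.add_one_le_exp (u ^ 2)]
  calc 2 / (τ * (l3 / u)) * Real.exp (-(l3 / u / 2 / 4) * LA + 4 * E)
      ≤ u ^ 2 * Real.exp (-(u ^ 2)) :=
        mul_le_mul h2 hexp (Real.exp_pos _).le (by positivity)
    _ ≤ 1 := h3

end T3aux

open T3aux in
theorem t3 (hL : StmtLarge) (hP : StmtPrimeSum) (hR : StmtRankin) : StmtT3 := by
  intro τ hτ hτ1
  obtain ⟨C, hC, hPS⟩ := hP
  set U : ℝ := max 100 (max (2 / τ) ((8 * (4 * (1 + C) + 1)) ^ 2)) with hU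
  refine ⟨Real.exp (Real.exp U), ?_⟩
  intro x hx A hxA a m ha haA hm hmx S hS
  have hx0 : 0 < x := (Real.exp_pos _).trans_le hx
  set y := Real.log x with hy
  have hyU : Real.exp U ≤ y := (Real.le_log_iff_exp_le hx0).2 hx
  have hy0 : 0 < y := (Real.exp_pos _).trans_le hyU
  set u := Real.log y with hu
  have huU : U ≤ u := (Real.le_log_iff_exp_le hy0).2 hyU
  have hu1 : 100 ≤ u := (le_max_left _ _).trans huU
  have hu2 : 2 / τ ≤ u := ((le_max_left _ _).trans (le_max_right _ _)).trans huU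
  have hu3 : (8 * (4 * (1 + C) + 1)) ^ 2 ≤ u :=
    ((le_max_right _ _).trans (le_max_right _ _)).trans huU
  have hu0 : 0 < u := by linarith
  set l3 := Real.log u with hl3
  have hep : ep x = l3 / u := rfl
  have hl1 : 1 ≤ l3 := by
    rw [hl3, Real.le_log_iff_exp_le hu0]
    have := Real.exp_one_lt_d9
    linarith
  have hs0 : 0 < √u := Real.sqrt_pos.2 hu0
  have hsq : √u * √u = u := Real.mul_self_sqrt hu0.le
  have hs10 : 10 ≤ √u := Real.le_sqrt_of_sq_le (by linarith)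
  have hl2 : l3 ≤ 2 * √u := by
    have e1 : Real.log (√u) = l3 / 2 := by rw [Real.log_sqrt hu0.le]
    have e2 := Real.log_le_sub_one_of_pos hs0
    linarith
  have hep5 : l3 / u ≤ 1 / 5 := by
    rw [div_le_iff₀ hu0]
    nlinarith
  have hep0 : 0 < l3 / u := by positivity
  have hη0 : 0 < τ * (l3 / u) := by positivity
  have hη1 : τ * (l3 / u) ≤ l3 / u := mul_le_of_le_one_left hep0.le hτ1
  have hy3 : 3 ≤ y := by
    have : 100 + 1 ≤ Real.exp 100 := Real.add_one_le_exp 100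
    have h2 : Real.exp 100 ≤ Real.exp U := Real.exp_le_exp.2 (le_max_left _ _)
    linarith
  have hmy : Real.log m ≤ y := Real.log_le_log (by exact_mod_cast hm) hmx
  have hE := hPS y hy3 m hm hmy (1 - 2 * (τ * (l3 / u)) - l3 / u / 2) (by linarith) (by linarith)
  have hE2 : y ^ (1 - (1 - 2 * (τ * (l3 / u)) - l3 / u / 2)) * (Real.log (Real.log y) + C) ≤
      u ^ 2 * √u * (l3 + C) := by
    refine mul_le_mul_of_nonneg_right ?_ (by linarith)
    have e1 : y = Real.exp u := (Real.exp_log hy0).symm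
    have e2 : u ^ 2 * √u = Real.exp (l3 * (5 / 2)) := by
      have e3 : Real.exp (l3 * (5 / 2)) = u ^ (5 / 2 : ℝ) := by
        rw [Real.rpow_def_of_pos hu0]
      rw [e3, Real.sqrt_eq_rpow, ← Real.rpow_natCast, ← Real.rpow_add hu0]
      norm_num
    rw [e2, e1, ← Real.exp_mul]
    apply Real.exp_le_exp.2
    have e4 : l3 * (5 / 2) = u * (5 / 2 * (l3 / u)) := by
      field_simp
    rw [e4]
    refine mul_le_mul_of_nonneg_left ?_ hu0.le
    linarith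
  have hmain := main_sum hL hR (τ * (l3 / u)) (l3 / u / 2) _ hη0 (by linarith) (by positivity)
    (by linarith) A a m ha haA hm S hS (hE.trans hE2)
  rw [hep]
  refine hmain.trans ?_
  have hA2 : 2 ≤ A := by
    have : (2 : ℤ) ≤ A := ha.trans haA
    exact_mod_cast this
  have hA1 : (1 : ℝ) < A := by exact_mod_cast (by omega : 1 < A)
  have hLA0 : 0 < Real.log A := Real.log_pos hA1
  have hLA : u ^ 4 ≤ Real.log A := by
    have e1 : u ^ 4 ≤ (Real.log A ^ (1 / 4 : ℝ)) ^ 4 := pow_le_pow_left₀ hu0.le hxA 4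
    have e2 : (Real.log A ^ (1 / 4 : ℝ)) ^ 4 = Real.log A := by
      rw [← Real.rpow_natCast, ← Real.rpow_mul hLA0.le]
      norm_num
    rwa [e2] at e1
  have hApow : (A : ℝ) ^ (-(l3 / u / 2 / 4)) = Real.exp (-(l3 / u / 2 / 4) * Real.log A) := by
    rw [Real.rpow_def_of_pos (by linarith), mul_comm]
  rw [hApow]
  have hnum := numbers τ C u l3 (Real.log A) (u ^ 2 * √u * (l3 + C)) hτ hτ1 hC hu1 hu2 hu3 hl3
    hLA le_rfl
  linarith

end Pool.Agent.Lib.MP_a260de_nt
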