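import Pool.Agent.Lib.MP_a260de_nt.Large
import Pool.Agent.Lib.MP_a260de_nt.T2
import Pool.Agent.Lib.MP_a260de_nt.T3
import Pool.Agent.Lib.MP_a260de_nt.Final

/-!
# MP_a260de_nt: all primes, every base (the estimate behind Pomerance's constant 1/2)
-/

set_option autoImplicit false

namespace Pool.Agent.Lib.MP_a260de_nt

open Filter Topology Finalaux

namespace Pomaux

/-- The number of primes above `Z` with order `d`. -/
theorem card_mul_log {a : ℤ} {d : ℕ} {Z : ℝ} (ha : 2 ≤ |a|) (hd : 1 ≤ d) (hZ : 1 ≤ Z)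
    (S : Finset ℕ) (hS : ∀ p ∈ S, p.Prime ∧ Z ≤ (p : ℝ) ∧ od a p = d) :
    (S.card : ℝ) * Real.log Z ≤ (d + 1) * Real.log (|a| : ℤ) := by
  have h1 : ∏ p ∈ S, p ∣ (a ^ d - 1).natAbs :=
    Finset.prod_primes_dvd _ (fun p hp => (hS p hp).1.prime)
      fun p hp => Largeaux.dvd_of_od (hS p hp).2.2
  have h2 : ∏ p ∈ S, p ≤ (a ^ d - 1).natAbs :=
    Nat.le_of_dvd (Nat.pos_of_ne_zero (Largeaux.natAbs_ne ha hd)) h1
  set A : ℕ := a.natAbs with hA
  have haA : |a| = (A : ℤ) := by rw [hA]; exact (Int.natCast_natAbs a).symm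
  have hA2 : 2 ≤ A := by
    rw [haA] at ha
    exact_mod_cast ha
  have h3 := Largeaux.natAbs_le (d := d) haA.le
  have h4 : A ^ d + 1 ≤ A ^ (d + 1) := by
    have h5 : 1 ≤ A ^ d := Nat.one_le_pow _ _ (by omega)
    rw [pow_succ]
    nlinarith
  have h6 : Z ^ S.card ≤ (A : ℝ) ^ (d + 1) := by
    calc Z ^ S.card = ∏ p ∈ S, Z := by rw [Finset.prod_const]
      _ ≤ ∏ p ∈ S, (p : ℝ) :=
          Finset.prod_le_prod (fun _ _ => by linarith) fun p hp => (hS p hp).2.1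
      _ = ((∏ p ∈ S, p : ℕ) : ℝ) := by push_cast; rfl
      _ ≤ ((A ^ (d + 1) : ℕ) : ℝ) := by exact_mod_cast h2.trans (h3.trans h4)
      _ = (A : ℝ) ^ (d + 1) := by push_cast; rfl
  have h7 := Real.log_le_log (by positivity) h6
  rw [Real.log_pow, Real.log_pow] at h7
  rw [haA]
  push_cast at h7 ⊢
  exact h7

/-- The primes with a given order. -/
theorem fibreK (a : ℤ) (d K : ℕ) (η : ℝ) (h0 : 0 < η) (h1 : η ≤ 1) (hd : 1 ≤ d) (hK : 1 ≤ K)
    (T : Finset ℕ) (hT : ∀ p ∈ T, p.Prime ∧ od a p = d) (hcard : T.card ≤ K) :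
    ∑ p ∈ T, (p : ℝ) ^ (-(1 - η)) ≤ 2 / η * ((d : ℝ) ^ (-(1 - η)) * (K : ℝ) ^ η) := by
  have hd' : (0 : ℝ) < d := by exact_mod_cast hd
  have key : ∀ p ∈ T, 1 ≤ (p - 1) / d ∧ p = (p - 1) / d * d + 1 := by
    intro p hp
    have h2 := T3aux.dvd_sub_one a p d (hT p hp).1 hd (hT p hp).2
    have h3 := (hT p hp).1.two_le
    have h4 : (p - 1) / d * d = p - 1 := Nat.div_mul_cancel h2
    refine ⟨?_, by omega⟩
    rcases Nat.eq_zero_or_pos ((p - 1) / d) with h5 | h5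
    · rw [h5] at h4
      omega
    · exact h5
  have hinj : Set.InjOn (fun p : ℕ => (p - 1) / d) (T : Set ℕ) := by
    intro p hp q hq hpq
    have e1 := (key p hp).2
    have e2 := (key q hq).2
    beta_reduce at hpq
    rw [e1, e2, hpq]
  have e1 : ∑ p ∈ T, (p : ℝ) ^ (-(1 - η)) ≤
      ∑ p ∈ T, (d : ℝ) ^ (-(1 - η)) * (((p - 1) / d : ℕ) : ℝ) ^ (-(1 - η)) := by
    refine Finset.sum_le_sum fun p hp => ?_
    obtain ⟨k1, k2⟩ := key p hp
    have hk : (0 : ℝ) < (((p - 1) / d : ℕ) : ℝ) := by exact_mod_cast k1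
    rw [← Real.mul_rpow hd'.le hk.le]
    refine Real.rpow_le_rpow_of_nonpos (mul_pos hd' hk) ?_ (by linarith)
    have : ((p : ℕ) : ℝ) = (((p - 1) / d : ℕ) : ℝ) * d + 1 := by exact_mod_cast k2
    rw [this]
    linarith [mul_comm (d : ℝ) (((p - 1) / d : ℕ) : ℝ)]
  refine e1.trans ?_
  rw [← Finset.mul_sum]
  have e2 : ∑ p ∈ T, (((p - 1) / d : ℕ) : ℝ) ^ (-(1 - η)) =
      ∑ k ∈ T.image (fun p : ℕ => (p - 1) / d), (k : ℝ) ^ (-(1 - η)) := by
    rw [Finset.sum_image hinj]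
  rw [e2]
  have e3 := T3aux.sum_K_le η h0 h1 K hK (T.image (fun p : ℕ => (p - 1) / d))
    (by
      intro k hk
      rw [Finset.mem_image] at hk
      obtain ⟨p, hp, rfl⟩ := hk
      exact (key p hp).1)
    (Finset.card_image_le.trans hcard)
  calc (d : ℝ) ^ (-(1 - η)) * ∑ k ∈ T.image (fun p : ℕ => (p - 1) / d), (k : ℝ) ^ (-(1 - η))
      ≤ (d : ℝ) ^ (-(1 - η)) * (2 / η * (K : ℝ) ^ η) :=
        mul_le_mul_of_nonneg_left e3 (Real.rpow_nonneg hd'.le _)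
    _ = _ := by ring

theorem log_abs_le {a : ℤ} {x : ℝ} (ha : 2 ≤ |a|) (hax : ((|a| : ℤ) : ℝ) ≤ x) :
    Real.log (|a| : ℤ) ≤ Real.log x ∧ 0 < Real.log x := by
  have h1 : (2 : ℝ) ≤ ((|a| : ℤ) : ℝ) := by exact_mod_cast ha
  exact ⟨Real.log_le_log (by linarith) hax, Real.log_pos (by linarith)⟩

end Pomaux

open Pomaux

/-- Sum over all primes with order dividing `m`, for every base, exponent below `1/2`. -/
theorem pom (hP : StmtPrimeSum) (hR : StmtRankin) {τ : ℝ} (hτ : 0 < τ) (hτ2 : τ < 1 / 2) :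
    ∃ x₀ : ℝ, ∀ x : ℝ, x₀ ≤ x → ∀ (a : ℤ) (m : ℕ), 2 ≤ |a| → ((|a| : ℤ) : ℝ) ≤ x → 1 ≤ m →
    (m : ℝ) ≤ x → ∀ S : Finset ℕ, (∀ p ∈ S, p.Prime ∧ 0 < od a p ∧ od a p ∣ m) →
    ∑ p ∈ S, (p : ℝ) ^ (-(1 - τ * ep x)) ≤ Real.log x ^ (1 / 2 : ℝ) := by
  obtain ⟨C, hC, hP⟩ := hP
  have hl2 : Tendsto (fun x : ℝ => Real.log (Real.log x)) atTop atTop :=
    Real.tendsto_log_atTop.comp Real.tendsto_log_atTop
  have e1 := hl2.eventually (T2aux.analytic τ (2 * τ) C hτ (by linarith))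
  have e2 : ∀ᶠ x : ℝ in atTop, 3 ≤ Real.log x := Real.tendsto_log_atTop.eventually_ge_atTop 3
  have e3 : ∀ᶠ x : ℝ in atTop, 1 < Real.log (Real.log x) := hl2.eventually_gt_atTop 1
  have e4 : ∀ᶠ x : ℝ in atTop, ep x < 1 / 4 :=
    tendsto_ep_zero.eventually (gt_mem_nhds (by norm_num))
  have e5 : ∀ᶠ t : ℝ in atTop, 6 * t ≤ Real.exp (t * (1 / 4)) := by
    have h := (tendsto_exp_mul_div_rpow_atTop 1 (1 / 4) (by norm_num)).eventually_ge_atTop 6
    filter_upwards [h, eventually_ge_atTop 1] with Y hY hY1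
    rw [Real.rpow_one, le_div_iff₀ (by linarith)] at hY
    rw [mul_comm Y]
    exact hY
  obtain ⟨x₀, hx₀⟩ := eventually_atTop.1 (e1.and (e2.and (e3.and (e4.and
    ((hl2.eventually e5).and (eventually_ge_atTop 1))))))
  refine ⟨x₀, fun x hx a m ha hax hm hmx S hS => ?_⟩
  obtain ⟨a1, a2, a3, a4, a5, a6⟩ := hx₀ x hx
  obtain ⟨hlogax, -⟩ := log_abs_le ha hax
  set y := Real.log x with hy
  set t := Real.log y with ht
  have hy0 : 0 < y := by linarith
  have hl3 : 0 < Real.log t := Real.log_pos a3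
  have hepe : ep x = Real.log t / t := rfl
  have hep0 : 0 < ep x := by rw [hepe]; positivity
  set η := τ * ep x with hη
  have hη0 : 0 < η := by positivity
  have hη1 : η ≤ 1 / 8 := by nlinarith
  have hm0 : m ≠ 0 := by omega
  have hmaps : ∀ p ∈ S, od a p ∈ m.divisors := fun p hp =>
    Nat.mem_divisors.2 ⟨(hS p hp).2.2, hm0⟩
  have step1 : ∑ p ∈ S, (p : ℝ) ^ (-(1 - η)) ≤
      ∑ d ∈ m.divisors, 2 / η * (3 * y) ^ η * (d : ℝ) ^ (-(1 - 2 * η)) := by
    rw [← Finset.sum_fiberwise_of_maps_to hmaps]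
    apply Finset.sum_le_sum
    intro d hd
    have hd0 : 1 ≤ d := Nat.pos_of_mem_divisors hd
    have hdR : (1 : ℝ) ≤ d := by exact_mod_cast hd0
    have hdR0 : (0 : ℝ) < d := by linarith
    have h3dy : 1 ≤ 3 * d * y := by nlinarith
    have hK1 : 1 ≤ ⌊3 * d * y⌋₊ := (Nat.one_le_floor_iff _).2 h3dy
    have hcard : ((S.filter fun p => od a p = d)).card ≤ ⌊3 * d * y⌋₊ := by
      refine Nat.le_floor ?_
      have h1 := card_mul_log (a := a) (d := d) (Z := 2) ha hd0 (by norm_num)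
        (S.filter fun p => od a p = d) (fun p hp => by
          rw [Finset.mem_filter] at hp
          refine ⟨(hS p hp.1).1, ?_, hp.2⟩
          exact_mod_cast (hS p hp.1).1.two_le)
      have h2 := Real.log_two_gt_d9
      have h3 : ((d : ℝ) + 1) * Real.log (|a| : ℤ) ≤ (d + 1) * y := by gcongr
      have h4 : (0 : ℝ) ≤ ((S.filter fun p => od a p = d).card : ℝ) := Nat.cast_nonneg _
      have h5 : ((S.filter fun p => od a p = d).card : ℝ) * (2 / 3) ≤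
          ((S.filter fun p => od a p = d).card : ℝ) * Real.log 2 := by gcongr; linarith
      nlinarith
    refine (fibreK a d _ η hη0 (by linarith) hd0 hK1 _ (fun p hp => ?_) hcard).trans ?_
    · rw [Finset.mem_filter] at hp
      exact ⟨(hS p hp.1).1, hp.2⟩
    · have h6 : ((⌊3 * d * y⌋₊ : ℕ) : ℝ) ^ η ≤ (d : ℝ) ^ η * (3 * y) ^ η := by
        rw [← Real.mul_rpow hdR0.le (by positivity)]
        refine Real.rpow_le_rpow (Nat.cast_nonneg _) ((Nat.floor_le (by linarith)).trans_eq ?_)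
          hη0.le
        ring
      calc 2 / η * ((d : ℝ) ^ (-(1 - η)) * ((⌊3 * d * y⌋₊ : ℕ) : ℝ) ^ η) ≤
            2 / η * ((d : ℝ) ^ (-(1 - η)) * ((d : ℝ) ^ η * (3 * y) ^ η)) := by gcongr
        _ = 2 / η * (3 * y) ^ η * ((d : ℝ) ^ (-(1 - η)) * (d : ℝ) ^ η) := by ring
        _ = _ := by rw [← Real.rpow_add hdR0]; congr 2; ring
  have step2 : ∑ d ∈ m.divisors, (d : ℝ) ^ (-(1 - 2 * η)) ≤
      Real.exp (4 * ∑ p ∈ m.primeFactors, (p : ℝ) ^ (-(1 - 2 * η))) := by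
    apply hR (1 - 2 * η) (by linarith) m.primeFactors m.divisors
    · intro p hp; exact Nat.prime_of_mem_primeFactors hp
    · intro d hd
      have hdd := Nat.mem_divisors.1 hd
      exact ⟨(Nat.pos_of_mem_divisors hd).ne', Nat.primeFactors_mono hdd.1 hdd.2⟩
  have hlogm : Real.log m ≤ y := by
    rw [hy]
    exact Real.log_le_log (by exact_mod_cast hm) hmx
  have step3 := hP y a2 m hm hlogm (1 - 2 * η) (by linarith) (by linarith)
  rw [sub_sub_cancel] at step3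
  have htpos : 0 < t := by linarith
  have ey : ∀ r : ℝ, y ^ (r * ep x) = t ^ r := by
    intro r
    rw [Real.rpow_def_of_pos hy0, Real.rpow_def_of_pos htpos, ← ht, hepe]
    congr 1
    field_simp
  have ey2 : y ^ (2 * η) = t ^ (2 * τ) := by rw [hη, ← mul_assoc]; exact ey _
  have ey1 : y ^ η ≤ t := by
    rw [hη, ey τ]
    calc t ^ τ ≤ t ^ (1 : ℝ) := Real.rpow_le_rpow_of_exponent_le a3.le (by linarith)
      _ = t := Real.rpow_one t
  have e3y : (3 * y) ^ η ≤ 3 * t := by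
    rw [Real.mul_rpow (by norm_num) hy0.le]
    have h1 : (3 : ℝ) ^ η ≤ 3 := by
      calc (3 : ℝ) ^ η ≤ 3 ^ (1 : ℝ) := Real.rpow_le_rpow_of_exponent_le (by norm_num) (by linarith)
        _ = 3 := Real.rpow_one 3
    have h2 : 0 ≤ y ^ η := by positivity
    gcongr
  rw [ey2] at step3
  have hyt : y ^ (1 / 2 : ℝ) = Real.exp (t * (1 / 4)) * Real.exp (t * (1 / 4)) := by
    rw [Real.rpow_def_of_pos hy0, ← ht, ← Real.exp_add]; congr 1; ring
  calc ∑ p ∈ S, (p : ℝ) ^ (-(1 - η)) ≤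
        ∑ d ∈ m.divisors, 2 / η * (3 * y) ^ η * (d : ℝ) ^ (-(1 - 2 * η)) := step1
    _ = 2 / η * (3 * y) ^ η * ∑ d ∈ m.divisors, (d : ℝ) ^ (-(1 - 2 * η)) := by
        rw [Finset.mul_sum]
    _ ≤ 2 / η * (3 * t) * Real.exp (4 * (t ^ (2 * τ) * (Real.log t + C))) := by
        refine mul_le_mul ?_ (step2.trans (Real.exp_le_exp.2 (by linarith))) ?_ (by positivity)
        · gcongr
        · exact Finset.sum_nonneg fun _ _ => by positivity
    _ = (6 * t) * (1 / (τ * (Real.log t / t)) *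
          Real.exp (4 * (t ^ (2 * τ) * (Real.log t + C)))) := by
        rw [hη, hepe]; ring
    _ ≤ Real.exp (t * (1 / 4)) * Real.exp (t * (1 / 4)) := by
        gcongr
    _ = _ := hyt.symm

/-- The primes above `L ^ 3` with order at most `L = exp (log x * ep x)`. -/
theorem n3' : ∃ x₀ : ℝ, ∀ x : ℝ, x₀ ≤ x → ∀ a : ℤ, 2 ≤ |a| → ((|a| : ℤ) : ℝ) ≤ x →
    ∑ p ∈ (Finset.Icc 1 ⌊x⌋₊).filter (fun p : ℕ => p.Prime ∧ 0 < od a p ∧
        (od a p : ℝ) ≤ Real.exp (Real.log x * ep x) ∧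
        Real.exp (Real.log x * ep x) ^ (3 : ℝ) < (p : ℝ)), 1 / (p : ℝ) ≤
      Real.log x / Real.exp (Real.log x * ep x) := by
  have e1 := ep_mul_ge
  have e2 : ∀ᶠ x : ℝ in atTop, 1 ≤ Real.log x := Real.tendsto_log_atTop.eventually_ge_atTop 1
  obtain ⟨x₀, hx₀⟩ := eventually_atTop.1 (e1.and (e2.and (eventually_ge_atTop 1)))
  refine ⟨x₀, fun x hx a ha hax => ?_⟩
  obtain ⟨f1, f2, f3⟩ := hx₀ x hx
  obtain ⟨hlogax, -⟩ := log_abs_le ha hax
  set y := Real.log x with hy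
  have hy0 : 0 < y := by linarith
  have hye : 1 ≤ y * ep x := by
    have h1 : 1 ≤ y ^ (3 / 4 : ℝ) := Real.one_le_rpow f2 (by norm_num)
    linarith
  set L := Real.exp (y * ep x) with hL
  have hL1 : 1 ≤ L := by rw [hL]; exact Real.one_le_exp (by linarith)
  have hL0 : 0 < L := by linarith
  have hlogL3 : Real.log (L ^ (3 : ℝ)) = 3 * (y * ep x) := by
    rw [Real.log_rpow hL0, hL, Real.log_exp]
  set F := (Finset.Icc 1 ⌊x⌋₊).filter (fun p : ℕ => p.Prime ∧ 0 < od a p ∧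
        (od a p : ℝ) ≤ L ∧ L ^ (3 : ℝ) < (p : ℝ)) with hF
  have hmaps : ∀ p ∈ F, od a p ∈ Finset.Icc 1 ⌊L⌋₊ := by
    intro p hp
    rw [hF, Finset.mem_filter] at hp
    exact Finset.mem_Icc.2 ⟨hp.2.2.1, Nat.le_floor hp.2.2.2.1⟩
  rw [← Finset.sum_fiberwise_of_maps_to hmaps]
  have hL3 : (0 : ℝ) < L ^ (3 : ℝ) := by positivity
  have hfib : ∀ d ∈ Finset.Icc 1 ⌊L⌋₊, ∑ p ∈ F.filter (fun p => od a p = d), 1 / (p : ℝ) ≤
      L * y / L ^ (3 : ℝ) := by
    intro d hd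
    rw [Finset.mem_Icc] at hd
    have hdL : (d : ℝ) ≤ L := (Nat.le_floor_iff hL0.le).1 hd.2
    have hd1 : (1 : ℝ) ≤ d := by exact_mod_cast hd.1
    have hc := card_mul_log (a := a) (d := d) (Z := L ^ (3 : ℝ)) ha hd.1
      (Real.one_le_rpow hL1 (by norm_num)) (F.filter (fun p => od a p = d)) (fun p hp => by
        rw [Finset.mem_filter, hF, Finset.mem_filter] at hp
        exact ⟨hp.1.2.1, hp.1.2.2.2.2.le, hp.2⟩)
    rw [hlogL3] at hc
    have hc2 : ((F.filter (fun p => od a p = d)).card : ℝ) ≤ L * y := by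
      have h1 : (0 : ℝ) ≤ ((F.filter (fun p => od a p = d)).card : ℝ) := Nat.cast_nonneg _
      have h2 : ((F.filter (fun p => od a p = d)).card : ℝ) * 3 ≤ (d + 1) * y := by
        calc ((F.filter (fun p => od a p = d)).card : ℝ) * 3 ≤
              ((F.filter (fun p => od a p = d)).card : ℝ) * (3 * (y * ep x)) := by
                gcongr; linarith
          _ ≤ (d + 1) * Real.log (|a| : ℤ) := hc
          _ ≤ (d + 1) * y := by gcongr
      nlinarith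
    calc ∑ p ∈ F.filter (fun p => od a p = d), 1 / (p : ℝ) ≤
          ∑ p ∈ F.filter (fun p => od a p = d), 1 / L ^ (3 : ℝ) := by
          refine Finset.sum_le_sum fun p hp => ?_
          rw [Finset.mem_filter, hF, Finset.mem_filter] at hp
          have := hp.1.2.2.2.2
          gcongr
      _ = ((F.filter (fun p => od a p = d)).card : ℝ) * (1 / L ^ (3 : ℝ)) := by
          rw [Finset.sum_const, nsmul_eq_mul]
      _ ≤ L * y * (1 / L ^ (3 : ℝ)) := by gcongr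
      _ = _ := by ring
  calc ∑ d ∈ Finset.Icc 1 ⌊L⌋₊, ∑ p ∈ F.filter (fun p => od a p = d), 1 / (p : ℝ) ≤
        ∑ d ∈ Finset.Icc 1 ⌊L⌋₊, L * y / L ^ (3 : ℝ) := Finset.sum_le_sum hfib
    _ = (⌊L⌋₊ : ℝ) * (L * y / L ^ (3 : ℝ)) := by
        rw [Finset.sum_const, nsmul_eq_mul, Nat.card_Icc, Nat.add_sub_cancel]
    _ ≤ L * (L * y / L ^ (3 : ℝ)) := by
        gcongr
        exact Nat.floor_le hL0.le
    _ = y / L := by
        have h3 : L ^ (3 : ℝ) = L ^ 3 := by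
          rw [← Real.rpow_natCast]; norm_num
        rw [h3]
        field_simp

end Pool.Agent.Lib.MP_a260de_nt
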