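import Pool.Agent.Lib.MP_a260de_nt.Final
import Pool.Agent.Lib.MP_a260de_nt.CountP
import Pool.Agent.Lib.MP_a260de_nt.Pom

/-!
# MP_a260de_nt: pseudoprimes whose small-order part is small, every base
-/

set_option autoImplicit false

namespace Pool.Agent.Lib.MP_a260de_nt

open Filter Topology

open Finalaux

/-- The part of `n` composed of primes modulo which `a` has a small order. -/
noncomputable def sp (θ : ℝ) (a : ℤ) (n : ℕ) : ℕ :=
  ∏ p ∈ n.primeFactors.filter (fun p : ℕ => (od a p : ℝ) ≤ (p : ℝ) ^ θ), p ^ n.factorization p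

/-- The complementary part. -/
noncomputable def lp (θ : ℝ) (a : ℤ) (n : ℕ) : ℕ :=
  ∏ p ∈ n.primeFactors.filter (fun p : ℕ => ¬ (od a p : ℝ) ≤ (p : ℝ) ^ θ), p ^ n.factorization p

namespace FinalKaux

theorem sp_mul_lp (θ : ℝ) (a : ℤ) {n : ℕ} (hn : n ≠ 0) : sp θ a n * lp θ a n = n := by
  rw [sp, lp, Finset.prod_filter_mul_prod_filter_not]
  exact Nat.prod_factorization_pow_eq_self hn

theorem sp_dvd (θ : ℝ) (a : ℤ) {n d : ℕ} (hn : n ≠ 0) (hd : d ∣ n) : sp θ a d ∣ sp θ a n := by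
  rw [sp, sp]
  have hsub : d.primeFactors.filter (fun p : ℕ => (od a p : ℝ) ≤ (p : ℝ) ^ θ) ⊆
      n.primeFactors.filter (fun p : ℕ => (od a p : ℝ) ≤ (p : ℝ) ^ θ) :=
    Finset.filter_subset_filter _ (Nat.primeFactors_mono hd hn)
  have hd0 : d ≠ 0 := fun h => hn (by rw [h] at hd; exact Nat.eq_zero_of_zero_dvd hd)
  refine (Finset.prod_dvd_prod_of_dvd _ _ fun p _ => ?_).trans (Finset.prod_dvd_prod_of_subset _ _ _ hsub)
  exact pow_dvd_pow p ((Nat.factorization_le_iff_dvd hd0 hn).2 hd p)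

theorem prime_of_dvd_prod {n q : ℕ} (P : ℕ → Prop) [DecidablePred P] (hq : q.Prime)
    (h : q ∣ ∏ p ∈ n.primeFactors.filter P, p ^ n.factorization p) :
    q ∈ n.primeFactors ∧ P q := by
  rw [Prime.dvd_finsetProd_iff hq.prime] at h
  obtain ⟨p, hp, hqp⟩ := h
  rw [Finset.mem_filter] at hp
  have h1 : q ∣ p := hq.dvd_of_dvd_pow hqp
  have h2 : q = p := (Nat.prime_dvd_prime_iff_eq hq (Nat.prime_of_mem_primeFactors hp.1)).1 h1
  rw [h2]
  exact hp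

theorem sp_pos (θ : ℝ) (a : ℤ) (n : ℕ) : 0 < sp θ a n :=
  Finset.prod_pos fun p hp => by
    have := (Nat.prime_of_mem_primeFactors (Finset.mem_filter.1 hp).1).pos
    positivity

theorem lp_pos (θ : ℝ) (a : ℤ) (n : ℕ) : 0 < lp θ a n :=
  Finset.prod_pos fun p hp => by
    have := (Nat.prime_of_mem_primeFactors (Finset.mem_filter.1 hp).1).pos
    positivity

/-- Rankin's bound with two exponents. -/
theorem two_rankin (h4 : StmtRankin) {θ c₁ c₂ E : ℝ} (hc₁ : 1 / 2 ≤ c₁) (hc₂ : 1 / 2 ≤ c₂)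
    {a : ℤ} {m : ℕ} {D : Finset ℕ} (hD : ∀ d ∈ D, d ≠ 0 ∧ ∀ p ∈ d.primeFactors, 0 < od a p ∧
      od a p ∣ m)
    (hE₁ : ∀ S : Finset ℕ, (∀ p ∈ S, p.Prime ∧ 0 < od a p ∧ od a p ∣ m) →
      ∑ p ∈ S, (p : ℝ) ^ (-c₁) ≤ E)
    (hE₂ : ∀ S : Finset ℕ, (∀ p ∈ S, p.Prime ∧ 0 < od a p ∧ od a p ∣ m ∧
      (p : ℝ) ^ θ < od a p) → ∑ p ∈ S, (p : ℝ) ^ (-c₂) ≤ E) :
    ∑ d ∈ D, (sp θ a d : ℝ) ^ (-c₁) * (lp θ a d : ℝ) ^ (-c₂) ≤ Real.exp (8 * E) := by
  classical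
  set F := D.image (sp θ a) with hF
  set G := D.image (lp θ a) with hG
  have hF1 : ∑ f ∈ F, (f : ℝ) ^ (-c₁) ≤ Real.exp (4 * E) := by
    have h := h4 c₁ hc₁ (F.biUnion Nat.primeFactors) F (fun p hp => by
        rw [Finset.mem_biUnion] at hp
        obtain ⟨f, -, hp⟩ := hp
        exact Nat.prime_of_mem_primeFactors hp) (fun f hf => by
        refine ⟨?_, fun p hp => Finset.mem_biUnion.2 ⟨f, hf, hp⟩⟩
        rw [hF, Finset.mem_image] at hf
        obtain ⟨d, -, rfl⟩ := hf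
        exact (sp_pos θ a d).ne')
    refine h.trans (Real.exp_le_exp.2 ?_)
    have := hE₁ (F.biUnion Nat.primeFactors) (fun p hp => by
      rw [Finset.mem_biUnion] at hp
      obtain ⟨f, hf, hp⟩ := hp
      rw [hF, Finset.mem_image] at hf
      obtain ⟨d, hd, rfl⟩ := hf
      have hpp := Nat.prime_of_mem_primeFactors hp
      have h2 := prime_of_dvd_prod _ hpp (Nat.dvd_of_mem_primeFactors hp)
      exact ⟨hpp, (hD d hd).2 p h2.1⟩)
    linarith
  have hG1 : ∑ g ∈ G, (g : ℝ) ^ (-c₂) ≤ Real.exp (4 * E) := by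
    have h := h4 c₂ hc₂ (G.biUnion Nat.primeFactors) G (fun p hp => by
        rw [Finset.mem_biUnion] at hp
        obtain ⟨f, -, hp⟩ := hp
        exact Nat.prime_of_mem_primeFactors hp) (fun f hf => by
        refine ⟨?_, fun p hp => Finset.mem_biUnion.2 ⟨f, hf, hp⟩⟩
        rw [hG, Finset.mem_image] at hf
        obtain ⟨d, -, rfl⟩ := hf
        exact (lp_pos θ a d).ne')
    refine h.trans (Real.exp_le_exp.2 ?_)
    have := hE₂ (G.biUnion Nat.primeFactors) (fun p hp => by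
      rw [Finset.mem_biUnion] at hp
      obtain ⟨f, hf, hp⟩ := hp
      rw [hG, Finset.mem_image] at hf
      obtain ⟨d, hd, rfl⟩ := hf
      have hpp := Nat.prime_of_mem_primeFactors hp
      have h2 := prime_of_dvd_prod _ hpp (Nat.dvd_of_mem_primeFactors hp)
      have h3 := (hD d hd).2 p h2.1
      exact ⟨hpp, h3.1, h3.2, not_le.1 h2.2⟩)
    linarith
  have hinj : Set.InjOn (fun d => (sp θ a d, lp θ a d)) (D : Set ℕ) := by
    intro d hd e he h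
    rw [← sp_mul_lp θ a (hD d hd).1, ← sp_mul_lp θ a (hD e he).1]
    simp only [Prod.mk.injEq] at h
    rw [h.1, h.2]
  calc ∑ d ∈ D, (sp θ a d : ℝ) ^ (-c₁) * (lp θ a d : ℝ) ^ (-c₂) =
        ∑ q ∈ D.image (fun d => (sp θ a d, lp θ a d)), (q.1 : ℝ) ^ (-c₁) * (q.2 : ℝ) ^ (-c₂) := by
        rw [Finset.sum_image hinj]
    _ ≤ ∑ q ∈ F ×ˢ G, (q.1 : ℝ) ^ (-c₁) * (q.2 : ℝ) ^ (-c₂) := by
        refine Finset.sum_le_sum_of_subset_of_nonneg ?_ fun q _ _ => by positivity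
        intro q hq
        rw [Finset.mem_image] at hq
        obtain ⟨d, hd, rfl⟩ := hq
        exact Finset.mem_product.2 ⟨Finset.mem_image_of_mem _ hd, Finset.mem_image_of_mem _ hd⟩
    _ = (∑ f ∈ F, (f : ℝ) ^ (-c₁)) * ∑ g ∈ G, (g : ℝ) ^ (-c₂) := by
        rw [Finset.sum_product, Finset.sum_mul_sum]
    _ ≤ Real.exp (4 * E) * Real.exp (4 * E) := by
        refine mul_le_mul hF1 hG1 (Finset.sum_nonneg fun _ _ => by positivity) (Real.exp_pos _).le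
    _ = Real.exp (8 * E) := by rw [← Real.exp_add]; congr 1; ring

end FinalKaux

open FinalKaux

open Classical in
/-- **FinalK.** Every base `a`, `1 < |a| ≤ x`: the pseudoprimes whose small-order part is at most
`x ^ κ`. -/
theorem finalK (h2 : StmtT2) (hP : StmtPrimeSum) (h4 : StmtRankin) {δ : ℝ} (hδ : 0 < δ)
    (hδ1 : δ < 1) : ∃ x₀ : ℝ, ∀ x : ℝ, x₀ ≤ x → ∀ a : ℤ, 2 ≤ |a| → ((|a| : ℤ) : ℝ) ≤ x →
    ∀ κ : ℝ, 0 ≤ κ → κ ≤ 1 →
    (({n : ℕ | n ∈ psp a x ∧ (sp (1 - δ / 4) a n : ℝ) ≤ x ^ κ}.ncard : ℕ) : ℝ) ≤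
      x ^ (1 - (1 - κ / 2 - δ) * ep x) := by
  set θ : ℝ := 1 - δ / 4 with hθ
  set τ : ℝ := 1 - δ / 2 with hτ
  set τ₁ : ℝ := 1 / 2 - δ / 4 with hτ₁
  obtain ⟨x₁, hx₁⟩ := h2 τ θ (by linarith) (by linarith) (by linarith)
  obtain ⟨x₂, hx₂⟩ := pom hP h4 (τ := τ₁) (by linarith) (by linarith)
  obtain ⟨x₃, hx₃⟩ := n3'
  have e1 : ∀ᶠ x : ℝ in atTop, ep x < min (1 / 2) (δ / 32) :=
    tendsto_ep_zero.eventually (gt_mem_nhds (by
      rw [lt_min_iff]; exact ⟨by norm_num, by positivity⟩))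
  have e2 := ep_mul_ge
  have e3 : ∀ᶠ x : ℝ in atTop, Real.log (2 + 2 * Real.log x) ≤ δ / 8 * Real.log x ^ (3 / 4 : ℝ) :=
    Real.tendsto_log_atTop.eventually (log_le_eventually (by positivity) two_pos two_pos)
  have e4 : ∀ᶠ x : ℝ in atTop,
      Real.log (6 + 4 * Real.log x) ≤ δ * Real.log x ^ (3 / 4 : ℝ) :=
    Real.tendsto_log_atTop.eventually (log_le_eventually hδ (by norm_num) (by norm_num))
  have e5 : ∀ᶠ x : ℝ in atTop,
      4 * Real.log x ^ (1 / 2 : ℝ) ≤ δ / 16 * Real.log x ^ (3 / 4 : ℝ) :=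
    Real.tendsto_log_atTop.eventually (half_le_eventually (by positivity))
  have e6 : ∀ᶠ x : ℝ in atTop, 1 ≤ Real.log x := Real.tendsto_log_atTop.eventually_ge_atTop 1
  obtain ⟨x₀, hx₀⟩ := eventually_atTop.1 (e1.and (e2.and (e3.and (e4.and (e5.and (e6.and
    (eventually_ge_atTop 1)))))))
  refine ⟨max (max x₁ x₂) (max x₃ x₀), fun x hx a ha hax κ hκ0 hκ1 => ?_⟩
  have hxx₁ : x₁ ≤ x := (le_max_left _ _).trans ((le_max_left _ _).trans hx)
  have hxx₂ : x₂ ≤ x := (le_max_right _ _).trans ((le_max_left _ _).trans hx)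
  have hxx₃ : x₃ ≤ x := (le_max_left _ _).trans ((le_max_right _ _).trans hx)
  have hxx₀ : x₀ ≤ x := (le_max_right _ _).trans ((le_max_right _ _).trans hx)
  obtain ⟨f1, f2, f3, f4, f5, f6, f7⟩ := hx₀ x hxx₀
  have hN3 := hx₃ x hxx₃ a ha hax
  have hTL := hx₁ x hxx₁ a
  have hTS := hx₂ x hxx₂ a
  set y : ℝ := Real.log x with hy
  set e : ℝ := ep x with he
  have hx0 : 0 < x := by linarith
  have hy0 : 0 < y := by linarith
  have hxy : x = Real.exp y := (Real.exp_log hx0).symm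
  have hy34 : 0 < y ^ (3 / 4 : ℝ) := by positivity
  have he0 : 0 < e := by
    by_contra hcon
    push Not at hcon
    nlinarith
  have he12 : e < 1 / 2 := f1.trans_le (min_le_left _ _)
  have he32 : e < δ / 32 := f1.trans_le (min_le_right _ _)
  have hey : 0 < e * y := by positivity
  set η₂ : ℝ := τ * e with hη₂
  set η₁ : ℝ := τ₁ * e with hη₁
  have hη₂0 : 0 ≤ η₂ := by
    have : 0 ≤ τ := by linarith
    positivity
  have hη₂12 : η₂ ≤ 1 / 2 := by nlinarith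
  have hη₁0 : 0 ≤ η₁ := by
    have : 0 ≤ τ₁ := by linarith
    positivity
  have hη12 : η₁ ≤ η₂ := by
    rw [hη₁, hη₂]
    gcongr
    linarith
  set L : ℝ := Real.exp (y * e) with hL
  have hL1 : 1 ≤ L := Real.one_le_exp (by positivity)
  have hL0 : 0 < L := by linarith
  have hLx : L ≤ x := by
    rw [hxy, hL]; exact Real.exp_le_exp.2 (by nlinarith)
  set Pr : ℕ → Prop := fun n => (sp θ a n : ℝ) ≤ x ^ κ with hPr
  have hPr1 : ∀ n d : ℕ, 0 < n → d ∣ n → Pr n → Pr d := by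
    intro n d hn hd h
    rw [hPr] at h ⊢
    simp only at h ⊢
    refine le_trans ?_ h
    exact_mod_cast Nat.le_of_dvd (sp_pos θ a n) (sp_dvd θ a hn.ne' hd)
  have hcount := countP a Pr hPr1 x L 3 hL1 hLx (by norm_num)
  -- the inner sums
  set R : ℝ := (x / L ^ (4 : ℝ)) ^ (-η₂) * (x ^ κ) ^ (η₂ - η₁) * Real.exp (8 * y ^ (1 / 2 : ℝ))
    with hR
  have hLB : 0 < L ^ (4 : ℝ) := by positivity
  have hbase : 0 < x / L ^ (4 : ℝ) := by positivity
  have h31 : (3 : ℝ) + 1 = 4 := by norm_num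
  rw [h31] at hcount
  have hinner : ∀ m ∈ Finset.Icc 1 ⌊x⌋₊,
      ∑ d ∈ (Finset.Icc 1 ⌊x⌋₊).filter (fun d : ℕ => x / L ^ (4 : ℝ) < (d : ℝ) ∧ od a d = m ∧
        Pr d), 1 / (d : ℝ) ≤ R := by
    intro m hm
    rw [Finset.mem_Icc] at hm
    have hmx : (m : ℝ) ≤ x := (Nat.le_floor_iff hx0.le).1 hm.2
    set D := (Finset.Icc 1 ⌊x⌋₊).filter
      (fun d : ℕ => x / L ^ (4 : ℝ) < (d : ℝ) ∧ od a d = m ∧ Pr d) with hD
    have hD1 : ∀ d ∈ D, d ≠ 0 ∧ ∀ p ∈ d.primeFactors, 0 < od a p ∧ od a p ∣ m := by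
      intro d hd
      rw [hD, Finset.mem_filter, Finset.mem_Icc] at hd
      refine ⟨by omega, fun p hp => ?_⟩
      rw [Nat.mem_primeFactors] at hp
      have hdvd := od_dvd_of_dvd (a := a) hp.2.1
      rw [hd.2.2.1] at hdvd
      exact ⟨Nat.pos_of_dvd_of_pos hdvd hm.1, hdvd⟩
    have hrank := two_rankin h4 (θ := θ) (c₁ := 1 - η₁) (c₂ := 1 - η₂)
      (E := y ^ (1 / 2 : ℝ)) (by linarith) (by linarith) hD1
      (fun S hS => hTS m ha hax hm.1 hmx S hS)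
      (fun S hS => (hTL m hm.1 hmx S hS).trans
        (Real.rpow_le_rpow_of_exponent_le f6 (by norm_num)))
    have h1 : ∑ d ∈ D, 1 / (d : ℝ) ≤
        ∑ d ∈ D, (x / L ^ (4 : ℝ)) ^ (-η₂) * (x ^ κ) ^ (η₂ - η₁) *
          ((sp θ a d : ℝ) ^ (-(1 - η₁)) * (lp θ a d : ℝ) ^ (-(1 - η₂))) := by
      refine Finset.sum_le_sum fun d hd => ?_
      have hd' := hd
      rw [hD, Finset.mem_filter, Finset.mem_Icc] at hd'
      have hd0 : (0 : ℝ) < d := by exact_mod_cast hd'.1.1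
      have hs0 : (0 : ℝ) < sp θ a d := by exact_mod_cast sp_pos θ a d
      have hl0 : (0 : ℝ) < lp θ a d := by exact_mod_cast lp_pos θ a d
      have hsl : (sp θ a d : ℝ) * lp θ a d = d := by
        exact_mod_cast sp_mul_lp θ a (hD1 d hd).1
      have h3 : (d : ℝ) ^ (-η₂) ≤ (x / L ^ (4 : ℝ)) ^ (-η₂) :=
        Real.rpow_le_rpow_of_nonpos hbase hd'.2.1.le (by linarith)
      have h5 : (sp θ a d : ℝ) ^ (η₂ - η₁) ≤ (x ^ κ) ^ (η₂ - η₁) :=
        Real.rpow_le_rpow hs0.le hd'.2.2.2 (by linarith)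
      have h6 : 1 / (d : ℝ) = (d : ℝ) ^ (-η₂) * (sp θ a d : ℝ) ^ (η₂ - η₁) *
          ((sp θ a d : ℝ) ^ (-(1 - η₁)) * (lp θ a d : ℝ) ^ (-(1 - η₂))) := by
        have h7 : (d : ℝ) ^ (-η₂) = (sp θ a d : ℝ) ^ (-η₂) * (lp θ a d : ℝ) ^ (-η₂) := by
          rw [← hsl, Real.mul_rpow hs0.le hl0.le]
        rw [h7]
        calc 1 / (d : ℝ) = (sp θ a d : ℝ) ^ (-1 : ℝ) * (lp θ a d : ℝ) ^ (-1 : ℝ) := by
              rw [← Real.mul_rpow hs0.le hl0.le, hsl, Real.rpow_neg_one, one_div]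
          _ = (sp θ a d : ℝ) ^ (-η₂ + (η₂ - η₁) + -(1 - η₁)) *
              (lp θ a d : ℝ) ^ (-η₂ + -(1 - η₂)) := by
              congr 2 <;> ring
          _ = _ := by
              rw [Real.rpow_add hs0, Real.rpow_add hs0, Real.rpow_add hl0]
              ring
      rw [h6]
      gcongr
    refine h1.trans ?_
    rw [← Finset.mul_sum, hR]
    exact mul_le_mul_of_nonneg_left hrank (by positivity)
  have hR0 : 0 < R := by positivity
  have hsum : ∑ m ∈ Finset.Icc 1 ⌊x⌋₊, 1 / (m : ℝ) *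
      ∑ d ∈ (Finset.Icc 1 ⌊x⌋₊).filter (fun d : ℕ => x / L ^ (4 : ℝ) < (d : ℝ) ∧ od a d = m ∧
        Pr d), 1 / (d : ℝ) ≤ (1 + y) * R := by
    calc _ ≤ ∑ m ∈ Finset.Icc 1 ⌊x⌋₊, 1 / (m : ℝ) * R := by
          refine Finset.sum_le_sum fun m hm => ?_
          exact mul_le_mul_of_nonneg_left (hinner m hm) (by positivity)
      _ = (∑ m ∈ Finset.Icc 1 ⌊x⌋₊, 1 / (m : ℝ)) * R := by rw [Finset.sum_mul]
      _ ≤ _ := mul_le_mul_of_nonneg_right (sum_inv_le f7) hR0.le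
  -- numerical part
  have hRe : R = Real.exp (-η₂ * (y - 4 * (y * e)) + κ * y * (η₂ - η₁) +
      8 * y ^ (1 / 2 : ℝ)) := by
    rw [hR, Real.exp_add, Real.exp_add]
    congr 2
    · have h1 : x / L ^ (4 : ℝ) = Real.exp (y - 4 * (y * e)) := by
        rw [hxy, hL, ← Real.exp_mul, ← Real.exp_sub]
        congr 1; ring
      rw [h1, ← Real.exp_mul]
      congr 1; ring
    · rw [hxy, ← Real.exp_mul, ← Real.exp_mul]
      congr 1; ring
  set ν : ℝ := 1 - κ / 2 - δ with hν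
  have htarget : x ^ (1 - ν * e) = x * Real.exp (-(ν * (e * y))) := by
    rw [Real.rpow_sub hx0, Real.rpow_one, Real.exp_neg, hxy, ← Real.exp_mul]
    rw [div_eq_mul_inv]
    congr 3; ring
  have g1 : (3 + 2 * y) / L ≤ 1 / 2 * Real.exp (-(ν * (e * y))) := by
    have h1 : 6 + 4 * y ≤ Real.exp ((1 - ν) * (e * y)) := by
      have h2 : Real.log (6 + 4 * y) ≤ (1 - ν) * (e * y) := by
        refine f4.trans ?_
        have h3 : δ ≤ 1 - ν := by rw [hν]; linarith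
        calc δ * y ^ (3 / 4 : ℝ) ≤ δ * (e * y) := by gcongr
          _ ≤ (1 - ν) * (e * y) := by gcongr
      have h3 := Real.exp_le_exp.2 h2
      rwa [Real.exp_log (by positivity)] at h3
    rw [div_le_iff₀ hL0]
    have h2 : 1 / 2 * Real.exp (-(ν * (e * y))) * L =
        1 / 2 * Real.exp ((1 - ν) * (e * y)) := by
      rw [hL, mul_assoc, ← Real.exp_add]
      congr 2; ring
    rw [h2]
    linarith
  have g2 : (1 + y) * R ≤ 1 / 2 * Real.exp (-(ν * (e * y))) := by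
    have h1 : 2 + 2 * y ≤ Real.exp (δ / 8 * y ^ (3 / 4 : ℝ)) := by
      have h3 := Real.exp_le_exp.2 f3
      rwa [Real.exp_log (by positivity)] at h3
    have h2 : -η₂ * (y - 4 * (y * e)) + κ * y * (η₂ - η₁) + 8 * y ^ (1 / 2 : ℝ) ≤
        -(ν * (e * y)) - δ / 8 * y ^ (3 / 4 : ℝ) := by
      have i1 : -η₂ * (y - 4 * (y * e)) + κ * y * (η₂ - η₁) =
          -((τ - κ * (τ - τ₁)) * (e * y)) + 4 * τ * e * (e * y) := by
        rw [hη₂, hη₁]; ring
      have i2 : ν + δ / 2 ≤ τ - κ * (τ - τ₁) := by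
        rw [hν, hτ, hτ₁]; nlinarith
      have i3 : (ν + δ / 2) * (e * y) ≤ (τ - κ * (τ - τ₁)) * (e * y) := by gcongr
      have i4 : 4 * τ * e ≤ δ / 8 := by nlinarith
      have i5 : 4 * τ * e * (e * y) ≤ δ / 8 * (e * y) := by gcongr
      have i6 : δ / 8 * y ^ (3 / 4 : ℝ) ≤ δ / 8 * (e * y) := by gcongr
      have i7 : 0 ≤ δ * (e * y) := by positivity
      rw [i1]
      linarith
    have h3 : R ≤ Real.exp (-(ν * (e * y)) - δ / 8 * y ^ (3 / 4 : ℝ)) := by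
      rw [hRe]; exact Real.exp_le_exp.2 h2
    calc (1 + y) * R ≤ (1 / 2 * Real.exp (δ / 8 * y ^ (3 / 4 : ℝ))) *
          Real.exp (-(ν * (e * y)) - δ / 8 * y ^ (3 / 4 : ℝ)) := by
          apply mul_le_mul _ h3 hR0.le (by positivity)
          linarith
      _ = 1 / 2 * Real.exp (-(ν * (e * y))) := by
          rw [mul_assoc, ← Real.exp_add]; congr 2; ring
  rw [htarget]
  have hfin : (({n : ℕ | n ∈ psp a x ∧ Pr n}.ncard : ℕ) : ℝ) ≤
      x * ((3 + 2 * y) / L + (1 + y) * R) := by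
    have j1 := mul_le_mul_of_nonneg_left hN3 hx0.le
    have j2 := mul_le_mul_of_nonneg_left hsum hx0.le
    have j3 : x * ((3 + 2 * y) / L + (1 + y) * R) = 2 * (x / L) + x / L * (1 + y) +
        x * (y / L) + x * ((1 + y) * R) := by ring
    rw [j3]
    linarith
  refine hfin.trans (mul_le_mul_of_nonneg_left ?_ hx0.le)
  linarith

end Pool.Agent.Lib.MP_a260de_nt
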