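import Pool.Agent.Lib.MP_a260de_nt.Final
import Pool.Agent.Lib.MP_a260de_nt.CountP
import Pool.Agent.Lib.MP_a260de_nt.Pom
import Pool.Agent.Lib.MP_a260de_nt.FinalK

/-!
# MP_a260de_nt: pseudoprimes with few prime factors, every base
-/

set_option autoImplicit false

namespace Pool.Agent.Lib.MP_a260de_nt

open Filter Topology Finalaux

namespace Fewaux

open Pomaux

/-- analytic inequality for `pomBig` -/
theorem analyticBig {τ β c C : ℝ} (hτ : 0 < τ) (hτβ : τ < β) (hβ : 2 * β < c - 1) :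
    ∀ᶠ t : ℝ in atTop, Real.exp (-((β - τ) * Real.log t * t ^ (c - 1))) *
      (6 * t ^ β * (1 / (β * (Real.log t / t))) *
        Real.exp (4 * (t ^ (2 * β) * (Real.log t + C)))) ≤ 1 := by
  have hβ0 : 0 < β := hτ.trans hτβ
  set ρ : ℝ := c - 1 - 2 * β with hρ
  have hρ0 : 0 < ρ := by rw [hρ]; linarith
  have h1 : ∀ᶠ t : ℝ in atTop, (β + 10) / (β - τ) ≤ t ^ ρ :=
    (tendsto_rpow_atTop hρ0).eventually_ge_atTop _
  have h2 : ∀ᶠ t : ℝ in atTop, max 1 (max C (Real.log (6 / β))) ≤ Real.log t :=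
    Real.tendsto_log_atTop.eventually_ge_atTop _
  filter_upwards [h1, h2, eventually_ge_atTop 1] with t a1 a2 a3
  have ht0 : 0 < t := by linarith
  have b1 : 1 ≤ Real.log t := (le_max_left _ _).trans a2
  have b2 : C ≤ Real.log t := (le_max_left _ _).trans ((le_max_right _ _).trans a2)
  have b3 : Real.log (6 / β) ≤ Real.log t :=
    (le_max_right _ _).trans ((le_max_right _ _).trans a2)
  have b4 : 1 ≤ t ^ (2 * β) := Real.one_le_rpow a3 (by linarith)
  have b5 : t ^ (c - 1) = t ^ (2 * β) * t ^ ρ := by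
    rw [← Real.rpow_add ht0]; congr 1; rw [hρ]; ring
  have hl0 : 0 < Real.log t := by linarith
  have b6 : 6 * t ^ β * (1 / (β * (Real.log t / t))) ≤
      Real.exp (Real.log (6 / β) + (β + 1) * Real.log t) := by
    have e1 : Real.exp (Real.log (6 / β) + (β + 1) * Real.log t) = 6 / β * (t ^ β * t) := by
      rw [Real.exp_add, Real.exp_log (by positivity)]
      have : (β + 1) * Real.log t = Real.log t * (β + 1) := by ring
      rw [this, ← Real.rpow_def_of_pos ht0, Real.rpow_add ht0, Real.rpow_one]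
    rw [e1]
    have e2 : 6 * t ^ β * (1 / (β * (Real.log t / t))) = 6 / β * (t ^ β * t) / Real.log t := by
      field_simp
    rw [e2]
    exact div_le_self (by positivity) b1
  have b7 : (β + 10) ≤ (β - τ) * t ^ ρ := by
    rw [div_le_iff₀ (by linarith)] at a1
    linarith
  calc Real.exp (-((β - τ) * Real.log t * t ^ (c - 1))) *
      (6 * t ^ β * (1 / (β * (Real.log t / t))) *
        Real.exp (4 * (t ^ (2 * β) * (Real.log t + C)))) ≤
      Real.exp (-((β - τ) * Real.log t * t ^ (c - 1))) *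
      (Real.exp (Real.log (6 / β) + (β + 1) * Real.log t) *
        Real.exp (4 * (t ^ (2 * β) * (Real.log t + C)))) := by gcongr
    _ = Real.exp (-((β - τ) * Real.log t * t ^ (c - 1)) + (Real.log (6 / β) +
        (β + 1) * Real.log t + 4 * (t ^ (2 * β) * (Real.log t + C)))) := by
        rw [← Real.exp_add, ← Real.exp_add]
    _ ≤ Real.exp 0 := by
        apply Real.exp_le_exp.2
        rw [b5]
        have c1 : (β + 10) * (t ^ (2 * β) * Real.log t) ≤
            (β - τ) * t ^ ρ * (t ^ (2 * β) * Real.log t) :=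
          mul_le_mul_of_nonneg_right b7 (by positivity)
        have c2 : 4 * (t ^ (2 * β) * (Real.log t + C)) ≤ 8 * (t ^ (2 * β) * Real.log t) := by
          have : t ^ (2 * β) * (Real.log t + C) ≤ t ^ (2 * β) * (2 * Real.log t) := by
            gcongr; linarith
          linarith
        have c3 : Real.log t ≤ t ^ (2 * β) * Real.log t := le_mul_of_one_le_left hl0.le b4
        have c4 : (β + 1) * Real.log t ≤ (β + 1) * (t ^ (2 * β) * Real.log t) := by gcongr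
        have c5 : (β - τ) * Real.log t * (t ^ (2 * β) * t ^ ρ) =
            (β - τ) * t ^ ρ * (t ^ (2 * β) * Real.log t) := by ring
        rw [c5]
        nlinarith
    _ = 1 := Real.exp_zero

/-- Sum over the primes above `exp ((log log x) ^ c)` with order dividing `m`, for every base. -/
theorem pomBig (hP : StmtPrimeSum) (hR : StmtRankin) {τ β c : ℝ} (hτ : 0 < τ) (hτβ : τ < β)
    (hβ : 2 * β < c - 1) :
    ∃ x₀ : ℝ, ∀ x : ℝ, x₀ ≤ x → ∀ (a : ℤ) (m : ℕ), 2 ≤ |a| → ((|a| : ℤ) : ℝ) ≤ x → 1 ≤ m →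
    (m : ℝ) ≤ x → ∀ S : Finset ℕ, (∀ p ∈ S, p.Prime ∧
      Real.exp (Real.log (Real.log x) ^ c) < (p : ℝ) ∧ 0 < od a p ∧ od a p ∣ m) →
    ∑ p ∈ S, (p : ℝ) ^ (-(1 - τ * ep x)) ≤ 1 := by
  obtain ⟨C, hC, hP⟩ := hP
  have hβ0 : 0 < β := hτ.trans hτβ
  have hl2 : Tendsto (fun x : ℝ => Real.log (Real.log x)) atTop atTop :=
    Real.tendsto_log_atTop.comp Real.tendsto_log_atTop
  have e1 := hl2.eventually (analyticBig (C := C) hτ hτβ hβ)
  have e2 : ∀ᶠ x : ℝ in atTop, 3 ≤ Real.log x := Real.tendsto_log_atTop.eventually_ge_atTop 3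
  have e3 : ∀ᶠ x : ℝ in atTop, 1 < Real.log (Real.log x) := hl2.eventually_gt_atTop 1
  have e4 : ∀ᶠ x : ℝ in atTop, ep x < 1 / (8 * β) :=
    tendsto_ep_zero.eventually (gt_mem_nhds (by positivity))
  obtain ⟨x₀, hx₀⟩ := eventually_atTop.1 (e1.and (e2.and (e3.and (e4.and
    (eventually_ge_atTop 1)))))
  refine ⟨x₀, fun x hx a m ha hax hm hmx S hS => ?_⟩
  obtain ⟨a1, a2, a3, a4, a6⟩ := hx₀ x hx
  obtain ⟨hlogax, -⟩ := log_abs_le ha hax
  set y := Real.log x with hy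
  set t := Real.log y with ht
  have hy0 : 0 < y := by linarith
  have hl3 : 0 < Real.log t := Real.log_pos a3
  have hepe : ep x = Real.log t / t := rfl
  have hep0 : 0 < ep x := by rw [hepe]; positivity
  set η := β * ep x with hη
  have hη0 : 0 < η := by positivity
  have hη1 : η ≤ 1 / 8 := by
    have : β * ep x ≤ β * (1 / (8 * β)) := by gcongr
    have h2 : β * (1 / (8 * β)) = 1 / 8 := by field_simp
    linarith
  have hm0 : m ≠ 0 := by omega
  have hmaps : ∀ p ∈ S, od a p ∈ m.divisors := fun p hp =>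
    Nat.mem_divisors.2 ⟨(hS p hp).2.2.2, hm0⟩
  have step1 : ∑ p ∈ S, (p : ℝ) ^ (-(1 - η)) ≤
      ∑ d ∈ m.divisors, 2 / η * (3 * y) ^ η * (d : ℝ) ^ (-(1 - 2 * η)) := by
    rw [← Finset.sum_fiberwise_of_maps_to hmaps]
    apply Finset.sum_le_sum
    intro d hd
    have hd0 : 1 ≤ d := Nat.pos_of_mem_divisors hd
    have hdR : (1 : ℝ) ≤ d := by exact_mod_cast hd0
    have hdR0 : (0 : ℝ) < d := by linarith
    have h3dy : 1 ≤ 3 * d * y := by nlinarith
    have hK1 : 1 ≤ ⌊3 * d * y⌋₊ := (Nat.one_le_floor_iff _).2 h3dy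
    have hcard : ((S.filter fun p => od a p = d)).card ≤ ⌊3 * d * y⌋₊ := by
      refine Nat.le_floor ?_
      have h1 := card_mul_log (a := a) (d := d) (Z := 2) ha hd0 (by norm_num)
        (S.filter fun p => od a p = d) (fun p hp => by
          rw [Finset.mem_filter] at hp
          refine ⟨(hS p hp.1).1, ?_, hp.2⟩
          exact_mod_cast (hS p hp.1).1.two_le)
      have h2 := Real.log_two_gt_d9
      have h3 : ((d : ℝ) + 1) * Real.log (|a| : ℤ) ≤ (d + 1) * y := by gcongr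
      have h4 : (0 : ℝ) ≤ ((S.filter fun p => od a p = d).card : ℝ) := Nat.cast_nonneg _
      have h5 : ((S.filter fun p => od a p = d).card : ℝ) * (2 / 3) ≤
          ((S.filter fun p => od a p = d).card : ℝ) * Real.log 2 := by gcongr; linarith
      nlinarith
    refine (fibreK a d _ η hη0 (by linarith) hd0 hK1 _ (fun p hp => ?_) hcard).trans ?_
    · rw [Finset.mem_filter] at hp
      exact ⟨(hS p hp.1).1, hp.2⟩
    · have h6 : ((⌊3 * d * y⌋₊ : ℕ) : ℝ) ^ η ≤ (d : ℝ) ^ η * (3 * y) ^ η := by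
        rw [← Real.mul_rpow hdR0.le (by positivity)]
        refine Real.rpow_le_rpow (Nat.cast_nonneg _) ((Nat.floor_le (by linarith)).trans_eq ?_)
          hη0.le
        ring
      calc 2 / η * ((d : ℝ) ^ (-(1 - η)) * ((⌊3 * d * y⌋₊ : ℕ) : ℝ) ^ η) ≤
            2 / η * ((d : ℝ) ^ (-(1 - η)) * ((d : ℝ) ^ η * (3 * y) ^ η)) := by gcongr
        _ = 2 / η * (3 * y) ^ η * ((d : ℝ) ^ (-(1 - η)) * (d : ℝ) ^ η) := by ring
        _ = _ := by rw [← Real.rpow_add hdR0]; congr 2; ring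
  have step2 : ∑ d ∈ m.divisors, (d : ℝ) ^ (-(1 - 2 * η)) ≤
      Real.exp (4 * ∑ p ∈ m.primeFactors, (p : ℝ) ^ (-(1 - 2 * η))) := by
    apply hR (1 - 2 * η) (by linarith) m.primeFactors m.divisors
    · intro p hp; exact Nat.prime_of_mem_primeFactors hp
    · intro d hd
      have hdd := Nat.mem_divisors.1 hd
      exact ⟨(Nat.pos_of_mem_divisors hd).ne', Nat.primeFactors_mono hdd.1 hdd.2⟩
  have hlogm : Real.log m ≤ y := by
    rw [hy]
    exact Real.log_le_log (by exact_mod_cast hm) hmx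
  have step3 := hP y a2 m hm hlogm (1 - 2 * η) (by linarith) (by linarith)
  rw [sub_sub_cancel] at step3
  have htpos : 0 < t := by linarith
  have ey : ∀ r : ℝ, y ^ (r * ep x) = t ^ r := by
    intro r
    rw [Real.rpow_def_of_pos hy0, Real.rpow_def_of_pos htpos, ← ht, hepe]
    congr 1
    field_simp
  have ey2 : y ^ (2 * η) = t ^ (2 * β) := by rw [hη, ← mul_assoc]; exact ey _
  have ey1 : y ^ η = t ^ β := by rw [hη, ey β]
  have e3y : (3 * y) ^ η ≤ 3 * t ^ β := by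
    rw [Real.mul_rpow (by norm_num) hy0.le, ey1]
    have h1 : (3 : ℝ) ^ η ≤ 3 := by
      calc (3 : ℝ) ^ η ≤ 3 ^ (1 : ℝ) := Real.rpow_le_rpow_of_exponent_le (by norm_num) (by linarith)
        _ = 3 := Real.rpow_one 3
    have h2 : 0 ≤ t ^ β := by positivity
    gcongr
  rw [ey2] at step3
  have hsumβ : ∑ p ∈ S, (p : ℝ) ^ (-(1 - η)) ≤ 6 * t ^ β * (1 / (β * (Real.log t / t))) *
        Real.exp (4 * (t ^ (2 * β) * (Real.log t + C))) := by
    calc ∑ p ∈ S, (p : ℝ) ^ (-(1 - η)) ≤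
        ∑ d ∈ m.divisors, 2 / η * (3 * y) ^ η * (d : ℝ) ^ (-(1 - 2 * η)) := step1
    _ = 2 / η * (3 * y) ^ η * ∑ d ∈ m.divisors, (d : ℝ) ^ (-(1 - 2 * η)) := by
        rw [Finset.mul_sum]
    _ ≤ 2 / η * (3 * t ^ β) * Real.exp (4 * (t ^ (2 * β) * (Real.log t + C))) := by
        refine mul_le_mul ?_ (step2.trans (Real.exp_le_exp.2 (by linarith))) ?_ (by positivity)
        · gcongr
        · exact Finset.sum_nonneg fun _ _ => by positivity
    _ = _ := by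
        rw [hη, hepe]; ring
  -- the gain
  set P₁ : ℝ := Real.exp (t ^ c) with hP₁
  have hP₁0 : 0 < P₁ := Real.exp_pos _
  have hgain : ∑ p ∈ S, (p : ℝ) ^ (-(1 - τ * ep x)) ≤
      Real.exp (-((β - τ) * Real.log t * t ^ (c - 1))) * ∑ p ∈ S, (p : ℝ) ^ (-(1 - η)) := by
    rw [Finset.mul_sum]
    refine Finset.sum_le_sum fun p hp => ?_
    obtain ⟨hp1, hp2, -, -⟩ := hS p hp
    have hp0 : (0 : ℝ) < p := by exact_mod_cast hp1.pos
    have g1 : (p : ℝ) ^ (-(1 - τ * ep x)) = (p : ℝ) ^ (-((β - τ) * ep x)) *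
        (p : ℝ) ^ (-(1 - η)) := by
      rw [← Real.rpow_add hp0]; congr 1; rw [hη]; ring
    have g2 : (p : ℝ) ^ (-((β - τ) * ep x)) ≤ P₁ ^ (-((β - τ) * ep x)) := by
      refine Real.rpow_le_rpow_of_nonpos hP₁0 hp2.le ?_
      have : 0 < (β - τ) * ep x := mul_pos (by linarith) hep0
      linarith
    have g3 : P₁ ^ (-((β - τ) * ep x)) = Real.exp (-((β - τ) * Real.log t * t ^ (c - 1))) := by
      rw [hP₁, ← Real.exp_mul, hepe]
      congr 1
      rw [Real.rpow_sub_one htpos.ne']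
      field_simp
    rw [g1, ← g3]
    gcongr
  refine hgain.trans (le_trans ?_ a1)
  gcongr

/-- The primes above `L ^ 3` with order at most `L`. -/
theorem n3L {a : ℤ} {x L : ℝ} (ha : 2 ≤ |a|) (hax : ((|a| : ℤ) : ℝ) ≤ x) (hLe : 1 ≤ Real.log L)
    (hL1 : 1 ≤ L) :
    ∑ p ∈ (Finset.Icc 1 ⌊x⌋₊).filter (fun p : ℕ => p.Prime ∧ 0 < od a p ∧
        (od a p : ℝ) ≤ L ∧ L ^ (3 : ℝ) < (p : ℝ)), 1 / (p : ℝ) ≤ Real.log x / L := by
  obtain ⟨hlogax, hy0⟩ := log_abs_le ha hax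
  set y := Real.log x with hy
  have hL0 : 0 < L := by linarith
  have hlogL3 : Real.log (L ^ (3 : ℝ)) = 3 * Real.log L := by
    rw [Real.log_rpow hL0]
  set F := (Finset.Icc 1 ⌊x⌋₊).filter (fun p : ℕ => p.Prime ∧ 0 < od a p ∧
        (od a p : ℝ) ≤ L ∧ L ^ (3 : ℝ) < (p : ℝ)) with hF
  have hmaps : ∀ p ∈ F, od a p ∈ Finset.Icc 1 ⌊L⌋₊ := by
    intro p hp
    rw [hF, Finset.mem_filter] at hp
    exact Finset.mem_Icc.2 ⟨hp.2.2.1, Nat.le_floor hp.2.2.2.1⟩
  rw [← Finset.sum_fiberwise_of_maps_to hmaps]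
  have hL3 : (0 : ℝ) < L ^ (3 : ℝ) := by positivity
  have hfib : ∀ d ∈ Finset.Icc 1 ⌊L⌋₊, ∑ p ∈ F.filter (fun p => od a p = d), 1 / (p : ℝ) ≤
      L * y / L ^ (3 : ℝ) := by
    intro d hd
    rw [Finset.mem_Icc] at hd
    have hdL : (d : ℝ) ≤ L := (Nat.le_floor_iff hL0.le).1 hd.2
    have hd1 : (1 : ℝ) ≤ d := by exact_mod_cast hd.1
    have hc := card_mul_log (a := a) (d := d) (Z := L ^ (3 : ℝ)) ha hd.1
      (Real.one_le_rpow hL1 (by norm_num)) (F.filter (fun p => od a p = d)) (fun p hp => by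
        rw [Finset.mem_filter, hF, Finset.mem_filter] at hp
        exact ⟨hp.1.2.1, hp.1.2.2.2.2.le, hp.2⟩)
    rw [hlogL3] at hc
    have hc2 : ((F.filter (fun p => od a p = d)).card : ℝ) ≤ L * y := by
      have h1 : (0 : ℝ) ≤ ((F.filter (fun p => od a p = d)).card : ℝ) := Nat.cast_nonneg _
      have h2 : ((F.filter (fun p => od a p = d)).card : ℝ) * 3 ≤ (d + 1) * y := by
        calc ((F.filter (fun p => od a p = d)).card : ℝ) * 3 ≤
              ((F.filter (fun p => od a p = d)).card : ℝ) * (3 * Real.log L) := by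
                gcongr; linarith
          _ ≤ (d + 1) * Real.log (|a| : ℤ) := hc
          _ ≤ (d + 1) * y := by gcongr
      nlinarith
    calc ∑ p ∈ F.filter (fun p => od a p = d), 1 / (p : ℝ) ≤
          ∑ p ∈ F.filter (fun p => od a p = d), 1 / L ^ (3 : ℝ) := by
          refine Finset.sum_le_sum fun p hp => ?_
          rw [Finset.mem_filter, hF, Finset.mem_filter] at hp
          have := hp.1.2.2.2.2
          gcongr
      _ = ((F.filter (fun p => od a p = d)).card : ℝ) * (1 / L ^ (3 : ℝ)) := by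
          rw [Finset.sum_const, nsmul_eq_mul]
      _ ≤ L * y * (1 / L ^ (3 : ℝ)) := by gcongr
      _ = _ := by ring
  calc ∑ d ∈ Finset.Icc 1 ⌊L⌋₊, ∑ p ∈ F.filter (fun p => od a p = d), 1 / (p : ℝ) ≤
        ∑ d ∈ Finset.Icc 1 ⌊L⌋₊, L * y / L ^ (3 : ℝ) := Finset.sum_le_sum hfib
    _ = (⌊L⌋₊ : ℝ) * (L * y / L ^ (3 : ℝ)) := by
        rw [Finset.sum_const, nsmul_eq_mul, Nat.card_Icc, Nat.add_sub_cancel]
    _ ≤ L * (L * y / L ^ (3 : ℝ)) := by
        gcongr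
        exact Nat.floor_le hL0.le
    _ = y / L := by
        have h3 : L ^ (3 : ℝ) = L ^ 3 := by
          rw [← Real.rpow_natCast]; norm_num
        rw [h3]
        field_simp

/-- The sum over squarefull numbers. -/
theorem squarefull_sum : ∃ C₀ : ℝ, 0 < C₀ ∧ ∀ η : ℝ, η ≤ 1 / 8 → ∀ F : Finset ℕ,
    (∀ f ∈ F, f ≠ 0 ∧ ∀ p : ℕ, p.Prime → p ∣ f → p ^ 2 ∣ f) →
    ∑ f ∈ F, (f : ℝ) ^ (-(1 - η)) ≤ C₀ := by
  have hsum : Summable fun n : ℕ => (n : ℝ) ^ (-(13 / 8) : ℝ) := by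
    rw [Real.summable_nat_rpow]; norm_num
  refine ⟨8 * ∑' n : ℕ, (n : ℝ) ^ (-(13 / 8) : ℝ) + 1, ?_, fun η hη F hF => ?_⟩
  · have : 0 ≤ ∑' n : ℕ, (n : ℝ) ^ (-(13 / 8) : ℝ) := tsum_nonneg fun n => by positivity
    linarith
  have hdec : ∀ f : ℕ, f ≠ 0 → (∀ p : ℕ, p.Prime → p ∣ f → p ^ 2 ∣ f) →
      ∃ q : ℕ × ℕ, q.1 ^ 2 * q.2 = f ∧ 1 ≤ q.1 ∧ 1 ≤ q.2 ∧ q.2 ≤ q.1 := by
    intro f hf0 hf
    obtain ⟨v, u, huv, hv⟩ := Nat.sq_mul_squarefree f
    have hu0 : u ≠ 0 := by rintro rfl; apply hf0; rw [← huv]; ring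
    have hv0 : v ≠ 0 := hv.ne_zero
    refine ⟨(u, v), huv, Nat.one_le_iff_ne_zero.2 hu0, Nat.one_le_iff_ne_zero.2 hv0, ?_⟩
    refine Nat.le_of_dvd (Nat.pos_of_ne_zero hu0) ?_
    refine (Nat.factorization_prime_le_iff_dvd hv0 hu0).1 fun p hp => ?_
    have hv1 := (Nat.squarefree_iff_factorization_le_one hv0).1 hv p
    by_contra hcon
    push Not at hcon
    have h1 : v.factorization p = 1 := by omega
    have h2 : u.factorization p = 0 := by omega
    have hpf : p ∣ f := by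
      rw [← huv]
      exact dvd_mul_of_dvd_right ((hp.dvd_iff_one_le_factorization hv0).2 h1.ge) _
    have h3 := hf p hp hpf
    have h4 := (hp.pow_dvd_iff_le_factorization hf0).1 h3
    rw [← huv, Nat.factorization_mul (pow_ne_zero _ hu0) hv0, Nat.factorization_pow] at h4
    simp only [Finsupp.coe_add, Finsupp.coe_smul, Pi.add_apply, Pi.smul_apply, smul_eq_mul] at h4
    omega
  choose! g hg using hdec
  set N : ℕ := F.sup id with hN
  have hle : ∀ f ∈ F, (f : ℝ) ^ (-(1 - η)) ≤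
      ((g f).1 : ℝ) ^ (-(7 / 4) : ℝ) * ((g f).2 : ℝ) ^ (-(1 - 1 / 8) : ℝ) := by
    intro f hf
    obtain ⟨h1, h2, h3, -⟩ := hg f (hF f hf).1 (hF f hf).2
    have hf1 : (1 : ℝ) ≤ f := by exact_mod_cast Nat.one_le_iff_ne_zero.2 (hF f hf).1
    have hu0 : (0 : ℝ) < (g f).1 := by exact_mod_cast h2
    have hv0 : (0 : ℝ) < (g f).2 := by exact_mod_cast h3
    have hfe : (f : ℝ) = ((g f).1 : ℝ) ^ (2 : ℝ) * (g f).2 := by
      rw [Real.rpow_two]
      exact_mod_cast h1.symm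
    calc (f : ℝ) ^ (-(1 - η)) ≤ (f : ℝ) ^ (-(1 - 1 / 8) : ℝ) :=
          Real.rpow_le_rpow_of_exponent_le hf1 (by linarith)
      _ = _ := by
          rw [hfe, Real.mul_rpow (by positivity) hv0.le, ← Real.rpow_mul hu0.le]
          norm_num
  set G : ℕ → (_ : ℕ) × ℕ := fun f => ⟨(g f).1, (g f).2⟩ with hG
  have hinj : Set.InjOn G (F : Set ℕ) := by
    intro f hf f' hf' h
    obtain ⟨h1, -⟩ := hg f (hF f hf).1 (hF f hf).2
    obtain ⟨h2, -⟩ := hg f' (hF f' hf').1 (hF f' hf').2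
    rw [hG] at h
    simp only [Sigma.mk.injEq, heq_eq_eq] at h
    rw [← h1, ← h2, h.1, h.2]
  have hsub : F.image G ⊆ (Finset.Icc 1 N).sigma fun u => Finset.Icc 1 u := by
    intro z hz
    rw [Finset.mem_image] at hz
    obtain ⟨f, hf, rfl⟩ := hz
    obtain ⟨h1, h2, h3, h4⟩ := hg f (hF f hf).1 (hF f hf).2
    have h5 : f ≤ N := Finset.le_sup (f := id) hf
    rw [Finset.mem_sigma, Finset.mem_Icc, Finset.mem_Icc]
    refine ⟨⟨h2, ?_⟩, h3, h4⟩
    show (g f).1 ≤ N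
    refine le_trans ?_ h5
    calc (g f).1 = (g f).1 * 1 := (mul_one _).symm
      _ ≤ (g f).1 ^ 2 * (g f).2 := by
          rw [pow_two, mul_assoc]
          exact Nat.mul_le_mul_left _ (Nat.mul_pos h2 h3)
      _ = f := h1
  calc ∑ f ∈ F, (f : ℝ) ^ (-(1 - η)) ≤
      ∑ f ∈ F, ((g f).1 : ℝ) ^ (-(7 / 4) : ℝ) * ((g f).2 : ℝ) ^ (-(1 - 1 / 8) : ℝ) :=
        Finset.sum_le_sum hle
    _ = ∑ z ∈ F.image G, (z.1 : ℝ) ^ (-(7 / 4) : ℝ) * (z.2 : ℝ) ^ (-(1 - 1 / 8) : ℝ) := by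
        rw [Finset.sum_image hinj]
    _ ≤ ∑ z ∈ (Finset.Icc 1 N).sigma (fun u => Finset.Icc 1 u),
        (z.1 : ℝ) ^ (-(7 / 4) : ℝ) * (z.2 : ℝ) ^ (-(1 - 1 / 8) : ℝ) :=
        Finset.sum_le_sum_of_subset_of_nonneg hsub fun z _ _ => by positivity
    _ = ∑ u ∈ Finset.Icc 1 N, (u : ℝ) ^ (-(7 / 4) : ℝ) *
        ∑ v ∈ Finset.Icc 1 u, (v : ℝ) ^ (-(1 - 1 / 8) : ℝ) := by
        rw [Finset.sum_sigma]
        exact Finset.sum_congr rfl fun u _ => by rw [Finset.mul_sum]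
    _ ≤ ∑ u ∈ Finset.Icc 1 N, 8 * (u : ℝ) ^ (-(13 / 8) : ℝ) := by
        refine Finset.sum_le_sum fun u hu => ?_
        rw [Finset.mem_Icc] at hu
        have hu0 : (0 : ℝ) < u := by exact_mod_cast hu.1
        have h1 := T2aux.sum_rpow_le (1 / 8) (by norm_num) (by norm_num) u
        calc (u : ℝ) ^ (-(7 / 4) : ℝ) * ∑ v ∈ Finset.Icc 1 u, (v : ℝ) ^ (-(1 - 1 / 8) : ℝ) ≤
            (u : ℝ) ^ (-(7 / 4) : ℝ) * ((u : ℝ) ^ (1 / 8 : ℝ) / (1 / 8)) := by gcongr
          _ = 8 * ((u : ℝ) ^ (-(7 / 4) : ℝ) * (u : ℝ) ^ (1 / 8 : ℝ)) := by ring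
          _ = _ := by
              rw [← Real.rpow_add hu0]
              norm_num
    _ = 8 * ∑ u ∈ Finset.Icc 1 N, (u : ℝ) ^ (-(13 / 8) : ℝ) := by rw [Finset.mul_sum]
    _ ≤ 8 * ∑' n : ℕ, (n : ℝ) ^ (-(13 / 8) : ℝ) := by
        gcongr
        exact hsum.sum_le_tsum _ fun n _ => by positivity
    _ ≤ _ := by linarith

/-- The squarefull part. -/
noncomputable def fP (n : ℕ) : ℕ :=
  ∏ p ∈ n.primeFactors.filter (fun p : ℕ => 2 ≤ n.factorization p), p ^ n.factorization p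

/-- The product of the primes `p ≤ P` which divide `n` exactly once. -/
noncomputable def sP (P : ℝ) (n : ℕ) : ℕ :=
  ∏ p ∈ (n.primeFactors.filter (fun p : ℕ => ¬ 2 ≤ n.factorization p)).filter
    (fun p : ℕ => (p : ℝ) ≤ P), p ^ n.factorization p

/-- The product of the primes `p > P` which divide `n` exactly once. -/
noncomputable def lP (P : ℝ) (n : ℕ) : ℕ :=
  ∏ p ∈ (n.primeFactors.filter (fun p : ℕ => ¬ 2 ≤ n.factorization p)).filter
    (fun p : ℕ => ¬ (p : ℝ) ≤ P), p ^ n.factorization p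

theorem parts_mul (P : ℝ) {n : ℕ} (hn : n ≠ 0) : fP n * (sP P n * lP P n) = n := by
  rw [sP, lP, Finset.prod_filter_mul_prod_filter_not, fP, Finset.prod_filter_mul_prod_filter_not]
  exact Nat.prod_factorization_pow_eq_self hn

theorem prime_of_dvd_prod {n q : ℕ} {T : Finset ℕ} (hT : T ⊆ n.primeFactors) (hq : q.Prime)
    (h : q ∣ ∏ p ∈ T, p ^ n.factorization p) : q ∈ T := by
  rw [Prime.dvd_finsetProd_iff hq.prime] at h
  obtain ⟨p, hp, hqp⟩ := h
  have h1 : q ∣ p := hq.dvd_of_dvd_pow hqp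
  have h2 : q = p := (Nat.prime_dvd_prime_iff_eq hq (Nat.prime_of_mem_primeFactors (hT hp))).1 h1
  rw [h2]
  exact hp

theorem prod_pos {n : ℕ} {T : Finset ℕ} (hT : T ⊆ n.primeFactors) :
    0 < ∏ p ∈ T, p ^ n.factorization p :=
  Finset.prod_pos fun p hp => by
    have := (Nat.prime_of_mem_primeFactors (hT hp)).pos
    positivity

theorem fP_pos (n : ℕ) : 0 < fP n := prod_pos (Finset.filter_subset _ _)

theorem sP_pos (P : ℝ) (n : ℕ) : 0 < sP P n :=
  prod_pos ((Finset.filter_subset _ _).trans (Finset.filter_subset _ _))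

theorem lP_pos (P : ℝ) (n : ℕ) : 0 < lP P n :=
  prod_pos ((Finset.filter_subset _ _).trans (Finset.filter_subset _ _))

theorem fP_sq {n p : ℕ} (hp : p.Prime) (h : p ∣ fP n) : p ^ 2 ∣ fP n := by
  have h1 := prime_of_dvd_prod (Finset.filter_subset _ _) hp h
  have h2 := (Finset.mem_filter.1 h1).2
  exact (pow_dvd_pow p h2).trans (Finset.dvd_prod_of_mem (fun p => p ^ n.factorization p) h1)

theorem sP_le {P : ℝ} (hP : 1 ≤ P) (n : ℕ) : (sP P n : ℝ) ≤ P ^ n.primeFactors.card := by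
  rw [sP]
  push_cast
  set T := (n.primeFactors.filter (fun p : ℕ => ¬ 2 ≤ n.factorization p)).filter
    (fun p : ℕ => (p : ℝ) ≤ P) with hT
  calc ∏ p ∈ T, (p : ℝ) ^ n.factorization p ≤ ∏ _p ∈ T, P := by
        refine Finset.prod_le_prod (fun p _ => by positivity) fun p hp => ?_
        rw [hT, Finset.mem_filter, Finset.mem_filter] at hp
        have h1 : n.factorization p = 0 ∨ n.factorization p = 1 := by omega
        rcases h1 with h1 | h1
        · rw [h1, pow_zero]; exact hP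
        · rw [h1, pow_one]; exact hp.2
    _ = P ^ T.card := by rw [Finset.prod_const]
    _ ≤ P ^ n.primeFactors.card := by
        refine pow_le_pow_right₀ hP (Finset.card_le_card ?_)
        exact (Finset.filter_subset _ _).trans (Finset.filter_subset _ _)

/-- Rankin's bound for the three parts. -/
theorem three_rankin (h4 : StmtRankin) {P c₂ E C₀ X : ℝ} (hc₂ : 1 / 2 ≤ c₂)
    {a : ℤ} {m : ℕ} {D : Finset ℕ} (hX : 1 ≤ X) (hC₀ : 0 ≤ C₀)
    (hD : ∀ d ∈ D, d ≠ 0 ∧ (d : ℝ) ≤ X ∧ ∀ p ∈ d.primeFactors, 0 < od a p ∧ od a p ∣ m)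
    (hE : ∀ S : Finset ℕ, (∀ p ∈ S, p.Prime ∧ P < (p : ℝ) ∧ 0 < od a p ∧ od a p ∣ m) →
      ∑ p ∈ S, (p : ℝ) ^ (-c₂) ≤ E)
    (hC : ∀ F : Finset ℕ, (∀ f ∈ F, f ≠ 0 ∧ ∀ p : ℕ, p.Prime → p ∣ f → p ^ 2 ∣ f) →
      ∑ f ∈ F, (f : ℝ) ^ (-c₂) ≤ C₀) :
    ∑ d ∈ D, (1 / (sP P d : ℝ)) * ((fP d : ℝ) ^ (-c₂) * (lP P d : ℝ) ^ (-c₂)) ≤
      (1 + Real.log X) * (C₀ * Real.exp (4 * E)) := by
  classical
  set A := D.image (sP P) with hA
  set F := D.image fP with hF
  set G := D.image (lP P) with hG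
  have hA1 : ∑ s ∈ A, 1 / (s : ℝ) ≤ 1 + Real.log X := by
    refine le_trans (Finset.sum_le_sum_of_subset_of_nonneg (t := Finset.Icc 1 ⌊X⌋₊) ?_
      fun _ _ _ => by positivity) (sum_inv_le hX)
    intro s hs
    rw [hA, Finset.mem_image] at hs
    obtain ⟨d, hd, rfl⟩ := hs
    rw [Finset.mem_Icc]
    refine ⟨sP_pos P d, Nat.le_floor (le_trans ?_ (hD d hd).2.1)⟩
    have h1 := parts_mul P (hD d hd).1
    have h2 : sP P d ≤ d := by
      refine Nat.le_of_dvd (Nat.pos_of_ne_zero (hD d hd).1) ?_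
      conv_rhs => rw [← h1]
      exact (dvd_mul_right _ _).mul_left _
    exact_mod_cast h2
  have hF1 : ∑ f ∈ F, (f : ℝ) ^ (-c₂) ≤ C₀ := by
    refine hC F fun f hf => ?_
    rw [hF, Finset.mem_image] at hf
    obtain ⟨d, hd, rfl⟩ := hf
    exact ⟨(fP_pos d).ne', fun p hp h => fP_sq hp h⟩
  have hG1 : ∑ g ∈ G, (g : ℝ) ^ (-c₂) ≤ Real.exp (4 * E) := by
    have h := h4 c₂ hc₂ (G.biUnion Nat.primeFactors) G (fun p hp => by
        rw [Finset.mem_biUnion] at hp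
        obtain ⟨f, -, hp⟩ := hp
        exact Nat.prime_of_mem_primeFactors hp) (fun f hf => by
        refine ⟨?_, fun p hp => Finset.mem_biUnion.2 ⟨f, hf, hp⟩⟩
        rw [hG, Finset.mem_image] at hf
        obtain ⟨d, -, rfl⟩ := hf
        exact (lP_pos P d).ne')
    refine h.trans (Real.exp_le_exp.2 ?_)
    have := hE (G.biUnion Nat.primeFactors) (fun p hp => by
      rw [Finset.mem_biUnion] at hp
      obtain ⟨f, hf, hp⟩ := hp
      rw [hG, Finset.mem_image] at hf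
      obtain ⟨d, hd, rfl⟩ := hf
      have hpp := Nat.prime_of_mem_primeFactors hp
      have h2 := prime_of_dvd_prod ((Finset.filter_subset _ _).trans (Finset.filter_subset _ _))
        hpp (Nat.dvd_of_mem_primeFactors hp)
      rw [Finset.mem_filter, Finset.mem_filter] at h2
      have h3 := (hD d hd).2.2 p h2.1.1
      exact ⟨hpp, not_le.1 h2.2, h3.1, h3.2⟩)
    linarith
  have hinj : Set.InjOn (fun d => (sP P d, (fP d, lP P d))) (D : Set ℕ) := by
    intro d hd e he h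
    rw [← parts_mul P (hD d hd).1, ← parts_mul P (hD e he).1]
    simp only [Prod.mk.injEq] at h
    rw [h.1, h.2.1, h.2.2]
  calc ∑ d ∈ D, (1 / (sP P d : ℝ)) * ((fP d : ℝ) ^ (-c₂) * (lP P d : ℝ) ^ (-c₂)) =
        ∑ q ∈ D.image (fun d => (sP P d, (fP d, lP P d))),
          (1 / (q.1 : ℝ)) * ((q.2.1 : ℝ) ^ (-c₂) * (q.2.2 : ℝ) ^ (-c₂)) := by
        rw [Finset.sum_image hinj]
    _ ≤ ∑ q ∈ A ×ˢ (F ×ˢ G),
          (1 / (q.1 : ℝ)) * ((q.2.1 : ℝ) ^ (-c₂) * (q.2.2 : ℝ) ^ (-c₂)) := by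
        refine Finset.sum_le_sum_of_subset_of_nonneg ?_ fun q _ _ => by positivity
        intro q hq
        rw [Finset.mem_image] at hq
        obtain ⟨d, hd, rfl⟩ := hq
        exact Finset.mem_product.2 ⟨Finset.mem_image_of_mem _ hd,
          Finset.mem_product.2 ⟨Finset.mem_image_of_mem _ hd, Finset.mem_image_of_mem _ hd⟩⟩
    _ = (∑ s ∈ A, 1 / (s : ℝ)) * ((∑ f ∈ F, (f : ℝ) ^ (-c₂)) * ∑ g ∈ G, (g : ℝ) ^ (-c₂)) := by
        rw [Finset.sum_product, Finset.sum_mul_sum (s := F), Finset.sum_mul]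
        refine Finset.sum_congr rfl fun s _ => ?_
        rw [Finset.sum_product, Finset.mul_sum]
        refine Finset.sum_congr rfl fun f _ => ?_
        rw [Finset.mul_sum]
    _ ≤ (1 + Real.log X) * (C₀ * Real.exp (4 * E)) := by
        have h0 : 0 ≤ Real.log X := Real.log_nonneg hX
        have h5 : 0 ≤ ∑ g ∈ G, (g : ℝ) ^ (-c₂) := Finset.sum_nonneg fun _ _ => by positivity
        have h6 : 0 ≤ ∑ f ∈ F, (f : ℝ) ^ (-c₂) := Finset.sum_nonneg fun _ _ => by positivity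
        refine mul_le_mul hA1 (mul_le_mul hF1 hG1 h5 hC₀) (mul_nonneg h6 h5) (by linarith)

end Fewaux

open Fewaux

/-- **Few.** Every base `a`, `1 < |a| ≤ x`: the pseudoprimes with few prime factors. -/
theorem few (hP : StmtPrimeSum) (h4 : StmtRankin) {c δ : ℝ} (hδ : 0 < δ)
    (hδc : δ < (c - 1) / 2) : ∃ x₀ : ℝ, ∀ x : ℝ, x₀ ≤ x → ∀ a : ℤ, 2 ≤ |a| →
    ((|a| : ℤ) : ℝ) ≤ x →
    (({n : ℕ | n ∈ psp a x ∧ (n.primeFactors.card : ℝ) ≤
        Real.log x / Real.log (Real.log x) ^ c}.ncard : ℕ) : ℝ) ≤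
      x ^ (1 - ((c - 1) / 2 - δ) * ep x) := by
  classical
  set s : ℝ := δ / 4 with hs
  have hs0 : 0 < s := by rw [hs]; positivity
  set κ : ℝ := (c - 1) / 2 with hκ
  set τ : ℝ := κ - 2 * s with hτ
  set ν : ℝ := κ - δ with hν
  have hκ0 : 0 < κ := hδ.trans hδc
  have hτ0 : 0 < τ := by rw [hτ, hs]; linarith
  have hντ : ν + 2 * s = τ := by rw [hτ, hν, hs]; ring
  have hτκ : τ < κ := by rw [hτ]; linarith
  obtain ⟨C₀, hC₀, hsq⟩ := squarefull_sum
  obtain ⟨x₂, hx₂⟩ := pomBig hP h4 (τ := τ) (β := κ - s) (c := c - s) hτ0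
    (by rw [hτ]; linarith) (by rw [hκ]; linarith)
  have e1 : ∀ᶠ x : ℝ in atTop, ep x < min (1 / (8 * (κ + 1))) (s / (8 * κ * (κ + 1))) :=
    tendsto_ep_zero.eventually (gt_mem_nhds (by
      rw [lt_min_iff]; exact ⟨by positivity, by positivity⟩))
  have e2 := ep_mul_ge
  have e3 : ∀ᶠ x : ℝ in atTop, Real.log (1 + 1 * Real.log x) ≤
      s / 4 * Real.log x ^ (3 / 4 : ℝ) :=
    Real.tendsto_log_atTop.eventually (log_le_eventually (by positivity) one_pos one_pos)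
  have e4 : ∀ᶠ x : ℝ in atTop,
      Real.log (6 + 4 * Real.log x) ≤ δ * Real.log x ^ (3 / 4 : ℝ) :=
    Real.tendsto_log_atTop.eventually (log_le_eventually hδ (by norm_num) (by norm_num))
  have e5 : ∀ᶠ x : ℝ in atTop,
      Real.log (2 * (C₀ * Real.exp 4)) ≤ s / 2 * Real.log x ^ (3 / 4 : ℝ) :=
    Real.tendsto_log_atTop.eventually
      (((tendsto_rpow_atTop (show (0 : ℝ) < 3 / 4 by norm_num)).const_mul_atTop
      (show (0 : ℝ) < s / 2 by positivity)).eventually_ge_atTop _)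
  have e6 : ∀ᶠ x : ℝ in atTop, 1 ≤ Real.log x := Real.tendsto_log_atTop.eventually_ge_atTop 1
  have e8 : ∀ᶠ x : ℝ in atTop, 1 ≤ κ * Real.log x ^ (3 / 4 : ℝ) :=
    Real.tendsto_log_atTop.eventually
      (((tendsto_rpow_atTop (show (0 : ℝ) < 3 / 4 by norm_num)).const_mul_atTop
      hκ0).eventually_ge_atTop _)
  have hl2 : Tendsto (fun x : ℝ => Real.log (Real.log x)) atTop atTop :=
    Real.tendsto_log_atTop.comp Real.tendsto_log_atTop
  have e9 : ∀ᶠ x : ℝ in atTop, 1 < Real.log (Real.log x) := hl2.eventually_gt_atTop 1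
  have e10 : ∀ᶠ x : ℝ in atTop, 2 * τ / s ≤ Real.log (Real.log x) ^ s :=
    hl2.eventually ((tendsto_rpow_atTop hs0).eventually_ge_atTop _)
  obtain ⟨x₀, hx₀⟩ := eventually_atTop.1 (e1.and (e2.and (e3.and (e4.and (e5.and (e6.and
    ((eventually_ge_atTop 1).and (e8.and (e9.and e10)))))))))
  refine ⟨max x₂ x₀, fun x hx a ha hax => ?_⟩
  have hxx₂ : x₂ ≤ x := (le_max_left _ _).trans hx
  have hxx₀ : x₀ ≤ x := (le_max_right _ _).trans hx
  obtain ⟨f1, f2, f3, f4, f5, f6, f7, f8, f9, f10⟩ := hx₀ x hxx₀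
  have hTS := hx₂ x hxx₂ a
  set y : ℝ := Real.log x with hy
  set t : ℝ := Real.log y with ht
  set e : ℝ := ep x with he
  have hx0 : 0 < x := by linarith
  have hy0 : 0 < y := by linarith
  have ht0 : 0 < t := by linarith
  have hxy : x = Real.exp y := (Real.exp_log hx0).symm
  have hy34 : 0 < y ^ (3 / 4 : ℝ) := by positivity
  have he0 : 0 < e := by
    by_contra hcon
    push Not at hcon
    nlinarith
  have he1 : e < 1 / (8 * (κ + 1)) := f1.trans_le (min_le_left _ _)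
  have he2 : e < s / (8 * κ * (κ + 1)) := f1.trans_le (min_le_right _ _)
  have hκe : (κ + 1) * e ≤ 1 / 8 := by
    have h1 : (κ + 1) * e ≤ (κ + 1) * (1 / (8 * (κ + 1))) := by gcongr
    have h2 : (κ + 1) * (1 / (8 * (κ + 1))) = 1 / 8 := by field_simp
    linarith
  have hey : 0 < e * y := by positivity
  set η : ℝ := τ * e with hη
  have hη0 : 0 < η := by positivity
  have hη8 : η ≤ 1 / 8 := by
    rw [hη]; nlinarith
  set L : ℝ := Real.exp (κ * (e * y)) with hL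
  have hL1 : 1 ≤ L := Real.one_le_exp (by positivity)
  have hL0 : 0 < L := by linarith
  have hlogL : 1 ≤ Real.log L := by
    rw [hL, Real.log_exp]
    calc 1 ≤ κ * y ^ (3 / 4 : ℝ) := f8
      _ ≤ κ * (e * y) := by gcongr
  have hLx : L ≤ x := by
    rw [hxy, hL]
    refine Real.exp_le_exp.2 ?_
    have h1 : κ * (e * y) = (κ * e) * y := by ring
    have h2 : κ * e ≤ 1 := by nlinarith
    rw [h1]
    calc κ * e * y ≤ 1 * y := by gcongr
      _ = y := one_mul y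
  set P₁ : ℝ := Real.exp (t ^ (c - s)) with hP₁
  have hP₁1 : 1 ≤ P₁ := Real.one_le_exp (by positivity)
  set Z : ℝ := Real.exp (y * t ^ (-s)) with hZ
  have hZ0 : 0 < Z := Real.exp_pos _
  set Pr : ℕ → Prop := fun n => (n.primeFactors.card : ℝ) ≤ y / t ^ c with hPr
  have hPr1 : ∀ n d : ℕ, 0 < n → d ∣ n → Pr n → Pr d := by
    intro n d hn hd h
    rw [hPr] at h ⊢
    simp only at h ⊢
    refine le_trans ?_ h
    exact_mod_cast Finset.card_le_card (Nat.primeFactors_mono hd hn.ne')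
  have hsPZ : ∀ d : ℕ, Pr d → (sP P₁ d : ℝ) ≤ Z := by
    intro d hd
    refine (sP_le hP₁1 d).trans ?_
    rw [hP₁, hZ, ← Real.exp_nat_mul]
    refine Real.exp_le_exp.2 ?_
    have h1 : (d.primeFactors.card : ℝ) * t ^ (c - s) ≤ y / t ^ c * t ^ (c - s) := by
      have := hd
      rw [hPr] at this
      gcongr
    refine h1.trans_eq ?_
    rw [div_mul_eq_mul_div, mul_div_assoc, ← Real.rpow_sub ht0]
    congr 2
    ring
  have hN3 := n3L (L := L) ha hax hlogL hL1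
  have hcount := countP a Pr hPr1 x L 3 hL1 hLx (by norm_num)
  -- the inner sums
  set R : ℝ := (x / L ^ (4 : ℝ) / Z) ^ (-η) * ((1 + y) * (C₀ * Real.exp 4)) with hR
  have hLB : 0 < L ^ (4 : ℝ) := by positivity
  have hbase : 0 < x / L ^ (4 : ℝ) / Z := by positivity
  have h31 : (3 : ℝ) + 1 = 4 := by norm_num
  rw [h31] at hcount
  have hinner : ∀ m ∈ Finset.Icc 1 ⌊x⌋₊,
      ∑ d ∈ (Finset.Icc 1 ⌊x⌋₊).filter (fun d : ℕ => x / L ^ (4 : ℝ) < (d : ℝ) ∧ od a d = m ∧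
        Pr d), 1 / (d : ℝ) ≤ R := by
    intro m hm
    rw [Finset.mem_Icc] at hm
    have hmx : (m : ℝ) ≤ x := (Nat.le_floor_iff hx0.le).1 hm.2
    set D := (Finset.Icc 1 ⌊x⌋₊).filter
      (fun d : ℕ => x / L ^ (4 : ℝ) < (d : ℝ) ∧ od a d = m ∧ Pr d) with hD
    have hD1 : ∀ d ∈ D, d ≠ 0 ∧ (d : ℝ) ≤ x ∧ ∀ p ∈ d.primeFactors, 0 < od a p ∧ od a p ∣ m := by
      intro d hd
      rw [hD, Finset.mem_filter, Finset.mem_Icc] at hd
      refine ⟨by omega, (Nat.le_floor_iff hx0.le).1 hd.1.2, fun p hp => ?_⟩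
      rw [Nat.mem_primeFactors] at hp
      have hdvd := od_dvd_of_dvd (a := a) hp.2.1
      rw [hd.2.2.1] at hdvd
      exact ⟨Nat.pos_of_dvd_of_pos hdvd hm.1, hdvd⟩
    have hrank := three_rankin h4 (P := P₁) (c₂ := 1 - η) (E := 1) (C₀ := C₀) (X := x)
      (by linarith) f7 hC₀.le hD1
      (fun S hS => hTS m ha hax hm.1 hmx S hS)
      (fun F hF => hsq η hη8 F hF)
    rw [mul_one, ← hy] at hrank
    have h1 : ∑ d ∈ D, 1 / (d : ℝ) ≤
        ∑ d ∈ D, (x / L ^ (4 : ℝ) / Z) ^ (-η) *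
          ((1 / (sP P₁ d : ℝ)) * ((fP d : ℝ) ^ (-(1 - η)) * (lP P₁ d : ℝ) ^ (-(1 - η)))) := by
      refine Finset.sum_le_sum fun d hd => ?_
      have hd' := hd
      rw [hD, Finset.mem_filter, Finset.mem_Icc] at hd'
      have hs0 : (0 : ℝ) < sP P₁ d := by exact_mod_cast sP_pos P₁ d
      have hf0 : (0 : ℝ) < fP d := by exact_mod_cast fP_pos d
      have hl0 : (0 : ℝ) < lP P₁ d := by exact_mod_cast lP_pos P₁ d
      have hfsl : (fP d : ℝ) * ((sP P₁ d : ℝ) * lP P₁ d) = d := by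
        exact_mod_cast parts_mul P₁ (hD1 d hd).1
      have hfl : x / L ^ (4 : ℝ) / Z ≤ (fP d : ℝ) * lP P₁ d := by
        rw [div_le_iff₀ hZ0]
        calc x / L ^ (4 : ℝ) ≤ d := hd'.2.1.le
          _ = (fP d : ℝ) * lP P₁ d * sP P₁ d := by rw [← hfsl]; ring
          _ ≤ (fP d : ℝ) * lP P₁ d * Z := by
              gcongr
              exact hsPZ d hd'.2.2.2
      have h3 : ((fP d : ℝ) * lP P₁ d) ^ (-η) ≤ (x / L ^ (4 : ℝ) / Z) ^ (-η) :=
        Real.rpow_le_rpow_of_nonpos hbase hfl (by linarith)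
      have h6 : 1 / (d : ℝ) = ((fP d : ℝ) * lP P₁ d) ^ (-η) *
          ((1 / (sP P₁ d : ℝ)) * ((fP d : ℝ) ^ (-(1 - η)) * (lP P₁ d : ℝ) ^ (-(1 - η)))) := by
        rw [Real.mul_rpow hf0.le hl0.le]
        have i1 : (fP d : ℝ) ^ (-η) * (fP d : ℝ) ^ (-(1 - η)) = 1 / (fP d : ℝ) := by
          rw [← Real.rpow_add hf0, show -η + -(1 - η) = -1 by ring, Real.rpow_neg_one, one_div]
        have i2 : (lP P₁ d : ℝ) ^ (-η) * (lP P₁ d : ℝ) ^ (-(1 - η)) = 1 / (lP P₁ d : ℝ) := by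
          rw [← Real.rpow_add hl0, show -η + -(1 - η) = -1 by ring, Real.rpow_neg_one, one_div]
        calc 1 / (d : ℝ) = (1 / (sP P₁ d : ℝ)) * ((1 / (fP d : ℝ)) * (1 / (lP P₁ d : ℝ))) := by
              rw [← hfsl]; field_simp
          _ = _ := by rw [← i1, ← i2]; ring
      rw [h6]
      gcongr
    refine h1.trans ?_
    rw [← Finset.mul_sum, hR]
    exact mul_le_mul_of_nonneg_left hrank (by positivity)
  have hR0 : 0 < R := by positivity
  have hsum : ∑ m ∈ Finset.Icc 1 ⌊x⌋₊, 1 / (m : ℝ) *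
      ∑ d ∈ (Finset.Icc 1 ⌊x⌋₊).filter (fun d : ℕ => x / L ^ (4 : ℝ) < (d : ℝ) ∧ od a d = m ∧
        Pr d), 1 / (d : ℝ) ≤ (1 + y) * R := by
    calc _ ≤ ∑ m ∈ Finset.Icc 1 ⌊x⌋₊, 1 / (m : ℝ) * R := by
          refine Finset.sum_le_sum fun m hm => ?_
          exact mul_le_mul_of_nonneg_left (hinner m hm) (by positivity)
      _ = (∑ m ∈ Finset.Icc 1 ⌊x⌋₊, 1 / (m : ℝ)) * R := by rw [Finset.sum_mul]
      _ ≤ _ := mul_le_mul_of_nonneg_right (sum_inv_le f7) hR0.le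
  -- numerical part
  have hbe : x / L ^ (4 : ℝ) / Z = Real.exp (y - 4 * (κ * (e * y)) - y * t ^ (-s)) := by
    rw [hxy, hL, ← Real.exp_mul, hZ, ← Real.exp_sub, ← Real.exp_sub]
    congr 1
    ring
  have htarget : x ^ (1 - ν * e) = x * Real.exp (-(ν * (e * y))) := by
    rw [Real.rpow_sub hx0, Real.rpow_one, Real.exp_neg, hxy, ← Real.exp_mul]
    rw [div_eq_mul_inv]
    congr 3; ring
  have g1 : (3 + 2 * y) / L ≤ 1 / 2 * Real.exp (-(ν * (e * y))) := by
    have h1 : 6 + 4 * y ≤ Real.exp (δ * (e * y)) := by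
      have h2 : Real.log (6 + 4 * y) ≤ δ * (e * y) := by
        refine f4.trans ?_
        gcongr
      have h3 := Real.exp_le_exp.2 h2
      rwa [Real.exp_log (by positivity)] at h3
    rw [div_le_iff₀ hL0]
    have h2 : 1 / 2 * Real.exp (-(ν * (e * y))) * L = 1 / 2 * Real.exp (δ * (e * y)) := by
      rw [hL, mul_assoc, ← Real.exp_add]
      congr 2
      rw [hν]; ring
    rw [h2]
    linarith
  have g2 : (1 + y) * R ≤ 1 / 2 * Real.exp (-(ν * (e * y))) := by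
    have h1 : (1 + y) * (1 + y) * (2 * (C₀ * Real.exp 4)) ≤
        Real.exp (s * y ^ (3 / 4 : ℝ)) := by
      have i1 : 1 + y ≤ Real.exp (s / 4 * y ^ (3 / 4 : ℝ)) := by
        have h3 := Real.exp_le_exp.2 f3
        rw [one_mul, Real.exp_log (by positivity)] at h3
        exact h3
      have i2 : 2 * (C₀ * Real.exp 4) ≤ Real.exp (s / 2 * y ^ (3 / 4 : ℝ)) := by
        have h3 := Real.exp_le_exp.2 f5
        rwa [Real.exp_log (by positivity)] at h3
      calc (1 + y) * (1 + y) * (2 * (C₀ * Real.exp 4)) ≤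
            Real.exp (s / 4 * y ^ (3 / 4 : ℝ)) * Real.exp (s / 4 * y ^ (3 / 4 : ℝ)) *
              Real.exp (s / 2 * y ^ (3 / 4 : ℝ)) := by gcongr
        _ = _ := by
            rw [← Real.exp_add, ← Real.exp_add]; congr 1; ring
    have h2 : (x / L ^ (4 : ℝ) / Z) ^ (-η) ≤ Real.exp (-((ν + s) * (e * y))) := by
      rw [hbe, ← Real.exp_mul]
      refine Real.exp_le_exp.2 ?_
      have i1 : (y - 4 * (κ * (e * y)) - y * t ^ (-s)) * -η =
          -(τ * (e * y)) + (4 * κ * τ * e + τ * t ^ (-s)) * (e * y) := by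
        rw [hη]; ring
      have i2 : 4 * κ * τ * e ≤ s / 2 := by
        have j1 : 4 * κ * τ * e ≤ 4 * κ * (κ + 1) * (s / (8 * κ * (κ + 1))) := by
          gcongr
          linarith
        have j2 : 4 * κ * (κ + 1) * (s / (8 * κ * (κ + 1))) = s / 2 := by field_simp; ring
        linarith
      have i3 : τ * t ^ (-s) ≤ s / 2 := by
        rw [Real.rpow_neg ht0.le, ← div_eq_mul_inv, div_le_iff₀ (by positivity)]
        rw [div_le_iff₀ hs0] at f10
        nlinarith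
      have i4 : (4 * κ * τ * e + τ * t ^ (-s)) * (e * y) ≤ s * (e * y) := by
        gcongr
        linarith
      rw [i1]
      have i5 : (ν + s) * (e * y) = τ * (e * y) - s * (e * y) := by
        rw [← hντ]; ring
      linarith
    calc (1 + y) * R = 1 / 2 * ((1 + y) * (1 + y) * (2 * (C₀ * Real.exp 4)) *
          (x / L ^ (4 : ℝ) / Z) ^ (-η)) := by rw [hR]; ring
      _ ≤ 1 / 2 * (Real.exp (s * y ^ (3 / 4 : ℝ)) * Real.exp (-((ν + s) * (e * y)))) := by
          gcongr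
      _ = 1 / 2 * Real.exp (s * y ^ (3 / 4 : ℝ) - (ν + s) * (e * y)) := by
          rw [← Real.exp_add]; congr 2
      _ ≤ 1 / 2 * Real.exp (-(ν * (e * y))) := by
          gcongr
          have : s * y ^ (3 / 4 : ℝ) ≤ s * (e * y) := by gcongr
          linarith
  rw [htarget]
  have hfin : (({n : ℕ | n ∈ psp a x ∧ Pr n}.ncard : ℕ) : ℝ) ≤
      x * ((3 + 2 * y) / L + (1 + y) * R) := by
    have j1 := mul_le_mul_of_nonneg_left hN3 hx0.le
    have j2 := mul_le_mul_of_nonneg_left hsum hx0.le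
    have j3 : x * ((3 + 2 * y) / L + (1 + y) * R) = 2 * (x / L) + x / L * (1 + y) +
        x * (y / L) + x * ((1 + y) * R) := by ring
    rw [j3]
    linarith
  refine hfin.trans (mul_le_mul_of_nonneg_left ?_ hx0.le)
  linarith

end Pool.Agent.Lib.MP_a260de_nt
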