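import Pool.Agent.Lib.MP_a260de_nt.Final
import Pool.Agent.Lib.MP_a260de_nt.CountQ

/-!
# MP_a260de_nt: pseudoprimes composed of primes modulo which the base has a large order
-/

set_option autoImplicit false

namespace Pool.Agent.Lib.MP_a260de_nt

open Filter Topology

open Finalaux

open Classical in
/-- **FinalQ.** The bound for the pseudoprimes all of whose prime factors have the property `Q`. -/
theorem finalQ (h4 : StmtRankin) (τ' τ B : ℝ) (hτ' : 0 < τ') (hττ : τ' < τ) (hτ1 : τ < 1)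
    (hB : 1 ≤ B) : ∃ x₀ : ℝ, ∀ x : ℝ, x₀ ≤ x → ∀ (a : ℤ) (Q : ℕ → Prop),
    (∑ p ∈ (Finset.Icc 1 ⌊x⌋₊).filter (fun p : ℕ => p.Prime ∧ 0 < od a p ∧
        (od a p : ℝ) ≤ Real.exp (Real.log x * ep x) ∧
        Real.exp (Real.log x * ep x) ^ B < (p : ℝ) ∧ Q p), 1 / (p : ℝ) ≤
      Real.log x / Real.exp (Real.log x * ep x)) →
    (∀ m : ℕ, 1 ≤ m → (m : ℝ) ≤ x → ∀ S : Finset ℕ,
      (∀ p ∈ S, p.Prime ∧ 0 < od a p ∧ od a p ∣ m ∧ Q p) →
      ∑ p ∈ S, (p : ℝ) ^ (-(1 - τ * ep x)) ≤ Real.log x ^ (1 / 2 : ℝ)) →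
    (({n : ℕ | n ∈ psp a x ∧ ∀ p : ℕ, p.Prime → p ∣ n → Q p}.ncard : ℕ) : ℝ) ≤
      x ^ (1 - τ' * ep x) := by
  set κ : ℝ := (τ - τ') / 4 with hκ
  have hκ0 : 0 < κ := by rw [hκ]; linarith
  have hτ0 : 0 < τ := hτ'.trans hττ
  have e1 : ∀ᶠ x : ℝ in atTop, ep x < min (1 / 2) (κ / ((B + 1) * τ)) :=
    tendsto_ep_zero.eventually (gt_mem_nhds (by
      rw [lt_min_iff]; exact ⟨by norm_num, by positivity⟩))
  have e2 := ep_mul_ge
  have e3 : ∀ᶠ x : ℝ in atTop, Real.log (2 + 2 * Real.log x) ≤ κ * Real.log x ^ (3 / 4 : ℝ) :=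
    Real.tendsto_log_atTop.eventually (log_le_eventually hκ0 two_pos two_pos)
  have e4 : ∀ᶠ x : ℝ in atTop,
      Real.log (6 + 4 * Real.log x) ≤ (1 - τ') * Real.log x ^ (3 / 4 : ℝ) :=
    Real.tendsto_log_atTop.eventually (log_le_eventually (by linarith) (by norm_num)
      (by norm_num))
  have e5 : ∀ᶠ x : ℝ in atTop,
      4 * Real.log x ^ (1 / 2 : ℝ) ≤ κ * Real.log x ^ (3 / 4 : ℝ) :=
    Real.tendsto_log_atTop.eventually (half_le_eventually hκ0)
  have e6 : ∀ᶠ x : ℝ in atTop, 1 ≤ Real.log x := Real.tendsto_log_atTop.eventually_ge_atTop 1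
  obtain ⟨x₀, hx₀⟩ := eventually_atTop.1 (e1.and (e2.and (e3.and (e4.and (e5.and (e6.and
    (eventually_ge_atTop 1)))))))
  refine ⟨x₀, fun x hx a Q hN3 hT => ?_⟩
  obtain ⟨f1, f2, f3, f4, f5, f6, f7⟩ := hx₀ x hx
  set y : ℝ := Real.log x with hy
  set e : ℝ := ep x with he
  have hx0 : 0 < x := by linarith
  have hy0 : 0 < y := by linarith
  have hxy : x = Real.exp y := (Real.exp_log hx0).symm
  have hy34 : 0 < y ^ (3 / 4 : ℝ) := by positivity
  have he0 : 0 < e := by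
    by_contra hcon
    push Not at hcon
    nlinarith
  have he12 : e < 1 / 2 := f1.trans_le (min_le_left _ _)
  have heB : (B + 1) * τ * e ≤ κ := by
    have := f1.trans_le (min_le_right _ _)
    rw [lt_div_iff₀ (by positivity)] at this
    linarith
  set η : ℝ := τ * e with hη
  have hη0 : 0 < η := by positivity
  have hη12 : η ≤ 1 / 2 := by nlinarith
  set L : ℝ := Real.exp (y * e) with hL
  have hL1 : 1 ≤ L := Real.one_le_exp (by positivity)
  have hL0 : 0 < L := by linarith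
  have hLx : L ≤ x := by
    rw [hxy, hL]; exact Real.exp_le_exp.2 (by nlinarith)
  have hcount := countQ a Q x L B hL1 hLx hB
  -- the inner sums
  set R : ℝ := (x / L ^ (B + 1)) ^ (-η) * Real.exp (4 * y ^ (1 / 2 : ℝ)) with hR
  have hLB : 0 < L ^ (B + 1) := by positivity
  have hbase : 0 < x / L ^ (B + 1) := by positivity
  have hinner : ∀ m ∈ Finset.Icc 1 ⌊x⌋₊,
      ∑ d ∈ (Finset.Icc 1 ⌊x⌋₊).filter (fun d : ℕ => x / L ^ (B + 1) < (d : ℝ) ∧ od a d = m ∧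
        ∀ p : ℕ, p.Prime → p ∣ d → Q p), 1 / (d : ℝ) ≤ R := by
    intro m hm
    rw [Finset.mem_Icc] at hm
    have hmx : (m : ℝ) ≤ x := (Nat.le_floor_iff hx0.le).1 hm.2
    set D := (Finset.Icc 1 ⌊x⌋₊).filter
      (fun d : ℕ => x / L ^ (B + 1) < (d : ℝ) ∧ od a d = m ∧
        ∀ p : ℕ, p.Prime → p ∣ d → Q p) with hD
    set S := (Finset.Icc 1 ⌊x⌋₊).filter
      (fun p : ℕ => p.Prime ∧ 0 < od a p ∧ od a p ∣ m ∧ Q p) with hS
    have hS1 : ∀ p ∈ S, p.Prime ∧ 0 < od a p ∧ od a p ∣ m ∧ Q p := fun p hp =>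
      (Finset.mem_filter.1 hp).2
    have hD1 : ∀ d ∈ D, d ≠ 0 ∧ d.primeFactors ⊆ S := by
      intro d hd
      rw [hD, Finset.mem_filter, Finset.mem_Icc] at hd
      refine ⟨by omega, fun p hp => ?_⟩
      rw [Nat.mem_primeFactors] at hp
      have hdvd := od_dvd_of_dvd (a := a) hp.2.1
      rw [hd.2.2.1] at hdvd
      rw [hS, Finset.mem_filter, Finset.mem_Icc]
      refine ⟨⟨hp.1.one_le, (Nat.le_of_dvd (by omega) hp.2.1).trans hd.1.2⟩, hp.1, ?_, hdvd,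
        hd.2.2.2 p hp.1 hp.2.1⟩
      exact Nat.pos_of_dvd_of_pos hdvd hm.1
    have hrank := h4 (1 - η) (by linarith) S D (fun p hp => (hS1 p hp).1) hD1
    have hTm := hT m hm.1 hmx S hS1
    have h1 : ∑ d ∈ D, 1 / (d : ℝ) ≤
        ∑ d ∈ D, (x / L ^ (B + 1)) ^ (-η) * (d : ℝ) ^ (-(1 - η)) := by
      refine Finset.sum_le_sum fun d hd => ?_
      rw [hD, Finset.mem_filter, Finset.mem_Icc] at hd
      have hd0 : (0 : ℝ) < d := by exact_mod_cast hd.1.1
      have h2 : 1 / (d : ℝ) = (d : ℝ) ^ (-η) * (d : ℝ) ^ (-(1 - η)) := by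
        rw [← Real.rpow_add hd0]
        have : -η + -(1 - η) = -1 := by ring
        rw [this, Real.rpow_neg_one, one_div]
      rw [h2]
      refine mul_le_mul_of_nonneg_right ?_ (by positivity)
      exact Real.rpow_le_rpow_of_nonpos hbase hd.2.1.le (by linarith)
    refine h1.trans ?_
    rw [← Finset.mul_sum, hR]
    refine mul_le_mul_of_nonneg_left (hrank.trans ?_) (by positivity)
    exact Real.exp_le_exp.2 (by linarith)
  have hR0 : 0 < R := by positivity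
  have hsum : ∑ m ∈ Finset.Icc 1 ⌊x⌋₊, 1 / (m : ℝ) *
      ∑ d ∈ (Finset.Icc 1 ⌊x⌋₊).filter (fun d : ℕ => x / L ^ (B + 1) < (d : ℝ) ∧ od a d = m ∧
        ∀ p : ℕ, p.Prime → p ∣ d → Q p), 1 / (d : ℝ) ≤ (1 + y) * R := by
    calc _ ≤ ∑ m ∈ Finset.Icc 1 ⌊x⌋₊, 1 / (m : ℝ) * R := by
          refine Finset.sum_le_sum fun m hm => ?_
          exact mul_le_mul_of_nonneg_left (hinner m hm) (by positivity)
      _ = (∑ m ∈ Finset.Icc 1 ⌊x⌋₊, 1 / (m : ℝ)) * R := by rw [Finset.sum_mul]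
      _ ≤ _ := mul_le_mul_of_nonneg_right (sum_inv_le f7) hR0.le
  -- numerical part
  have hRe : R = Real.exp (-η * (y - (B + 1) * (y * e)) + 4 * y ^ (1 / 2 : ℝ)) := by
    rw [hR, Real.exp_add]
    congr 1
    have h1 : x / L ^ (B + 1) = Real.exp (y - (B + 1) * (y * e)) := by
      rw [hxy, hL, ← Real.exp_mul, ← Real.exp_sub]
      congr 1; ring
    rw [h1, ← Real.exp_mul]
    congr 1; ring
  have htarget : x ^ (1 - τ' * e) = x * Real.exp (-(τ' * (e * y))) := by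
    rw [Real.rpow_sub hx0, Real.rpow_one, Real.exp_neg, hxy, ← Real.exp_mul]
    rw [div_eq_mul_inv]
    congr 3; ring
  have g1 : (3 + 2 * y) / L ≤ 1 / 2 * Real.exp (-(τ' * (e * y))) := by
    have h1 : 6 + 4 * y ≤ Real.exp ((1 - τ') * (e * y)) := by
      have h2 : Real.log (6 + 4 * y) ≤ (1 - τ') * (e * y) :=
        f4.trans (mul_le_mul_of_nonneg_left f2 (by linarith))
      have h3 := Real.exp_le_exp.2 h2
      rwa [Real.exp_log (by positivity)] at h3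
    rw [div_le_iff₀ hL0]
    have h2 : 1 / 2 * Real.exp (-(τ' * (e * y))) * L =
        1 / 2 * Real.exp ((1 - τ') * (e * y)) := by
      rw [hL, mul_assoc, ← Real.exp_add]
      congr 2; ring
    rw [h2]
    linarith
  have g2 : (1 + y) * R ≤ 1 / 2 * Real.exp (-(τ' * (e * y))) := by
    have h1 : 2 + 2 * y ≤ Real.exp (κ * y ^ (3 / 4 : ℝ)) := by
      have h3 := Real.exp_le_exp.2 f3
      rwa [Real.exp_log (by positivity)] at h3
    have hey : 0 < e * y := by positivity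
    have h2 : -η * (y - (B + 1) * (y * e)) + 4 * y ^ (1 / 2 : ℝ) ≤
        -(τ' * (e * y)) - κ * y ^ (3 / 4 : ℝ) := by
      have i1 : (B + 1) * τ * e * (e * y) ≤ κ * (e * y) :=
        mul_le_mul_of_nonneg_right heB hey.le
      have i2 : κ * y ^ (3 / 4 : ℝ) ≤ κ * (e * y) := mul_le_mul_of_nonneg_left f2 hκ0.le
      have i3 : τ * (e * y) = τ' * (e * y) + 4 * κ * (e * y) := by rw [hκ]; ring
      have i4 : -η * (y - (B + 1) * (y * e)) = -(τ * (e * y)) + (B + 1) * τ * e * (e * y) := by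
        rw [hη]; ring
      have i5 : 0 ≤ κ * (e * y) := by positivity
      rw [i4]
      linarith
    have h3 : R ≤ Real.exp (-(τ' * (e * y)) - κ * y ^ (3 / 4 : ℝ)) := by
      rw [hRe]; exact Real.exp_le_exp.2 h2
    calc (1 + y) * R ≤ (1 / 2 * Real.exp (κ * y ^ (3 / 4 : ℝ))) *
          Real.exp (-(τ' * (e * y)) - κ * y ^ (3 / 4 : ℝ)) := by
          apply mul_le_mul _ h3 hR0.le (by positivity)
          linarith
      _ = 1 / 2 * Real.exp (-(τ' * (e * y))) := by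
          rw [mul_assoc, ← Real.exp_add]; congr 2; ring
  rw [htarget]
  have hfin : (({n : ℕ | n ∈ psp a x ∧ ∀ p : ℕ, p.Prime → p ∣ n → Q p}.ncard : ℕ) : ℝ) ≤
      x * ((3 + 2 * y) / L + (1 + y) * R) := by
    have j1 := mul_le_mul_of_nonneg_left hN3 hx0.le
    have j2 := mul_le_mul_of_nonneg_left hsum hx0.le
    have j3 : x * ((3 + 2 * y) / L + (1 + y) * R) = 2 * (x / L) + x / L * (1 + y) +
        x * (y / L) + x * ((1 + y) * R) := by ring
    rw [j3]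
    linarith
  refine hfin.trans (mul_le_mul_of_nonneg_left ?_ hx0.le)
  linarith

/-- Every base, uniformly: the pseudoprimes all of whose prime factors `p` have order larger than
`p ^ θ` satisfy the bound with every constant below `θ`. -/
theorem large_orders (h2 : StmtT2) (h4 : StmtRankin) {θ τ' : ℝ} (hτ' : 0 < τ') (hτθ : τ' < θ)
    (hθ : θ < 1) : ∃ x₀ : ℝ, ∀ x : ℝ, x₀ ≤ x → ∀ a : ℤ,
    (({n : ℕ | n ∈ psp a x ∧ ∀ p : ℕ, p.Prime → p ∣ n → (p : ℝ) ^ θ < od a p}.ncard : ℕ) : ℝ) ≤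
      x ^ (1 - τ' * ep x) := by
  classical
  have hθ0 : 0 < θ := hτ'.trans hτθ
  set τ : ℝ := (τ' + θ) / 2 with hτ
  have hB : 1 ≤ 1 / θ := by rw [le_div_iff₀ hθ0]; linarith
  obtain ⟨x₂, hx₂⟩ := h2 τ θ (by linarith) (by linarith) hθ
  obtain ⟨x₄, hx₄⟩ := finalQ h4 τ' τ (1 / θ) hτ' (by linarith) (by linarith) hB
  obtain ⟨x₅, hx₅⟩ := eventually_atTop.1 (Real.tendsto_log_atTop.eventually_ge_atTop 1)
  refine ⟨max x₂ (max x₄ x₅), fun x hx a => ?_⟩
  have hxx₂ : x₂ ≤ x := (le_max_left _ _).trans hx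
  have hxx₄ : x₄ ≤ x := (le_max_left _ _).trans ((le_max_right _ _).trans hx)
  have hxx₅ : x₅ ≤ x := (le_max_right _ _).trans ((le_max_right _ _).trans hx)
  have f5 := hx₅ x hxx₅
  have key := hx₄ x hxx₄ a (fun p => (p : ℝ) ^ θ < od a p)
  refine key ?_ ?_
  · have hemp : (Finset.Icc 1 ⌊x⌋₊).filter (fun p : ℕ => p.Prime ∧ 0 < od a p ∧
        (od a p : ℝ) ≤ Real.exp (Real.log x * ep x) ∧
        Real.exp (Real.log x * ep x) ^ (1 / θ) < (p : ℝ) ∧ (p : ℝ) ^ θ < od a p) = ∅ := by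
      refine Finset.filter_eq_empty_iff.2 fun p _ hp => ?_
      obtain ⟨_, _, h3, h4, h5⟩ := hp
      have h6 : (Real.exp (Real.log x * ep x) ^ (1 / θ)) ^ θ < (p : ℝ) ^ θ :=
        Real.rpow_lt_rpow (by positivity) h4 hθ0
      rw [← Real.rpow_mul (Real.exp_pos _).le, one_div_mul_cancel hθ0.ne', Real.rpow_one] at h6
      linarith
    rw [hemp, Finset.sum_empty]
    positivity
  · intro m hm hmx S hS
    refine (hx₂ x hxx₂ a m hm hmx S hS).trans ?_
    exact Real.rpow_le_rpow_of_exponent_le f5 (by norm_num)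

end Pool.Agent.Lib.MP_a260de_nt
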