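import Pool.Agent.Lib.MP_a260de_nt.Spec

/-!
# MP_a260de_nt: at most `d` primes above `|a|` have order `d`
-/

set_option autoImplicit false

namespace Pool.Agent.Lib.MP_a260de_nt

namespace Largeaux

theorem dvd_of_od {a : ℤ} {p d : ℕ} (h : od a p = d) : p ∣ (a ^ d - 1).natAbs := by
  have h1 : (a : ZMod p) ^ d = 1 := by
    rw [← h]
    exact pow_orderOf_eq_one _
  have h2 : ((a ^ d - 1 : ℤ) : ZMod p) = 0 := by
    push_cast
    rw [h1, sub_self]
  exact Int.natCast_dvd.1 ((ZMod.intCast_zmod_eq_zero_iff_dvd _ _).1 h2)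

theorem natAbs_le {a : ℤ} {A d : ℕ} (ha : |a| ≤ A) : (a ^ d - 1).natAbs ≤ A ^ d + 1 := by
  have h1 : a.natAbs ≤ A := by
    rw [Int.abs_eq_natAbs] at ha
    exact_mod_cast ha
  calc (a ^ d - 1).natAbs ≤ (a ^ d).natAbs + (1 : ℤ).natAbs := Int.natAbs_sub_le _ _
    _ = a.natAbs ^ d + 1 := by rw [Int.natAbs_pow]; rfl
    _ ≤ A ^ d + 1 := Nat.add_le_add_right (Nat.pow_le_pow_left h1 d) 1

theorem natAbs_ne {a : ℤ} {d : ℕ} (ha : 2 ≤ |a|) (hd : 1 ≤ d) : (a ^ d - 1).natAbs ≠ 0 := by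
  intro h
  have h1 : a ^ d = 1 := by
    have := Int.natAbs_eq_zero.1 h
    linarith
  have h2 : |a| ^ d = 1 := by rw [← abs_pow, h1, abs_one]
  have h3 : |a| ≤ |a| ^ d := le_self_pow₀ (by linarith) (by omega)
  linarith

end Largeaux

open Largeaux in
theorem large : StmtLarge := by
  intro a A d ha hA hd S hS
  by_contra hcon
  push Not at hcon
  have hA2 : 2 ≤ A := by
    have : (2 : ℤ) ≤ A := ha.trans hA
    exact_mod_cast this
  have h1 : ∏ p ∈ S, p ∣ (a ^ d - 1).natAbs :=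
    Finset.prod_primes_dvd _ (fun p hp => (hS p hp).1.prime) fun p hp => dvd_of_od (hS p hp).2.2
  have h2 : ∏ p ∈ S, p ≤ (a ^ d - 1).natAbs :=
    Nat.le_of_dvd (Nat.pos_of_ne_zero (natAbs_ne ha hd)) h1
  have h3 : (A + 1) ^ S.card ≤ ∏ p ∈ S, p := by
    rw [← Finset.prod_const]
    exact Finset.prod_le_prod' fun p hp => (hS p hp).2.1
  have h4 : (A + 1) ^ (d + 1) ≤ (A + 1) ^ S.card := Nat.pow_le_pow_right (by omega) hcon
  have h5 := natAbs_le (d := d) hA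
  have h6 : A ^ d + 1 < (A + 1) ^ (d + 1) := by
    have h7 : A ^ d ≤ (A + 1) ^ d := Nat.pow_le_pow_left (by omega) d
    have h8 : 1 ≤ (A + 1) ^ d := Nat.one_le_pow _ _ (by omega)
    rw [pow_succ]
    nlinarith
  omega

end Pool.Agent.Lib.MP_a260de_nt
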