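import Pool.Agent.Lib.MP_a260de_nt.SpecM

/-!
# MP_a260de_nt: a large sum gives a large `k`-fold sum
-/

set_option autoImplicit false

namespace Pool.Agent.Lib.MP_a260de_nt

theorem lower : StmtLower := by
  intro w M t k
  induction k with
  | zero =>
    intro B _ _ _ _
    simp [N]
  | succ k ih =>
    intro B ht hM hB hs
    have hstep : ∀ p ∈ B, t ^ k ≤ N w k (B.erase p) := by
      intro p hp
      refine ih (B.erase p) ht hM (fun q hq => hB q (Finset.mem_of_mem_erase hq)) ?_
      have h1 := Finset.add_sum_erase B w hp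
      have h2 := (hB p hp).2
      push_cast at hs
      nlinarith
    have hkM : 0 ≤ ((k + 1 : ℕ) : ℝ) * M := by positivity
    have hst : t ≤ ∑ p ∈ B, w p := by linarith
    calc t ^ (k + 1) = t * t ^ k := by ring
      _ ≤ (∑ p ∈ B, w p) * t ^ k := mul_le_mul_of_nonneg_right hst (pow_nonneg ht k)
      _ = ∑ p ∈ B, w p * t ^ k := Finset.sum_mul _ _ _
      _ ≤ ∑ p ∈ B, w p * N w k (B.erase p) :=
          Finset.sum_le_sum fun p hp => mul_le_mul_of_nonneg_left (hstep p hp) (hB p hp).1
      _ = N w (k + 1) B := by rw [N]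

end Pool.Agent.Lib.MP_a260de_nt
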