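import Pool.Agent.Lib.MP_a260de_nt.Final

/-!
# MP_a260de_nt: assembly
-/

set_option autoImplicit false

namespace Pool.Agent.Lib.MP_a260de_nt

open Filter Topology Finalaux

namespace Mainaux

theorem rpow_le_rpow_log {x : ℝ} (h1 : 1 ≤ Real.log x) {s t : ℝ} (hst : s ≤ t) :
    Real.log x ^ s ≤ Real.log x ^ t := Real.rpow_le_rpow_of_exponent_le h1 hst

/-- `y ^ (1/3) + y ^ (1/4) + 2 ≤ y ^ (1/2)` for large `y`. -/
theorem num1 : ∀ᶠ y : ℝ in atTop,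
    y ^ (1 / 3 : ℝ) + y ^ (1 / 4 : ℝ) + 2 ≤ y ^ (1 / 2 : ℝ) := by
  have h2 : ∀ᶠ y : ℝ in atTop, 4 ≤ y ^ (1 / 6 : ℝ) :=
    (tendsto_rpow_atTop (show (0 : ℝ) < 1 / 6 by norm_num)).eventually_ge_atTop _
  filter_upwards [h2, eventually_ge_atTop 1] with y hy hy1
  have hy0 : 0 < y := by linarith
  have h3 : y ^ (1 / 2 : ℝ) = y ^ (1 / 3 : ℝ) * y ^ (1 / 6 : ℝ) := by
    rw [← Real.rpow_add hy0]; norm_num
  have h4 : y ^ (1 / 4 : ℝ) ≤ y ^ (1 / 3 : ℝ) :=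
    Real.rpow_le_rpow_of_exponent_le hy1 (by norm_num)
  have h5 : 1 ≤ y ^ (1 / 3 : ℝ) := Real.one_le_rpow hy1 (by norm_num)
  rw [h3]
  nlinarith

theorem num2 : ∀ᶠ y : ℝ in atTop, y ^ (1 / 3 : ℝ) + 1 ≤ y := by
  filter_upwards [num1, eventually_ge_atTop 1] with y hy hy1
  have h1 : y ^ (1 / 2 : ℝ) ≤ y := by
    calc y ^ (1 / 2 : ℝ) ≤ y ^ (1 : ℝ) := Real.rpow_le_rpow_of_exponent_le hy1 (by norm_num)
      _ = y := Real.rpow_one y
  have h2 : 0 ≤ y ^ (1 / 4 : ℝ) := by positivity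
  linarith

theorem ep_nonneg_eventually : ∀ᶠ x : ℝ in atTop, 0 ≤ ep x := by
  filter_upwards [ep_mul_ge, Real.tendsto_log_atTop.eventually_ge_atTop 1] with x h1 h2
  by_contra hcon
  push Not at hcon
  have h3 : 0 < Real.log x ^ (3 / 4 : ℝ) := by positivity
  nlinarith

/-- The contribution of the primes with small order. -/
theorem small_part {θ η : ℝ} (hη : η ≤ (1 - θ) / 2) {a : ℤ} {A : ℕ} {S : Finset ℕ}
    (hS : ∀ p ∈ S, p.Prime ∧ 0 < od a p ∧ (od a p : ℝ) ≤ (p : ℝ) ^ θ ∧ p ≤ A) :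
    ∑ p ∈ S, (p : ℝ) ^ (-(1 - η)) ≤ W θ a A := by
  have hsub : S ⊆ smallP θ a A := by
    intro p hp
    obtain ⟨h1, h2, h3, h4⟩ := hS p hp
    rw [smallP, Finset.mem_filter, Finset.mem_Icc]
    exact ⟨⟨h1.one_le, h4⟩, h1, h2, h3⟩
  calc ∑ p ∈ S, (p : ℝ) ^ (-(1 - η)) ≤ ∑ p ∈ S, (p : ℝ) ^ (-1 + (1 - θ) / 2) := by
        refine Finset.sum_le_sum fun p hp => ?_
        have h1 : (1 : ℝ) ≤ p := by exact_mod_cast (hS p hp).1.one_le
        exact Real.rpow_le_rpow_of_exponent_le h1 (by linarith)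
    _ ≤ ∑ p ∈ smallP θ a A, (p : ℝ) ^ (-1 + (1 - θ) / 2) :=
        Finset.sum_le_sum_of_subset_of_nonneg hsub fun _ _ _ => by positivity
    _ = W θ a A := rfl

/-- A good base, `x` in the range. -/
theorem good_base (h2 : StmtT2) (h3 : StmtT3) (hN : StmtN3) (hF : StmtFinal) {τ' τ θ : ℝ}
    (hτ' : 0 < τ') (hττ : τ' < τ) (hτθ : τ < θ) (hθ : θ < 1) (hθ3 : 1 / 3 ≤ θ) :
    ∃ x₀ : ℝ, ∀ x : ℝ, x₀ ≤ x → ∀ (A : ℕ) (a : ℤ),
      (Real.log (Real.log x) ≤ Real.log A ^ (1 / 4 : ℝ) ∨ ∀ p : ℕ, p ≤ A) →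
      2 ≤ |a| → |a| ≤ A → W θ a A ≤ Real.log x ^ (1 / 3 : ℝ) →
      ((psp a x).ncard : ℝ) ≤ x ^ (1 - τ' * ep x) := by
  have hB : 1 ≤ 2 / (1 - θ) := by
    rw [le_div_iff₀ (by linarith)]; linarith
  obtain ⟨x₂, hx₂⟩ := h2 τ θ (hτ'.trans hττ) hτθ hθ
  obtain ⟨x₃, hx₃⟩ := h3 τ (hτ'.trans hττ) (by linarith)
  obtain ⟨x₄, hx₄⟩ := hF τ' τ (2 / (1 - θ)) hτ' hττ (by linarith) hB
  have e1 : ∀ᶠ x : ℝ in atTop, ep x < (1 - θ) / 2 :=
    tendsto_ep_zero.eventually (gt_mem_nhds (by linarith))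
  obtain ⟨x₅, hx₅⟩ := eventually_atTop.1 (e1.and (ep_nonneg_eventually.and
    ((Real.tendsto_log_atTop.eventually num1).and
      ((Real.tendsto_log_atTop.eventually num2).and
        (Real.tendsto_log_atTop.eventually_ge_atTop 1)))))
  refine ⟨max (max x₂ x₃) (max x₄ x₅), fun x hx A a hA ha haA hW => ?_⟩
  have hxx₂ : x₂ ≤ x := (le_max_left _ _).trans ((le_max_left _ _).trans hx)
  have hxx₃ : x₃ ≤ x := (le_max_right _ _).trans ((le_max_left _ _).trans hx)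
  have hxx₄ : x₄ ≤ x := (le_max_left _ _).trans ((le_max_right _ _).trans hx)
  have hxx₅ : x₅ ≤ x := (le_max_right _ _).trans ((le_max_right _ _).trans hx)
  obtain ⟨f1, f2, f3, f4, f5⟩ := hx₅ x hxx₅
  have hL1 : 1 ≤ Real.exp (Real.log x * ep x) :=
    Real.one_le_exp (mul_nonneg (by linarith) f2)
  refine hx₄ x hxx₄ a ha ?_ ?_
  · refine (hN θ hθ3 hθ a A x _ (Real.log x ^ (1 / 3 : ℝ)) ha haA hL1 hW).trans ?_
    gcongr
  · intro m hm hmx S hS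
    set η := τ * ep x with hη
    have hηs : η ≤ (1 - θ) / 2 := by
      rw [hη]; nlinarith
    classical
    have hcov : S ⊆ (S.filter fun p : ℕ => (od a p : ℝ) ≤ (p : ℝ) ^ θ ∧ p ≤ A) ∪
        ((S.filter fun p : ℕ => (p : ℝ) ^ θ < od a p) ∪ (S.filter fun p : ℕ => A < p)) := by
      intro p hp
      simp only [Finset.mem_union, Finset.mem_filter]
      rcases lt_or_ge ((p : ℝ) ^ θ) (od a p) with h | h
      · exact Or.inr (Or.inl ⟨hp, h⟩)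
      · rcases lt_or_ge A p with h' | h'
        · exact Or.inr (Or.inr ⟨hp, h'⟩)
        · exact Or.inl ⟨hp, h, h'⟩
    have hnn : ∀ p : ℕ, 0 ≤ (p : ℝ) ^ (-(1 - η)) := fun p => by positivity
    have s1 : ∑ p ∈ S.filter fun p : ℕ => (od a p : ℝ) ≤ (p : ℝ) ^ θ ∧ p ≤ A,
        (p : ℝ) ^ (-(1 - η)) ≤ Real.log x ^ (1 / 3 : ℝ) := by
      refine (small_part hηs (A := A) (a := a) fun p hp => ?_).trans hW
      rw [Finset.mem_filter] at hp
      exact ⟨(hS p hp.1).1, (hS p hp.1).2.1, hp.2.1, hp.2.2⟩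
    have s2 : ∑ p ∈ S.filter fun p : ℕ => (p : ℝ) ^ θ < od a p,
        (p : ℝ) ^ (-(1 - η)) ≤ Real.log x ^ (1 / 4 : ℝ) := by
      refine hx₂ x hxx₂ a m hm hmx _ fun p hp => ?_
      rw [Finset.mem_filter] at hp
      exact ⟨(hS p hp.1).1, (hS p hp.1).2.1, (hS p hp.1).2.2, hp.2⟩
    have s3 : ∑ p ∈ S.filter fun p : ℕ => A < p, (p : ℝ) ^ (-(1 - η)) ≤ 2 := by
      rcases hA with hA | hA
      · refine hx₃ x hxx₃ A hA a m ha haA hm hmx _ fun p hp => ?_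
        rw [Finset.mem_filter] at hp
        exact ⟨(hS p hp.1).1, hp.2, (hS p hp.1).2.1, (hS p hp.1).2.2⟩
      · exact absurd (hA (A + 1)) (by omega)
    calc ∑ p ∈ S, (p : ℝ) ^ (-(1 - η)) ≤
          ∑ p ∈ (S.filter fun p : ℕ => (od a p : ℝ) ≤ (p : ℝ) ^ θ ∧ p ≤ A) ∪
            ((S.filter fun p : ℕ => (p : ℝ) ^ θ < od a p) ∪ (S.filter fun p : ℕ => A < p)),
            (p : ℝ) ^ (-(1 - η)) :=
          Finset.sum_le_sum_of_subset_of_nonneg hcov fun p _ _ => hnn p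
      _ ≤ _ := by
          have u1 := Finset.sum_union_inter
            (s₁ := S.filter fun p : ℕ => (od a p : ℝ) ≤ (p : ℝ) ^ θ ∧ p ≤ A)
            (s₂ := (S.filter fun p : ℕ => (p : ℝ) ^ θ < od a p) ∪
              (S.filter fun p : ℕ => A < p)) (f := fun p : ℕ => (p : ℝ) ^ (-(1 - η)))
          have u2 := Finset.sum_union_inter
            (s₁ := S.filter fun p : ℕ => (p : ℝ) ^ θ < od a p)
            (s₂ := S.filter fun p : ℕ => A < p) (f := fun p : ℕ => (p : ℝ) ^ (-(1 - η)))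
          have v1 : 0 ≤ ∑ p ∈ (S.filter fun p : ℕ => (od a p : ℝ) ≤ (p : ℝ) ^ θ ∧ p ≤ A) ∩
              ((S.filter fun p : ℕ => (p : ℝ) ^ θ < od a p) ∪
              (S.filter fun p : ℕ => A < p)), (p : ℝ) ^ (-(1 - η)) :=
            Finset.sum_nonneg fun p _ => hnn p
          have v2 : 0 ≤ ∑ p ∈ (S.filter fun p : ℕ => (p : ℝ) ^ θ < od a p) ∩
              (S.filter fun p : ℕ => A < p), (p : ℝ) ^ (-(1 - η)) :=
            Finset.sum_nonneg fun p _ => hnn p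
          linarith

open Classical in
/-- The exceptional bases. -/
noncomputable def exc (δ X : ℝ) (A : ℕ) : Finset ℤ :=
  (Finset.Icc (-(A : ℤ)) A).filter fun a => 1 < |a| ∧ ∃ x : ℝ, X ≤ x ∧
    x ≤ Real.exp (Real.exp (Real.log A ^ (1 / 4 : ℝ))) ∧
    x ^ (1 - (1 - δ) * ep x) < ((psp a x).ncard : ℝ)

theorem mem_exc {δ X : ℝ} {A : ℕ} {a : ℤ} : a ∈ exc δ X A ↔ a ∈ Finset.Icc (-(A : ℤ)) A ∧
    1 < |a| ∧ ∃ x : ℝ, X ≤ x ∧ x ≤ Real.exp (Real.exp (Real.log A ^ (1 / 4 : ℝ))) ∧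
    x ^ (1 - (1 - δ) * ep x) < ((psp a x).ncard : ℝ) := by
  classical
  unfold exc
  exact Finset.mem_filter

end Mainaux

open Mainaux

/-- Almost all bases. -/
theorem almost_all (h1 : StmtAvg) (h2 : StmtT2) (h3 : StmtT3) (hN : StmtN3) (hF : StmtFinal)
    (δ : ℝ) (hδ : 0 < δ) : ∃ x₀ : ℝ, ∀ X : ℝ, x₀ ≤ X → ∀ A : ℕ,
      ((exc δ X A).card : ℝ) ≤ A / Real.log X ^ (1 / 4 : ℝ) := by
  set δ' : ℝ := min δ (1 / 2) with hδ'
  have hδ'0 : 0 < δ' := lt_min hδ (by norm_num)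
  have hδ'1 : δ' ≤ 1 / 2 := min_le_right _ _
  have hδδ : δ' ≤ δ := min_le_left _ _
  set θ : ℝ := 1 - δ' / 4 with hθ
  obtain ⟨x₁, hx₁⟩ := good_base h2 h3 hN hF (τ' := 1 - δ') (τ := 1 - δ' / 2) (θ := θ)
    (by linarith) (by linarith) (by linarith) (by linarith) (by linarith)
  obtain ⟨C, hC0, hC⟩ := h1 θ (by linarith) (by linarith)
  have e1 : ∀ᶠ y : ℝ in atTop, C ≤ y ^ (1 / 12 : ℝ) :=
    (tendsto_rpow_atTop (show (0 : ℝ) < 1 / 12 by norm_num)).eventually_ge_atTop _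
  obtain ⟨x₂, hx₂⟩ := eventually_atTop.1 ((Real.tendsto_log_atTop.eventually e1).and
    (ep_nonneg_eventually.and ((Real.tendsto_log_atTop.eventually_ge_atTop 1).and
      (eventually_ge_atTop 1))))
  refine ⟨max x₁ x₂, fun X hX A => ?_⟩
  have hXx₁ : x₁ ≤ X := (le_max_left _ _).trans hX
  have hXx₂ : x₂ ≤ X := (le_max_right _ _).trans hX
  obtain ⟨g1, -, g3, g4⟩ := hx₂ X hXx₂
  set y : ℝ := Real.log X with hy
  have hy0 : 0 < y := by linarith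
  -- exceptional bases have many primes of small order
  have hexc : ∀ a ∈ exc δ X A, y ^ (1 / 3 : ℝ) ≤ W θ a A := by
    intro a ha
    rw [mem_exc, Finset.mem_Icc] at ha
    obtain ⟨hIcc, ha1, x, hXx, hxA, hlt⟩ := ha
    by_contra hcon
    push Not at hcon
    obtain ⟨-, g2, g3', g4'⟩ := hx₂ x (hXx₂.trans hXx)
    have hx0 : 0 < x := by linarith
    have hlog : y ≤ Real.log x := Real.log_le_log (by linarith) hXx
    have hW : W θ a A ≤ Real.log x ^ (1 / 3 : ℝ) :=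
      hcon.le.trans (Real.rpow_le_rpow hy0.le hlog (by norm_num))
    have hA : Real.log (Real.log x) ≤ Real.log A ^ (1 / 4 : ℝ) := by
      have i1 : Real.log x ≤ Real.exp (Real.log A ^ (1 / 4 : ℝ)) := by
        rw [← Real.log_exp (Real.exp (Real.log A ^ (1 / 4 : ℝ)))]
        exact Real.log_le_log hx0 hxA
      rw [← Real.log_exp (Real.log A ^ (1 / 4 : ℝ))]
      exact Real.log_le_log (by linarith) i1
    have hb := hx₁ x (hXx₁.trans hXx) A a (Or.inl hA) (by omega) (abs_le.2 hIcc) hW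
    have hmono : x ^ (1 - (1 - δ') * ep x) ≤ x ^ (1 - (1 - δ) * ep x) :=
      Real.rpow_le_rpow_of_exponent_le g4' (by nlinarith)
    linarith
  have hsum : ((exc δ X A).card : ℝ) * y ^ (1 / 3 : ℝ) ≤ C * A := by
    calc ((exc δ X A).card : ℝ) * y ^ (1 / 3 : ℝ) = ∑ a ∈ exc δ X A, y ^ (1 / 3 : ℝ) := by
          rw [Finset.sum_const, nsmul_eq_mul]
      _ ≤ ∑ a ∈ exc δ X A, W θ a A := Finset.sum_le_sum hexc
      _ ≤ ∑ a ∈ Finset.Icc (-(A : ℤ)) A, W θ a A := by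
          refine Finset.sum_le_sum_of_subset_of_nonneg ?_ fun a _ _ => ?_
          · intro a ha
            exact (mem_exc.1 ha).1
          · exact Finset.sum_nonneg fun p _ => by positivity
      _ ≤ C * A := hC A
  have h14 : 0 < y ^ (1 / 4 : ℝ) := by positivity
  have h3' : y ^ (1 / 3 : ℝ) = y ^ (1 / 4 : ℝ) * y ^ (1 / 12 : ℝ) := by
    rw [← Real.rpow_add hy0]; norm_num
  rw [le_div_iff₀ h14]
  have hc0 : 0 ≤ ((exc δ X A).card : ℝ) := Nat.cast_nonneg _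
  have h5 : ((exc δ X A).card : ℝ) * y ^ (1 / 4 : ℝ) * C ≤ A * C := by
    calc ((exc δ X A).card : ℝ) * y ^ (1 / 4 : ℝ) * C ≤
          ((exc δ X A).card : ℝ) * y ^ (1 / 4 : ℝ) * y ^ (1 / 12 : ℝ) := by gcongr
      _ = ((exc δ X A).card : ℝ) * y ^ (1 / 3 : ℝ) := by rw [h3']; ring
      _ ≤ C * A := hsum
      _ = A * C := mul_comm _ _
  exact le_of_mul_le_mul_right h5 hC0

/-- One base whose primes with small order are sparse. -/
theorem criterion (h2 : StmtT2) (hN : StmtN3) (hF : StmtFinal) {θ τ' : ℝ} (hθ3 : 1 / 3 ≤ θ)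
    (hθ : θ < 1) (hτ' : 0 < τ') (hτθ : τ' < θ) (a : ℤ) (ha : 2 ≤ |a|) (K : ℝ)
    (hK : ∀ A : ℕ, W θ a A ≤ K) :
    ∃ x₀ : ℝ, ∀ x : ℝ, x₀ ≤ x → ((psp a x).ncard : ℝ) ≤ x ^ (1 - τ' * ep x) := by
  set τ : ℝ := (τ' + θ) / 2 with hτ
  have hB : 1 ≤ 2 / (1 - θ) := by
    rw [le_div_iff₀ (by linarith)]; linarith
  obtain ⟨x₂, hx₂⟩ := h2 τ θ (by linarith) (by linarith) hθ
  obtain ⟨x₄, hx₄⟩ := hF τ' τ (2 / (1 - θ)) hτ' (by linarith) (by linarith) hB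
  have e1 : ∀ᶠ x : ℝ in atTop, ep x < (1 - θ) / 2 :=
    tendsto_ep_zero.eventually (gt_mem_nhds (by linarith))
  have e2 : ∀ᶠ y : ℝ in atTop, K ≤ y ^ (1 / 3 : ℝ) :=
    (tendsto_rpow_atTop (show (0 : ℝ) < 1 / 3 by norm_num)).eventually_ge_atTop _
  obtain ⟨x₅, hx₅⟩ := eventually_atTop.1 (e1.and (ep_nonneg_eventually.and
    ((Real.tendsto_log_atTop.eventually num1).and
      ((Real.tendsto_log_atTop.eventually num2).and
        ((Real.tendsto_log_atTop.eventually_ge_atTop 1).and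
          (Real.tendsto_log_atTop.eventually e2))))))
  refine ⟨max x₂ (max x₄ x₅), fun x hx => ?_⟩
  have hxx₂ : x₂ ≤ x := (le_max_left _ _).trans hx
  have hxx₄ : x₄ ≤ x := (le_max_left _ _).trans ((le_max_right _ _).trans hx)
  have hxx₅ : x₅ ≤ x := (le_max_right _ _).trans ((le_max_right _ _).trans hx)
  obtain ⟨f1, f2, f3, f4, f5, f6⟩ := hx₅ x hxx₅
  have hL1 : 1 ≤ Real.exp (Real.log x * ep x) :=
    Real.one_le_exp (mul_nonneg (by linarith) f2)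
  refine hx₄ x hxx₄ a ha ?_ ?_
  · refine (hN θ hθ3 hθ a a.natAbs x _ (Real.log x ^ (1 / 3 : ℝ)) ha (Int.natCast_natAbs a).ge hL1
      ((hK _).trans f6)).trans ?_
    gcongr
  · intro m hm hmx S hS
    set η := τ * ep x with hη
    have hηs : η ≤ (1 - θ) / 2 := by
      rw [hη]; nlinarith
    classical
    have hsplit := Finset.sum_filter_add_sum_filter_not S
      (fun p : ℕ => (od a p : ℝ) ≤ (p : ℝ) ^ θ) (fun p : ℕ => (p : ℝ) ^ (-(1 - η)))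
    rw [← hsplit]
    have s1 : ∑ p ∈ S.filter fun p : ℕ => (od a p : ℝ) ≤ (p : ℝ) ^ θ,
        (p : ℝ) ^ (-(1 - η)) ≤ Real.log x ^ (1 / 3 : ℝ) := by
      refine ((small_part hηs (A := S.sup id) (a := a) fun p hp => ?_).trans
        (hK _)).trans f6
      rw [Finset.mem_filter] at hp
      exact ⟨(hS p hp.1).1, (hS p hp.1).2.1, hp.2, Finset.le_sup (f := id) hp.1⟩
    have s2 : ∑ p ∈ S.filter fun p : ℕ => ¬ (od a p : ℝ) ≤ (p : ℝ) ^ θ,
        (p : ℝ) ^ (-(1 - η)) ≤ Real.log x ^ (1 / 4 : ℝ) := by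
      refine hx₂ x hxx₂ a m hm hmx _ fun p hp => ?_
      rw [Finset.mem_filter] at hp
      exact ⟨(hS p hp.1).1, (hS p hp.1).2.1, (hS p hp.1).2.2, not_le.1 hp.2⟩
    linarith

end Pool.Agent.Lib.MP_a260de_nt
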