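import Pool.Agent.Lib.MP_a260de_nt.SpecM
import Pool.Agent.Lib.MP_a260de_nt.T2

/-!
# MP_a260de_nt: bases with a large weighted number of primes of small order are rare, uniform form
-/

set_option autoImplicit false

namespace Pool.Agent.Lib.MP_a260de_nt

open Filter Topology

namespace PowerXaux

theorem N_nonneg {w : ℕ → ℝ} (hw : ∀ p, 0 ≤ w p) : ∀ (k : ℕ) (B : Finset ℕ), 0 ≤ N w k B := by
  intro k
  induction k with
  | zero => intro B; simp [N]
  | succ k ih => intro B; rw [N]; exact Finset.sum_nonneg fun p _ => mul_nonneg (hw p) (ih _)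

theorem sum_biUnion_le (Js : Finset ℕ) (F : ℕ → Finset ℕ) (w' : ℕ → ℝ)
    (hw : ∀ p, 0 ≤ w' p) : ∑ p ∈ Js.biUnion F, w' p ≤ ∑ j ∈ Js, ∑ p ∈ F j, w' p := by
  classical
  induction Js using Finset.induction_on with
  | empty => simp
  | insert j Js hj ih =>
    rw [Finset.biUnion_insert, Finset.sum_insert hj]
    have h1 := Finset.sum_union_inter (s₁ := F j) (s₂ := Js.biUnion F) (f := w')
    have h2 : 0 ≤ ∑ p ∈ F j ∩ Js.biUnion F, w' p := Finset.sum_nonneg fun p _ => hw p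
    linarith

/-- The primes in `(u, min (u ^ 2) A]`. -/
noncomputable def Pu (u : ℝ) (A : ℕ) : Finset ℕ :=
  (Finset.Icc 1 (min ⌊u ^ 2⌋₊ A)).filter fun p : ℕ => p.Prime ∧ u < (p : ℝ)

theorem block (hM : StmtMoment) (hL : StmtLower) {θ C : ℝ} (hθ : 3 / 4 ≤ θ) (hθ1 : θ < 1)
    (hC : ∀ (u : ℝ) (P : Finset ℕ), 1 ≤ u →
      (∀ p ∈ P, p.Prime ∧ u < (p : ℝ)) →
      ∑ p ∈ P, (p : ℝ) ^ (-1 + (1 - θ) / 2) * ((R θ p : ℝ) / p) ≤ C * u ^ (-((1 - θ) / 4)))
    (u : ℝ) (hu : 1 ≤ u) (A k : ℕ) (hA : (min ⌊u ^ 2⌋₊ A) ^ k ≤ A)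
    (hCu : C ≤ u ^ ((1 - θ) / 16)) (hk : (k : ℝ) ≤ u ^ (1 / 2 : ℝ)) :
    ((((Finset.Icc (-(A : ℤ)) A).filter fun a : ℤ =>
      2 * u ^ (-((1 - θ) / 8)) ≤ ∑ p ∈ smallP θ a A ∩ Pu u A, (p : ℝ) ^ (-1 + (1 - θ) / 2)).card
        : ℕ) : ℝ) ≤ 4 * A * (u ^ (-((1 - θ) / 16))) ^ k := by
  set s : ℝ := (1 - θ) / 2 with hs
  have hs0 : 0 < s := by rw [hs]; linarith
  have hs1 : s ≤ 1 / 8 := by rw [hs]; linarith
  have e4 : (1 - θ) / 4 = s / 2 := by rw [hs]; ring
  have e8 : (1 - θ) / 8 = s / 4 := by rw [hs]; ring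
  have e16 : (1 - θ) / 16 = s / 8 := by rw [hs]; ring
  rw [e8, e16]
  rw [e16] at hCu
  have hu0 : 0 < u := by linarith
  set w : ℕ → ℝ := fun p => (p : ℝ) ^ (-1 + s) with hw
  have hw0 : ∀ p, 0 ≤ w p := fun p => by rw [hw]; positivity
  set E := (Finset.Icc (-(A : ℤ)) A).filter fun a : ℤ =>
      2 * u ^ (-(s / 4)) ≤ ∑ p ∈ smallP θ a A ∩ Pu u A, (p : ℝ) ^ (-1 + s) with hE
  set t : ℝ := u ^ (-(s / 4)) with ht
  have ht0 : 0 < t := by rw [ht]; positivity
  -- mean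
  have hmean := hC u (Pu u A) hu (fun p hp => (Finset.mem_filter.1 hp).2)
  rw [e4] at hmean
  -- moment
  have hmom := hM θ A k (min ⌊u ^ 2⌋₊ A) (Pu u A) w hw0 (fun p hp => by
    rw [Pu, Finset.mem_filter, Finset.mem_Icc] at hp
    exact ⟨hp.2.1, hp.1.2⟩) hA
  -- lower
  have hlow : ∀ a ∈ E, t ^ k ≤ N w k (smallP θ a A ∩ Pu u A) := by
    intro a ha
    rw [hE, Finset.mem_filter] at ha
    refine hL w (u ^ (-1 + s)) t k _ ht0.le (by positivity) (fun p hp => ?_) ?_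
    · refine ⟨hw0 p, ?_⟩
      have hp2 := (Finset.mem_inter.1 hp).2
      rw [Pu, Finset.mem_filter] at hp2
      exact Real.rpow_le_rpow_of_nonpos hu0 hp2.2.2.le (by linarith)
    · have h1 : (k : ℝ) * u ^ (-1 + s) ≤ t := by
        calc (k : ℝ) * u ^ (-1 + s) ≤ u ^ (1 / 2 : ℝ) * u ^ (-1 + s) := by gcongr
          _ = u ^ (1 / 2 + (-1 + s)) := by rw [← Real.rpow_add hu0]
          _ ≤ u ^ (-(s / 4)) := Real.rpow_le_rpow_of_exponent_le hu (by linarith)
      have h2 := ha.2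
      have h3 : t + k * u ^ (-1 + s) ≤ 2 * t := by linarith
      exact h3.trans h2
  have hsum : (E.card : ℝ) * t ^ k ≤ 4 * A * (C * u ^ (-(s / 2))) ^ k := by
    calc (E.card : ℝ) * t ^ k = ∑ a ∈ E, t ^ k := by rw [Finset.sum_const, nsmul_eq_mul]
      _ ≤ ∑ a ∈ E, N w k (smallP θ a A ∩ Pu u A) := Finset.sum_le_sum hlow
      _ ≤ ∑ a ∈ Finset.Icc (-(A : ℤ)) A, N w k (smallP θ a A ∩ Pu u A) :=
          Finset.sum_le_sum_of_subset_of_nonneg (Finset.filter_subset _ _)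
            fun a _ _ => N_nonneg hw0 _ _
      _ ≤ _ := hmom
      _ ≤ 4 * A * (C * u ^ (-(s / 2))) ^ k := by
          have h0 : 0 ≤ ∑ p ∈ Pu u A, w p * ((R θ p : ℝ) / p) :=
            Finset.sum_nonneg fun p _ => mul_nonneg (hw0 p) (by positivity)
          gcongr
  have hC0 : 0 ≤ C := by
    have h := hC 1 ∅ le_rfl (fun p hp => absurd hp (Finset.notMem_empty p))
    simpa using h
  have hCt : (C * u ^ (-(s / 2))) ^ k ≤ (u ^ (-(s / 8))) ^ k * t ^ k := by
    rw [← mul_pow]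
    refine pow_le_pow_left₀ (by positivity) ?_ k
    calc C * u ^ (-(s / 2)) ≤ u ^ (s / 8) * u ^ (-(s / 2)) := by gcongr
      _ = u ^ (-(s / 8)) * t := by
          rw [ht, ← Real.rpow_add hu0, ← Real.rpow_add hu0]; congr 1; ring
  have htk : 0 < t ^ k := by positivity
  have hfin : (E.card : ℝ) * t ^ k ≤ (4 * A * (u ^ (-(s / 8))) ^ k) * t ^ k := by
    calc (E.card : ℝ) * t ^ k ≤ 4 * A * (C * u ^ (-(s / 2))) ^ k := hsum
      _ ≤ 4 * A * ((u ^ (-(s / 8))) ^ k * t ^ k) := by gcongr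
      _ = _ := by ring
  exact le_of_mul_le_mul_right hfin htk

/-- The choice of `k`. -/
theorem choice {s u : ℝ} (hs : 0 < s) (hu : Real.exp 1 ≤ u) (A : ℕ) (hA : 1 ≤ A) :
    ∃ k : ℕ, (min ⌊u ^ 2⌋₊ A) ^ k ≤ A ∧ (k : ℝ) ≤ u ^ (1 / 2 : ℝ) ∧
      (u ^ (-(s / 8))) ^ k ≤ Real.exp (-(s / 16) * u ^ (1 / 2 : ℝ)) + (A : ℝ) ^ (-(s / 32)) := by
  have he := Real.add_one_le_exp (1 : ℝ)
  have hu1 : 1 ≤ u := by linarith
  have hu0 : 0 < u := by linarith
  have hlu : 1 ≤ Real.log u := by rwa [Real.le_log_iff_exp_le hu0]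
  have hA0 : (0 : ℝ) < A := by exact_mod_cast hA
  have hA1 : (1 : ℝ) ≤ A := by exact_mod_cast hA
  have hlA : 0 ≤ Real.log A := Real.log_nonneg hA1
  set L : ℝ := Real.log A / (2 * Real.log u) with hL
  have hL0 : 0 ≤ L := by rw [hL]; positivity
  have hr1 : 1 ≤ u ^ (1 / 2 : ℝ) := Real.one_le_rpow hu1 (by norm_num)
  set k : ℕ := max 1 (min ⌊u ^ (1 / 2 : ℝ)⌋₊ ⌊L⌋₊) with hk
  have hk1 : 1 ≤ k := le_max_left _ _
  have hkpow : (u ^ (-(s / 8))) ^ k = Real.exp (-(s / 8) * Real.log u * k) := by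
    rw [Real.rpow_def_of_pos hu0, ← Real.exp_nat_mul]
    congr 1
    ring
  refine ⟨k, ?_, ?_, ?_⟩
  · rcases Nat.lt_or_ge 1 k with h | h
    · have hkm : k = min ⌊u ^ (1 / 2 : ℝ)⌋₊ ⌊L⌋₊ := by
        rw [hk]
        rw [hk] at h
        omega
      have hkL : (k : ℝ) ≤ L := by
        have h1 : k ≤ ⌊L⌋₊ := by rw [hkm]; exact min_le_right _ _
        exact (Nat.le_floor_iff hL0).1 h1
      have h2 : (((min ⌊u ^ 2⌋₊ A) ^ k : ℕ) : ℝ) ≤ A := by
        have h3 : ((min ⌊u ^ 2⌋₊ A : ℕ) : ℝ) ≤ u ^ 2 := by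
          have h4 : ((min ⌊u ^ 2⌋₊ A : ℕ) : ℝ) ≤ (⌊u ^ 2⌋₊ : ℝ) := by
            exact_mod_cast min_le_left _ _
          exact h4.trans (Nat.floor_le (by positivity))
        calc (((min ⌊u ^ 2⌋₊ A) ^ k : ℕ) : ℝ) = ((min ⌊u ^ 2⌋₊ A : ℕ) : ℝ) ^ k := by push_cast; rfl
          _ ≤ (u ^ 2) ^ k := pow_le_pow_left₀ (Nat.cast_nonneg _) h3 k
          _ = Real.exp (2 * Real.log u * k) := by
              rw [← pow_mul, ← Real.exp_log hu0, ← Real.exp_nat_mul, Real.log_exp]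
              congr 1
              push_cast
              ring
          _ ≤ Real.exp (Real.log A) := by
              rw [Real.exp_le_exp]
              rw [hL, le_div_iff₀ (by positivity)] at hkL
              linarith
          _ = A := Real.exp_log hA0
      exact_mod_cast h2
    · have : k = 1 := by omega
      rw [this, pow_one]
      exact min_le_right _ _
  · rw [hk]
    push_cast
    refine max_le hr1 ((min_le_left _ _).trans (Nat.floor_le (by linarith)))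
  · rw [hkpow]
    rcases le_total ⌊u ^ (1 / 2 : ℝ)⌋₊ ⌊L⌋₊ with h | h
    · have h1 : u ^ (1 / 2 : ℝ) / 2 ≤ k := by
        have h2 : (⌊u ^ (1 / 2 : ℝ)⌋₊ : ℝ) ≤ k := by
          rw [hk, min_eq_left h]; exact_mod_cast le_max_right _ _
        have h3 := Nat.lt_floor_add_one (u ^ (1 / 2 : ℝ))
        have h4 : (1 : ℝ) ≤ k := by exact_mod_cast hk1
        linarith
      have h5 : Real.exp (-(s / 8) * Real.log u * k) ≤
          Real.exp (-(s / 16) * u ^ (1 / 2 : ℝ)) := by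
        rw [Real.exp_le_exp]
        have h6 : (u ^ (1 / 2 : ℝ) / 2) ≤ Real.log u * k := by nlinarith
        nlinarith
      have h7 : 0 ≤ (A : ℝ) ^ (-(s / 32)) := by positivity
      linarith
    · have h1 : L / 2 ≤ k := by
        have h2 : (⌊L⌋₊ : ℝ) ≤ k := by
          rw [hk, min_eq_right h]; exact_mod_cast le_max_right _ _
        have h3 := Nat.lt_floor_add_one L
        have h4 : (1 : ℝ) ≤ k := by exact_mod_cast hk1
        linarith
      have h5 : Real.exp (-(s / 8) * Real.log u * k) ≤ (A : ℝ) ^ (-(s / 32)) := by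
        rw [Real.rpow_def_of_pos hA0, Real.exp_le_exp]
        have h6 : Real.log A / 4 ≤ Real.log u * k := by
          have h7 : Real.log u * (L / 2) = Real.log A / 4 := by
            rw [hL]; field_simp; norm_num
          rw [← h7]
          gcongr
        nlinarith
      have h7 : 0 ≤ Real.exp (-(s / 16) * u ^ (1 / 2 : ℝ)) := (Real.exp_pos _).le
      linarith

theorem geom {r : ℝ} (h0 : 0 ≤ r) (h1 : r ≤ 1 / 2) (n : ℕ) :
    ∑ i ∈ Finset.range n, r ^ (i + 1) ≤ 2 * r := by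
  have key : ∀ n : ℕ, ∑ i ∈ Finset.range n, r ^ (i + 1) ≤ 2 * r * (1 - (1 / 2) ^ n) := by
    intro n
    induction n with
    | zero => simp
    | succ n ih =>
      rw [Finset.sum_range_succ]
      have h2 : r ^ (n + 1) ≤ (1 / 2) ^ n * r := by
        rw [pow_succ]
        gcongr
      have h3 : ((1 : ℝ) / 2) ^ (n + 1) = (1 / 2) ^ n * (1 / 2) := pow_succ _ _
      rw [h3]
      nlinarith
  refine (key n).trans ?_
  have : (0 : ℝ) < (1 / 2) ^ n := by positivity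
  nlinarith

theorem pow_ge {z : ℝ} (hz : 2 ≤ z) (i : ℕ) : z * (i + 1) ≤ z ^ (2 ^ i) := by
  have h1 : i + 1 ≤ 2 ^ i := by
    have := Nat.lt_two_pow_self (n := i)
    omega
  obtain ⟨m, hm⟩ : ∃ m, 2 ^ i = m + 1 := ⟨2 ^ i - 1, by have := Nat.one_le_two_pow (n := i); omega⟩
  rw [hm, pow_succ']
  have h2 : i ≤ m := by omega
  have h3 : ((i : ℝ) + 1) ≤ 2 ^ m := by
    have h4 : m + 1 ≤ 2 ^ m := by
      have := Nat.lt_two_pow_self (n := m)
      omega
    have h5 : ((m + 1 : ℕ) : ℝ) ≤ ((2 ^ m : ℕ) : ℝ) := by exact_mod_cast h4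
    push_cast at h5
    have h6 : (i : ℝ) ≤ m := by exact_mod_cast h2
    linarith
  have h7 : (2 : ℝ) ^ m ≤ z ^ m := pow_le_pow_left₀ (by norm_num) hz m
  have h8 : 0 < z := by linarith
  have h9 : (i : ℝ) + 1 ≤ z ^ m := h3.trans h7
  gcongr

theorem pow_ge' {z : ℝ} (hz : 2 ≤ z) (i : ℕ) : (2 : ℝ) ^ (i + 1) ≤ z ^ (2 ^ i) := by
  have h1 : i + 1 ≤ 2 ^ i := by
    have := Nat.lt_two_pow_self (n := i)
    omega
  calc (2 : ℝ) ^ (i + 1) ≤ z ^ (i + 1) := pow_le_pow_left₀ (by norm_num) hz _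
    _ ≤ z ^ (2 ^ i) := pow_le_pow_right₀ (by linarith) h1

theorem eventually_Y {s C : ℝ} (hs : 0 < s) : ∀ᶠ Y : ℝ in atTop,
    3 ≤ Y ∧ C ≤ Y ^ (1 / 32 : ℝ) ∧ Y ^ (1 / 4 : ℝ) / s + 2 ≤ Y ^ (1 / 3 : ℝ) ∧
      2 ≤ Y ^ (1 / 16 : ℝ) ∧ Real.exp (-(s / 16) * Y ^ (1 / (8 * s))) ≤ 1 / 2 ∧
      8 * Real.exp (-(s / 16) * Y ^ (1 / (8 * s))) ≤ Real.exp (-Y ^ (1 / (16 * s))) := by
  have h1 : ∀ᶠ Y : ℝ in atTop, C ≤ Y ^ (1 / 32 : ℝ) :=
    (tendsto_rpow_atTop (show (0 : ℝ) < 1 / 32 by norm_num)).eventually_ge_atTop _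
  have h2 : ∀ᶠ Y : ℝ in atTop, 1 / s + 2 ≤ Y ^ (1 / 12 : ℝ) :=
    (tendsto_rpow_atTop (show (0 : ℝ) < 1 / 12 by norm_num)).eventually_ge_atTop _
  have h3 : ∀ᶠ Y : ℝ in atTop, 2 ≤ Y ^ (1 / 16 : ℝ) :=
    (tendsto_rpow_atTop (show (0 : ℝ) < 1 / 16 by norm_num)).eventually_ge_atTop _
  have h4 : ∀ᶠ Y : ℝ in atTop, 32 / s ≤ Y ^ (1 / (16 * s)) :=
    (tendsto_rpow_atTop (show (0 : ℝ) < 1 / (16 * s) by positivity)).eventually_ge_atTop _
  have h5 : ∀ᶠ Y : ℝ in atTop, 3 ≤ Y ^ (1 / (16 * s)) :=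
    (tendsto_rpow_atTop (show (0 : ℝ) < 1 / (16 * s) by positivity)).eventually_ge_atTop _
  filter_upwards [h1, h2, h3, h4, h5, eventually_ge_atTop 3] with Y g1 g2 g3 g4 g5 g6
  have hY0 : 0 < Y := by linarith
  have e1 : Y ^ (1 / 3 : ℝ) = Y ^ (1 / 4 : ℝ) * Y ^ (1 / 12 : ℝ) := by
    rw [← Real.rpow_add hY0]; norm_num
  have e2 : Y ^ (1 / (8 * s)) = Y ^ (1 / (16 * s)) * Y ^ (1 / (16 * s)) := by
    rw [← Real.rpow_add hY0]; congr 1; field_simp; norm_num
  set q : ℝ := Y ^ (1 / (16 * s)) with hq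
  have hq2 : 2 * q ≤ s / 16 * (q * q) := by
    have h6 : 32 ≤ s * q := by
      rw [div_le_iff₀ hs] at g4
      linarith
    nlinarith
  have hexp : Real.exp (-(s / 16) * (q * q)) ≤ Real.exp (-(2 * q)) := by
    rw [Real.exp_le_exp]; linarith
  have he3 : (8 : ℝ) ≤ Real.exp 3 := by
    have := Real.exp_one_gt_d9
    have h7 : Real.exp 3 = Real.exp 1 ^ 3 := by
      rw [← Real.exp_nat_mul]; norm_num
    rw [h7]
    calc (8 : ℝ) = 2 ^ 3 := by norm_num
      _ ≤ Real.exp 1 ^ 3 := pow_le_pow_left₀ (by norm_num) (by linarith) 3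
  have h8q : (8 : ℝ) ≤ Real.exp q := he3.trans (Real.exp_le_exp.2 g5)
  have h9 : 8 * Real.exp (-(s / 16) * (q * q)) ≤ Real.exp (-q) := by
    calc 8 * Real.exp (-(s / 16) * (q * q)) ≤ Real.exp q * Real.exp (-(2 * q)) := by gcongr
      _ = Real.exp (-q) := by rw [← Real.exp_add]; congr 1; ring
  refine ⟨g6, g1, ?_, g3, ?_, ?_⟩
  · rw [e1]
    have h0 : 1 ≤ Y ^ (1 / 4 : ℝ) := Real.one_le_rpow (by linarith) (by norm_num)
    have h10 : Y ^ (1 / 4 : ℝ) * (1 / s + 2) ≤ Y ^ (1 / 4 : ℝ) * Y ^ (1 / 12 : ℝ) := by gcongr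
    have h11 : Y ^ (1 / 4 : ℝ) * (1 / s + 2) = Y ^ (1 / 4 : ℝ) / s + 2 * Y ^ (1 / 4 : ℝ) := by ring
    linarith
  · rw [e2]
    have h12 : Real.exp (-q) ≤ 1 := Real.exp_le_one_iff.2 (by linarith)
    linarith
  · rw [e2]; exact h9

theorem eventually_A {s : ℝ} (hs : 0 < s) : ∀ᶠ A : ℝ in atTop,
    3 ≤ A ∧ 4 * (2 * Real.log (Real.log A) + 1) * A ^ (-(s / 32)) ≤ A ^ (-(s / 64)) := by
  have h3 : ∀ᶠ Y : ℝ in atTop, Real.log Y ≤ 1 / 16 * Y ^ (s / 64) := by
    have h := (isLittleO_log_rpow_atTop (show (0 : ℝ) < s / 64 by positivity)).bound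
      (show (0 : ℝ) < 1 / 16 by norm_num)
    filter_upwards [h, eventually_ge_atTop 1] with Y hY hY1
    rw [Real.norm_of_nonneg (Real.log_nonneg hY1), Real.norm_of_nonneg (by positivity)] at hY
    exact hY
  have h4 : ∀ᶠ Y : ℝ in atTop, 8 ≤ Y ^ (s / 64) :=
    (tendsto_rpow_atTop (show (0 : ℝ) < s / 64 by positivity)).eventually_ge_atTop _
  filter_upwards [h3, h4, eventually_ge_atTop 3] with A g3 g4 g5
  refine ⟨g5, ?_⟩
  have hA0 : 0 < A := by linarith
  have hl1 : 1 ≤ Real.log A := by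
    rw [Real.le_log_iff_exp_le hA0]
    have := Real.exp_one_lt_d9
    linarith
  have hll : Real.log (Real.log A) ≤ Real.log A := by
    have := Real.log_le_sub_one_of_pos (show 0 < Real.log A by linarith)
    linarith
  have e : A ^ (-(s / 64)) = A ^ (s / 64) * A ^ (-(s / 32)) := by
    rw [← Real.rpow_add hA0]; congr 1; ring
  rw [e]
  gcongr
  linarith

end PowerXaux

open PowerXaux

theorem powerX (hM : StmtMoment) (hL : StmtLower) (hN : StmtMean) (θ : ℝ) (hθ : 3 / 4 ≤ θ)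
    (hθ1 : θ < 1) : ∃ Y₀ : ℝ, ∀ Y : ℝ, Y₀ ≤ Y → ∀ A : ℕ, Y₀ ≤ A →
      ((((Finset.Icc (-(A : ℤ)) A).filter fun a : ℤ => Y ^ (1 / 3 : ℝ) < W θ a A).card : ℕ) : ℝ) ≤
        A * (Real.exp (-Y ^ (1 / (8 * (1 - θ)))) + (A : ℝ) ^ (-((1 - θ) / 128))) := by
  obtain ⟨C, hC0, hC⟩ := hN θ (by linarith) hθ1
  set s : ℝ := (1 - θ) / 2 with hs
  have hs0 : 0 < s := by rw [hs]; linarith
  have hs1 : s ≤ 1 / 8 := by rw [hs]; linarith
  have e4 : (1 - θ) / 4 = s / 2 := by rw [hs]; ring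
  have e8 : (1 - θ) / 8 = s / 4 := by rw [hs]; ring
  have e16 : (1 - θ) / 16 = s / 8 := by rw [hs]; ring
  have e128 : (1 - θ) / 128 = s / 64 := by rw [hs]; ring
  have e1 : 1 / (8 * (1 - θ)) = 1 / (16 * s) := by rw [hs]; congr 1; ring
  obtain ⟨Y₁, hY₁⟩ := eventually_atTop.1 (eventually_Y (s := s) (C := C) hs0)
  obtain ⟨A₁, hA₁⟩ := eventually_atTop.1 (eventually_A (s := s) hs0)
  refine ⟨max Y₁ A₁, fun Y hY A hA => ?_⟩
  obtain ⟨g1, g2, g3, g4, g5, g6⟩ := hY₁ Y ((le_max_left _ _).trans hY)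
  obtain ⟨f1, f2⟩ := hA₁ A ((le_max_right _ _).trans hA)
  rw [e128, e1]
  have hY0 : 0 < Y := by linarith
  have hA0 : (0 : ℝ) < A := by linarith
  have hAn : 1 ≤ A := by
    have : (1 : ℝ) ≤ A := by linarith
    exact_mod_cast this
  have hlA1 : 1 ≤ Real.log A := by
    rw [Real.le_log_iff_exp_le hA0]
    have := Real.exp_one_lt_d9
    linarith
  have hllA : 0 ≤ Real.log (Real.log A) := Real.log_nonneg hlA1
  set z : ℝ := Y ^ (1 / (8 * s)) with hz
  have hYz : Y ≤ z := by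
    rw [hz]
    calc Y = Y ^ (1 : ℝ) := (Real.rpow_one Y).symm
      _ ≤ Y ^ (1 / (8 * s)) := by
          refine Real.rpow_le_rpow_of_exponent_le (by linarith) ?_
          rw [le_div_iff₀ (by positivity)]
          linarith
  have hz3 : 3 ≤ z := by linarith
  have hz0 : 0 < z := by linarith
  have hzs : z ^ (s / 2) = Y ^ (1 / 16 : ℝ) := by
    rw [hz, ← Real.rpow_mul hY0.le]; congr 1; field_simp; norm_num
  have hz2s : z ^ (2 * s) = Y ^ (1 / 4 : ℝ) := by
    rw [hz, ← Real.rpow_mul hY0.le]; congr 1; field_simp; norm_num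
  have hzs4 : z ^ (s / 4) = Y ^ (1 / 32 : ℝ) := by
    rw [hz, ← Real.rpow_mul hY0.le]; congr 1; field_simp; norm_num
  have hlz : 1 ≤ Real.log z := by
    rw [Real.le_log_iff_exp_le hz0]
    have := Real.exp_one_lt_d9
    linarith
  set u : ℕ → ℝ := fun i => (z ^ 2) ^ (2 ^ i) with hu
  have huz : ∀ i, u i = (z ^ (2 ^ i)) ^ 2 := by
    intro i
    rw [hu]
    simp only
    rw [← pow_mul, ← pow_mul, mul_comm]
  have hupos : ∀ i, 0 < u i := fun i => by rw [hu]; positivity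
  have hu_half : ∀ i, u i ^ (1 / 2 : ℝ) = z ^ (2 ^ i) := by
    intro i
    rw [huz, ← Real.rpow_natCast (z ^ (2 ^ i)) 2, ← Real.rpow_mul (by positivity)]
    norm_num
  have hzz : 9 ≤ z ^ 2 := by nlinarith
  have huz2 : ∀ i, z ^ 2 ≤ u i := by
    intro i
    rw [hu]
    simp only
    exact le_self_pow₀ (by linarith) (by positivity)
  set J : ℕ := ⌊2 * Real.log (Real.log A)⌋₊ with hJ
  set Js : Finset ℕ := Finset.range (J + 1) with hJs
  set E : ℕ → Finset ℤ := fun j => (Finset.Icc (-(A : ℤ)) A).filter fun a : ℤ =>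
      2 * u j ^ (-((1 - θ) / 8)) ≤ ∑ p ∈ smallP θ a A ∩ Pu (u j) A,
        (p : ℝ) ^ (-1 + (1 - θ) / 2) with hE
  have hJR : ((J : ℝ) + 1) ≤ 2 * Real.log (Real.log A) + 1 := by
    have := Nat.floor_le (show 0 ≤ 2 * Real.log (Real.log A) by linarith)
    linarith
  have hEcard : ∀ j ∈ Js, ((E j).card : ℝ) ≤
      4 * A * (Real.exp (-(s / 16) * z) ^ (j + 1) + (A : ℝ) ^ (-(s / 32))) := by
    intro j _
    have he : Real.exp 1 ≤ u j := by
      have := Real.exp_one_lt_d9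
      have := huz2 j
      linarith
    have hu1 : 1 ≤ u j := by
      have := huz2 j
      linarith
    obtain ⟨k, hk1, hk2, hk3⟩ := choice hs0 he A hAn
    have hb := block hM hL hθ hθ1 hC (u j) hu1 A k hk1 (by
        rw [e16]
        calc C ≤ Y ^ (1 / 32 : ℝ) := g2
          _ = z ^ (s / 4) := hzs4.symm
          _ = (z ^ 2) ^ (s / 8) := by
              rw [← Real.rpow_natCast, ← Real.rpow_mul hz0.le]; congr 1; push_cast; ring
          _ ≤ u j ^ (s / 8) := Real.rpow_le_rpow (by positivity) (huz2 j) (by positivity)) hk2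
    refine hb.trans ?_
    rw [e16]
    have h1 : (u j ^ (-(s / 8))) ^ k ≤
        Real.exp (-(s / 16) * z) ^ (j + 1) + (A : ℝ) ^ (-(s / 32)) := by
      refine hk3.trans ?_
      gcongr
      rw [hu_half, ← Real.exp_nat_mul, Real.exp_le_exp]
      have h2 := pow_ge (show 2 ≤ z by linarith) j
      push_cast
      nlinarith
    gcongr
  have hcov : ((Finset.Icc (-(A : ℤ)) A).filter fun a : ℤ =>
      Y ^ (1 / 3 : ℝ) < W θ a A) ⊆ Js.biUnion E := by
    intro a ha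
    rw [Finset.mem_filter] at ha
    rw [Finset.mem_biUnion]
    by_contra hcon
    push Not at hcon
    have hj2 : ∀ j ∈ Js, ∑ p ∈ smallP θ a A ∩ Pu (u j) A, (p : ℝ) ^ (-1 + s) ≤
        2 * (1 / 2) ^ (j + 1) := by
      intro j hj
      have h1 := hcon j hj
      rw [hE] at h1
      simp only [Finset.mem_filter, not_and, not_le] at h1
      have h2 := h1 ha.1
      have h3 : u j ^ (-((1 - θ) / 8)) ≤ (1 / 2) ^ (j + 1) := by
        rw [e8, Real.rpow_neg (hupos j).le, one_div, inv_pow]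
        have h4 : (2 : ℝ) ^ (j + 1) ≤ u j ^ (s / 4) := by
          calc (2 : ℝ) ^ (j + 1) ≤ (Y ^ (1 / 16 : ℝ)) ^ (2 ^ j) := pow_ge' g4 j
            _ = (z ^ (s / 2)) ^ (2 ^ j) := by rw [hzs]
            _ = u j ^ (s / 4) := by
                rw [hu]
                simp only
                rw [← Real.rpow_natCast (z ^ (s / 2)), ← Real.rpow_natCast (z ^ 2),
                  ← Real.rpow_natCast z 2, ← Real.rpow_mul hz0.le, ← Real.rpow_mul hz0.le,
                  ← Real.rpow_mul hz0.le]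
                congr 1
                push_cast
                ring
        gcongr
      linarith
    have hsub : smallP θ a A ⊆ Finset.Icc 1 ⌊z ^ 2⌋₊ ∪
        Js.biUnion fun j => smallP θ a A ∩ Pu (u j) A := by
      intro p hp
      rw [Finset.mem_union, Finset.mem_Icc, Finset.mem_biUnion]
      have hp' := hp
      rw [smallP, Finset.mem_filter, Finset.mem_Icc] at hp'
      obtain ⟨⟨hp1, hpA⟩, hpp, -⟩ := hp'
      rcases le_or_gt (p : ℝ) (z ^ 2) with h | h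
      · exact Or.inl ⟨hp1, Nat.le_floor h⟩
      · right
        have hp0 : (0 : ℝ) < p := by exact_mod_cast hpp.pos
        set v : ℝ := Real.log (z ^ 2) with hv
        have hv1 : 1 ≤ v := by
          rw [hv, Real.log_pow]; push_cast; linarith
        have hlp : v < Real.log p := Real.log_lt_log (by positivity) h
        have hlpY : Real.log p ≤ Real.log A := Real.log_le_log hp0 (by exact_mod_cast hpA)
        set q : ℝ := Real.log p / v with hq
        have hq1 : 1 < q := by rw [hq, lt_div_iff₀ (by linarith)]; linarith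
        have hqc : 2 ≤ ⌈q⌉₊ := by
          have h1 : 1 < ⌈q⌉₊ := Nat.lt_ceil.2 (by exact_mod_cast hq1)
          omega
        obtain ⟨r, hr⟩ : ∃ r, ⌈q⌉₊ = r + 1 := ⟨⌈q⌉₊ - 1, by omega⟩
        have hr1 : 1 ≤ r := by omega
        have hrq : (r : ℝ) < q := by
          rw [← Nat.lt_ceil]; omega
        have hqr : q ≤ (r : ℝ) + 1 := by
          have h1 := Nat.le_ceil q
          rw [hr] at h1
          push_cast at h1
          exact h1
        set i : ℕ := Nat.log 2 r with hi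
        have h2i : (2 : ℝ) ^ i < q := by
          have h1 := Nat.pow_log_le_self 2 (show r ≠ 0 by omega)
          have h2 : ((2 ^ i : ℕ) : ℝ) ≤ (r : ℝ) := by exact_mod_cast h1
          push_cast at h2
          linarith
        have h2i1 : q ≤ (2 : ℝ) ^ (i + 1) := by
          have h1 := Nat.lt_pow_succ_log_self (b := 2) (by norm_num) r
          have h2 : ((r + 1 : ℕ) : ℝ) ≤ ((2 ^ (i + 1) : ℕ) : ℝ) := by exact_mod_cast h1
          push_cast at h2
          linarith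
        have k1 : 2 ^ i * v < Real.log p := by
          rwa [hq, lt_div_iff₀ (by linarith)] at h2i
        have k2 : Real.log p ≤ 2 ^ (i + 1) * v := by
          rwa [hq, div_le_iff₀ (by linarith)] at h2i1
        have hlogu : Real.log (u i) = 2 ^ i * v := by
          rw [hu]
          simp only
          rw [Real.log_pow]
          push_cast
          ring
        have hu1 : u i < p := by
          rw [← Real.log_lt_log_iff (hupos i) hp0, hlogu]
          exact k1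
        have hu2 : (p : ℝ) ≤ u i ^ 2 := by
          rw [← Real.log_le_log_iff hp0 (by have := hupos i; positivity), Real.log_pow, hlogu]
          push_cast
          rw [pow_succ] at k2
          linarith
        refine ⟨i, ?_, ?_⟩
        · rw [hJs, Finset.mem_range, hJ]
          have h1 : (i : ℝ) ≤ 2 * Real.log (Real.log A) := by
            have h2 : (2 : ℝ) ^ i ≤ Real.log A := by nlinarith [show (0 : ℝ) < 2 ^ i by positivity]
            have h3 := Real.log_le_log (by positivity) h2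
            rw [Real.log_pow] at h3
            have h4 := Real.log_two_gt_d9
            have h5 : (0 : ℝ) ≤ i := Nat.cast_nonneg i
            nlinarith
          have := Nat.le_floor h1
          omega
        · rw [Finset.mem_inter]
          refine ⟨hp, ?_⟩
          rw [Pu, Finset.mem_filter, Finset.mem_Icc]
          exact ⟨⟨hp1, le_min (Nat.le_floor hu2) hpA⟩, hpp, hu1⟩
    have hW : W θ a A ≤ Y ^ (1 / 3 : ℝ) := by
      have hnn : ∀ p : ℕ, 0 ≤ (p : ℝ) ^ (-1 + s) := fun p => by positivity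
      calc W θ a A = ∑ p ∈ smallP θ a A, (p : ℝ) ^ (-1 + s) := rfl
        _ ≤ ∑ p ∈ Finset.Icc 1 ⌊z ^ 2⌋₊ ∪ Js.biUnion fun j => smallP θ a A ∩ Pu (u j) A,
              (p : ℝ) ^ (-1 + s) :=
            Finset.sum_le_sum_of_subset_of_nonneg hsub fun p _ _ => hnn p
        _ ≤ ∑ p ∈ Finset.Icc 1 ⌊z ^ 2⌋₊, (p : ℝ) ^ (-1 + s) +
              ∑ p ∈ Js.biUnion fun j => smallP θ a A ∩ Pu (u j) A, (p : ℝ) ^ (-1 + s) := by
            have h1 := Finset.sum_union_inter (s₁ := Finset.Icc 1 ⌊z ^ 2⌋₊)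
              (s₂ := Js.biUnion fun j => smallP θ a A ∩ Pu (u j) A)
              (f := fun p : ℕ => (p : ℝ) ^ (-1 + s))
            have h2 : 0 ≤ ∑ p ∈ Finset.Icc 1 ⌊z ^ 2⌋₊ ∩
              Js.biUnion fun j => smallP θ a A ∩ Pu (u j) A, (p : ℝ) ^ (-1 + s) :=
              Finset.sum_nonneg fun p _ => hnn p
            linarith
        _ ≤ Y ^ (1 / 4 : ℝ) / s + 2 := by
            have h1 : ∑ p ∈ Finset.Icc 1 ⌊z ^ 2⌋₊, (p : ℝ) ^ (-1 + s) ≤ Y ^ (1 / 4 : ℝ) / s := by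
              have h := T2aux.sum_rpow_le s hs0 (by linarith) ⌊z ^ 2⌋₊
              have e : -(1 - s) = -1 + s := by ring
              rw [e] at h
              refine h.trans ?_
              gcongr
              calc (⌊z ^ 2⌋₊ : ℝ) ^ s ≤ (z ^ 2) ^ s :=
                    Real.rpow_le_rpow (Nat.cast_nonneg _) (Nat.floor_le (by positivity)) hs0.le
                _ = z ^ (2 * s) := by
                    rw [← Real.rpow_natCast, ← Real.rpow_mul hz0.le]; norm_num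
                _ = Y ^ (1 / 4 : ℝ) := hz2s
            have h2 : ∑ p ∈ Js.biUnion fun j => smallP θ a A ∩ Pu (u j) A, (p : ℝ) ^ (-1 + s) ≤
                2 := by
              calc ∑ p ∈ Js.biUnion fun j => smallP θ a A ∩ Pu (u j) A, (p : ℝ) ^ (-1 + s) ≤
                    ∑ j ∈ Js, ∑ p ∈ smallP θ a A ∩ Pu (u j) A, (p : ℝ) ^ (-1 + s) :=
                    sum_biUnion_le _ _ _ fun p => hnn p
                _ ≤ ∑ j ∈ Js, 2 * (1 / 2) ^ (j + 1) := Finset.sum_le_sum hj2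
                _ = 2 * ∑ j ∈ Js, (1 / 2) ^ (j + 1) := by rw [Finset.mul_sum]
                _ ≤ 2 * (2 * (1 / 2)) := by
                    gcongr
                    exact geom (by norm_num) le_rfl _
                _ = 2 := by norm_num
            linarith
        _ ≤ Y ^ (1 / 3 : ℝ) := g3
    exact absurd ha.2 (not_lt.2 hW)
  calc ((((Finset.Icc (-(A : ℤ)) A).filter fun a : ℤ =>
      Y ^ (1 / 3 : ℝ) < W θ a A).card : ℕ) : ℝ) ≤ ((Js.biUnion E).card : ℝ) := by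
          exact_mod_cast Finset.card_le_card hcov
      _ ≤ ∑ j ∈ Js, ((E j).card : ℝ) := by exact_mod_cast Finset.card_biUnion_le
      _ ≤ ∑ j ∈ Js, 4 * A * (Real.exp (-(s / 16) * z) ^ (j + 1) + (A : ℝ) ^ (-(s / 32))) :=
          Finset.sum_le_sum hEcard
      _ = 4 * A * (∑ j ∈ Js, Real.exp (-(s / 16) * z) ^ (j + 1) +
            ((J : ℝ) + 1) * (A : ℝ) ^ (-(s / 32))) := by
          rw [← Finset.mul_sum, Finset.sum_add_distrib, Finset.sum_const, nsmul_eq_mul, hJs,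
            Finset.card_range]
          push_cast
          ring
      _ ≤ 4 * A * (2 * Real.exp (-(s / 16) * z) +
            (2 * Real.log (Real.log A) + 1) * (A : ℝ) ^ (-(s / 32))) := by
          gcongr
          exact geom (Real.exp_pos _).le g5 _
      _ = A * (8 * Real.exp (-(s / 16) * z) +
            4 * (2 * Real.log (Real.log A) + 1) * (A : ℝ) ^ (-(s / 32))) := by ring
      _ ≤ _ := by gcongr

end Pool.Agent.Lib.MP_a260de_nt
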