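import Pool.Agent.Lib.MP_a260de_nt.Main
import Pool.Agent.Lib.MP_a260de_nt.PowerX

/-!
# MP_a260de_nt: assembly, uniform form
-/

set_option autoImplicit false

namespace Pool.Agent.Lib.MP_a260de_nt

open Filter Topology Finalaux Mainaux

/-- Almost all bases, with a small exceptional set. -/
theorem almost_allX (hM : StmtMoment) (hL : StmtLower) (hMe : StmtMean) (h2 : StmtT2)
    (h3 : StmtT3) (hN : StmtN3) (hF : StmtFinal) (δ : ℝ) (hδ : 0 < δ) (K : ℝ) (hK : 0 < K) :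
    ∃ c : ℝ, 0 < c ∧ ∃ x₀ : ℝ, ∀ X : ℝ, x₀ ≤ X → ∀ A : ℕ,
      ((exc δ X A).card : ℝ) ≤ A * (Real.exp (-Real.log X ^ K) + (A : ℝ) ^ (-c)) := by
  set δ' : ℝ := min (min δ (1 / 2)) (1 / (2 * K)) with hδ'
  have hδ'0 : 0 < δ' := lt_min (lt_min hδ (by norm_num)) (by positivity)
  have hδ'1 : δ' ≤ 1 / 2 := (min_le_left _ _).trans (min_le_right _ _)
  have hδδ : δ' ≤ δ := (min_le_left _ _).trans (min_le_left _ _)
  have hδK : δ' ≤ 1 / (2 * K) := min_le_right _ _
  set θ : ℝ := 1 - δ' / 4 with hθ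
  obtain ⟨x₁, hx₁⟩ := good_base h2 h3 hN hF (τ' := 1 - δ') (τ := 1 - δ' / 2) (θ := θ)
    (by linarith) (by linarith) (by linarith) (by linarith) (by linarith)
  obtain ⟨Y₀, hY₀⟩ := powerX hM hL hMe θ (by linarith) (by linarith)
  have hl2 : Tendsto (fun x : ℝ => Real.log (Real.log x)) atTop atTop :=
    Real.tendsto_log_atTop.comp Real.tendsto_log_atTop
  have hl3 : Tendsto (fun x : ℝ => Real.log (Real.log x) ^ (4 : ℝ)) atTop atTop :=
    (tendsto_rpow_atTop (by norm_num)).comp hl2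
  have hl4 : Tendsto (fun x : ℝ => Real.exp (Real.log (Real.log x) ^ (4 : ℝ))) atTop atTop :=
    Real.tendsto_exp_atTop.comp hl3
  obtain ⟨x₂, hx₂⟩ := eventually_atTop.1 ((Real.tendsto_log_atTop.eventually_ge_atTop Y₀).and
    (ep_nonneg_eventually.and ((Real.tendsto_log_atTop.eventually_ge_atTop 1).and
      ((eventually_ge_atTop 1).and ((hl2.eventually_ge_atTop 0).and
        (hl4.eventually_ge_atTop Y₀))))))
  refine ⟨(1 - θ) / 128, by linarith, max x₁ x₂, fun X hX A => ?_⟩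
  have hXx₁ : x₁ ≤ X := (le_max_left _ _).trans hX
  have hXx₂ : x₂ ≤ X := (le_max_right _ _).trans hX
  obtain ⟨g1, -, g3, g4, g5, g6⟩ := hx₂ X hXx₂
  set y : ℝ := Real.log X with hy
  have hy0 : 0 < y := by linarith
  have hrhs : 0 ≤ (A : ℝ) * (Real.exp (-y ^ K) + (A : ℝ) ^ (-((1 - θ) / 128))) := by positivity
  rcases Finset.eq_empty_or_nonempty (exc δ X A) with hemp | ⟨a₀, ha₀⟩
  · rw [hemp, Finset.card_empty, Nat.cast_zero]
    exact hrhs
  -- `A` is large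
  have hAY : Y₀ ≤ A := by
    rw [mem_exc, Finset.mem_Icc] at ha₀
    obtain ⟨hIcc, ha1, x, hXx, hxA, -⟩ := ha₀
    have hA1 : (1 : ℝ) ≤ A := by
      have h1 : |a₀| ≤ A := abs_le.2 hIcc
      have h2 : (1 : ℤ) ≤ A := by omega
      exact_mod_cast h2
    have hlA : 0 ≤ Real.log A := Real.log_nonneg hA1
    have hXA : X ≤ Real.exp (Real.exp (Real.log A ^ (1 / 4 : ℝ))) := hXx.trans hxA
    have i1 : y ≤ Real.exp (Real.log A ^ (1 / 4 : ℝ)) := by
      rw [← Real.log_exp (Real.exp (Real.log A ^ (1 / 4 : ℝ)))]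
      exact Real.log_le_log (by linarith) hXA
    have i2 : Real.log y ≤ Real.log A ^ (1 / 4 : ℝ) := by
      rw [← Real.log_exp (Real.log A ^ (1 / 4 : ℝ))]
      exact Real.log_le_log hy0 i1
    have i3 : Real.log y ^ (4 : ℝ) ≤ Real.log A := by
      calc Real.log y ^ (4 : ℝ) ≤ (Real.log A ^ (1 / 4 : ℝ)) ^ (4 : ℝ) :=
            Real.rpow_le_rpow g5 i2 (by norm_num)
        _ = Real.log A := by rw [← Real.rpow_mul hlA]; norm_num
    calc Y₀ ≤ Real.exp (Real.log y ^ (4 : ℝ)) := g6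
      _ ≤ Real.exp (Real.log A) := Real.exp_le_exp.2 i3
      _ = A := Real.exp_log (by linarith)
  have hpow := hY₀ y g1 A hAY
  have hsub : exc δ X A ⊆ (Finset.Icc (-(A : ℤ)) A).filter fun a : ℤ =>
      y ^ (1 / 3 : ℝ) < W θ a A := by
    intro a ha
    rw [mem_exc, Finset.mem_Icc] at ha
    obtain ⟨hIcc, ha1, x, hXx, hxA, hlt⟩ := ha
    rw [Finset.mem_filter, Finset.mem_Icc]
    refine ⟨hIcc, ?_⟩
    by_contra hcon
    push Not at hcon
    obtain ⟨-, g2, g3', g4', -⟩ := hx₂ x (hXx₂.trans hXx)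
    have hx0 : 0 < x := by linarith
    have hlog : y ≤ Real.log x := Real.log_le_log (by linarith) hXx
    have hW : W θ a A ≤ Real.log x ^ (1 / 3 : ℝ) :=
      hcon.trans (Real.rpow_le_rpow hy0.le hlog (by norm_num))
    have hA : Real.log (Real.log x) ≤ Real.log A ^ (1 / 4 : ℝ) := by
      have i1 : Real.log x ≤ Real.exp (Real.log A ^ (1 / 4 : ℝ)) := by
        rw [← Real.log_exp (Real.exp (Real.log A ^ (1 / 4 : ℝ)))]
        exact Real.log_le_log hx0 hxA
      rw [← Real.log_exp (Real.log A ^ (1 / 4 : ℝ))]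
      exact Real.log_le_log (by linarith) i1
    have hb := hx₁ x (hXx₁.trans hXx) A a (Or.inl hA) (by omega) (abs_le.2 hIcc) hW
    have hmono : x ^ (1 - (1 - δ') * ep x) ≤ x ^ (1 - (1 - δ) * ep x) :=
      Real.rpow_le_rpow_of_exponent_le g4' (by nlinarith)
    linarith
  have hKe : K ≤ 1 / (8 * (1 - θ)) := by
    have h1 : 8 * (1 - θ) = 2 * δ' := by rw [hθ]; ring
    rw [h1, le_div_iff₀ (by positivity)]
    rw [le_div_iff₀ (by positivity)] at hδK
    linarith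
  have hyK : y ^ K ≤ y ^ (1 / (8 * (1 - θ))) := Real.rpow_le_rpow_of_exponent_le g3 hKe
  calc ((exc δ X A).card : ℝ) ≤ ((((Finset.Icc (-(A : ℤ)) A).filter fun a : ℤ =>
      y ^ (1 / 3 : ℝ) < W θ a A).card : ℕ) : ℝ) := by exact_mod_cast Finset.card_le_card hsub
    _ ≤ _ := hpow
    _ ≤ _ := by
        gcongr

end Pool.Agent.Lib.MP_a260de_nt
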