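import Pool.Agent.Lib.MP_a260de_nt.SpecM

/-!
# MP_a260de_nt: the mean over the primes larger than `u`
-/

set_option autoImplicit false

namespace Pool.Agent.Lib.MP_a260de_nt

namespace Meanaux

theorem card_order (p : ℕ) [Fact p.Prime] (d : ℕ) (hd : 0 < d) :
    (Finset.univ.filter fun x : ZMod p => orderOf x = d).card ≤ d := by
  classical
  calc (Finset.univ.filter fun x : ZMod p => orderOf x = d).card
      ≤ (Polynomial.nthRoots d (1 : ZMod p)).toFinset.card := by
        apply Finset.card_le_card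
        intro x hx
        rw [Finset.mem_filter] at hx
        rw [Multiset.mem_toFinset, Polynomial.mem_nthRoots hd, ← hx.2]
        exact pow_orderOf_eq_one x
    _ ≤ d := (Multiset.toFinset_card_le _).trans (Polynomial.card_nthRoots _ _)

theorem R_le (θ : ℝ) (p : ℕ) (hp : p.Prime) :
    (R θ p : ℝ) ≤ (p : ℝ) ^ θ * (p - 1).divisors.card := by
  classical
  have := Fact.mk hp
  set D := (p - 1).divisors.filter fun d : ℕ => (d : ℝ) ≤ (p : ℝ) ^ θ with hD
  have h1 : R θ p ≤ ∑ d ∈ D, d := by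
    unfold R
    calc _ ≤ (D.biUnion fun d => Finset.univ.filter fun x : ZMod p => orderOf x = d).card := by
          apply Finset.card_le_card_of_injOn (fun r : ℕ => (r : ZMod p))
          · intro r hr
            rw [Finset.mem_coe, Finset.mem_filter] at hr
            obtain ⟨-, h0, h1⟩ := hr
            unfold od at h0 h1
            rw [Int.cast_natCast] at h0 h1
            have hne : (r : ZMod p) ≠ 0 := by
              intro h
              rw [h] at h0
              have := pow_orderOf_eq_one (0 : ZMod p)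
              rw [zero_pow h0.ne'] at this
              exact zero_ne_one this
            rw [Finset.mem_coe, Finset.mem_biUnion]
            refine ⟨orderOf (r : ZMod p), ?_, ?_⟩
            · rw [hD, Finset.mem_filter, Nat.mem_divisors]
              exact ⟨⟨ZMod.orderOf_dvd_card_sub_one hne, by have := hp.two_le; omega⟩, h1⟩
            · rw [Finset.mem_filter]
              exact ⟨Finset.mem_univ _, rfl⟩
          · intro r hr r' hr' h
            rw [Finset.mem_coe, Finset.mem_filter, Finset.mem_range] at hr hr'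
            have h2 : (r : ZMod p) = (r' : ZMod p) := h
            rw [ZMod.natCast_eq_natCast_iff', Nat.mod_eq_of_lt hr.1, Nat.mod_eq_of_lt hr'.1] at h2
            exact h2
      _ ≤ ∑ d ∈ D, (Finset.univ.filter fun x : ZMod p => orderOf x = d).card :=
          Finset.card_biUnion_le
      _ ≤ ∑ d ∈ D, d := Finset.sum_le_sum fun d hd =>
          card_order p d (Nat.pos_of_mem_divisors (Finset.mem_filter.1 hd).1)
  calc (R θ p : ℝ) ≤ ((∑ d ∈ D, d : ℕ) : ℝ) := by exact_mod_cast h1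
    _ = ∑ d ∈ D, (d : ℝ) := by push_cast; rfl
    _ ≤ ∑ d ∈ D, (p : ℝ) ^ θ := Finset.sum_le_sum fun d hd => (Finset.mem_filter.1 hd).2
    _ = D.card * (p : ℝ) ^ θ := by rw [Finset.sum_const, nsmul_eq_mul]
    _ ≤ (p - 1).divisors.card * (p : ℝ) ^ θ := by
        apply mul_le_mul_of_nonneg_right _ (Real.rpow_nonneg (Nat.cast_nonneg _) _)
        exact_mod_cast Finset.card_filter_le _ _
    _ = _ := mul_comm _ _

/-- The Dirichlet series of the divisor function. -/
theorem sum_divisors_le (f : ℕ → ℝ) (hf : ∀ n, 0 ≤ f n) (hs : Summable f)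
    (hmul : ∀ a b, f (a * b) = f a * f b) (T : Finset ℕ) (hT : ∀ n ∈ T, 1 ≤ n) :
    ∑ n ∈ T, f n * n.divisors.card ≤ (∑' n, f n) ^ 2 := by
  classical
  set M := T.sup id with hM
  have hM' : ∀ n ∈ T, n ≤ M := fun n hn => Finset.le_sup (f := id) hn
  set S := Finset.Icc 1 M ×ˢ Finset.Icc 1 M with hS
  have h1 : ∀ n ∈ T, f n * n.divisors.card ≤
      ∑ x ∈ S, if x.1 * x.2 = n then f x.1 * f x.2 else 0 := by
    intro n hn
    have e1 : n.divisors.card = n.divisorsAntidiagonal.card := by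
      rw [← Nat.map_div_right_divisors, Finset.card_map]
    rw [e1, mul_comm, ← nsmul_eq_mul, ← Finset.sum_const, ← Finset.sum_filter]
    calc ∑ x ∈ n.divisorsAntidiagonal, f n = ∑ x ∈ n.divisorsAntidiagonal, f x.1 * f x.2 := by
          refine Finset.sum_congr rfl fun x hx => ?_
          rw [← hmul, (Nat.mem_divisorsAntidiagonal.1 hx).1]
      _ ≤ _ := by
          apply Finset.sum_le_sum_of_subset_of_nonneg
          · intro x hx
            have hx' := Nat.mem_divisorsAntidiagonal.1 hx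
            have hn1 := hT n hn
            have hn2 := hM' n hn
            have hp1 : 1 ≤ x.1 := Nat.pos_of_ne_zero (by rintro h; rw [h, zero_mul] at hx'; omega)
            have hp2 : 1 ≤ x.2 := Nat.pos_of_ne_zero (by rintro h; rw [h, mul_zero] at hx'; omega)
            have hl1 : x.1 ≤ n := Nat.le_of_dvd hn1 ⟨x.2, hx'.1.symm⟩
            have hl2 : x.2 ≤ n := Nat.le_of_dvd hn1 ⟨x.1, by rw [mul_comm, hx'.1]⟩
            rw [Finset.mem_filter, hS, Finset.mem_product, Finset.mem_Icc, Finset.mem_Icc]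
            exact ⟨⟨⟨hp1, hl1.trans hn2⟩, ⟨hp2, hl2.trans hn2⟩⟩, hx'.1⟩
          · intro x _ _
            exact mul_nonneg (hf _) (hf _)
  calc ∑ n ∈ T, f n * n.divisors.card
      ≤ ∑ n ∈ T, ∑ x ∈ S, (if x.1 * x.2 = n then f x.1 * f x.2 else 0) := Finset.sum_le_sum h1
    _ = ∑ x ∈ S, ∑ n ∈ T, (if x.1 * x.2 = n then f x.1 * f x.2 else 0) := Finset.sum_comm
    _ ≤ ∑ x ∈ S, f x.1 * f x.2 := by
        refine Finset.sum_le_sum fun x _ => ?_
        rw [Finset.sum_ite_eq]
        split_ifs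
        · exact le_rfl
        · exact mul_nonneg (hf _) (hf _)
    _ = (∑ a ∈ Finset.Icc 1 M, f a) * ∑ b ∈ Finset.Icc 1 M, f b := by
        rw [hS, Finset.sum_product, Finset.sum_mul_sum]
    _ ≤ (∑' n, f n) ^ 2 := by
        have h2 : ∑ a ∈ Finset.Icc 1 M, f a ≤ ∑' n, f n := hs.sum_le_tsum _ fun n _ => hf n
        have h3 : 0 ≤ ∑ a ∈ Finset.Icc 1 M, f a := Finset.sum_nonneg fun n _ => hf n
        rw [sq]
        exact mul_le_mul h2 h2 h3 (h3.trans h2)

end Meanaux

theorem mean : StmtMean := by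
  intro θ hθ0 hθ1
  set σ := (1 - θ) / 4 with hσ
  have hσ0 : 0 < σ := by rw [hσ]; linarith
  set f : ℕ → ℝ := fun n => (n : ℝ) ^ (-1 - σ) with hf
  have hf0 : ∀ n, 0 ≤ f n := fun n => Real.rpow_nonneg (Nat.cast_nonneg _) _
  have hs : Summable f := Real.summable_nat_rpow.2 (by linarith)
  have hmul : ∀ a b, f (a * b) = f a * f b := by
    intro a b
    simp only [hf]
    rw [Nat.cast_mul, Real.mul_rpow (Nat.cast_nonneg _) (Nat.cast_nonneg _)]
  refine ⟨(∑' n, f n) ^ 2 + 1, by positivity, fun u P hu hP => ?_⟩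
  have hterm : ∀ p ∈ P, (p : ℝ) ^ (-1 + (1 - θ) / 2) * ((R θ p : ℝ) / p) ≤
      u ^ (-σ) * (f (p - 1) * (p - 1).divisors.card) := by
    intro p hp
    obtain ⟨hpp, hup⟩ := hP p hp
    have hp0 : (0 : ℝ) < p := by exact_mod_cast hpp.pos
    have hu0 : 0 < u := by linarith
    have hR := Meanaux.R_le θ p hpp
    have e1 : (p : ℝ) ^ (-1 + (1 - θ) / 2) * ((p : ℝ) ^ θ * (p - 1).divisors.card / p) =
        (p : ℝ) ^ (-σ) * ((p : ℝ) ^ (-1 - σ) * (p - 1).divisors.card) := by
      have e2 : (p : ℝ) ^ (-1 + (1 - θ) / 2) * (p : ℝ) ^ θ * (p : ℝ) ^ (-1 : ℝ) =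
          (p : ℝ) ^ (-σ) * (p : ℝ) ^ (-1 - σ) := by
        rw [← Real.rpow_add hp0, ← Real.rpow_add hp0, ← Real.rpow_add hp0]
        congr 1
        rw [hσ]
        ring
      rw [Real.rpow_neg_one] at e2
      calc _ = ((p : ℝ) ^ (-1 + (1 - θ) / 2) * (p : ℝ) ^ θ * (p : ℝ)⁻¹) *
            (p - 1).divisors.card := by ring
        _ = _ := by rw [e2]; ring
    have h1 : (p : ℝ) ^ (-σ) ≤ u ^ (-σ) :=
      Real.rpow_le_rpow_of_nonpos hu0 hup.le (by linarith)
    have h2 : (p : ℝ) ^ (-1 - σ) ≤ f (p - 1) := by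
      simp only [hf]
      have h3 := hpp.two_le
      apply Real.rpow_le_rpow_of_nonpos
      · exact_mod_cast (by omega : 0 < p - 1)
      · exact_mod_cast Nat.sub_le p 1
      · linarith
    calc (p : ℝ) ^ (-1 + (1 - θ) / 2) * ((R θ p : ℝ) / p)
        ≤ (p : ℝ) ^ (-1 + (1 - θ) / 2) * ((p : ℝ) ^ θ * (p - 1).divisors.card / p) := by
          gcongr
      _ = (p : ℝ) ^ (-σ) * ((p : ℝ) ^ (-1 - σ) * (p - 1).divisors.card) := e1
      _ ≤ u ^ (-σ) * (f (p - 1) * (p - 1).divisors.card) := by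
          gcongr
  have hinj : Set.InjOn (fun p : ℕ => p - 1) P := by
    intro p hp q hq h
    have h1 := (hP p hp).1.two_le
    have h2 := (hP q hq).1.two_le
    have h3 : p - 1 = q - 1 := h
    omega
  calc ∑ p ∈ P, (p : ℝ) ^ (-1 + (1 - θ) / 2) * ((R θ p : ℝ) / p)
      ≤ ∑ p ∈ P, u ^ (-σ) * (f (p - 1) * (p - 1).divisors.card) := Finset.sum_le_sum hterm
    _ = u ^ (-σ) * ∑ n ∈ P.image fun p => p - 1, f n * n.divisors.card := by
        rw [← Finset.mul_sum, Finset.sum_image hinj]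
    _ ≤ u ^ (-σ) * (∑' n, f n) ^ 2 := by
        apply mul_le_mul_of_nonneg_left _ (Real.rpow_nonneg (by linarith) _)
        apply Meanaux.sum_divisors_le f hf0 hs hmul
        intro n hn
        obtain ⟨p, hp, rfl⟩ := Finset.mem_image.1 hn
        have := (hP p hp).1.two_le
        omega
    _ ≤ ((∑' n, f n) ^ 2 + 1) * u ^ (-σ) := by
        have := Real.rpow_nonneg (by linarith : (0 : ℝ) ≤ u) (-σ)
        nlinarith

end Pool.Agent.Lib.MP_a260de_nt
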