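import Pool.Agent.Lib.MP_a260de_nt.SpecM

/-!
# MP_a260de_nt: the k-th moment
-/

set_option autoImplicit false

namespace Pool.Agent.Lib.MP_a260de_nt

namespace Momentaux

theorem claim (h : StmtCrt) (θ : ℝ) (A y : ℕ) (P : Finset ℕ) (w : ℕ → ℝ) (hw : ∀ p, 0 ≤ w p)
    (hP : ∀ p ∈ P, p.Prime ∧ p ≤ y) : ∀ (k : ℕ) (Q : Finset ℕ), (∀ q ∈ Q, q.Prime) →
    (∏ q ∈ Q, q) * y ^ k ≤ A →
    ∑ a ∈ (Finset.Icc (-(A : ℤ)) A).filter (fun a : ℤ => Q ⊆ smallP θ a A),
      N w k ((smallP θ a A ∩ P) \ Q) ≤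
      4 * A * (∏ q ∈ Q, ((R θ q : ℝ) / q)) * (∑ p ∈ P, w p * ((R θ p : ℝ) / p)) ^ k := by
  intro k
  induction k with
  | zero =>
    intro Q hQ hA
    rw [pow_zero, mul_one] at hA
    simp only [N, pow_zero, mul_one]
    rw [Finset.sum_const, nsmul_eq_mul, mul_one]
    exact h θ A Q hQ hA
  | succ k ih =>
    intro Q hQ hA
    set S := Finset.Icc (-(A : ℤ)) A with hS
    set s : ℤ → Finset ℕ := fun a => smallP θ a A with hs
    set μ := ∑ p ∈ P, w p * ((R θ p : ℝ) / p) with hμ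
    have hR : ∀ q : ℕ, 0 ≤ (R θ q : ℝ) / q := fun q => by positivity
    have hμ0 : 0 ≤ μ := Finset.sum_nonneg fun p _ => mul_nonneg (hw p) (hR p)
    have hprod : 0 ≤ ∏ q ∈ Q, ((R θ q : ℝ) / q) := Finset.prod_nonneg fun q _ => hR q
    have e1 : ∑ a ∈ S.filter (fun a : ℤ => Q ⊆ s a), N w (k + 1) ((s a ∩ P) \ Q) =
        ∑ a ∈ S.filter (fun a : ℤ => Q ⊆ s a), ∑ p ∈ (s a ∩ P) \ Q,
          w p * N w k ((s a ∩ P) \ insert p Q) := by
      refine Finset.sum_congr rfl fun a _ => ?_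
      rw [N]
      refine Finset.sum_congr rfl fun p _ => ?_
      congr 2
      ext q
      simp only [Finset.mem_erase, Finset.mem_sdiff, Finset.mem_inter, Finset.mem_insert]
      tauto
    have e2 : ∑ a ∈ S.filter (fun a : ℤ => Q ⊆ s a), ∑ p ∈ (s a ∩ P) \ Q,
          w p * N w k ((s a ∩ P) \ insert p Q) =
        ∑ p ∈ P \ Q, ∑ a ∈ S.filter (fun a : ℤ => insert p Q ⊆ s a),
          w p * N w k ((s a ∩ P) \ insert p Q) := by
      refine Finset.sum_comm' fun a p => ?_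
      simp only [Finset.mem_filter, Finset.mem_sdiff, Finset.mem_inter, Finset.insert_subset_iff]
      tauto
    rw [e1, e2]
    have e3 : ∀ p ∈ P \ Q, ∑ a ∈ S.filter (fun a : ℤ => insert p Q ⊆ s a),
        w p * N w k ((s a ∩ P) \ insert p Q) ≤
        (4 * A * (∏ q ∈ Q, ((R θ q : ℝ) / q)) * μ ^ k) * (w p * ((R θ p : ℝ) / p)) := by
      intro p hp
      rw [Finset.mem_sdiff] at hp
      have hpr := hP p hp.1
      have h1 : ∀ q ∈ insert p Q, q.Prime := by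
        intro q hq
        rcases Finset.mem_insert.mp hq with rfl | hq
        · exact hpr.1
        · exact hQ q hq
      have h2 : (∏ q ∈ insert p Q, q) * y ^ k ≤ A := by
        rw [Finset.prod_insert hp.2]
        calc p * (∏ q ∈ Q, q) * y ^ k ≤ y * (∏ q ∈ Q, q) * y ^ k :=
              Nat.mul_le_mul_right _ (Nat.mul_le_mul_right _ hpr.2)
          _ = (∏ q ∈ Q, q) * y ^ (k + 1) := by ring
          _ ≤ A := hA
      have h3 := ih (insert p Q) h1 h2
      rw [Finset.prod_insert hp.2] at h3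
      rw [← Finset.mul_sum]
      calc w p * ∑ a ∈ S.filter (fun a : ℤ => insert p Q ⊆ s a), N w k ((s a ∩ P) \ insert p Q)
          ≤ w p * (4 * A * ((R θ p : ℝ) / p * ∏ q ∈ Q, ((R θ q : ℝ) / q)) * μ ^ k) :=
            mul_le_mul_of_nonneg_left h3 (hw p)
        _ = _ := by ring
    refine (Finset.sum_le_sum e3).trans ?_
    rw [← Finset.mul_sum]
    have e4 : ∑ p ∈ P \ Q, w p * ((R θ p : ℝ) / p) ≤ μ :=
      Finset.sum_le_sum_of_subset_of_nonneg Finset.sdiff_subset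
        fun p _ _ => mul_nonneg (hw p) (hR p)
    calc 4 * A * (∏ q ∈ Q, ((R θ q : ℝ) / q)) * μ ^ k * ∑ p ∈ P \ Q, w p * ((R θ p : ℝ) / p)
        ≤ 4 * A * (∏ q ∈ Q, ((R θ q : ℝ) / q)) * μ ^ k * μ :=
          mul_le_mul_of_nonneg_left e4 (by positivity)
      _ = 4 * A * (∏ q ∈ Q, ((R θ q : ℝ) / q)) * μ ^ (k + 1) := by ring

end Momentaux

/-- The `k`-th moment. -/
theorem moment (h : StmtCrt) : StmtMoment := by
  intro θ A k y P w hw hP hA
  have h1 := Momentaux.claim h θ A y P w hw hP k ∅ (by simp) (by simpa using hA)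
  simpa using h1

end Pool.Agent.Lib.MP_a260de_nt
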