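import Pool.Agent.Lib.MP_a260de_nt.Spec

/-!
# MP_a260de_nt, N3: sum over large primes with small order
-/

set_option autoImplicit false

namespace Pool.Agent.Lib.MP_a260de_nt

namespace N3aux

theorem small_term {θ L : ℝ} (hθ : 1 / 3 ≤ θ) (hθ1 : θ < 1) (hL : 1 ≤ L) {p : ℕ}
    (hp : L ^ (2 / (1 - θ)) < (p : ℝ)) :
    L ≤ (p : ℝ) ^ θ ∧ 1 / (p : ℝ) ≤ (p : ℝ) ^ (-1 + (1 - θ) / 2) / L := by
  have h1θ : 0 < 1 - θ := by linarith
  have hL0 : 0 < L := by linarith
  have hB1 : 1 ≤ L ^ (2 / (1 - θ)) := Real.one_le_rpow hL (by positivity)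
  have hp1 : 1 ≤ (p : ℝ) := hB1.trans hp.le
  have hp0 : 0 < (p : ℝ) := by linarith
  have hs : L ≤ (p : ℝ) ^ ((1 - θ) / 2) := by
    calc L = (L ^ (2 / (1 - θ))) ^ ((1 - θ) / 2) := by
          rw [← Real.rpow_mul hL0.le, show 2 / (1 - θ) * ((1 - θ) / 2) = 1 by field_simp,
            Real.rpow_one]
      _ ≤ _ := Real.rpow_le_rpow (by positivity) hp.le (by positivity)
  refine ⟨hs.trans (Real.rpow_le_rpow_of_exponent_le hp1 (by linarith)), ?_⟩
  rw [le_div_iff₀ hL0, Real.rpow_add hp0, Real.rpow_neg_one, one_div]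
  exact mul_le_mul_of_nonneg_left hs (by positivity)

end N3aux

open N3aux in
theorem n3 (h : StmtLarge) : StmtN3 := by
  intro θ hθ hθ1 a A x L K ha haA hL hW
  have h1θ : 0 < 1 - θ := by linarith
  have hL0 : 0 < L := by linarith
  set F := (Finset.Icc 1 ⌊x⌋₊).filter (fun p : ℕ => p.Prime ∧ 0 < od a p ∧ (od a p : ℝ) ≤ L ∧
      L ^ (2 / (1 - θ)) < (p : ℝ)) with hF
  have hsplit := Finset.sum_filter_add_sum_filter_not F (fun p : ℕ => p ≤ A)
    (fun p => 1 / (p : ℝ))
  rw [← hsplit, add_div]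
  apply add_le_add
  · -- the primes up to `A`
    calc ∑ p ∈ F.filter (fun p : ℕ => p ≤ A), 1 / (p : ℝ)
        ≤ ∑ p ∈ F.filter (fun p : ℕ => p ≤ A), (p : ℝ) ^ (-1 + (1 - θ) / 2) / L := by
          apply Finset.sum_le_sum
          intro p hp
          rw [Finset.mem_filter, hF, Finset.mem_filter] at hp
          exact (small_term hθ hθ1 hL hp.1.2.2.2.2).2
      _ ≤ ∑ p ∈ smallP θ a A, (p : ℝ) ^ (-1 + (1 - θ) / 2) / L := by
          apply Finset.sum_le_sum_of_subset_of_nonneg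
          · intro p hp
            rw [Finset.mem_filter, hF, Finset.mem_filter, Finset.mem_Icc] at hp
            obtain ⟨⟨⟨h1, -⟩, h3, h4, h5, h6⟩, h7⟩ := hp
            unfold smallP
            rw [Finset.mem_filter, Finset.mem_Icc]
            exact ⟨⟨h1, h7⟩, h3, h4, h5.trans (small_term hθ hθ1 hL h6).1⟩
          · intro p _ _
            positivity
      _ = W θ a A / L := by
          unfold W
          rw [Finset.sum_div]
      _ ≤ K / L := by gcongr
  · -- the primes above `A`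
    set F2 := F.filter (fun p : ℕ => ¬ p ≤ A) with hF2
    have hcard : (F2.card : ℝ) ≤ L * L := by
      have h1 : F2.card = ∑ d ∈ Finset.Icc 1 ⌊L⌋₊, (F2.filter (fun p => od a p = d)).card := by
        apply Finset.card_eq_sum_card_fiberwise
        intro p hp
        have hp' := Finset.mem_coe.1 hp
        rw [hF2, Finset.mem_filter, hF, Finset.mem_filter] at hp'
        obtain ⟨⟨-, -, h4, h5, -⟩, -⟩ := hp'
        rw [Finset.mem_coe, Finset.mem_Icc]
        exact ⟨h4, Nat.le_floor h5⟩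
      have h2 : ∀ d ∈ Finset.Icc 1 ⌊L⌋₊, (F2.filter (fun p => od a p = d)).card ≤ ⌊L⌋₊ := by
        intro d hd
        rw [Finset.mem_Icc] at hd
        refine (h a A d ha haA hd.1 _ ?_).trans hd.2
        intro p hp
        rw [Finset.mem_filter, hF2, Finset.mem_filter, hF, Finset.mem_filter] at hp
        exact ⟨hp.1.1.2.1, not_le.1 hp.1.2, hp.2⟩
      have h3 : F2.card ≤ ⌊L⌋₊ * ⌊L⌋₊ := by
        rw [h1]
        refine (Finset.sum_le_sum h2).trans ?_
        simp
      have h4 : ((⌊L⌋₊ : ℕ) : ℝ) ≤ L := Nat.floor_le hL0.le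
      calc (F2.card : ℝ) ≤ ((⌊L⌋₊ * ⌊L⌋₊ : ℕ) : ℝ) := by exact_mod_cast h3
        _ = (⌊L⌋₊ : ℝ) * (⌊L⌋₊ : ℝ) := by push_cast; ring
        _ ≤ L * L := mul_le_mul h4 h4 (Nat.cast_nonneg _) hL0.le
    have hterm : ∀ p ∈ F2, 1 / (p : ℝ) ≤ 1 / (L * L * L) := by
      intro p hp
      rw [hF2, Finset.mem_filter, hF, Finset.mem_filter] at hp
      have h6 := hp.1.2.2.2.2
      have h7 : L * L * L ≤ L ^ (2 / (1 - θ)) := by
        have h8 : (3 : ℝ) ≤ 2 / (1 - θ) := by
          rw [le_div_iff₀ h1θ]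
          linarith
        calc L * L * L = L ^ (3 : ℝ) := by
              rw [show (3 : ℝ) = ((3 : ℕ) : ℝ) by norm_num, Real.rpow_natCast]
              ring
          _ ≤ _ := Real.rpow_le_rpow_of_exponent_le hL h8
      exact one_div_le_one_div_of_le (by positivity) (h7.trans h6.le)
    calc ∑ p ∈ F2, 1 / (p : ℝ) ≤ ∑ _p ∈ F2, 1 / (L * L * L) := Finset.sum_le_sum hterm
      _ = F2.card * (1 / (L * L * L)) := by simp
      _ ≤ (L * L) * (1 / (L * L * L)) := by gcongr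
      _ = 1 / L := by field_simp

end Pool.Agent.Lib.MP_a260de_nt
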