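import Pool.Agent.Lib.MP_a260de_nt.Few

/-!
# MP_a260de_nt: pseudoprimes with a large order, integers with a small order
-/

set_option autoImplicit false

namespace Pool.Agent.Lib.MP_a260de_nt

open Filter Topology Finalaux

namespace Ordaux

/-- The order modulo `n` is at most `n / d` times the order modulo `d`. -/
theorem od_mul_le {a : ℤ} {n d : ℕ} (hn : 0 < n) (hd : d ∣ n) (h0 : 0 < od a n) :
    od a n ≤ od a d * (n / d) := by
  classical
  have hd0 : 0 < d := Nat.pos_of_dvd_of_pos hd hn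
  have hnz : NeZero n := NeZero.of_pos hn
  have hdz : NeZero d := NeZero.of_pos hd0
  have hm0 : 0 < od a d := Nat.pos_of_dvd_of_pos (od_dvd_of_dvd (a := a) hd) h0
  set m := od a d with hm
  set w : ZMod n := (a : ZMod n) ^ m with hw
  have hfin : IsOfFinOrder w := (orderOf_pos_iff.1 h0).pow
  set k := orderOf w with hk
  have hk0 : 0 < k := orderOf_pos_iff.2 hfin
  have h1 : od a n ≤ m * k := by
    refine orderOf_le_of_pow_eq_one (Nat.mul_pos hm0 hk0) ?_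
    rw [pow_mul, ← hw, hk, pow_orderOf_eq_one]
  have h2 : k ≤ n / d := by
    have h3 : ∀ i : ℕ, (w ^ i).val % d = 1 % d := by
      intro i
      have h4 : ZMod.castHom hd (ZMod d) (w ^ i) = 1 := by
        rw [map_pow, hw, map_pow, map_intCast]
        have : (a : ZMod d) ^ m = 1 := by rw [hm, od, pow_orderOf_eq_one]
        rw [this, one_pow]
      have h5 : (((w ^ i).val : ℕ) : ZMod d) = ((1 : ℕ) : ZMod d) := by
        rw [Nat.cast_one, ← h4, ZMod.castHom_apply, ZMod.natCast_val]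
      exact (ZMod.natCast_eq_natCast_iff _ _ _).1 h5
    have h6 : (Finset.range k).card ≤ (Finset.range (n / d)).card := by
      refine Finset.card_le_card_of_injOn (fun i => (w ^ i).val / d) ?_ ?_
      · intro i _
        have h7 : (w ^ i).val < n := ZMod.val_lt _
        rw [Finset.coe_range, Set.mem_Iio, Nat.div_lt_iff_lt_mul hd0, Nat.div_mul_cancel hd]
        exact h7
      · intro i hi j hj hij
        beta_reduce at hij
        have h8 : (w ^ i).val = (w ^ j).val := by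
          rw [← Nat.div_add_mod (w ^ i).val d, ← Nat.div_add_mod (w ^ j).val d, hij, h3, h3]
        have h9 : w ^ i = w ^ j := ZMod.val_injective n h8
        rw [Finset.coe_range, Set.mem_Iio] at hi hj
        exact pow_injOn_Iio_orderOf hi hj h9
    rwa [Finset.card_range, Finset.card_range] at h6
  exact h1.trans (Nat.mul_le_mul_left _ h2)

end Ordaux

open Ordaux

open Finset Countaux Classical in
/-- **Large order.** Pseudoprimes `n ≤ x` with order at least `L ^ 8`. -/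
theorem largeOrder (a : ℤ) (x L : ℝ) (ha : 2 ≤ |a|) (hax : ((|a| : ℤ) : ℝ) ≤ x)
    (hLe : 1 ≤ Real.log L) (hL : 1 ≤ L) :
    (({n : ℕ | n ∈ psp a x ∧ L ^ 8 ≤ (od a n : ℝ)}.ncard : ℕ) : ℝ) ≤
      x / L * (4 + 2 * Real.log x) := by
  have hx2 : (2 : ℝ) ≤ x := by
    have : (2 : ℝ) ≤ ((|a| : ℤ) : ℝ) := by exact_mod_cast ha
    linarith
  have hx1 : 1 ≤ x := by linarith
  have hx0 : 0 ≤ x := by linarith
  have hlx : 0 ≤ Real.log x := Real.log_nonneg hx1
  have hL0 : 0 < L := by linarith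
  by_cases hLx : L ≤ x
  swap
  · -- the set is empty
    have hempty : {n : ℕ | n ∈ psp a x ∧ L ^ 8 ≤ (od a n : ℝ)} = ∅ := by
      ext n
      simp only [Set.mem_ofPred_eq, Set.mem_empty_iff_false, iff_false, not_and]
      rintro ⟨hnx, hn1, hnp, hpow⟩ h
      have e1 : od a n ≤ n - 1 := Nat.le_of_dvd (by omega) (od_dvd dvd_rfl hpow)
      have e2 : (od a n : ℝ) ≤ n := by exact_mod_cast (by omega : od a n ≤ n)
      have e3 : L ≤ L ^ 8 := le_self_pow₀ hL (by norm_num)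
      linarith
    rw [hempty, Set.ncard_empty, Nat.cast_zero]
    positivity
  have hy1 : 1 ≤ x / L := by rw [le_div_iff₀ hL0]; linarith
  have hLB : 1 ≤ L ^ (3 : ℝ) := Real.one_le_rpow hL (by norm_num)
  have hL3 : L ^ (3 : ℝ) = L ^ 3 := by rw [← Real.rpow_natCast]; norm_num
  -- index sets
  set F2 : Finset ℕ := (Icc 1 ⌊x⌋₊).filter (fun p : ℕ => p.Prime ∧ L < (od a p : ℝ)) with hF2
  set F3 : Finset ℕ := (Icc 1 ⌊x⌋₊).filter (fun p : ℕ => p.Prime ∧ 0 < od a p ∧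
    (od a p : ℝ) ≤ L ∧ L ^ (3 : ℝ) < (p : ℝ)) with hF3
  set D4 : Finset ℕ := (Icc 1 ⌊x / L⌋₊).filter (fun d : ℕ => x / L / L ^ (3 : ℝ) < (d : ℝ) ∧
    L ^ 4 ≤ (od a d : ℝ)) with hD4
  set P1 : Finset ℕ := Icc 1 ⌊x / L⌋₊ with hP1
  set P2 : Finset ℕ := F2.biUnion (fun p => (Icc 1 ⌊x⌋₊).filter
    fun n : ℕ => p ∣ n ∧ 1 < n / p ∧ od a p ∣ n / p - 1) with hP2
  set P3 : Finset ℕ := F3.biUnion (fun p => (Icc 1 ⌊x⌋₊).filter fun n : ℕ => p ∣ n) with hP3
  set P4 : Finset ℕ := D4.biUnion (fun d => (Icc 1 ⌊x⌋₊).filter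
    fun n : ℕ => d ∣ n ∧ od a d ∣ n - 1) with hP4
  have hsub : {n : ℕ | n ∈ psp a x ∧ L ^ 8 ≤ (od a n : ℝ)} ⊆
      ((P1 ∪ P2 ∪ (P3 ∪ P4) : Finset ℕ) : Set ℕ) := by
    rintro n ⟨⟨hnx, hn1, hnp, hpow⟩, hnQ⟩
    have hnN : n ∈ Icc 1 ⌊x⌋₊ := mem_Icc.mpr ⟨by omega, Nat.le_floor hnx⟩
    have hn0 : 0 < n := by omega
    rw [Finset.mem_coe]
    by_cases h1 : (n : ℝ) ≤ x / L
    · refine mem_union_left _ (mem_union_left _ ?_)
      exact mem_Icc.mpr ⟨by omega, Nat.le_floor h1⟩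
    by_cases h2 : ∃ p : ℕ, p.Prime ∧ p ∣ n ∧ L < (od a p : ℝ)
    · obtain ⟨p, hp, hpn, hpL⟩ := h2
      refine mem_union_left _ (mem_union_right _ ?_)
      have hple : p ≤ n := Nat.le_of_dvd hn0 hpn
      refine mem_biUnion.mpr ⟨p, mem_filter.mpr ⟨mem_Icc.mpr ⟨hp.pos, le_trans hple
        (mem_Icc.mp hnN).2⟩, hp, hpL⟩, mem_filter.mpr ⟨hnN, hpn, ?_, ?_⟩⟩
      · obtain ⟨k, rfl⟩ := hpn
        rw [Nat.mul_div_cancel_left k hp.pos]
        by_contra hk
        push Not at hk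
        interval_cases k
        · omega
        · rw [mul_one] at hnp
          exact hnp hp
      · have e1 := od_dvd hpn hpow
        have e2 := od_dvd_sub hn1 hp hpn hpow
        obtain ⟨k, rfl⟩ := hpn
        rw [Nat.mul_div_cancel_left k hp.pos]
        have e3 : od a p ∣ (p * k - 1) - (p - 1) * k :=
          Nat.dvd_sub e1 (dvd_mul_of_dvd_left e2 k)
        have e4 : (p * k - 1) - (p - 1) * k = k - 1 := by
          have e5 : (p - 1) * k = p * k - k := by rw [Nat.sub_mul, one_mul]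
          have e6 : k ≤ p * k := Nat.le_mul_of_pos_left k hp.pos
          omega
        rw [e4] at e3
        exact e3
    push Not at h2
    by_cases h3 : ∃ p : ℕ, p.Prime ∧ p ∣ n ∧ L ^ (3 : ℝ) < (p : ℝ)
    · obtain ⟨p, hp, hpn, hpL⟩ := h3
      refine mem_union_right _ (mem_union_left _ ?_)
      have hple : p ≤ n := Nat.le_of_dvd hn0 hpn
      exact mem_biUnion.mpr ⟨p, mem_filter.mpr ⟨mem_Icc.mpr ⟨hp.pos, le_trans hple
        (mem_Icc.mp hnN).2⟩, hp, od_pos hn1 hpn hpow, h2 p hp hpn, hpL⟩,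
        mem_filter.mpr ⟨hnN, hpn⟩⟩
    push Not at h3
    push Not at h1
    obtain ⟨d, hdn, hd1, hd2⟩ := exists_divisor (x / L) (L ^ (3 : ℝ)) hy1 hLB n h3 h1
    refine mem_union_right _ (mem_union_right _ ?_)
    have hd0 : 0 < d := Nat.pos_of_dvd_of_pos hdn hn0
    have hd0' : (0 : ℝ) < d := by exact_mod_cast hd0
    refine mem_biUnion.mpr ⟨d, mem_filter.mpr ⟨mem_Icc.mpr ⟨hd0, Nat.le_floor hd2⟩, hd1, ?_⟩,
      mem_filter.mpr ⟨hnN, hdn, od_dvd hdn hpow⟩⟩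
    -- the order modulo `d`
    have e1 := od_mul_le hn0 hdn (od_pos hn1 dvd_rfl hpow)
    have e2 : (od a n : ℝ) ≤ (od a d : ℝ) * ((n / d : ℕ) : ℝ) := by exact_mod_cast e1
    have e3 : ((n / d : ℕ) : ℝ) ≤ L ^ 4 := by
      rw [Nat.cast_div hdn hd0'.ne']
      rw [div_le_iff₀ hd0']
      have e4 : x / L / L ^ (3 : ℝ) = x / L ^ 4 := by
        rw [hL3, div_div]
        congr 1
        ring
      rw [e4, div_lt_iff₀ (by positivity)] at hd1
      linarith [mul_comm (L ^ 4) (d : ℝ)]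
    have e5 : L ^ 4 * L ^ 4 ≤ (od a d : ℝ) * L ^ 4 := by
      calc L ^ 4 * L ^ 4 = L ^ 8 := by ring
        _ ≤ (od a n : ℝ) := hnQ
        _ ≤ (od a d : ℝ) * ((n / d : ℕ) : ℝ) := e2
        _ ≤ (od a d : ℝ) * L ^ 4 := by gcongr
    exact le_of_mul_le_mul_right e5 (by positivity)
  have hcard : {n : ℕ | n ∈ psp a x ∧ L ^ 8 ≤ (od a n : ℝ)}.ncard ≤
      (P1 ∪ P2 ∪ (P3 ∪ P4)).card := by
    rw [← Set.ncard_coe_finset]
    exact Set.ncard_le_ncard hsub (Finset.finite_toSet _)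
  have hcard2 : (({n : ℕ | n ∈ psp a x ∧ L ^ 8 ≤ (od a n : ℝ)}.ncard : ℕ) : ℝ) ≤
      P1.card + P2.card + (P3.card + P4.card) := by
    have e1 := card_union_le (P1 ∪ P2) (P3 ∪ P4)
    have e2 := card_union_le P1 P2
    have e3 := card_union_le P3 P4
    have e4 : {n : ℕ | n ∈ psp a x ∧ L ^ 8 ≤ (od a n : ℝ)}.ncard ≤
      P1.card + P2.card + (P3.card + P4.card) := by omega
    exact_mod_cast e4
  have b1 : (P1.card : ℝ) ≤ x / L := by
    rw [hP1, Nat.card_Icc, Nat.add_sub_cancel]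
    exact Nat.floor_le (by positivity)
  have b2 : (P2.card : ℝ) ≤ x / L * (1 + Real.log x) := by
    have e1 : (P2.card : ℝ) ≤ ∑ p ∈ F2, x / L * (1 / (p : ℝ)) := by
      refine le_trans (Nat.cast_le.mpr card_biUnion_le) ?_
      rw [Nat.cast_sum]
      refine Finset.sum_le_sum fun p hp => ?_
      obtain ⟨hp1, hp2, hp3⟩ := mem_filter.mp hp
      have hop : (0 : ℝ) < od a p := lt_trans hL0 hp3
      have hop' : 0 < od a p := by exact_mod_cast hop
      have hpp : (0 : ℝ) < p := by exact_mod_cast hp2.pos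
      refine le_trans (card_two x hx0 p (od a p) hp2.pos hop') ?_
      rw [div_mul_div_comm, mul_one, mul_comm (p : ℝ)]
      exact div_le_div_of_nonneg_left hx0 (by positivity)
        (mul_le_mul_of_nonneg_right hp3.le hpp.le)
    refine le_trans e1 ?_
    rw [← Finset.mul_sum]
    refine mul_le_mul_of_nonneg_left ?_ (by positivity)
    refine le_trans (Finset.sum_le_sum_of_subset_of_nonneg (filter_subset _ _) ?_)
      (Countaux.sum_inv_le x hx1)
    intro i _ _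
    positivity
  have b3 : (P3.card : ℝ) ≤ x * (Real.log x / L) := by
    have e1 : (P3.card : ℝ) ≤ x * ∑ p ∈ F3, 1 / (p : ℝ) := by
      refine le_trans (Nat.cast_le.mpr card_biUnion_le) ?_
      rw [Nat.cast_sum, Finset.mul_sum]
      refine Finset.sum_le_sum fun p hp => ?_
      obtain ⟨hp1, hp2, hp3⟩ := mem_filter.mp hp
      refine le_trans (card_mult x hx0 p hp2.pos) (le_of_eq ?_)
      rw [mul_one_div]
    exact e1.trans (mul_le_mul_of_nonneg_left (Fewaux.n3L ha hax hLe hL) hx0)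
  have b4 : (P4.card : ℝ) ≤ 2 * (x / L) := by
    have e1 : (P4.card : ℝ) ≤ ∑ _d ∈ D4, (2 : ℝ) := by
      refine le_trans (Nat.cast_le.mpr card_biUnion_le) ?_
      rw [Nat.cast_sum]
      refine Finset.sum_le_sum fun d hd => ?_
      obtain ⟨hd1, hd2, hd3⟩ := mem_filter.mp hd
      have hL4 : 0 < L ^ 4 := by positivity
      have hod : (0 : ℝ) < od a d := lt_of_lt_of_le hL4 hd3
      have hod' : 0 < od a d := by exact_mod_cast hod
      have hd0 := (mem_Icc.mp hd1).1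
      have hd0' : (0 : ℝ) < d := by exact_mod_cast hd0
      refine le_trans (card_four x hx0 d (od a d) hd0 hod') ?_
      have e4 : x / L / L ^ (3 : ℝ) = x / L ^ 4 := by
        rw [hL3, div_div]
        congr 1
        ring
      rw [e4, div_lt_iff₀ hL4] at hd2
      have e5 : x / ((od a d : ℝ) * d) ≤ 1 := by
        rw [div_le_one (by positivity)]
        calc x ≤ d * L ^ 4 := hd2.le
          _ ≤ d * od a d := by gcongr
          _ = _ := mul_comm _ _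
      linarith
    refine e1.trans ?_
    rw [Finset.sum_const, nsmul_eq_mul]
    have e6 : (D4.card : ℝ) ≤ x / L := by
      refine le_trans ?_ b1
      exact_mod_cast card_le_card (filter_subset _ _)
    linarith
  have hfin := hcard2
  have e7 : x * (Real.log x / L) = x / L * Real.log x := by ring
  have e8 : x / L * (4 + 2 * Real.log x) = x / L + x / L * (1 + Real.log x) +
      (x / L * Real.log x + 2 * (x / L)) := by ring
  rw [e8]
  linarith

namespace Ordaux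

open Pomaux

theorem pow_le_ep {β κ : ℝ} (hβ : β < 1) (hκ : 0 < κ) :
    ∀ᶠ x : ℝ in atTop, Real.log x ^ β ≤ κ * (ep x * Real.log x) := by
  have h1 : ∀ᶠ y : ℝ in atTop, Real.log y ≤ κ * y ^ (1 - β) := by
    have := (isLittleO_log_rpow_atTop (show (0 : ℝ) < 1 - β by linarith)).bound hκ
    filter_upwards [this, eventually_ge_atTop 1] with y hy hy1
    rw [Real.norm_eq_abs, Real.norm_eq_abs, abs_of_nonneg (Real.log_nonneg hy1),
      abs_of_nonneg (by positivity)] at hy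
    exact hy
  have hl2 : Tendsto (fun x : ℝ => Real.log (Real.log x)) atTop atTop :=
    Real.tendsto_log_atTop.comp Real.tendsto_log_atTop
  have hl3 : Tendsto (fun x : ℝ => Real.log (Real.log (Real.log x))) atTop atTop :=
    Real.tendsto_log_atTop.comp hl2
  filter_upwards [Real.tendsto_log_atTop.eventually h1,
    Real.tendsto_log_atTop.eventually_ge_atTop 1, hl2.eventually_ge_atTop 1,
    hl3.eventually_ge_atTop 1] with x a1 a2 a3 a4
  set y := Real.log x with hy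
  set t := Real.log y with ht
  have hy0 : 0 < y := by linarith
  have ht0 : 0 < t := by linarith
  have e1 : ep x = Real.log t / t := rfl
  rw [e1, div_mul_eq_mul_div, ← mul_div_assoc, le_div_iff₀ ht0]
  have e2 : y ^ β * y ^ (1 - β) = y := by
    rw [← Real.rpow_add hy0]
    norm_num
  calc y ^ β * t ≤ y ^ β * (κ * y ^ (1 - β)) := by gcongr
    _ = κ * (1 * (y ^ β * y ^ (1 - β))) := by ring
    _ ≤ κ * (Real.log t * (y ^ β * y ^ (1 - β))) := by gcongr
    _ = κ * (Real.log t * y) := by rw [e2]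

/-- Sum over all primes with order dividing `m`, where `log m ≤ (log x) ^ β`. -/
theorem pomSmall (hP : StmtPrimeSum) (hR : StmtRankin) {τ β : ℝ} (hτ : 0 < τ) (hβ : 0 < β)
    (hβ1 : β < 1) (hτβ : 2 * β * τ < 1) :
    ∃ x₀ : ℝ, ∀ x : ℝ, x₀ ≤ x → ∀ (a : ℤ) (m : ℕ), 2 ≤ |a| → ((|a| : ℤ) : ℝ) ≤ x → 1 ≤ m →
    (m : ℝ) ≤ Real.exp (Real.log x ^ β) → ∀ S : Finset ℕ,
    (∀ p ∈ S, p.Prime ∧ 0 < od a p ∧ od a p ∣ m) →
    ∑ p ∈ S, (p : ℝ) ^ (-(1 - τ * ep x)) ≤ Real.log x ^ (1 / 2 : ℝ) := by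
  obtain ⟨C, hC, hP⟩ := hP
  have hl2 : Tendsto (fun x : ℝ => Real.log (Real.log x)) atTop atTop :=
    Real.tendsto_log_atTop.comp Real.tendsto_log_atTop
  have e1 := hl2.eventually (T2aux.analytic τ (2 * β * τ) C hτ hτβ)
  have e2 : ∀ᶠ x : ℝ in atTop, 3 ≤ Real.log x := Real.tendsto_log_atTop.eventually_ge_atTop 3
  have e2' : ∀ᶠ x : ℝ in atTop, 3 ≤ Real.log x ^ β :=
    Real.tendsto_log_atTop.eventually ((tendsto_rpow_atTop hβ).eventually_ge_atTop 3)
  have e3 : ∀ᶠ x : ℝ in atTop, 1 < Real.log (Real.log x) := hl2.eventually_gt_atTop 1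
  have e4 : ∀ᶠ x : ℝ in atTop, ep x < 1 / (8 * τ) :=
    tendsto_ep_zero.eventually (gt_mem_nhds (by positivity))
  have e5 : ∀ᶠ t : ℝ in atTop, 6 * t ^ τ ≤ Real.exp (t * (1 / 4)) := by
    have h := (tendsto_exp_mul_div_rpow_atTop τ (1 / 4) (by norm_num)).eventually_ge_atTop 6
    filter_upwards [h, eventually_ge_atTop 1] with Y hY hY1
    rw [le_div_iff₀ (by positivity)] at hY
    rw [mul_comm Y]
    exact hY
  obtain ⟨x₀, hx₀⟩ := eventually_atTop.1 (e1.and (e2.and (e3.and (e4.and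
    ((hl2.eventually e5).and ((eventually_ge_atTop 1).and e2'))))))
  refine ⟨x₀, fun x hx a m ha hax hm hmx S hS => ?_⟩
  obtain ⟨a1, a2, a3, a4, a5, a6, a7⟩ := hx₀ x hx
  obtain ⟨hlogax, -⟩ := log_abs_le ha hax
  set y := Real.log x with hy
  set t := Real.log y with ht
  have hy0 : 0 < y := by linarith
  have hl3 : 0 < Real.log t := Real.log_pos a3
  have hepe : ep x = Real.log t / t := rfl
  have hep0 : 0 < ep x := by rw [hepe]; positivity
  set η := τ * ep x with hη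
  have hη0 : 0 < η := by positivity
  have hη1 : η ≤ 1 / 8 := by
    have : τ * ep x ≤ τ * (1 / (8 * τ)) := by gcongr
    have h2 : τ * (1 / (8 * τ)) = 1 / 8 := by field_simp
    linarith
  have hm0 : m ≠ 0 := by omega
  have hmaps : ∀ p ∈ S, od a p ∈ m.divisors := fun p hp =>
    Nat.mem_divisors.2 ⟨(hS p hp).2.2, hm0⟩
  have step1 : ∑ p ∈ S, (p : ℝ) ^ (-(1 - η)) ≤
      ∑ d ∈ m.divisors, 2 / η * (3 * y) ^ η * (d : ℝ) ^ (-(1 - 2 * η)) := by
    rw [← Finset.sum_fiberwise_of_maps_to hmaps]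
    apply Finset.sum_le_sum
    intro d hd
    have hd0 : 1 ≤ d := Nat.pos_of_mem_divisors hd
    have hdR : (1 : ℝ) ≤ d := by exact_mod_cast hd0
    have hdR0 : (0 : ℝ) < d := by linarith
    have h3dy : 1 ≤ 3 * d * y := by nlinarith
    have hK1 : 1 ≤ ⌊3 * d * y⌋₊ := (Nat.one_le_floor_iff _).2 h3dy
    have hcard : ((S.filter fun p => od a p = d)).card ≤ ⌊3 * d * y⌋₊ := by
      refine Nat.le_floor ?_
      have h1 := card_mul_log (a := a) (d := d) (Z := 2) ha hd0 (by norm_num)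
        (S.filter fun p => od a p = d) (fun p hp => by
          rw [Finset.mem_filter] at hp
          refine ⟨(hS p hp.1).1, ?_, hp.2⟩
          exact_mod_cast (hS p hp.1).1.two_le)
      have h2 := Real.log_two_gt_d9
      have h3 : ((d : ℝ) + 1) * Real.log (|a| : ℤ) ≤ (d + 1) * y := by gcongr
      have h4 : (0 : ℝ) ≤ ((S.filter fun p => od a p = d).card : ℝ) := Nat.cast_nonneg _
      have h5 : ((S.filter fun p => od a p = d).card : ℝ) * (2 / 3) ≤
          ((S.filter fun p => od a p = d).card : ℝ) * Real.log 2 := by gcongr; linarith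
      nlinarith
    refine (fibreK a d _ η hη0 (by linarith) hd0 hK1 _ (fun p hp => ?_) hcard).trans ?_
    · rw [Finset.mem_filter] at hp
      exact ⟨(hS p hp.1).1, hp.2⟩
    · have h6 : ((⌊3 * d * y⌋₊ : ℕ) : ℝ) ^ η ≤ (d : ℝ) ^ η * (3 * y) ^ η := by
        rw [← Real.mul_rpow hdR0.le (by positivity)]
        refine Real.rpow_le_rpow (Nat.cast_nonneg _) ((Nat.floor_le (by linarith)).trans_eq ?_)
          hη0.le
        ring
      calc 2 / η * ((d : ℝ) ^ (-(1 - η)) * ((⌊3 * d * y⌋₊ : ℕ) : ℝ) ^ η) ≤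
            2 / η * ((d : ℝ) ^ (-(1 - η)) * ((d : ℝ) ^ η * (3 * y) ^ η)) := by gcongr
        _ = 2 / η * (3 * y) ^ η * ((d : ℝ) ^ (-(1 - η)) * (d : ℝ) ^ η) := by ring
        _ = _ := by rw [← Real.rpow_add hdR0]; congr 2; ring
  have step2 : ∑ d ∈ m.divisors, (d : ℝ) ^ (-(1 - 2 * η)) ≤
      Real.exp (4 * ∑ p ∈ m.primeFactors, (p : ℝ) ^ (-(1 - 2 * η))) := by
    apply hR (1 - 2 * η) (by linarith) m.primeFactors m.divisors
    · intro p hp; exact Nat.prime_of_mem_primeFactors hp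
    · intro d hd
      have hdd := Nat.mem_divisors.1 hd
      exact ⟨(Nat.pos_of_mem_divisors hd).ne', Nat.primeFactors_mono hdd.1 hdd.2⟩
  have hlogm : Real.log m ≤ y ^ β := by
    have h1 : (0 : ℝ) < m := by exact_mod_cast hm
    have h2 := Real.log_le_log h1 hmx
    rwa [Real.log_exp] at h2
  have htpos : 0 < t := by linarith
  have step3 := hP (y ^ β) a7 m hm hlogm (1 - 2 * η) (by linarith) (by linarith)
  rw [sub_sub_cancel] at step3
  have hlogy : Real.log (y ^ β) = β * t := by rw [Real.log_rpow hy0]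
  have hloglog : Real.log (Real.log (y ^ β)) ≤ Real.log t := by
    rw [hlogy]
    refine Real.log_le_log (by positivity) ?_
    nlinarith
  have ey : ∀ r : ℝ, y ^ (r * ep x) = t ^ r := by
    intro r
    rw [Real.rpow_def_of_pos hy0, Real.rpow_def_of_pos htpos, ← ht, hepe]
    congr 1
    field_simp
  have ey2 : (y ^ β) ^ (2 * η) = t ^ (2 * β * τ) := by
    rw [← Real.rpow_mul hy0.le, ← ey]
    congr 1
    rw [hη]; ring
  have ey1 : y ^ η = t ^ τ := by rw [hη, ey τ]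
  have e3y : (3 * y) ^ η ≤ 3 * t ^ τ := by
    rw [Real.mul_rpow (by norm_num) hy0.le, ey1]
    have h1 : (3 : ℝ) ^ η ≤ 3 := by
      calc (3 : ℝ) ^ η ≤ 3 ^ (1 : ℝ) := Real.rpow_le_rpow_of_exponent_le (by norm_num) (by linarith)
        _ = 3 := Real.rpow_one 3
    have h2 : 0 ≤ t ^ τ := by positivity
    gcongr
  rw [ey2] at step3
  have step3' : ∑ q ∈ m.primeFactors, (q : ℝ) ^ (-(1 - 2 * η)) ≤
      t ^ (2 * β * τ) * (Real.log t + C) := by
    refine step3.trans ?_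
    gcongr
  have hyt : y ^ (1 / 2 : ℝ) = Real.exp (t * (1 / 4)) * Real.exp (t * (1 / 4)) := by
    rw [Real.rpow_def_of_pos hy0, ← ht, ← Real.exp_add]; congr 1; ring
  calc ∑ p ∈ S, (p : ℝ) ^ (-(1 - η)) ≤
        ∑ d ∈ m.divisors, 2 / η * (3 * y) ^ η * (d : ℝ) ^ (-(1 - 2 * η)) := step1
    _ = 2 / η * (3 * y) ^ η * ∑ d ∈ m.divisors, (d : ℝ) ^ (-(1 - 2 * η)) := by
        rw [Finset.mul_sum]
    _ ≤ 2 / η * (3 * t ^ τ) * Real.exp (4 * (t ^ (2 * β * τ) * (Real.log t + C))) := by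
        refine mul_le_mul ?_ (step2.trans (Real.exp_le_exp.2 (by linarith))) ?_ (by positivity)
        · gcongr
        · exact Finset.sum_nonneg fun _ _ => by positivity
    _ = (6 * t ^ τ) * (1 / (τ * (Real.log t / t)) *
          Real.exp (4 * (t ^ (2 * β * τ) * (Real.log t + C)))) := by
        rw [hη, hepe]; ring
    _ ≤ Real.exp (t * (1 / 4)) * Real.exp (t * (1 / 4)) := by
        gcongr
    _ = _ := hyt.symm

theorem od_zero {a : ℤ} (ha : 2 ≤ |a|) : od a 0 = 0 := by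
  by_contra h
  have h1 : 0 < od a 0 := Nat.pos_of_ne_zero h
  have h2 : IsUnit (a : ZMod 0) := (orderOf_pos_iff.1 h1).isUnit
  have h3 : IsUnit a := by
    have : ((a : ZMod 0) : ℤ) = a := Int.cast_id
    rw [← this]
    exact h2
  rcases Int.isUnit_iff.1 h3 with h4 | h4 <;> rw [h4] at ha <;> norm_num at ha

end Ordaux

open Ordaux

open Classical in
/-- **Small order.** Integers `n ≤ x` with order at most `exp ((log x) ^ β)`. -/
theorem smallOrder (hP : StmtPrimeSum) (h4 : StmtRankin) {β δ : ℝ} (hβ : 0 < β) (hβ1 : β < 1)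
    (hδ : 0 < δ) (hδβ : δ < 1 / (2 * β)) : ∃ x₀ : ℝ, ∀ x : ℝ, x₀ ≤ x → ∀ a : ℤ, 2 ≤ |a| →
    ((|a| : ℤ) : ℝ) ≤ x →
    (({n : ℕ | (n : ℝ) ≤ x ∧ 0 < od a n ∧ (od a n : ℝ) ≤ Real.exp (Real.log x ^ β)}.ncard : ℕ) :
      ℝ) ≤ x ^ (1 - (1 / (2 * β) - δ) * ep x) := by
  set τ : ℝ := 1 / (2 * β) - δ / 2 with hτ
  have hτ0 : 0 < τ := by rw [hτ]; linarith
  have h2βτ : 2 * β * τ < 1 := by
    have h1 : 2 * β * τ = 1 - β * δ := by
      rw [hτ]; field_simp
    rw [h1]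
    have : 0 < β * δ := by positivity
    linarith
  obtain ⟨x₁, hx₁⟩ := pomSmall hP h4 hτ0 hβ hβ1 h2βτ
  have e1 : ∀ᶠ x : ℝ in atTop, ep x < 1 / (2 * τ) :=
    tendsto_ep_zero.eventually (gt_mem_nhds (by positivity))
  have e2 := ep_mul_ge
  have e3 := pow_le_ep (β := β) (κ := δ / 4) hβ1 (by positivity)
  have e5 : ∀ᶠ x : ℝ in atTop,
      4 * Real.log x ^ (1 / 2 : ℝ) ≤ δ / 4 * Real.log x ^ (3 / 4 : ℝ) :=
    Real.tendsto_log_atTop.eventually (half_le_eventually (by positivity))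
  have e6 : ∀ᶠ x : ℝ in atTop, 1 ≤ Real.log x := Real.tendsto_log_atTop.eventually_ge_atTop 1
  obtain ⟨x₀, hx₀⟩ := eventually_atTop.1 (e1.and (e2.and (e3.and (e5.and (e6.and
    (eventually_ge_atTop 1))))))
  refine ⟨max x₁ x₀, fun x hx a ha hax => ?_⟩
  have hxx₁ : x₁ ≤ x := (le_max_left _ _).trans hx
  have hxx₀ : x₀ ≤ x := (le_max_right _ _).trans hx
  obtain ⟨f1, f2, f3, f5, f6, f7⟩ := hx₀ x hxx₀
  have hTS := hx₁ x hxx₁ a
  set y : ℝ := Real.log x with hy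
  set e : ℝ := ep x with he
  have hx0 : 0 < x := by linarith
  have hy0 : 0 < y := by linarith
  have hxy : x = Real.exp y := (Real.exp_log hx0).symm
  have hy34 : 0 < y ^ (3 / 4 : ℝ) := by positivity
  have he0 : 0 < e := by
    by_contra hcon
    push Not at hcon
    nlinarith
  set η : ℝ := τ * e with hη
  have hη0 : 0 < η := by positivity
  have hη2 : η ≤ 1 / 2 := by
    have h1 : τ * e ≤ τ * (1 / (2 * τ)) := by gcongr
    have h2 : τ * (1 / (2 * τ)) = 1 / 2 := by field_simp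
    rw [hη]; linarith
  set M : ℝ := Real.exp (y ^ β) with hM
  have hM0 : 0 < M := Real.exp_pos _
  set D : ℕ → Finset ℕ := fun m => (Finset.Icc 1 ⌊x⌋₊).filter (fun n : ℕ => od a n = m) with hD
  have hsub : {n : ℕ | (n : ℝ) ≤ x ∧ 0 < od a n ∧ (od a n : ℝ) ≤ M} ⊆
      (((Finset.Icc 1 ⌊M⌋₊).biUnion D : Finset ℕ) : Set ℕ) := by
    rintro n ⟨h1, h2, h3⟩
    rw [Finset.mem_coe, Finset.mem_biUnion]
    refine ⟨od a n, Finset.mem_Icc.2 ⟨h2, Nat.le_floor h3⟩, ?_⟩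
    rw [hD, Finset.mem_filter, Finset.mem_Icc]
    refine ⟨⟨?_, Nat.le_floor h1⟩, rfl⟩
    rcases Nat.eq_zero_or_pos n with h0 | h0
    · rw [h0, od_zero ha] at h2
      omega
    · exact h0
  have hDm : ∀ m ∈ Finset.Icc 1 ⌊M⌋₊, ((D m).card : ℝ) ≤
      x ^ (1 - η) * Real.exp (4 * y ^ (1 / 2 : ℝ)) := by
    intro m hm
    rw [Finset.mem_Icc] at hm
    have hmM : (m : ℝ) ≤ M := (Nat.le_floor_iff hM0.le).1 hm.2
    set S : Finset ℕ := (Finset.Icc 1 ⌊x⌋₊).filter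
      (fun p : ℕ => p.Prime ∧ 0 < od a p ∧ od a p ∣ m) with hS
    have hS1 := hTS m ha hax hm.1 hmM S (fun p hp => (Finset.mem_filter.1 hp).2)
    have hr := h4 (1 - η) (by linarith) S (D m) (fun p hp => (Finset.mem_filter.1 hp).2.1)
      (fun d hd => by
        rw [hD, Finset.mem_filter, Finset.mem_Icc] at hd
        refine ⟨by omega, fun p hp => ?_⟩
        rw [Nat.mem_primeFactors] at hp
        have hdvd := od_dvd_of_dvd (a := a) hp.2.1
        rw [hd.2] at hdvd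
        rw [hS, Finset.mem_filter, Finset.mem_Icc]
        have hpd := Nat.le_of_dvd (by omega) hp.2.1
        exact ⟨⟨hp.1.pos, hpd.trans hd.1.2⟩, hp.1, Nat.pos_of_dvd_of_pos hdvd hm.1, hdvd⟩)
    have h1 : ((D m).card : ℝ) ≤ ∑ d ∈ D m, x ^ (1 - η) * (d : ℝ) ^ (-(1 - η)) := by
      rw [Finset.card_eq_sum_ones, Nat.cast_sum]
      refine Finset.sum_le_sum fun d hd => ?_
      rw [hD, Finset.mem_filter, Finset.mem_Icc] at hd
      have hd0 : (0 : ℝ) < d := by exact_mod_cast hd.1.1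
      have hdx : (d : ℝ) ≤ x := (Nat.le_floor_iff hx0.le).1 hd.1.2
      rw [Real.rpow_neg hd0.le, ← div_eq_mul_inv, Nat.cast_one, le_div_iff₀ (by positivity),
        one_mul]
      exact Real.rpow_le_rpow hd0.le hdx (by linarith)
    rw [← Finset.mul_sum] at h1
    refine h1.trans (mul_le_mul_of_nonneg_left (hr.trans (Real.exp_le_exp.2 ?_)) (by positivity))
    linarith
  have hcard : (({n : ℕ | (n : ℝ) ≤ x ∧ 0 < od a n ∧ (od a n : ℝ) ≤ M}.ncard : ℕ) : ℝ) ≤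
      M * (x ^ (1 - η) * Real.exp (4 * y ^ (1 / 2 : ℝ))) := by
    have i1 : {n : ℕ | (n : ℝ) ≤ x ∧ 0 < od a n ∧ (od a n : ℝ) ≤ M}.ncard ≤
        ((Finset.Icc 1 ⌊M⌋₊).biUnion D).card := by
      rw [← Set.ncard_coe_finset]
      exact Set.ncard_le_ncard hsub (Finset.finite_toSet _)
    have i2 : (((Finset.Icc 1 ⌊M⌋₊).biUnion D).card : ℝ) ≤
        ∑ m ∈ Finset.Icc 1 ⌊M⌋₊, ((D m).card : ℝ) := by
      exact_mod_cast Finset.card_biUnion_le
    have i3 : ∑ m ∈ Finset.Icc 1 ⌊M⌋₊, ((D m).card : ℝ) ≤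
        ∑ _m ∈ Finset.Icc 1 ⌊M⌋₊, x ^ (1 - η) * Real.exp (4 * y ^ (1 / 2 : ℝ)) :=
      Finset.sum_le_sum hDm
    rw [Finset.sum_const, nsmul_eq_mul, Nat.card_Icc, Nat.add_sub_cancel] at i3
    have i4 : (⌊M⌋₊ : ℝ) ≤ M := Nat.floor_le hM0.le
    calc (({n : ℕ | (n : ℝ) ≤ x ∧ 0 < od a n ∧ (od a n : ℝ) ≤ M}.ncard : ℕ) : ℝ) ≤
        (((Finset.Icc 1 ⌊M⌋₊).biUnion D).card : ℝ) := by exact_mod_cast i1
      _ ≤ _ := i2.trans i3
      _ ≤ _ := mul_le_mul_of_nonneg_right i4 (by positivity)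
  refine hcard.trans ?_
  have hxr : ∀ r : ℝ, x ^ r = Real.exp (y * r) := by
    intro r
    rw [hxy, ← Real.exp_mul]
  rw [hxr, hxr, hM, ← Real.exp_add, ← Real.exp_add]
  refine Real.exp_le_exp.2 ?_
  have j1 : y * (1 - (1 / (2 * β) - δ) * e) = y * (1 - η) + δ / 2 * (e * y) := by
    rw [hη, hτ]; ring
  rw [j1]
  have j2 : 4 * y ^ (1 / 2 : ℝ) ≤ δ / 4 * (e * y) := by
    refine f5.trans ?_
    gcongr
  linarith

/-- **Order range.** Pseudoprimes `n ≤ x` with order outside of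
`(exp ((log x) ^ (1/2)), x ^ (8 ep x))`. -/
theorem orderRange (hP : StmtPrimeSum) (h4 : StmtRankin) {δ : ℝ} (hδ : 0 < δ) (hδ1 : δ < 1) :
    ∃ x₀ : ℝ, ∀ x : ℝ, x₀ ≤ x → ∀ a : ℤ, 2 ≤ |a| → ((|a| : ℤ) : ℝ) ≤ x →
    (({n : ℕ | n ∈ psp a x ∧ ((od a n : ℝ) ≤ Real.exp (Real.log x ^ (1 / 2 : ℝ)) ∨
      x ^ (8 * ep x) ≤ (od a n : ℝ))}.ncard : ℕ) : ℝ) ≤ x ^ (1 - (1 - δ) * ep x) := by
  obtain ⟨x₁, hx₁⟩ := smallOrder hP h4 (β := 1 / 2) (δ := δ / 2) (by norm_num) (by norm_num)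
    (by positivity) (by norm_num; linarith)
  have e2 := ep_mul_ge
  have e3 : ∀ᶠ x : ℝ in atTop, Real.log (8 + 4 * Real.log x) ≤ δ / 2 * Real.log x ^ (3 / 4 : ℝ) :=
    Real.tendsto_log_atTop.eventually (log_le_eventually (by positivity) (by norm_num)
      (by norm_num))
  have e6 : ∀ᶠ x : ℝ in atTop, 1 ≤ Real.log x := Real.tendsto_log_atTop.eventually_ge_atTop 1
  obtain ⟨x₀, hx₀⟩ := eventually_atTop.1 (e2.and (e3.and (e6.and (eventually_ge_atTop 1))))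
  refine ⟨max x₁ x₀, fun x hx a ha hax => ?_⟩
  have hxx₁ : x₁ ≤ x := (le_max_left _ _).trans hx
  have hxx₀ : x₀ ≤ x := (le_max_right _ _).trans hx
  obtain ⟨f2, f3, f6, f7⟩ := hx₀ x hxx₀
  have hA := hx₁ x hxx₁ a ha hax
  set y : ℝ := Real.log x with hy
  set e : ℝ := ep x with he
  have hx0 : 0 < x := by linarith
  have hy0 : 0 < y := by linarith
  have hxr : ∀ r : ℝ, x ^ r = Real.exp (y * r) := fun r => Real.rpow_def_of_pos hx0 r
  have hy34 : 1 ≤ y ^ (3 / 4 : ℝ) := Real.one_le_rpow f6 (by norm_num)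
  have hey : 1 ≤ e * y := by linarith
  have hlogL : 1 ≤ Real.log (x ^ e) := by
    rw [Real.log_rpow hx0]; exact hey
  have hL1 : 1 ≤ x ^ e := by
    rw [hxr]; exact Real.one_le_exp (by linarith)
  have hB := largeOrder a x (x ^ e) ha hax hlogL hL1
  have hL8 : (x ^ e) ^ 8 = x ^ (8 * e) := by
    rw [← Real.rpow_natCast, ← Real.rpow_mul hx0.le]
    congr 1
    push_cast
    ring
  rw [hL8] at hB
  have hsub : {n : ℕ | n ∈ psp a x ∧ ((od a n : ℝ) ≤ Real.exp (y ^ (1 / 2 : ℝ)) ∨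
      x ^ (8 * e) ≤ (od a n : ℝ))} ⊆
      {n : ℕ | (n : ℝ) ≤ x ∧ 0 < od a n ∧ (od a n : ℝ) ≤ Real.exp (y ^ (1 / 2 : ℝ))} ∪
      {n : ℕ | n ∈ psp a x ∧ x ^ (8 * e) ≤ (od a n : ℝ)} := by
    rintro n ⟨h1, h2⟩
    rcases h2 with h2 | h2
    · exact Or.inl ⟨h1.1, Countaux.od_pos h1.2.1 dvd_rfl h1.2.2.2, h2⟩
    · exact Or.inr ⟨h1, h2⟩
  have hfin : ∀ P : ℕ → Prop, {n : ℕ | (n : ℝ) ≤ x ∧ P n}.Finite := fun P =>
    (Finset.finite_toSet (Finset.range (⌊x⌋₊ + 1))).subset fun n hn => by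
      rw [Finset.mem_coe, Finset.mem_range]
      have := Nat.le_floor hn.1
      omega
  have hcard : ({n : ℕ | n ∈ psp a x ∧ ((od a n : ℝ) ≤ Real.exp (y ^ (1 / 2 : ℝ)) ∨
      x ^ (8 * e) ≤ (od a n : ℝ))}.ncard) ≤
      {n : ℕ | (n : ℝ) ≤ x ∧ 0 < od a n ∧ (od a n : ℝ) ≤ Real.exp (y ^ (1 / 2 : ℝ))}.ncard +
      {n : ℕ | n ∈ psp a x ∧ x ^ (8 * e) ≤ (od a n : ℝ)}.ncard := by
    refine (Set.ncard_le_ncard hsub ?_).trans (Set.ncard_union_le _ _)
    refine Set.Finite.union (hfin _) ((hfin (fun _ => True)).subset ?_)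
    exact fun n hn => ⟨hn.1.1, trivial⟩
  have hcard' : (({n : ℕ | n ∈ psp a x ∧ ((od a n : ℝ) ≤ Real.exp (y ^ (1 / 2 : ℝ)) ∨
      x ^ (8 * e) ≤ (od a n : ℝ))}.ncard : ℕ) : ℝ) ≤
      (({n : ℕ | (n : ℝ) ≤ x ∧ 0 < od a n ∧
        (od a n : ℝ) ≤ Real.exp (y ^ (1 / 2 : ℝ))}.ncard : ℕ) : ℝ) +
      (({n : ℕ | n ∈ psp a x ∧ x ^ (8 * e) ≤ (od a n : ℝ)}.ncard : ℕ) : ℝ) := by
    exact_mod_cast hcard
  -- numerical part
  have g0 : 8 + 4 * y ≤ Real.exp (δ / 2 * (e * y)) := by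
    have h2 : Real.log (8 + 4 * y) ≤ δ / 2 * (e * y) := f3.trans (by gcongr)
    have h3 := Real.exp_le_exp.2 h2
    rwa [Real.exp_log (by positivity)] at h3
  have g1 : x ^ (1 - (1 / (2 * (1 / 2)) - δ / 2) * e) ≤ 1 / 2 * x ^ (1 - (1 - δ) * e) := by
    have h1 : y * (1 - (1 - δ) * e) = y * (1 - (1 / (2 * (1 / 2)) - δ / 2) * e) +
        δ / 2 * (e * y) := by ring
    rw [hxr, hxr, h1, Real.exp_add]
    have h2 : 0 < Real.exp (y * (1 - (1 / (2 * (1 / 2)) - δ / 2) * e)) := Real.exp_pos _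
    nlinarith
  have g2 : x / x ^ e * (4 + 2 * y) ≤ 1 / 2 * x ^ (1 - (1 - δ) * e) := by
    have h1 : y * (1 - (1 - δ) * e) = y * (1 - e) + δ * (e * y) := by ring
    have h2 : x / x ^ e = Real.exp (y * (1 - e)) := by
      rw [← hxr, Real.rpow_sub hx0, Real.rpow_one]
    rw [h2, hxr, h1, Real.exp_add]
    have h3 : Real.exp (δ / 2 * (e * y)) ≤ Real.exp (δ * (e * y)) := by
      refine Real.exp_le_exp.2 ?_
      have : 0 < δ * (e * y) := by positivity
      linarith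
    have h4 : 0 < Real.exp (y * (1 - e)) := Real.exp_pos _
    nlinarith
  calc _ ≤ _ := hcard'
    _ ≤ x ^ (1 - (1 / (2 * (1 / 2)) - δ / 2) * e) + x / x ^ e * (4 + 2 * y) := add_le_add hA hB
    _ ≤ 1 / 2 * x ^ (1 - (1 - δ) * e) + 1 / 2 * x ^ (1 - (1 - δ) * e) := add_le_add g1 g2
    _ = _ := by ring

end Pool.Agent.Lib.MP_a260de_nt
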