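import Pool.Agent.Lib.MP_a260de_nt.SpecM
import Pool.Agent.Lib.MP_a260de_nt.T2

/-!
# MP_a260de_nt: bases with a large weighted number of primes of small order are rare
-/

set_option autoImplicit false

namespace Pool.Agent.Lib.MP_a260de_nt

open Filter Topology

namespace Poweraux

theorem N_nonneg {w : ℕ → ℝ} (hw : ∀ p, 0 ≤ w p) : ∀ (k : ℕ) (B : Finset ℕ), 0 ≤ N w k B := by
  intro k
  induction k with
  | zero => intro B; simp [N]
  | succ k ih => intro B; rw [N]; exact Finset.sum_nonneg fun p _ => mul_nonneg (hw p) (ih _)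

theorem sum_biUnion_le (Js : Finset ℕ) (F : ℕ → Finset ℕ) (w' : ℕ → ℝ)
    (hw : ∀ p, 0 ≤ w' p) : ∑ p ∈ Js.biUnion F, w' p ≤ ∑ j ∈ Js, ∑ p ∈ F j, w' p := by
  classical
  induction Js using Finset.induction_on with
  | empty => simp
  | insert j Js hj ih =>
    rw [Finset.biUnion_insert, Finset.sum_insert hj]
    have h1 := Finset.sum_union_inter (s₁ := F j) (s₂ := Js.biUnion F) (f := w')
    have h2 : 0 ≤ ∑ p ∈ F j ∩ Js.biUnion F, w' p := Finset.sum_nonneg fun p _ => hw p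
    linarith

/-- The primes in `(u, u ^ 2]`. -/
noncomputable def Pu (u : ℝ) : Finset ℕ :=
  (Finset.Icc 1 ⌊u ^ 2⌋₊).filter fun p : ℕ => p.Prime ∧ u < (p : ℝ)

theorem block (hM : StmtMoment) (hL : StmtLower) {θ C : ℝ} (hθ : 3 / 4 ≤ θ) (hθ1 : θ < 1)
    (hC : ∀ (u : ℝ) (P : Finset ℕ), 1 ≤ u →
      (∀ p ∈ P, p.Prime ∧ u < (p : ℝ)) →
      ∑ p ∈ P, (p : ℝ) ^ (-1 + (1 - θ) / 2) * ((R θ p : ℝ) / p) ≤ C * u ^ (-((1 - θ) / 4)))
    (u : ℝ) (hu : 1 ≤ u) (A k : ℕ) (hA : (u ^ 2) ^ k = A) (hCu : C ≤ u ^ ((1 - θ) / 16))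
    (hk : (k : ℝ) ≤ u ^ (1 / 2 : ℝ)) :
    ((((Finset.Icc (-(A : ℤ)) A).filter fun a : ℤ =>
      2 * u ^ (-((1 - θ) / 8)) ≤ ∑ p ∈ smallP θ a A ∩ Pu u, (p : ℝ) ^ (-1 + (1 - θ) / 2)).card : ℕ)
        : ℝ) ≤ 4 * A * (u ^ (-((1 - θ) / 16))) ^ k := by
  set s : ℝ := (1 - θ) / 2 with hs
  have hs0 : 0 < s := by rw [hs]; linarith
  have hs1 : s ≤ 1 / 8 := by rw [hs]; linarith
  have e4 : (1 - θ) / 4 = s / 2 := by rw [hs]; ring
  have e8 : (1 - θ) / 8 = s / 4 := by rw [hs]; ring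
  have e16 : (1 - θ) / 16 = s / 8 := by rw [hs]; ring
  rw [e8, e16]
  rw [e16] at hCu
  have hu0 : 0 < u := by linarith
  set w : ℕ → ℝ := fun p => (p : ℝ) ^ (-1 + s) with hw
  have hw0 : ∀ p, 0 ≤ w p := fun p => by rw [hw]; positivity
  set E := (Finset.Icc (-(A : ℤ)) A).filter fun a : ℤ =>
      2 * u ^ (-(s / 4)) ≤ ∑ p ∈ smallP θ a A ∩ Pu u, (p : ℝ) ^ (-1 + s) with hE
  set t : ℝ := u ^ (-(s / 4)) with ht
  have ht0 : 0 < t := by rw [ht]; positivity
  -- mean
  have hmean := hC u (Pu u) hu (fun p hp => (Finset.mem_filter.1 hp).2)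
  rw [e4] at hmean
  -- moment
  have hmom := hM θ A k ⌊u ^ 2⌋₊ (Pu u) w hw0 (fun p hp => by
    rw [Pu, Finset.mem_filter, Finset.mem_Icc] at hp
    exact ⟨hp.2.1, hp.1.2⟩) (by
      have h1 : ((⌊u ^ 2⌋₊ ^ k : ℕ) : ℝ) ≤ A := by
        push_cast
        rw [← hA]
        exact pow_le_pow_left₀ (Nat.cast_nonneg _) (Nat.floor_le (by positivity)) k
      exact_mod_cast h1)
  -- lower
  have hlow : ∀ a ∈ E, t ^ k ≤ N w k (smallP θ a A ∩ Pu u) := by
    intro a ha
    rw [hE, Finset.mem_filter] at ha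
    refine hL w (u ^ (-1 + s)) t k _ ht0.le (by positivity) (fun p hp => ?_) ?_
    · refine ⟨hw0 p, ?_⟩
      have hp2 := (Finset.mem_inter.1 hp).2
      rw [Pu, Finset.mem_filter] at hp2
      exact Real.rpow_le_rpow_of_nonpos hu0 hp2.2.2.le (by linarith)
    · have h1 : (k : ℝ) * u ^ (-1 + s) ≤ t := by
        calc (k : ℝ) * u ^ (-1 + s) ≤ u ^ (1 / 2 : ℝ) * u ^ (-1 + s) := by gcongr
          _ = u ^ (1 / 2 + (-1 + s)) := by rw [← Real.rpow_add hu0]
          _ ≤ u ^ (-(s / 4)) := Real.rpow_le_rpow_of_exponent_le hu (by linarith)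
      have h2 := ha.2
      have h3 : t + k * u ^ (-1 + s) ≤ 2 * t := by linarith
      exact h3.trans h2
  have hsum : (E.card : ℝ) * t ^ k ≤ 4 * A * (C * u ^ (-(s / 2))) ^ k := by
    calc (E.card : ℝ) * t ^ k = ∑ a ∈ E, t ^ k := by rw [Finset.sum_const, nsmul_eq_mul]
      _ ≤ ∑ a ∈ E, N w k (smallP θ a A ∩ Pu u) := Finset.sum_le_sum hlow
      _ ≤ ∑ a ∈ Finset.Icc (-(A : ℤ)) A, N w k (smallP θ a A ∩ Pu u) :=
          Finset.sum_le_sum_of_subset_of_nonneg (Finset.filter_subset _ _)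
            fun a _ _ => N_nonneg hw0 _ _
      _ ≤ _ := hmom
      _ ≤ 4 * A * (C * u ^ (-(s / 2))) ^ k := by
          have h0 : 0 ≤ ∑ p ∈ Pu u, w p * ((R θ p : ℝ) / p) :=
            Finset.sum_nonneg fun p _ => mul_nonneg (hw0 p) (by positivity)
          gcongr
  have hC0 : 0 ≤ C := by
    have h := hC 1 ∅ le_rfl (fun p hp => absurd hp (Finset.notMem_empty p))
    simpa using h
  have hCt : (C * u ^ (-(s / 2))) ^ k ≤ (u ^ (-(s / 8))) ^ k * t ^ k := by
    rw [← mul_pow]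
    refine pow_le_pow_left₀ (by positivity) ?_ k
    calc C * u ^ (-(s / 2)) ≤ u ^ (s / 8) * u ^ (-(s / 2)) := by gcongr
      _ = u ^ (-(s / 8)) * t := by
          rw [ht, ← Real.rpow_add hu0, ← Real.rpow_add hu0]; congr 1; ring
  have htk : 0 < t ^ k := by positivity
  have hfin : (E.card : ℝ) * t ^ k ≤ (4 * A * (u ^ (-(s / 8))) ^ k) * t ^ k := by
    calc (E.card : ℝ) * t ^ k ≤ 4 * A * (C * u ^ (-(s / 2))) ^ k := hsum
      _ ≤ 4 * A * ((u ^ (-(s / 8))) ^ k * t ^ k) := by gcongr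
      _ = _ := by ring
  exact le_of_mul_le_mul_right hfin htk

theorem eventually_num {s C : ℝ} (hs : 0 < s) : ∀ᶠ Y : ℝ in atTop,
    3 ≤ Y ∧ C ≤ Y ^ (s / 8) ∧ Y ^ (4 * s) / s + 2 * (2 * Real.log Y + 1) ≤ Y ^ (5 * s) ∧
      (2 * Real.log Y + 1) * 4 ≤ Real.exp (Y * (s / 32)) := by
  have h1 : ∀ᶠ Y : ℝ in atTop, C ≤ Y ^ (s / 8) :=
    (tendsto_rpow_atTop (show (0 : ℝ) < s / 8 by positivity)).eventually_ge_atTop _
  have h2 : ∀ᶠ Y : ℝ in atTop, 1 / s + 1 ≤ Y ^ s :=
    (tendsto_rpow_atTop hs).eventually_ge_atTop _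
  have h3 : ∀ᶠ Y : ℝ in atTop, Real.log Y ≤ 1 / 8 * Y ^ (4 * s) := by
    have h := (isLittleO_log_rpow_atTop (show (0 : ℝ) < 4 * s by positivity)).bound
      (show (0 : ℝ) < 1 / 8 by norm_num)
    filter_upwards [h, eventually_ge_atTop 1] with Y hY hY1
    rw [Real.norm_of_nonneg (Real.log_nonneg hY1), Real.norm_of_nonneg (by positivity)] at hY
    exact hY
  have h4 : ∀ᶠ Y : ℝ in atTop, 4 ≤ Y ^ (4 * s) :=
    (tendsto_rpow_atTop (show (0 : ℝ) < 4 * s by positivity)).eventually_ge_atTop _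
  have h5 : ∀ᶠ Y : ℝ in atTop, 16 * Y ≤ Real.exp (Y * (s / 32)) := by
    have h := (tendsto_exp_mul_div_rpow_atTop 1 (s / 32) (by positivity)).eventually_ge_atTop 16
    filter_upwards [h, eventually_ge_atTop 1] with Y hY hY1
    rw [Real.rpow_one, le_div_iff₀ (by linarith)] at hY
    rw [mul_comm Y]
    exact hY
  filter_upwards [h1, h2, h3, h4, h5, eventually_ge_atTop 3] with Y g1 g2 g3 g4 g5 g6
  have hY0 : 0 < Y := by linarith
  refine ⟨g6, g1, ?_, ?_⟩
  · have e : Y ^ (5 * s) = Y ^ (4 * s) * Y ^ s := by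
      rw [← Real.rpow_add hY0]; ring_nf
    rw [e]
    have h0 : 0 < Y ^ (4 * s) := by positivity
    have : Y ^ (4 * s) * (1 / s + 1) ≤ Y ^ (4 * s) * Y ^ s := by gcongr
    have e2 : Y ^ (4 * s) * (1 / s + 1) = Y ^ (4 * s) / s + Y ^ (4 * s) := by ring
    linarith
  · have h := Real.log_le_sub_one_of_pos hY0
    linarith

end Poweraux

open Poweraux

theorem power (hM : StmtMoment) (hL : StmtLower) (hN : StmtMean) : StmtPower := by
  intro θ hθ hθ1
  obtain ⟨C, hC0, hC⟩ := hN θ (by linarith) hθ1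
  set s : ℝ := (1 - θ) / 2 with hs
  have hs0 : 0 < s := by rw [hs]; linarith
  have hs1 : s ≤ 1 / 8 := by rw [hs]; linarith
  have e4 : (1 - θ) / 4 = s / 2 := by rw [hs]; ring
  have e8 : (1 - θ) / 8 = s / 4 := by rw [hs]; ring
  have e16 : (1 - θ) / 16 = s / 8 := by rw [hs]; ring
  have e64 : (1 - θ) / 64 = s / 32 := by rw [hs]; ring
  obtain ⟨Y₀, hY₀⟩ := eventually_atTop.1 (eventually_num (s := s) (C := C) hs0)
  refine ⟨⌈Real.exp Y₀⌉₊ + 1, fun A hA => ?_⟩
  have hA1 : Real.exp Y₀ ≤ A := by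
    have h1 := Nat.le_ceil (Real.exp Y₀)
    have h2 : ((⌈Real.exp Y₀⌉₊ + 1 : ℕ) : ℝ) ≤ A := by exact_mod_cast hA
    push_cast at h2
    linarith
  have hApos : (0 : ℝ) < A := (Real.exp_pos _).trans_le hA1
  set Y : ℝ := Real.log A with hY
  have hYY₀ : Y₀ ≤ Y := by
    rw [hY, Real.le_log_iff_exp_le hApos]; exact hA1
  have hexpY : Real.exp Y = A := Real.exp_log hApos
  obtain ⟨g1, g2, g3, g4⟩ := hY₀ Y hYY₀
  have hY0 : 0 < Y := by linarith
  have hlogY : 1 ≤ Real.log Y := by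
    rw [Real.le_log_iff_exp_le hY0]
    have := Real.exp_one_lt_d9
    linarith
  set u : ℕ → ℝ := fun j => Real.exp (Y / 2 ^ j) with hu
  set J : ℕ := ⌊2 * Real.log Y⌋₊ + 1 with hJ
  set Js : Finset ℕ := (Finset.Icc 1 J).filter fun j => Y ^ 2 ≤ u j with hJs
  set E : ℕ → Finset ℤ := fun j => (Finset.Icc (-(A : ℤ)) A).filter fun a : ℤ =>
      2 * u j ^ (-((1 - θ) / 8)) ≤ ∑ p ∈ smallP θ a A ∩ Pu (u j), (p : ℝ) ^ (-1 + (1 - θ) / 2)
    with hE
  have hJR : (Js.card : ℝ) ≤ 2 * Real.log Y + 1 := by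
    have h1 : Js.card ≤ J := by
      calc Js.card ≤ (Finset.Icc 1 J).card := Finset.card_filter_le _ _
        _ = J := by simp
    have h2 : (J : ℝ) ≤ 2 * Real.log Y + 1 := by
      rw [hJ]; push_cast
      have := Nat.floor_le (show 0 ≤ 2 * Real.log Y by linarith)
      linarith
    have h3 : (Js.card : ℝ) ≤ J := by exact_mod_cast h1
    linarith
  have hEcard : ∀ j ∈ Js, ((E j).card : ℝ) ≤ 4 * A * Real.exp (-(s / 16) * Y) := by
    intro j hj
    rw [hJs, Finset.mem_filter, Finset.mem_Icc] at hj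
    obtain ⟨⟨hj1, -⟩, hj2⟩ := hj
    have hpow : (2 : ℝ) ^ j = 2 * 2 ^ (j - 1) := by
      rw [← pow_succ']; congr 1; omega
    have hp0 : (0 : ℝ) < 2 ^ (j - 1) := by positivity
    have hu1 : 1 ≤ u j := by
      rw [hu]; exact Real.one_le_exp (by positivity)
    have hlogu : 2 * Real.log Y ≤ Y / 2 ^ j := by
      have h1 : Real.log (Y ^ 2) ≤ Real.log (u j) := Real.log_le_log (by positivity) hj2
      rw [Real.log_pow, hu] at h1
      simpa using h1
    have hkY : (2 : ℝ) ^ (j - 1) ≤ Y := by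
      rw [le_div_iff₀ (by positivity), hpow] at hlogu
      nlinarith
    have hYu : Y ≤ u j ^ (1 / 2 : ℝ) := by
      calc Y = (Y ^ 2) ^ (1 / 2 : ℝ) := by
            rw [← Real.rpow_natCast, ← Real.rpow_mul hY0.le]; norm_num
        _ ≤ u j ^ (1 / 2 : ℝ) := Real.rpow_le_rpow (by positivity) hj2 (by norm_num)
    have hYu2 : Y ≤ u j := by nlinarith
    have hb := block hM hL hθ hθ1 hC (u j) hu1 A (2 ^ (j - 1)) (by
        rw [hu, ← hexpY]
        simp only
        rw [← pow_mul, ← Real.exp_nat_mul]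
        congr 1
        push_cast
        rw [hpow]
        field_simp)
      (by
        rw [e16]
        exact g2.trans (Real.rpow_le_rpow hY0.le hYu2 (by positivity)))
      (by push_cast; exact hkY.trans hYu)
    refine hb.trans_eq ?_
    rw [e16]
    congr 1
    rw [hu]
    simp only
    rw [← Real.exp_mul, ← Real.exp_nat_mul]
    congr 1
    push_cast
    rw [hpow]
    field_simp
    ring
  have hcov : ((Finset.Icc (-(A : ℤ)) A).filter fun a : ℤ =>
      Y ^ (5 * s) < W θ a A) ⊆ Js.biUnion E := by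
    intro a ha
    rw [Finset.mem_filter] at ha
    rw [Finset.mem_biUnion]
    by_contra hcon
    push Not at hcon
    have hj2 : ∀ j ∈ Js, ∑ p ∈ smallP θ a A ∩ Pu (u j), (p : ℝ) ^ (-1 + s) ≤ 2 := by
      intro j hj
      have h1 := hcon j hj
      rw [hE] at h1
      simp only [Finset.mem_filter, not_and, not_le] at h1
      have h2 := h1 ha.1
      have h3 : u j ^ (-((1 - θ) / 8)) ≤ 1 := by
        refine Real.rpow_le_one_of_one_le_of_nonpos ?_ (by linarith)
        rw [hu]; exact Real.one_le_exp (by positivity)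
      linarith
    have hsub : smallP θ a A ⊆ Finset.Icc 1 ⌊Y ^ 4⌋₊ ∪
        Js.biUnion fun j => smallP θ a A ∩ Pu (u j) := by
      intro p hp
      rw [Finset.mem_union, Finset.mem_Icc, Finset.mem_biUnion]
      have hp' := hp
      rw [smallP, Finset.mem_filter, Finset.mem_Icc] at hp'
      obtain ⟨⟨hp1, hpA⟩, hpp, -⟩ := hp'
      rcases le_or_gt (p : ℝ) (Y ^ 4) with h | h
      · exact Or.inl ⟨hp1, Nat.le_floor h⟩
      · right
        have hp0 : (0 : ℝ) < p := by exact_mod_cast hpp.pos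
        have hlp : 4 * Real.log Y < Real.log p := by
          have h1 := Real.log_lt_log (by positivity) h
          rwa [Real.log_pow] at h1
        have hlp1 : 1 ≤ Real.log p := by linarith
        have hlpY : Real.log p ≤ Y := Real.log_le_log hp0 (by exact_mod_cast hpA)
        set q : ℝ := Y / Real.log p with hq
        have hq1 : 1 ≤ q := by rw [hq, le_div_iff₀ (by linarith)]; linarith
        have hqf : ⌊q⌋₊ ≠ 0 := by
          have := (Nat.one_le_floor_iff q).2 hq1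
          omega
        set i : ℕ := Nat.log 2 ⌊q⌋₊ with hi
        have h2i : (2 : ℝ) ^ i ≤ q := by
          have h1 := Nat.pow_log_le_self 2 hqf
          have h2 : ((2 ^ i : ℕ) : ℝ) ≤ (⌊q⌋₊ : ℝ) := by exact_mod_cast h1
          push_cast at h2
          exact h2.trans (Nat.floor_le (by linarith))
        have h2i1 : q < (2 : ℝ) ^ (i + 1) := by
          have h1 := Nat.lt_pow_succ_log_self (b := 2) (by norm_num) ⌊q⌋₊
          have h2 : ((⌊q⌋₊ + 1 : ℕ) : ℝ) ≤ ((2 ^ (i + 1) : ℕ) : ℝ) := by exact_mod_cast h1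
          push_cast at h2
          exact (Nat.lt_floor_add_one q).trans_le h2
        have k1 : 2 ^ i * Real.log p ≤ Y := by
          rwa [hq, le_div_iff₀ (by linarith)] at h2i
        have k2 : Y < 2 ^ (i + 1) * Real.log p := by
          rwa [hq, div_lt_iff₀ (by linarith)] at h2i1
        have hu1 : u (i + 1) < p := by
          rw [hu]
          simp only
          rw [← Real.lt_log_iff_exp_lt hp0, div_lt_iff₀ (by positivity), mul_comm]
          exact k2
        have hu2 : (p : ℝ) ≤ u (i + 1) ^ 2 := by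
          rw [hu]
          simp only
          rw [← Real.exp_nat_mul, ← Real.log_le_iff_le_exp hp0]
          push_cast
          rw [pow_succ]
          have : 2 * (Y / (2 ^ i * 2)) = Y / 2 ^ i := by field_simp
          rw [this, le_div_iff₀ (by positivity), mul_comm]
          exact k1
        refine ⟨i + 1, ?_, ?_⟩
        · rw [hJs, Finset.mem_filter, Finset.mem_Icc]
          refine ⟨⟨by omega, ?_⟩, ?_⟩
          · rw [hJ]
            have h1 : (i : ℝ) ≤ 2 * Real.log Y := by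
              have h2 : (2 : ℝ) ^ i ≤ Y := by nlinarith
              have h3 := Real.log_le_log (by positivity) h2
              rw [Real.log_pow] at h3
              have h4 := Real.log_two_gt_d9
              have h5 : (0 : ℝ) ≤ i := Nat.cast_nonneg i
              nlinarith
            have := Nat.le_floor h1
            omega
          · rw [hu]
            simp only
            rw [← Real.log_le_iff_le_exp (by positivity), Real.log_pow, le_div_iff₀ (by positivity),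
              pow_succ]
            push_cast
            have hp2 : (0 : ℝ) < 2 ^ i := by positivity
            nlinarith
        · rw [Finset.mem_inter]
          refine ⟨hp, ?_⟩
          rw [Pu, Finset.mem_filter, Finset.mem_Icc]
          exact ⟨⟨hp1, Nat.le_floor hu2⟩, hpp, hu1⟩
    have hW : W θ a A ≤ Y ^ (5 * s) := by
      have hnn : ∀ p : ℕ, 0 ≤ (p : ℝ) ^ (-1 + s) := fun p => by positivity
      calc W θ a A = ∑ p ∈ smallP θ a A, (p : ℝ) ^ (-1 + s) := rfl
        _ ≤ ∑ p ∈ Finset.Icc 1 ⌊Y ^ 4⌋₊ ∪ Js.biUnion fun j => smallP θ a A ∩ Pu (u j),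
              (p : ℝ) ^ (-1 + s) :=
            Finset.sum_le_sum_of_subset_of_nonneg hsub fun p _ _ => hnn p
        _ ≤ ∑ p ∈ Finset.Icc 1 ⌊Y ^ 4⌋₊, (p : ℝ) ^ (-1 + s) +
              ∑ p ∈ Js.biUnion fun j => smallP θ a A ∩ Pu (u j), (p : ℝ) ^ (-1 + s) := by
            have h1 := Finset.sum_union_inter (s₁ := Finset.Icc 1 ⌊Y ^ 4⌋₊)
              (s₂ := Js.biUnion fun j => smallP θ a A ∩ Pu (u j))
              (f := fun p : ℕ => (p : ℝ) ^ (-1 + s))
            have h2 : 0 ≤ ∑ p ∈ Finset.Icc 1 ⌊Y ^ 4⌋₊ ∩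
              Js.biUnion fun j => smallP θ a A ∩ Pu (u j), (p : ℝ) ^ (-1 + s) :=
              Finset.sum_nonneg fun p _ => hnn p
            linarith
        _ ≤ Y ^ (4 * s) / s + 2 * (2 * Real.log Y + 1) := by
            have h1 : ∑ p ∈ Finset.Icc 1 ⌊Y ^ 4⌋₊, (p : ℝ) ^ (-1 + s) ≤ Y ^ (4 * s) / s := by
              have h := T2aux.sum_rpow_le s hs0 (by linarith) ⌊Y ^ 4⌋₊
              have e : -(1 - s) = -1 + s := by ring
              rw [e] at h
              refine h.trans ?_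
              gcongr
              calc (⌊Y ^ 4⌋₊ : ℝ) ^ s ≤ (Y ^ 4) ^ s :=
                    Real.rpow_le_rpow (Nat.cast_nonneg _) (Nat.floor_le (by positivity)) hs0.le
                _ = Y ^ (4 * s) := by
                    rw [← Real.rpow_natCast, ← Real.rpow_mul hY0.le]; norm_num
            have h2 : ∑ p ∈ Js.biUnion fun j => smallP θ a A ∩ Pu (u j), (p : ℝ) ^ (-1 + s) ≤
                2 * (2 * Real.log Y + 1) := by
              calc ∑ p ∈ Js.biUnion fun j => smallP θ a A ∩ Pu (u j), (p : ℝ) ^ (-1 + s) ≤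
                    ∑ j ∈ Js, ∑ p ∈ smallP θ a A ∩ Pu (u j), (p : ℝ) ^ (-1 + s) :=
                    sum_biUnion_le _ _ _ fun p => hnn p
                _ ≤ ∑ j ∈ Js, 2 := Finset.sum_le_sum hj2
                _ = (Js.card : ℝ) * 2 := by rw [Finset.sum_const, nsmul_eq_mul]
                _ ≤ 2 * (2 * Real.log Y + 1) := by linarith
            linarith
        _ ≤ Y ^ (5 * s) := g3
    exact absurd ha.2 (not_lt.2 hW)
  have hcard : ((((Finset.Icc (-(A : ℤ)) A).filter fun a : ℤ =>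
      Y ^ (5 * s) < W θ a A).card : ℕ) : ℝ) ≤ Js.card * (4 * A * Real.exp (-(s / 16) * Y)) := by
    calc ((((Finset.Icc (-(A : ℤ)) A).filter fun a : ℤ =>
      Y ^ (5 * s) < W θ a A).card : ℕ) : ℝ) ≤ ((Js.biUnion E).card : ℝ) := by
          exact_mod_cast Finset.card_le_card hcov
      _ ≤ ∑ j ∈ Js, ((E j).card : ℝ) := by exact_mod_cast Finset.card_biUnion_le
      _ ≤ ∑ j ∈ Js, (4 * A * Real.exp (-(s / 16) * Y)) := Finset.sum_le_sum hEcard
      _ = Js.card * (4 * A * Real.exp (-(s / 16) * Y)) := by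
          rw [Finset.sum_const, nsmul_eq_mul]
  refine hcard.trans ?_
  rw [e64]
  have hAe : (A : ℝ) ^ (1 - s / 32) = A * Real.exp (-(s / 16) * Y) * Real.exp (Y * (s / 32)) := by
    rw [Real.rpow_def_of_pos hApos, ← hY, mul_assoc, ← Real.exp_add]
    calc Real.exp (Y * (1 - s / 32)) =
          Real.exp Y * Real.exp (-(s / 16) * Y + Y * (s / 32)) := by
            rw [← Real.exp_add]
            congr 1
            ring
      _ = A * Real.exp (-(s / 16) * Y + Y * (s / 32)) := by rw [hexpY]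
  rw [hAe]
  have hpos : 0 ≤ (A : ℝ) * Real.exp (-(s / 16) * Y) := by positivity
  calc (Js.card : ℝ) * (4 * A * Real.exp (-(s / 16) * Y)) ≤
        (2 * Real.log Y + 1) * (4 * A * Real.exp (-(s / 16) * Y)) := by gcongr
    _ = A * Real.exp (-(s / 16) * Y) * ((2 * Real.log Y + 1) * 4) := by ring
    _ ≤ _ := by gcongr

end Pool.Agent.Lib.MP_a260de_nt
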