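import Mathlib

/-!
# MP_a260de_nt: almost all bases satisfy the upper half of Pomerance's conjecture

THEOREM. For every `δ > 0` there is `x₀` such that for all `X ≥ x₀` and all `A` all but at most
`A / (log X) ^ (1/4)` of the integers `a`, `1 < |a| ≤ A`, satisfy `P_a(x) ≤ x ^ (1 - (1 - δ) ep x)`
for all `x` with `X ≤ x ≤ exp (exp ((log A) ^ (1/4)))`, `ep x = log log log x / log log x`.

Notation in the proofs: `y = log x`, `l₂ = log y`, `l₃ = log l₂`, `ep = l₃ / l₂` (so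
`y ^ (t * ep x) = l₂ ^ t`), `η = τ * ep x`, `c = 1 - η`. Every `Stmt...` is proved in a file of its
own, `theorem xxx (h₁ : StmtA) ... : StmtXxx`, the hypotheses being those named under Uses.
-/

set_option autoImplicit false

namespace Pool.Agent.Lib.MP_a260de_nt

/-- `log log log x / log log x`. -/
noncomputable def ep (x : ℝ) : ℝ := Real.log (Real.log (Real.log x)) / Real.log (Real.log x)

/-- The pseudoprimes `n ≤ x` to the base `a`. -/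
def psp (a : ℤ) (x : ℝ) : Set ℕ :=
  {n : ℕ | (n : ℝ) ≤ x ∧ 1 < n ∧ ¬ n.Prime ∧ (a : ZMod n) ^ (n - 1) = 1}

/-- The order of `a` modulo `n` (`0` if `a` is not invertible modulo `n`, `n ≥ 2`). -/
noncomputable def od (a : ℤ) (n : ℕ) : ℕ := orderOf (a : ZMod n)

/-- The primes `p ≤ A` modulo which `a` has a small order. -/
noncomputable def smallP (θ : ℝ) (a : ℤ) (A : ℕ) : Finset ℕ :=
  (Finset.Icc 1 A).filter fun p : ℕ => p.Prime ∧ 0 < od a p ∧ (od a p : ℝ) ≤ (p : ℝ) ^ θ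

/-- Their weighted number. -/
noncomputable def W (θ : ℝ) (a : ℤ) (A : ℕ) : ℝ :=
  ∑ p ∈ smallP θ a A, (p : ℝ) ^ (-1 + (1 - θ) / 2)

/-- **Avg.** The weighted number of the primes with small order is bounded on average.
Uses: nothing.
Proof. Let `s = (1 - θ)/2`. Exchange the sums: for a prime `p ≤ A` the residues `u` modulo `p` with `1 ≤ orderOf u ≤ p ^ θ` are at most
`∑_{d ∣ p - 1, d ≤ p ^ θ} φ(d) ≤ p ^ θ * #(divisors of p - 1)` (`card_orderOf_eq_totient`-type bound in the cyclic group `(ZMod p)ˣ`, or: at most `d` roots of `X ^ d - 1`;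
`orderOf u ∣ p - 1`), and each residue has at most `(2 A + 1)/p + 1 ≤ 4 A / p` representatives in `[-A, A]` (`Int.Ioc_filter_modEq_card`-type or injection). So the sum is at most
`∑_{p ≤ A} p ^ (-1 + s) * (4 A / p) * p ^ θ * τ(p - 1) = 4 A ∑_p p ^ (-1 - s) τ(p - 1)` (as `-1 + s - 1 + θ = -1 - s`), and
`∑_{2 ≤ n ≤ A} n ^ (-1 - s) τ(n - 1) ≤ ∑_{1 ≤ n ≤ A} n ^ (-1 - s) τ(n) ≤ (∑_{1 ≤ k ≤ A} k ^ (-1 - s)) ^ 2 ≤ C` (`n = j k`, `τ(n)` counts the pairs; `Real.summable_nat_rpow`). -/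
def StmtAvg : Prop :=
  ∀ θ : ℝ, 0 < θ → θ < 1 → ∃ C : ℝ, 0 < C ∧ ∀ A : ℕ,
    ∑ a ∈ Finset.Icc (-(A : ℤ)) A, W θ a A ≤ C * A

/-- **Large.** At most `d` primes above `|a|` have order `d`.
Uses: nothing.
Proof. `p ∣ a ^ d - 1` for `p ∈ S` (`pow_orderOf_eq_one`, `ZMod.intCast_zmod_eq_zero_iff_dvd`/`ZMod.intCast_zmod_eq...`), so `∏ p ∈ S, p ∣ |a ^ d - 1| ≠ 0` (`Finset.prod_primes_dvd`), hence
`(A + 1) ^ #S ≤ |a ^ d - 1| ≤ A ^ d + 1 < (A + 1) ^ (d + 1)`. -/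
def StmtLarge : Prop :=
  ∀ (a : ℤ) (A d : ℕ), 2 ≤ |a| → |a| ≤ A → 1 ≤ d → ∀ S : Finset ℕ,
    (∀ p ∈ S, p.Prime ∧ A < p ∧ od a p = d) → S.card ≤ d

/-- **N3.** Sum over the primes `p > L ^ (2 / (1 - θ))` with order at most `L`.
Uses: StmtLarge.
Proof. `s = (1 - θ)/2`, `B = 1/s = 2/(1 - θ) ≥ 3`. If `p ≤ A`: `od ≤ L < p ^ s ≤ p ^ θ` (as `L ^ B < p`, `s ≤ θ`, because `1/3 ≤ θ`), so `p ∈ smallP θ a A` and
`1/p = p ^ (-1 + s) * p ^ (-s) ≤ p ^ (-1 + s) / L` (`p ^ s ≥ L`): total at most `K / L`. If `p > A`: for each `d ≤ L` at most `d ≤ L` primes, each `1/p ≤ L ^ (-B) ≤ L ^ (-3)`: total at most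
`L * L * L ^ (-3) = 1 / L`. -/
def StmtN3 : Prop :=
  ∀ (θ : ℝ), 1 / 3 ≤ θ → θ < 1 → ∀ (a : ℤ) (A : ℕ) (x L K : ℝ), 2 ≤ |a| → |a| ≤ A → 1 ≤ L →
    W θ a A ≤ K →
    ∑ p ∈ (Finset.Icc 1 ⌊x⌋₊).filter (fun p : ℕ => p.Prime ∧ 0 < od a p ∧ (od a p : ℝ) ≤ L ∧
      L ^ (2 / (1 - θ)) < (p : ℝ)), 1 / (p : ℝ) ≤ (K + 1) / L

/-- **PrimeSum.** Sum over the prime divisors of `m`, `log m ≤ y`.
Uses: nothing (import `Pool.Agent.Lib.MP_aa9ae4_nt.Mertens`: `sum_inv_primes_le : ∃ C, 0 < C ∧ ∀ x : ℕ, 2 ≤ x → ∑ p ∈ (Icc 1 x).filter Nat.Prime, 1/p ≤ log (log x + 1) + C`).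
Proof. `q ≤ y`: `q ^ (-σ) = q⁻¹ q ^ (1 - σ) ≤ q⁻¹ y ^ (1 - σ)`, and `log (log y + 1) ≤ log 2 + log (log y)` (`log 3 ≥ 1`). `q > y`: their number `k` satisfies `y ^ k ≤ ∏ q ≤ m`, so `k ≤ log m / log y ≤ y`
and each term is at most `y ^ (-σ)`. -/
def StmtPrimeSum : Prop :=
  ∃ C : ℝ, 0 < C ∧ ∀ y : ℝ, 3 ≤ y → ∀ m : ℕ, 1 ≤ m → Real.log m ≤ y → ∀ σ : ℝ, 0 ≤ σ → σ ≤ 1 →
    ∑ q ∈ m.primeFactors, (q : ℝ) ^ (-σ) ≤ y ^ (1 - σ) * (Real.log (Real.log y) + C)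

/-- **Rankin.** Sum over integers composed of primes of `S`.
Uses: nothing.
Proof. `EulerProduct.summable_and_hasSum_factoredNumbers_prod_filter_prime_geometric` with `f n = n ^ (-c)`: the sum over all `S`-factored numbers is `∏_{p ∈ S} (1 - p ^ (-c))⁻¹`, and
`(1 - t)⁻¹ ≤ exp (4 t)` for `0 ≤ t ≤ 2 ^ (-1/2)` (`1/(1-t) = 1 + t/(1-t) ≤ exp (t/(1-t))`, `1/(1-t) ≤ 4`). -/
def StmtRankin : Prop :=
  ∀ c : ℝ, 1 / 2 ≤ c → ∀ S D : Finset ℕ, (∀ p ∈ S, p.Prime) →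
    (∀ d ∈ D, d ≠ 0 ∧ d.primeFactors ⊆ S) →
    ∑ d ∈ D, (d : ℝ) ^ (-c) ≤ Real.exp (4 * ∑ p ∈ S, (p : ℝ) ^ (-c))

/-- **T2.** Primes modulo which the order is large and divides `m`.
Uses: StmtPrimeSum, StmtRankin.
Proof. `η = τ ep x ∈ (0, 1/2]`, `c = 1 - η`, for large `x`. Let `d ∣ m`; the primes `p ∈ S` with `od a p = d` are of the form `p = k d + 1`, `k ≥ 1` (`orderOf_dvd_card`-type: `d ∣ p - 1`, `ZMod.orderOf_dvd_card_sub_one`),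
`p < d ^ (1/θ)`, so `k ≤ M := d ^ (1/θ - 1)`, and their contribution is at most `∑_{1 ≤ k ≤ M} (k d) ^ (-c) ≤ d ^ (-c) M ^ η / η = d ^ (-(1 - η/θ)) / η`
(`∑_{1 ≤ k ≤ M} k ^ (-c) ≤ M ^ η / η` for real `M ≥ 0`: by induction, `n ^ (-c) ≤ (n ^ η - (n-1) ^ η)/η`, or compare with the integral). So the sum is at most
`(1/η) ∑_{d ∣ m} d ^ (-(1 - η/θ)) ≤ (1/η) exp (4 ∑_{q ∣ m} q ^ (-(1 - η/θ)))` (Rankin with `S = m.primeFactors`, `D = m.divisors`; `1 - η/θ ≥ 1/2` for large `x`) and PrimeSum with `y = log x`: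
`≤ (1/η) exp (4 y ^ (η/θ) (l₃ + C)) = (1/η) exp (4 l₂ ^ (τ/θ) (l₃ + C))`, which is at most `y ^ (1/4) = exp (l₂/4)` for large `x` since `τ/θ < 1` and `1/η = l₂/(τ l₃)`. -/
def StmtT2 : Prop :=
  ∀ τ θ : ℝ, 0 < τ → τ < θ → θ < 1 → ∃ x₀ : ℝ, ∀ x : ℝ, x₀ ≤ x → ∀ (a : ℤ) (m : ℕ), 1 ≤ m →
    (m : ℝ) ≤ x → ∀ S : Finset ℕ,
    (∀ p ∈ S, p.Prime ∧ 0 < od a p ∧ od a p ∣ m ∧ (p : ℝ) ^ θ < od a p) →
    ∑ p ∈ S, (p : ℝ) ^ (-(1 - τ * ep x)) ≤ Real.log x ^ (1 / 4 : ℝ)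

/-- **T3.** Primes above `A`, where `log log x ≤ (log A) ^ (1/4)`.
Uses: StmtLarge, StmtPrimeSum, StmtRankin.
Proof. `η = τ ep x ≤ 1/4`, `c = 1 - η`. Group by `d = od a p ∣ m`; at most `d` primes for each `d` (Large). (a) `d ≤ A ^ (1/4)`: each term is at most `A ^ (-c)`, total at most `A ^ (1/4) A ^ (1/4) A ^ (-c) ≤ 1`.
(b) `d > A ^ (1/4)`: `p = k d + 1` with distinct `k ≥ 1`; the terms with `k ≤ d` contribute at most `d ^ (-c) ∑_{k ≤ d} k ^ (-c) ≤ d ^ (-c) d ^ η / η`, those with `k > d` at most `d * (d * d) ^ (-c)`;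
in total at most `(2/η) d ^ (-1 + 2 η)`. With `κ = ep x / 2`: `∑_{d ∣ m, d > A ^ (1/4)} d ^ (-1 + 2 η) ≤ A ^ (-κ/4) ∑_{d ∣ m} d ^ (-1 + 2 η + κ) ≤ A ^ (-κ/4) exp (4 y ^ (2.5 ep x) (l₃ + C)) = A ^ (-κ/4) exp (4 l₂ ^ 2.5 (l₃ + C))`
(Rankin, PrimeSum with `y = log x`, `2 η + κ ≤ 2.5 ep x ≤ 1/2`), and `A ^ (-κ/4) = exp (-(log A) l₃ / (8 l₂)) ≤ exp (-l₂ ^ 3 l₃ / 8)`, so (b) contributes at most `1` for large `x`. -/
def StmtT3 : Prop :=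
  ∀ τ : ℝ, 0 < τ → τ ≤ 1 → ∃ x₀ : ℝ, ∀ x : ℝ, x₀ ≤ x → ∀ A : ℕ,
    Real.log (Real.log x) ≤ Real.log A ^ (1 / 4 : ℝ) → ∀ (a : ℤ) (m : ℕ), 2 ≤ |a| → |a| ≤ A →
    1 ≤ m → (m : ℝ) ≤ x → ∀ S : Finset ℕ,
    (∀ p ∈ S, p.Prime ∧ A < p ∧ 0 < od a p ∧ od a p ∣ m) →
    ∑ p ∈ S, (p : ℝ) ^ (-(1 - τ * ep x)) ≤ 2

/-- **Count.** The four classes of pseudoprimes.
Uses: nothing.
Proof. Let `n ∈ psp a x`. `a` is invertible modulo `n` (`a ^ (n-1) = 1`, `n ≥ 3` as `n` is composite) and modulo every divisor `d ≥ 2` of `n`, `od a d > 0`, `od a d ∣ n - 1`.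
(1) `n ≤ x/L`: at most `x/L`.
(2) some prime `p ∣ n` has `od a p > L`: `n = p k`, `k > 1`, `p k ≡ 1 (mod od a p)` and `od a p ∣ p - 1`, so `k ≡ 1 (mod od a p)`, `1 < k ≤ x/p`: at most `x/(p * od a p) ≤ x/(p L)` values of `k`; sum over `p ≤ x`: `≤ (x/L) ∑_{n ≤ x} 1/n ≤ (x/L)(1 + log x)`
(`harmonic_floor_le_one_add_log`).
(3) some prime `p ∣ n` has `od a p ≤ L`, `p > L ^ B`: at most `x/p` for each `p`.
(4) Otherwise all primes `p ∣ n` are at most `L ^ B`, `n > x/L`; removing primes one by one from `n` until the number is at most `x/L` gives a divisor `d` of `n`, `x/L ^ (B+1) < d ≤ x/L` (if `x/L < 1`.. then still: the process stops at some divisor `≤ x/L`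
because `x/L ≥ 1`; if `x/L < 1` the claim is trivial since `2 x/L * ...`: see below). For a given `d` with `m = od a d`: `n = d j`, `j ≤ x/d`, `d j ≡ 1 (mod m)` determines `j` modulo `m` (`d` is invertible modulo `m`): at most `1 + x/(d m)` values. Sum over
`d ≤ x/L` (at most `x/L` of them) of `1` and of `x/(d m)`, sorted by `m = od a d ≤ d ≤ x` (`m = 0` does not occur for divisors of `n`).
The hypothesis `L ≤ x` makes `x/L ≥ 1`. -/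
def StmtCount : Prop :=
  ∀ (a : ℤ) (x L B : ℝ), 2 ≤ |a| → 1 ≤ L → L ≤ x → 1 ≤ B →
    ((psp a x).ncard : ℝ) ≤ 2 * (x / L) + x / L * (1 + Real.log x) +
      x * ∑ p ∈ (Finset.Icc 1 ⌊x⌋₊).filter (fun p : ℕ => p.Prime ∧ 0 < od a p ∧ (od a p : ℝ) ≤ L ∧
        L ^ B < (p : ℝ)), 1 / (p : ℝ) +
      x * ∑ m ∈ Finset.Icc 1 ⌊x⌋₊, 1 / (m : ℝ) *
        ∑ d ∈ (Finset.Icc 1 ⌊x⌋₊).filter (fun d : ℕ => x / L ^ (B + 1) < (d : ℝ) ∧ od a d = m),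
          1 / (d : ℝ)

/-- **Final.** The bound for a good base.
Uses: StmtRankin, StmtCount.
Proof. `η = τ ep x`, `c = 1 - η ≥ 1/2`, `L = exp (log x * ep x) ∈ [1, x]`. For `m ≤ x` and `d` in the inner set of Count (with `m = od a d`): `1/d = d ^ (-c) d ^ (-η) ≤ d ^ (-c) (x / L ^ (B+1)) ^ (-η)`, and all primes `p ∣ d` satisfy `0 < od a p`, `od a p ∣ m`
(`ZMod.castHom`, `orderOf_map_dvd`), so with `S` = these primes up to `x` (Rankin) the inner sum is at most `(x / L ^ (B+1)) ^ (-η) exp (4 (log x) ^ (1/2))`. Hence, with `y = log x`, `L = exp (y ep)`, the whole is at most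
`x exp (-y ep) (3 + 2 y) + x (1 + y) exp (-η y + (B + 1) η y ep + 4 y ^ (1/2))` (`∑ 1/m ≤ 1 + log x`), which is at most `x exp (-τ' ep y) = x ^ (1 - τ' ep x)` for large `x`: `y ep → ∞` faster than `y ^ (2/3)`, `ep → 0`. -/
def StmtFinal : Prop :=
  ∀ τ' τ B : ℝ, 0 < τ' → τ' < τ → τ < 1 → 1 ≤ B → ∃ x₀ : ℝ, ∀ x : ℝ, x₀ ≤ x → ∀ a : ℤ,
    2 ≤ |a| →
    (∑ p ∈ (Finset.Icc 1 ⌊x⌋₊).filter (fun p : ℕ => p.Prime ∧ 0 < od a p ∧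
        (od a p : ℝ) ≤ Real.exp (Real.log x * ep x) ∧
        Real.exp (Real.log x * ep x) ^ B < (p : ℝ)), 1 / (p : ℝ) ≤
      Real.log x / Real.exp (Real.log x * ep x)) →
    (∀ m : ℕ, 1 ≤ m → (m : ℝ) ≤ x → ∀ S : Finset ℕ,
      (∀ p ∈ S, p.Prime ∧ 0 < od a p ∧ od a p ∣ m) →
      ∑ p ∈ S, (p : ℝ) ^ (-(1 - τ * ep x)) ≤ Real.log x ^ (1 / 2 : ℝ)) →
    ((psp a x).ncard : ℝ) ≤ x ^ (1 - τ' * ep x)

end Pool.Agent.Lib.MP_a260de_nt
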