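import Mathlib
import Pool.Agent.Lib.MP_a260de_nt.Spec
import Pool.Agent.Lib.MP_aa9ae4_nt.Mertens

/-! The sum of `q ^ (-σ)` over the prime divisors of `m`, `log m ≤ y`. -/

namespace Pool.Agent.Lib.MP_a260de_nt

open Finset

namespace PrimeSumaux

/-- Few prime divisors of `m` exceed `y`. -/
lemma card_large {y : ℝ} (hy : 3 ≤ y) {m : ℕ} (hm : 1 ≤ m) (hmy : Real.log m ≤ y) :
    ((m.primeFactors.filter (fun q : ℕ => ¬ (q : ℝ) ≤ y)).card : ℝ) ≤ y := by
  obtain ⟨T, hT⟩ : ∃ T, T = m.primeFactors.filter (fun q : ℕ => ¬ (q : ℝ) ≤ y) := ⟨_, rfl⟩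
  rw [← hT]
  have hl3 : 1 ≤ Real.log y := by
    have h3 : Real.exp 1 ≤ y := by
      have := Real.exp_one_lt_d9
      linarith
    have := Real.log_le_log (Real.exp_pos 1) h3
    rwa [Real.log_exp] at this
  have h1 : ∏ q ∈ T, (q : ℝ) ≤ m := by
    have h2 : ∏ q ∈ T, q ∣ m := by
      have h3 : ∏ q ∈ T, q ∣ ∏ q ∈ m.primeFactors, q := by
        rw [hT]
        exact Finset.prod_dvd_prod_of_subset _ _ _ (Finset.filter_subset _ _)
      exact h3.trans (Nat.prod_primeFactors_dvd m)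
    have h3 := Nat.le_of_dvd (by omega) h2
    have h4 : ((∏ q ∈ T, q : ℕ) : ℝ) ≤ m := by exact_mod_cast h3
    simpa using h4
  have h2 : ∑ q ∈ T, Real.log (q : ℝ) ≤ Real.log m := by
    rw [← Real.log_prod (s := T) (f := fun q : ℕ => (q : ℝ))]
    · refine Real.log_le_log ?_ h1
      refine Finset.prod_pos ?_
      intro q hq
      rw [hT, Finset.mem_filter] at hq
      have := (Nat.prime_of_mem_primeFactors hq.1).pos
      exact_mod_cast this
    · intro q hq
      rw [hT, Finset.mem_filter] at hq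
      have := (Nat.prime_of_mem_primeFactors hq.1).ne_zero
      exact_mod_cast this
  have h3 : ∑ q ∈ T, (1 : ℝ) ≤ ∑ q ∈ T, Real.log (q : ℝ) := by
    refine Finset.sum_le_sum ?_
    intro q hq
    rw [hT, Finset.mem_filter] at hq
    have h4 : y ≤ (q : ℝ) := le_of_lt (lt_of_not_ge hq.2)
    exact hl3.trans (Real.log_le_log (by linarith) h4)
  have h4 : ∑ q ∈ T, (1 : ℝ) = T.card := by simp
  linarith

end PrimeSumaux

open PrimeSumaux in
theorem primeSum : StmtPrimeSum := by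
  obtain ⟨C₀, hC₀, hC⟩ := MP_aa9ae4_nt.sum_inv_primes_le
  refine ⟨C₀ + Real.log 2 + 1, ?_, ?_⟩
  · have : 0 < Real.log 2 := Real.log_pos (by norm_num)
    linarith
  intro y hy m hm hmy σ hσ0 hσ1
  have hy0 : 0 < y := by linarith
  have hl3 : 1 ≤ Real.log y := by
    have h3 : Real.exp 1 ≤ y := by
      have := Real.exp_one_lt_d9
      linarith
    have := Real.log_le_log (Real.exp_pos 1) h3
    rwa [Real.log_exp] at this
  rw [← Finset.sum_filter_add_sum_filter_not m.primeFactors (fun q : ℕ => (q : ℝ) ≤ y)]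
  have hY : 0 < y ^ (1 - σ) := Real.rpow_pos_of_pos hy0 _
  have hA : ∑ q ∈ m.primeFactors.filter (fun q : ℕ => (q : ℝ) ≤ y), (q : ℝ) ^ (-σ) ≤
      y ^ (1 - σ) * (Real.log 2 + Real.log (Real.log y) + C₀) := by
    have h1 : ∀ q ∈ m.primeFactors.filter (fun q : ℕ => (q : ℝ) ≤ y), (q : ℝ) ^ (-σ) ≤
        y ^ (1 - σ) * (1 / (q : ℝ)) := by
      intro q hq
      rw [Finset.mem_filter] at hq
      have hq0 : (0 : ℝ) < q := by
        have := (Nat.prime_of_mem_primeFactors hq.1).pos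
        exact_mod_cast this
      have h2 : (q : ℝ) ^ (-σ) = (q : ℝ) ^ (1 - σ) * (1 / (q : ℝ)) := by
        rw [one_div, ← Real.rpow_neg_one, ← Real.rpow_add hq0]
        congr 1
        ring
      rw [h2]
      refine mul_le_mul_of_nonneg_right ?_ (by positivity)
      exact Real.rpow_le_rpow hq0.le hq.2 (by linarith)
    refine (Finset.sum_le_sum h1).trans ?_
    rw [← Finset.mul_sum]
    refine mul_le_mul_of_nonneg_left ?_ hY.le
    have hfl : 2 ≤ ⌊y⌋₊ := Nat.le_floor (by push_cast; linarith)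
    have h2 : ∑ q ∈ m.primeFactors.filter (fun q : ℕ => (q : ℝ) ≤ y), (1 / (q : ℝ)) ≤
        ∑ p ∈ (Icc 1 ⌊y⌋₊).filter Nat.Prime, (1 : ℝ) / p := by
      refine Finset.sum_le_sum_of_subset_of_nonneg ?_ ?_
      · intro q hq
        rw [Finset.mem_filter] at hq
        have hp := Nat.prime_of_mem_primeFactors hq.1
        rw [Finset.mem_filter, Finset.mem_Icc]
        exact ⟨⟨hp.one_le, Nat.le_floor hq.2⟩, hp⟩
      · intro q _ _
        positivity
    have h3 := hC ⌊y⌋₊ hfl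
    have h4 : Real.log (Real.log (⌊y⌋₊ : ℝ) + 1) ≤ Real.log 2 + Real.log (Real.log y) := by
      rw [← Real.log_mul (by norm_num) (by linarith)]
      have h5 : (0 : ℝ) < (⌊y⌋₊ : ℝ) := by
        have : 0 < ⌊y⌋₊ := by omega
        exact_mod_cast this
      have h6 : Real.log (⌊y⌋₊ : ℝ) ≤ Real.log y := Real.log_le_log h5 (Nat.floor_le hy0.le)
      have h7 : 0 ≤ Real.log (⌊y⌋₊ : ℝ) := Real.log_natCast_nonneg _
      refine Real.log_le_log (by linarith) (by linarith)
    linarith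
  have hB : ∑ q ∈ m.primeFactors.filter (fun q : ℕ => ¬ (q : ℝ) ≤ y), (q : ℝ) ^ (-σ) ≤
      y ^ (1 - σ) := by
    have h1 : ∀ q ∈ m.primeFactors.filter (fun q : ℕ => ¬ (q : ℝ) ≤ y), (q : ℝ) ^ (-σ) ≤
        y ^ (-σ) := by
      intro q hq
      rw [Finset.mem_filter] at hq
      exact Real.rpow_le_rpow_of_nonpos hy0 (le_of_lt (lt_of_not_ge hq.2)) (by linarith)
    refine (Finset.sum_le_sum h1).trans ?_
    rw [Finset.sum_const, nsmul_eq_mul]
    have h2 : y ^ (1 - σ) = y * y ^ (-σ) := by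
      rw [sub_eq_add_neg, Real.rpow_add hy0, Real.rpow_one]
    rw [h2]
    exact mul_le_mul_of_nonneg_right (card_large hy hm hmy) (Real.rpow_nonneg hy0.le _)
  calc _ ≤ y ^ (1 - σ) * (Real.log 2 + Real.log (Real.log y) + C₀) + y ^ (1 - σ) := add_le_add hA hB
    _ = _ := by ring

end Pool.Agent.Lib.MP_a260de_nt
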