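import Pool.Agent.Lib.MP_a260de_nt.Spec

/-!
# MP_a260de_nt, Rankin: the sum over integers composed of given primes
-/

set_option autoImplicit false

namespace Pool.Agent.Lib.MP_a260de_nt

namespace Rankinaux

/-- `n ↦ n ^ (-c)` as a completely multiplicative function. -/
noncomputable def f (c : ℝ) : ℕ →* ℝ where
  toFun n := (n : ℝ) ^ (-c)
  map_one' := by simp
  map_mul' m n := by
    rw [Nat.cast_mul, Real.mul_rpow (Nat.cast_nonneg _) (Nat.cast_nonneg _)]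

theorem f_apply (c : ℝ) (n : ℕ) : f c n = (n : ℝ) ^ (-c) := rfl

theorem prime_le {c : ℝ} (hc : 1 / 2 ≤ c) {p : ℕ} (hp : p.Prime) : (p : ℝ) ^ (-c) ≤ 3 / 4 := by
  have hp2 : (2 : ℝ) ≤ p := by exact_mod_cast hp.two_le
  have h1 : (p : ℝ) ^ (-c) ≤ (p : ℝ) ^ (-(1 / 2) : ℝ) :=
    Real.rpow_le_rpow_of_exponent_le (by linarith) (by linarith)
  have h2 : (p : ℝ) ^ (-(1 / 2) : ℝ) ≤ (2 : ℝ) ^ (-(1 / 2) : ℝ) :=
    Real.rpow_le_rpow_of_nonpos (by norm_num) hp2 (by norm_num)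
  refine h1.trans (h2.trans ?_)
  have h3 : (2 : ℝ) ^ (-(1 / 2) : ℝ) * (2 : ℝ) ^ (-(1 / 2) : ℝ) = 1 / 2 := by
    rw [← Real.rpow_add (by norm_num)]
    norm_num
  have h4 : 0 ≤ (2 : ℝ) ^ (-(1 / 2) : ℝ) := by positivity
  nlinarith

theorem factor_le {t : ℝ} (h0 : 0 ≤ t) (h1 : t ≤ 3 / 4) : (1 - t)⁻¹ ≤ Real.exp (4 * t) := by
  have hpos : 0 < 1 - t := by linarith
  have h2 : (1 - t)⁻¹ = t / (1 - t) + 1 := by
    field_simp
    ring
  rw [h2]
  refine (Real.add_one_le_exp _).trans (Real.exp_le_exp.mpr ?_)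
  rw [div_le_iff₀ hpos]
  nlinarith

end Rankinaux

open Rankinaux

theorem rankin : StmtRankin := by
  intro c hc S D hS hD
  have hnn : ∀ n : ℕ, 0 ≤ f c n := fun n => Real.rpow_nonneg (Nat.cast_nonneg _) _
  have hlt : ∀ {p : ℕ}, p.Prime → ‖f c p‖ < 1 := by
    intro p hp
    rw [Real.norm_of_nonneg (hnn p)]
    exact (prime_le hc hp).trans_lt (by norm_num)
  have key := (EulerProduct.summable_and_hasSum_factoredNumbers_prod_filter_prime_geometric
    (f := f c) hlt S).2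
  have hmem : ∀ d ∈ D, d ∈ Nat.factoredNumbers S := by
    intro d hd
    obtain ⟨h0, hsub⟩ := hD d hd
    rw [Nat.mem_factoredNumbers]
    refine ⟨h0, fun p hp => hsub ?_⟩
    rw [Nat.mem_primeFactors_iff_mem_primeFactorsList]
    exact hp
  have hsum : ∑ d ∈ D, (d : ℝ) ^ (-c) =
      ∑ x ∈ D.subtype (· ∈ Nat.factoredNumbers S), f c (x : ℕ) := by
    rw [Finset.sum_subtype_of_mem (fun d : ℕ => f c d) hmem]
    rfl
  rw [hsum]
  refine (sum_le_hasSum (f := fun x : Nat.factoredNumbers S => f c (x : ℕ)) _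
    (fun x _ => hnn (x : ℕ)) key).trans ?_
  rw [Finset.filter_true_of_mem hS, Finset.mul_sum, Real.exp_sum]
  apply Finset.prod_le_prod
  · intro p hp
    rw [inv_nonneg]
    have := prime_le hc (hS p hp)
    rw [f_apply]
    linarith
  · intro p hp
    rw [f_apply]
    exact factor_le (Real.rpow_nonneg (Nat.cast_nonneg _) _) (prime_le hc (hS p hp))

end Pool.Agent.Lib.MP_a260de_nt
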