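import Pool.Agent.Lib.MP_a260de_nt.Spec

/-!
# MP_a260de_nt: high moments, power saving for the exceptional bases

THEOREM. For `0 < δ < 1` and large `A` all but at most `A ^ (1 - δ/1024)` of the integers `a`,
`1 < |a| ≤ A`, satisfy `P_a(x) ≤ x ^ (1 - (1 - δ) ep x)` for all `x` with
`exp ((log A) ^ δ) ≤ x ≤ exp (exp ((log A) ^ (1/4)))`.
-/

set_option autoImplicit false

namespace Pool.Agent.Lib.MP_a260de_nt

/-- The number of residues modulo `p` with a small order. -/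
noncomputable def R (θ : ℝ) (p : ℕ) : ℕ :=
  ((Finset.range p).filter fun r : ℕ => 0 < od (r : ℤ) p ∧ (od (r : ℤ) p : ℝ) ≤ (p : ℝ) ^ θ).card

/-- The sum of `w p₁ * ... * w p_k` over the `k`-tuples of distinct elements of `B`. -/
noncomputable def N (w : ℕ → ℝ) : ℕ → Finset ℕ → ℝ
  | 0, _ => 1
  | k + 1, B => ∑ p ∈ B, w p * N w k (B.erase p)

/-- **Crt.** Bases with small order modulo every prime of `Q`.
Uses: nothing.
Proof. `od a q` depends only on `a` modulo `q`, so the condition says that `a % q` is one of `R θ q` residues, for all `q ∈ Q`. With `P = ∏ q ∈ Q, q` the map `a ↦ (a / P, (a % q)_q)` is injective on the integers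
(`a = P (a / P) + a % P` and `a % P` is determined by the `a % q`, `q` distinct primes), and `a / P` takes at most `2 A / P + 2 ≤ 4 A / P` values on `[-A, A]` (`P ≤ A`). (Induction on `Q` is possible too: state it for an arbitrary
arithmetic progression, or for functions `H : ℕ → Finset ℕ` of residues.) -/
def StmtCrt : Prop :=
  ∀ (θ : ℝ) (A : ℕ) (Q : Finset ℕ), (∀ q ∈ Q, q.Prime) → ∏ q ∈ Q, q ≤ A →
    ((((Finset.Icc (-(A : ℤ)) A).filter fun a : ℤ => Q ⊆ smallP θ a A).card : ℕ) : ℝ) ≤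
      4 * A * ∏ q ∈ Q, ((R θ q : ℝ) / q)

/-- **Moment.** The `k`-th moment.
Uses: StmtCrt.
Proof. Put `μ = ∑ p ∈ P, w p * R θ p / p`. Claim, by induction on `k`, for every finite set `Q` of primes with `(∏ q ∈ Q, q) * y ^ k ≤ A`: the sum of `N w k ((smallP θ a A ∩ P) \ Q)` over the `a ∈ [-A, A]` with `Q ⊆ smallP θ a A` is at most
`4 A (∏ q ∈ Q, R θ q / q) μ ^ k`. `k = 0` is Crt. Step: `N w (k+1) B = ∑ p ∈ B, w p * N w k (B.erase p)`; exchange the sums: for `p ∈ P \ Q` the inner sum runs over the `a` with `insert p Q ⊆ smallP θ a A`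
(`p ≤ y`, so `(∏ over insert p Q) * y ^ k ≤ A`). The statement is the case `Q = ∅` (if `A = 0` then `y ^ k ≤ 0` forces `y = 0 < k`, so `P = ∅` and `N w k ∅ = 0`). -/
def StmtMoment : Prop :=
  ∀ (θ : ℝ) (A k y : ℕ) (P : Finset ℕ) (w : ℕ → ℝ), (∀ p, 0 ≤ w p) → (∀ p ∈ P, p.Prime ∧ p ≤ y) →
    y ^ k ≤ A →
    ∑ a ∈ Finset.Icc (-(A : ℤ)) A, N w k (smallP θ a A ∩ P) ≤
      4 * A * (∑ p ∈ P, w p * ((R θ p : ℝ) / p)) ^ k

/-- **Lower.** A large sum gives a large `k`-fold sum.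
Uses: nothing.
Proof. Induction on `k` (for all `B`): `∑ over B.erase p ≥ (∑ over B) - M ≥ t + (k + 1) M - M`, so `N w k (B.erase p) ≥ t ^ k`, `N w (k+1) B ≥ (∑ over B) t ^ k ≥ t ^ (k+1)`. -/
def StmtLower : Prop :=
  ∀ (w : ℕ → ℝ) (M t : ℝ) (k : ℕ) (B : Finset ℕ), 0 ≤ t → 0 ≤ M → (∀ p ∈ B, 0 ≤ w p ∧ w p ≤ M) →
    t + k * M ≤ ∑ p ∈ B, w p → t ^ k ≤ N w k B

/-- **Mean.** The mean over the primes larger than `u`.
Uses: nothing.
Proof. `s = (1 - θ)/2`. `R θ p ≤ p ^ θ τ(p - 1)`: the order of a residue divides `p - 1` and at most `d` residues have order `d`. So the term of `p` is at most `p ^ (-1 + s + θ - 1) τ(p - 1) = p ^ (-1 - s) τ(p - 1) ≤ u ^ (-s/2) p ^ (-1 - s/2) τ(p - 1)`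
and `∑_{n ≥ 2} n ^ (-1 - s/2) τ(n - 1) ≤ (∑_k k ^ (-1 - s/2)) ^ 2` as in Avg (see `Avg.lean` if landed). -/
def StmtMean : Prop :=
  ∀ θ : ℝ, 0 < θ → θ < 1 → ∃ C : ℝ, 0 < C ∧ ∀ (u : ℝ) (P : Finset ℕ), 1 ≤ u →
    (∀ p ∈ P, p.Prime ∧ u < (p : ℝ)) →
    ∑ p ∈ P, (p : ℝ) ^ (-1 + (1 - θ) / 2) * ((R θ p : ℝ) / p) ≤ C * u ^ (-((1 - θ) / 4))

/-- **Power.** Bases with a large weighted number of primes of small order are rare.
Uses: StmtMoment, StmtLower, StmtMean.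
Proof. `s = (1 - θ)/2 ≤ 1/8`, `w p = p ^ (-1 + s)`. For `j ≥ 1` let `u_j = A ^ (1/2^j)`, `P_j` the primes in `(u_j, u_j ^ 2]`, `k = 2 ^ (j-1)` (so `(u_j ^ 2) ^ k = A`; take `y = ⌊u_j ^ 2⌋₊`), `M = u_j ^ (-1 + s)`, `t = u_j ^ (-s/4)`.
Consider the `j` with `u_j ≥ (log A) ^ 2`. Then `k M ≤ t` (`k ≤ log A ≤ u_j ^ (1/2) ≤ u_j ^ (1 - 5 s/4)`), so a base with `∑_{p ∈ smallP ∩ P_j} w p ≥ 2 t` has `N w k ≥ t ^ k` (Lower) and by Moment and Mean there are at most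
`4 A (C u_j ^ (-s/2) / t) ^ k ≤ 4 A (u_j ^ (-s/8)) ^ k = 4 A ^ (1 - s/16)` of them (`C u_j ^ (-s/4) ≤ u_j ^ (-s/8)` for large `A`). There are at most `2 log A` such `j`. The other bases have
`W ≤ ∑_{p ≤ (log A) ^ 4} p ^ (-1+s) + 2 · 2 log log A`-ish `≤ (log A) ^ (5 s)` for large `A` (`∑_{n ≤ z} n ^ (-1+s) ≤ z ^ s / s`; the number of `j` is at most `2 log log A + 1` because `2 ^ j ≤ log A / log u_j`). -/
def StmtPower : Prop :=
  ∀ θ : ℝ, 3 / 4 ≤ θ → θ < 1 → ∃ A₀ : ℕ, ∀ A : ℕ, A₀ ≤ A →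
    ((((Finset.Icc (-(A : ℤ)) A).filter fun a : ℤ =>
      Real.log A ^ (5 * ((1 - θ) / 2)) < W θ a A).card : ℕ) : ℝ) ≤
      (A : ℝ) ^ (1 - (1 - θ) / 64)

end Pool.Agent.Lib.MP_a260de_nt
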